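import Pool.Agent.Lib.MP_5a68e6_TOR.Defs

/-! Project TOR: definitions for the swindle -/

set_option autoImplicit false

namespace Pool.Agent.TOR

open Set Filter Topology TopologicalSpace Cardinal

/-- the soft cylinder -/
def Soft {X Yb : Type*} (u : Yb → X) (Y : Set Yb) (D : Set (X × X)) : Set (X × Yb × ℝ) :=
  {m | 0 ≤ m.2.2 ∧ (7 / 2 < m.2.2 ∨ (m.2.1 ∈ Y ∧ (u m.2.1, m.1) ∈ D))}

/-- the map from the soft cylinder to `W` -/
noncomputable def softR {X Yb W : Type*} (c : X → X → ℝ → X) (u : Yb → X) (R : Yb → ℝ → W)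
    (i : X → W) (m : X × Yb × ℝ) : W :=
  if m.2.2 ≤ 3 then R m.2.1 m.2.2 else i (c (u m.2.1) m.1 (2 * (m.2.2 - 3)))


/-- strong deformation data: `X` is a strong deformation retract of `W` -/
structure IsStrong {X W : Type*} [TopologicalSpace X] [TopologicalSpace W] (i : X → W) (r : W → X)
    (h : W → ℝ → W) : Prop where
  cont_i : Continuous i
  cont_r : Continuous r
  cont_h : Continuous fun p : W × ℝ => h p.1 p.2
  ri : ∀ x, r (i x) = x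
  of_nonpos : ∀ w t, t ≤ 0 → h w t = w
  of_one_le : ∀ w t, 1 ≤ t → h w t = i (r w)
  fix : ∀ x t, h (i x) t = i x

/-- the swindle space `(s, (w_j), (κ_j))` -/
abbrev Yb (W : Type) : Type := ℝ × (ℕ → W) × (ℕ → ℝ)

section Sw
variable {X W : Type}

/-- the number of the block of `y`: block `n` is `3 n ≤ s⁺ < 3 n + 3` -/
noncomputable def blk (y : Yb W) : ℕ := ⌊max y.1 0 / 3⌋₊
noncomputable def rho (s : ℝ) (n : ℕ) : ℝ := cl (s - 3 * n - 1)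
noncomputable def theta (s : ℝ) (n : ℕ) : ℝ := cl (s - 3 * n - 2)
noncomputable def kap (y : Yb W) (n : ℕ) : ℝ := cl (y.2.2 n)
noncomputable def kapE (y : Yb W) (n : ℕ) : ℝ := max (kap y n) (1 - rho y.1 n)
noncomputable def ccc (y : Yb W) (n : ℕ) (a : ℝ) : ℝ := kap y n * rho y.1 n + a
noncomputable def kapS (y : Yb W) (n : ℕ) (a : ℝ) : ℝ := min (ccc y n a) (kapE y n)
noncomputable def aOne (y : Yb W) (n : ℕ) (a : ℝ) : ℝ := ccc y n a - kapS y n a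
noncomputable def vOne (c : W → W → ℝ → W) (h : W → ℝ → W) (y : Yb W) (n : ℕ) (a : ℝ) : W :=
  c (h (y.2.1 n) (kapS y n a)) (y.2.1 (n + 1)) (theta y.1 n)
/-- formula for `R` in block `n` -/
noncomputable def Rn (c : W → W → ℝ → W) (h : W → ℝ → W) (n : ℕ) (y : Yb W) (a : ℝ) : W :=
  h (vOne c h y n a) (aOne y n a)
/-- formula for `u` in block `n` -/
noncomputable def un (c : W → W → ℝ → W) (h : W → ℝ → W) (r : W → X) (n : ℕ) (y : Yb W) : X :=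
  r (c (h (y.2.1 n) (kapE y n)) (y.2.1 (n + 1)) (theta y.1 n))
noncomputable def RR (c : W → W → ℝ → W) (h : W → ℝ → W) (y : Yb W) (a : ℝ) : W :=
  Rn c h (blk y) y a
noncomputable def uu (c : W → W → ℝ → W) (h : W → ℝ → W) (r : W → X) (y : Yb W) : X :=
  un c h r (blk y) y
/-- the tie condition -/
def YY (h : W → ℝ → W) (D : Set (W × W)) : Set (Yb W) :=
  {y | ∀ n : ℕ, 3 * (n : ℝ) + 2 ≤ y.1 → y.1 ≤ 3 * (n : ℝ) + 3 →
    (h (y.2.1 n) (kap y n), y.2.1 (n + 1)) ∈ D}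
def ycan (w : W) : Yb W := (0, fun _ => w, fun _ => 0)

/-! the four steps of the contraction of `Yb × [0,4]`; `n` is the number of the block of `y` -/

noncomputable def st1w (c : W → W → ℝ → W) (h : W → ℝ → W) (n : ℕ) (y : Yb W) (a τ : ℝ) (m : ℕ) :
    W :=
  if m ≤ n then y.2.1 m else if m = n + 1 then c (y.2.1 m) (vOne c h y n a) τ
    else c (y.2.1 m) (Rn c h n y a) τ
noncomputable def st1k (n : ℕ) (y : Yb W) (a τ : ℝ) (m : ℕ) : ℝ :=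
  if m < n then (1 - cl τ) * y.2.2 m + cl τ * cl (y.2.2 m)
    else if m = n then (1 - cl τ) * y.2.2 m + cl τ * kapS y n a
    else (1 - cl τ) * y.2.2 m + cl τ * cl (aOne y n a - ((m : ℝ) - n) + 1)
noncomputable def st1 (c : W → W → ℝ → W) (h : W → ℝ → W) (n : ℕ) (z : Yb W × ℝ) (τ : ℝ) :
    Yb W × ℝ :=
  ((z.1.1, st1w c h n z.1 z.2 τ, st1k n z.1 z.2 τ),
    z.2 + (kap z.1 n - cl (st1k n z.1 z.2 τ n)) * rho z.1.1 n)
noncomputable def st2s (s τ : ℝ) : ℝ := s + cl τ * (18 + max (-s) 0)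
noncomputable def st2a (n : ℕ) (y : Yb W) (a s' : ℝ) : ℝ :=
  kapS y n a * cl (3 * n + 2 - s') + ∑ j ∈ Finset.Icc (1:ℕ) 6,
    cl (aOne y n a - (j : ℝ) + 1) * cl (3 * ((j : ℝ) - 1) + 2 - (s' - 3 * ((n : ℝ) + 1)))
noncomputable def st2 (c : W → W → ℝ → W) (h : W → ℝ → W) (n : ℕ) (z : Yb W × ℝ) (τ : ℝ) :
    Yb W × ℝ :=
  ((st2s z.1.1 τ, st1w c h n z.1 z.2 1, st1k n z.1 z.2 1), st2a n z.1 z.2 (st2s z.1.1 τ))
noncomputable def st3 (c : W → W → ℝ → W) (h : W → ℝ → W) (n : ℕ) (z : Yb W × ℝ) (τ : ℝ) :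
    Yb W × ℝ :=
  ((max z.1.1 0 + 18, fun m => c (st1w c h n z.1 z.2 1 m) (Rn c h n z.1 z.2) τ,
    fun m => (1 - cl τ) * st1k n z.1 z.2 1 m), 0)
noncomputable def st4 (c : W → W → ℝ → W) (h : W → ℝ → W) (n : ℕ) (z : Yb W × ℝ) (τ : ℝ) :
    Yb W × ℝ :=
  (((1 - cl τ) * (max z.1.1 0 + 18), fun _ => Rn c h n z.1 z.2, fun _ => 0), 0)

/-- The invariant of the contraction. -/
def Inv (c : W → W → ℝ → W) (i : X → W) (h : W → ℝ → W) (r : W → X) (D : Set (W × W))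
    (V₁ : Set (W × W)) (D₁ : Set (X × X)) (z : {z : Yb W × ℝ // 0 ≤ z.2 ∧ z.2 ≤ 4})
    (m : Yb W × ℝ) : Prop :=
  0 ≤ m.2 ∧ (z.1.1 ∈ YY h D → m.1 ∈ YY h D ∧ (RR c h z.1.1 z.1.2, RR c h m.1 m.2) ∈ V₁ ∧
    (2 ≤ z.1.2 → (uu c h r z.1.1, uu c h r m.1) ∈ D₁ ∧
      ∀ a', m.2 ≤ a' → RR c h m.1 a' = i (uu c h r m.1)))

/-- `D` is star shaped and small -/
structure TieOK (c : W → W → ℝ → W) (h : W → ℝ → W) (r : W → X) (D : Set (W × W))
    (V₁ : Set (W × W)) (D₁ : Set (X × X)) : Prop where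
  diag : ∀ p, (p, p) ∈ D
  star : ∀ p q t, (p, q) ∈ D → (p, c p q t) ∈ D
  smallV : ∀ p q, (p, q) ∈ D → ∀ s t a, (h (c p q s) a, h (c p q t) a) ∈ V₁
  smallD : ∀ p q, (p, q) ∈ D → ∀ s t, (r (c p q s), r (c p q t)) ∈ D₁

end Sw

end Pool.Agent.TOR
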