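import Pool.Agent.Lib.MP_5a68e6_TOR.Defs

set_option autoImplicit false

namespace Pool.Agent.TOR

open Set Filter Topology TopologicalSpace Cardinal

section Hot
variable {Z Y : Type*} [TopologicalSpace Z] [TopologicalSpace Y]

theorem HT.refl {S : Z → Y → Prop} {f : Z → Y} (hf : Continuous f) (hS : ∀ z, S z (f z)) :
    HT S f f :=
  ⟨fun z _ => f z, hf.comp continuous_fst, fun _ _ _ => rfl, fun _ _ _ => rfl, fun z _ => hS z⟩

theorem HT.symm {S : Z → Y → Prop} {f g : Z → Y} (h : HT S f g) : HT S g f := by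
  obtain ⟨H, hc, h0, h1, hS⟩ := h
  refine ⟨fun z t => H z (1 - t), ?_, fun z t ht => h1 z _ (by linarith),
    fun z t ht => h0 z _ (by linarith), fun z t => hS z _⟩
  exact hc.comp (continuous_fst.prodMk (continuous_const.sub continuous_snd))

theorem HT.trans {S : Z → Y → Prop} {f g k : Z → Y} (h : HT S f g) (h' : HT S g k) :
    HT S f k := by
  obtain ⟨H, hc, h0, h1, hS⟩ := h
  obtain ⟨H', hc', h0', h1', hS'⟩ := h'
  refine ⟨fun z t => if t ≤ 1 / 2 then H z (2 * t) else H' z (2 * t - 1), ?_, ?_, ?_, ?_⟩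
  · refine Continuous.if_le (f := fun p : Z × ℝ => p.2) (g := fun _ => (1 / 2 : ℝ)) ?_ ?_
      continuous_snd continuous_const ?_
    · exact hc.comp (continuous_fst.prodMk (continuous_const.mul continuous_snd))
    · exact hc'.comp (continuous_fst.prodMk
        ((continuous_const.mul continuous_snd).sub continuous_const))
    · intro p hp
      rw [hp, h1 _ _ (by norm_num), h0' _ _ (by norm_num)]
  · intro z t ht
    have h2 : t ≤ 1 / 2 := by linarith
    show (if t ≤ 1 / 2 then H z (2 * t) else H' z (2 * t - 1)) = f z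
    rw [if_pos h2]
    exact h0 z _ (by linarith)
  · intro z t ht
    have h2 : ¬ t ≤ 1 / 2 := by
      intro h3
      linarith
    show (if t ≤ 1 / 2 then H z (2 * t) else H' z (2 * t - 1)) = k z
    rw [if_neg h2]
    exact h1' z _ (by linarith)
  · intro z t
    show S z (if t ≤ 1 / 2 then H z (2 * t) else H' z (2 * t - 1))
    by_cases ht : t ≤ 1 / 2
    · rw [if_pos ht]
      exact hS z _
    · rw [if_neg ht]
      exact hS' z _

theorem HT.mono {S S' : Z → Y → Prop} {f g : Z → Y} (h : HT S f g)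
    (hS : ∀ z y, S z y → S' z y) : HT S' f g := by
  obtain ⟨H, hc, h0, h1, h2⟩ := h
  exact ⟨H, hc, h0, h1, fun z t => hS _ _ (h2 z t)⟩

theorem HT.continuous_left {S : Z → Y → Prop} {f g : Z → Y} (h : HT S f g) : Continuous f := by
  obtain ⟨H, hc, h0, -, -⟩ := h
  have h1 : f = fun z => H z 0 := funext fun z => (h0 z 0 le_rfl).symm
  rw [h1]
  exact hc.comp (continuous_id.prodMk continuous_const)

theorem HT.continuous_right {S : Z → Y → Prop} {f g : Z → Y} (h : HT S f g) : Continuous g :=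
  h.symm.continuous_left

theorem hot_cl_mem (t : ℝ) : cl t ∈ Set.Icc (0 : ℝ) 1 :=
  ⟨le_min zero_le_one (le_max_left _ _), min_le_left _ _⟩

theorem hot_cl_continuous : Continuous cl :=
  continuous_const.min (continuous_const.max continuous_id)

theorem hot_cl_nonpos {t : ℝ} (ht : t ≤ 0) : cl t = 0 := by
  rw [cl, max_eq_left ht, min_eq_right zero_le_one]

theorem hot_cl_one_le {t : ℝ} (ht : 1 ≤ t) : cl t = 1 := by
  rw [cl, max_eq_right (zero_le_one.trans ht), min_eq_left ht]

/-- a homotopy given only on `[0,1]` -/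
theorem HT.of_Icc {S : Z → Y → Prop} {f g : Z → Y} {H : Z → ℝ → Y}
    (hH : ContinuousOn (fun p : Z × ℝ => H p.1 p.2) (Set.univ ×ˢ Set.Icc 0 1))
    (h0 : ∀ z, H z 0 = f z) (h1 : ∀ z, H z 1 = g z)
    (hS : ∀ z, ∀ t ∈ Set.Icc (0:ℝ) 1, S z (H z t)) : HT S f g := by
  refine ⟨fun z t => H z (cl t), ?_, ?_, ?_, fun z t => hS z _ (hot_cl_mem t)⟩
  · have h2 : Continuous fun p : Z × ℝ => (p.1, cl p.2) :=
      continuous_fst.prodMk (hot_cl_continuous.comp continuous_snd)
    exact hH.comp_continuous h2 fun p => ⟨Set.mem_univ _, hot_cl_mem _⟩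
  · intro z t ht
    simp only [hot_cl_nonpos ht, h0]
  · intro z t ht
    simp only [hot_cl_one_le ht, h1]

/-- precomposition with `k` and postcomposition with `l` -/
theorem HT.comp {Z' Y' : Type*} [TopologicalSpace Z'] [TopologicalSpace Y'] {S : Z → Y → Prop}
    {S' : Z' → Y' → Prop} {f g : Z → Y} (h : HT S f g) {k : Z' → Z} (hk : Continuous k)
    {l : Y → Y'} (hl : ContinuousOn l {y | ∃ z, S z y})
    (hS : ∀ z y, S (k z) y → S' z (l y)) :
    HT S' (fun z => l (f (k z))) (fun z => l (g (k z))) := by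
  obtain ⟨H, hc, h0, h1, h2⟩ := h
  refine ⟨fun z t => l (H (k z) t), ?_, ?_, ?_, fun z t => hS _ _ (h2 _ _)⟩
  · have h3 : Continuous fun p : Z' × ℝ => H (k p.1) p.2 :=
      hc.comp ((hk.comp continuous_fst).prodMk continuous_snd)
    exact hl.comp_continuous h3 fun p => ⟨_, h2 _ _⟩
  · intro z t ht
    simp only [h0 _ _ ht]
  · intro z t ht
    simp only [h1 _ _ ht]

/-- the homotopy along a combing -/
theorem HT.comb {c : Y → Y → ℝ → Y} (hc : IsComb c) {S : Z → Y → Prop} {f g : Z → Y}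
    (hf : Continuous f) (hg : Continuous g) (hS : ∀ z t, S z (c (f z) (g z) t)) : HT S f g := by
  refine ⟨fun z t => c (f z) (g z) t, ?_, fun z t ht => hc.of_nonpos _ _ _ ht,
    fun z t ht => hc.of_one_le _ _ _ ht, hS⟩
  exact hc.cont.comp ((hf.comp continuous_fst).prodMk ((hg.comp continuous_fst).prodMk
    continuous_snd))

end Hot

end Pool.Agent.TOR
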