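import Pool.Agent.Lib.MP_5a68e6_TOR.SZ
import Pool.Agent.Lib.MP_5a68e6_TOR.Hot
import Pool.Agent.Lib.MP_5a68e6_TOR.Defs2

set_option autoImplicit false

namespace Pool.Agent.TOR

open Set Filter Topology TopologicalSpace Cardinal

/-- clamping of the parameter of a combing -/
theorem a1_comb_clamp {X : Type*} [TopologicalSpace X] {c : X → X → ℝ → X} (hc : IsComb c)
    {R : X → Prop} {x y : X} (h : ∀ s ∈ Set.Icc (0:ℝ) 1, R (c x y s)) (s : ℝ) : R (c x y s) := by
  rcases le_total s 0 with hs | hs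
  · have h0 := h 0 ⟨le_rfl, zero_le_one⟩
    rw [hc.of_nonpos x y 0 le_rfl] at h0
    rw [hc.of_nonpos x y s hs]
    exact h0
  · rcases le_total s 1 with hs1 | hs1
    · exact h s ⟨hs, hs1⟩
    · have h0 := h 1 ⟨zero_le_one, le_rfl⟩
      rw [hc.of_one_le x y 1 le_rfl] at h0
      rw [hc.of_one_le x y s hs1]
      exact h0

/-- a small entourage `U1` of `P` -/
theorem a1_ent {P Q : Type} [TopologicalSpace P] [TopologicalSpace Q] {cP : P → P → ℝ → P}
    (hcP : IsComb cP) {φ : P → Q} (hφ : Continuous φ) {U : Set (Q × Q)} (hU : IsEnt U) :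
    ∃ U1 : Set (P × P), IsEnt U1 ∧
      ∀ p p', (p, p') ∈ U1 → ∀ s, (φ p, φ (cP p p' s)) ∈ U := by
  have hT : IsOpen {x : P × P × ℝ | (φ x.1, φ (cP x.1 x.2.1 x.2.2)) ∈ U} := by
    apply hU.isOpen.preimage
    exact (hφ.comp continuous_fst).prodMk (hφ.comp hcP.cont)
  obtain ⟨D, hD, hD'⟩ := exists_ent_tube (isCompact_Icc : IsCompact (Set.Icc (0:ℝ) 1)) hT
    (by
      intro x k _
      change (φ x, φ (cP x x k)) ∈ U
      rw [hcP.diag]
      exact hU.refl _)
  refine ⟨D, hD, fun p p' hpp s => ?_⟩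
  exact a1_comb_clamp hcP (R := fun y => (φ p, φ y) ∈ U) (fun s hs => hD' p p' hpp s hs) s

/-- an extension of the inverse of a closed embedding -/
theorem a1_retr {P Q : Type} [TopologicalSpace P] [TopologicalSpace Q] [MetrizableSpace P]
    (hQ : IsAE Q) {i : Q → P} (hi : IsClosedEmbedding i) :
    ∃ b : P → Q, Continuous b ∧ ∀ q, b (i q) = q := by
  obtain ⟨g, hg, hg'⟩ := hQ P (Set.range i) hi.isClosed_range
    (fun a => hi.isEmbedding.toHomeomorph.symm a) (hi.isEmbedding.toHomeomorph.symm.continuous)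
  refine ⟨g, hg, fun q => ?_⟩
  have h1 := hg' ⟨i q, q, rfl⟩
  rw [h1]
  exact hi.isEmbedding.toHomeomorph.symm_apply_apply q

/-- Urysohn -/
theorem a1_ury {P : Type} [TopologicalSpace P] [MetrizableSpace P] {A N : Set P}
    (hA : IsClosed A) (hN : IsOpen N) (hAN : A ⊆ N) :
    ∃ l : P → ℝ, Continuous l ∧ (∀ p ∈ A, l p = 1) ∧ (∀ p, p ∉ N → l p = 0) ∧
      ∀ p, l p ∈ Set.Icc (0:ℝ) 1 := by
  obtain ⟨f, hf0, hf1, hf⟩ := exists_continuous_zero_one_of_isClosed (s := Nᶜ) (t := A)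
    hN.isClosed_compl hA (by
      rw [Set.disjoint_left]
      intro x hx hxA
      exact hx (hAN hxA))
  refine ⟨f, f.continuous, fun p hp => ?_, fun p hp => ?_, hf⟩
  · simpa using hf1 hp
  · simpa using hf0 hp

/-- the retraction -/
theorem a1_r {P Q : Type} [TopologicalSpace P] [TopologicalSpace Q] [MetrizableSpace P]
    (hQ : IsAE Q) {c : Q → Q → ℝ → Q} (hc : IsComb c) {Us : ℕ → Set (Q × Q)}
    (hUs : EntSeq c Us) {φ : P → Q} (hφ : Continuous φ) {i : Q → P} (hi : IsClosedEmbedding i)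
    (hφi : ∀ q, (q, φ (i q)) ∈ Us 9) :
    ∃ r : P → Q, Continuous r ∧ (∀ q, r (i q) = q) ∧ ∀ p, (φ p, r p) ∈ Us 8 := by
  obtain ⟨b, hb, hbi⟩ := a1_retr hQ hi
  have hN : IsOpen {p | (φ p, b p) ∈ Us 9} := (hUs.ent 9).isOpen.preimage (hφ.prodMk hb)
  obtain ⟨l, hl, hl1, hl0, hl01⟩ := a1_ury hi.isClosed_range hN (by
    rintro _ ⟨q, rfl⟩
    change (φ (i q), b (i q)) ∈ Us 9
    rw [hbi]
    exact (hUs.ent 9).symm _ _ (hφi q))
  refine ⟨fun p => c (φ p) (b p) (l p), ?_, fun q => ?_, fun p => ?_⟩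
  · exact hc.cont.comp (hφ.prodMk (hb.prodMk hl))
  · change c (φ (i q)) (b (i q)) (l (i q)) = q
    rw [hl1 _ ⟨q, rfl⟩, hc.of_one_le _ _ 1 le_rfl, hbi]
  · change (φ p, c (φ p) (b p) (l p)) ∈ Us 8
    by_cases hp : (φ p, b p) ∈ Us 9
    · have h1 := hUs.path hc (n := 8) hp 0 (l p)
      rw [hc.of_nonpos _ _ 0 le_rfl] at h1
      exact h1
    · rw [hl0 p hp, hc.of_nonpos _ _ 0 le_rfl]
      exact (hUs.ent 8).refl _

/-- the first homotopy -/
theorem a1_hom {P Q : Type} [TopologicalSpace P] [TopologicalSpace Q]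
    {cP : P → P → ℝ → P} (hcP : IsComb cP)
    {c : Q → Q → ℝ → Q} (hc : IsComb c) {Us : ℕ → Set (Q × Q)}
    (hUs : EntSeq c Us) {φ : P → Q} (hφ : Continuous φ) {ψ : Q → P} (hψ : Continuous ψ)
    (hφψ : ∀ q, (q, φ (ψ q)) ∈ Us 10)
    (hK : HT (fun p p' => (φ p, φ p') ∈ Us 10) id (ψ ∘ φ)) {i : Q → P} (hi : Continuous i)
    (hψi : ∀ q s, (φ (ψ q), φ (cP (ψ q) (i q) s)) ∈ Us 10)
    {r : P → Q} (hr : Continuous r) (hφr : ∀ p, (φ p, r p) ∈ Us 8) :
    HT (fun p p' => (r p, r p') ∈ Us 4) id (fun p => i (r p)) := by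
  have h1 : HT (fun p p' => (φ p, φ p') ∈ Us 6) id (ψ ∘ φ) :=
    hK.mono (fun p p' h => hUs.mono hc (by norm_num) h)
  have h2 : HT (fun p p' => (φ p, φ p') ∈ Us 6) (ψ ∘ φ) (fun p => ψ (r p)) := by
    refine ⟨fun p t => ψ (c (φ p) (r p) t), ?_, ?_, ?_, ?_⟩
    · exact hψ.comp (hc.cont.comp ((hφ.comp continuous_fst).prodMk
        ((hr.comp continuous_fst).prodMk continuous_snd)))
    · intro p t ht
      change ψ (c (φ p) (r p) t) = ψ (φ p)
      rw [hc.of_nonpos _ _ t ht]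
    · intro p t ht
      change ψ (c (φ p) (r p) t) = ψ (r p)
      rw [hc.of_one_le _ _ t ht]
    · intro p t
      have e1 := hUs.path hc (n := 7) (hφr p) 0 t
      rw [hc.of_nonpos _ _ 0 le_rfl] at e1
      exact hUs.comp hc (n := 6) e1 (hUs.mono hc (by norm_num) (hφψ _))
  have h3 : HT (fun p p' => (φ p, φ p') ∈ Us 6) (fun p => ψ (r p)) (fun p => i (r p)) := by
    refine HT.comb hcP (hψ.comp hr) (hi.comp hr) ?_
    intro p t
    have e1 : (φ p, φ (ψ (r p))) ∈ Us 7 :=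
      hUs.comp hc (n := 7) (hφr p) (hUs.mono hc (by norm_num) (hφψ _))
    exact hUs.comp hc (n := 6) e1 (hUs.mono hc (by norm_num) (hψi (r p) t))
  refine ((h1.trans h2).trans h3).mono ?_
  intro p p' hpp
  have e1 : (r p, φ p') ∈ Us 5 :=
    hUs.comp hc (n := 5) (hUs.mono hc (by norm_num) ((hUs.ent 8).symm _ _ (hφr p))) hpp
  exact hUs.comp hc (n := 4) e1 (hUs.mono hc (by norm_num) (hφr p'))

/-- make it strong -/
theorem a1_strong {P Q : Type} [TopologicalSpace P] [TopologicalSpace Q] [MetrizableSpace P]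
    {cP : P → P → ℝ → P} (hcP : IsComb cP)
    {c : Q → Q → ℝ → Q} (hc : IsComb c) {Us : ℕ → Set (Q × Q)}
    (hUs : EntSeq c Us) {i : Q → P} (hi : IsClosedEmbedding i)
    {r : P → Q} (hr : Continuous r) (hri : ∀ q, r (i q) = q)
    (hh : HT (fun p p' => (r p, r p') ∈ Us 4) id (fun p => i (r p))) :
    HT (fun p p' => (r p, r p') ∈ Us 3 ∧ (p ∈ Set.range i → p' = p)) id (fun p => i (r p)) := by
  obtain ⟨H, hH, hH0, hH1, hHS⟩ := hh
  have hic : Continuous i := hi.continuous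
  have hec : Continuous (fun p => i (r p)) := hic.comp hr
  have hee : ∀ p, p ∈ Set.range i → i (r p) = p := by
    rintro _ ⟨q, rfl⟩
    rw [hri]
  have hHe : Continuous (fun p : P × ℝ => H (i (r p.1)) p.2) :=
    hH.comp ((hec.comp continuous_fst).prodMk continuous_snd)
  -- the neighbourhood
  have hN : ∀ p ∈ Set.range i, ∀ᶠ x in 𝓝 p, ∀ k ∈ (Set.Icc (0:ℝ) 1 ×ˢ Set.Icc (0:ℝ) 1),
      (r (cP (H x k.1) (H (i (r x)) k.1) k.2), r (H x k.1)) ∈ Us 5 := by
    intro p hp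
    refine (isCompact_Icc.prod isCompact_Icc).eventually_forall_of_forall_eventually ?_
    rintro ⟨t, s⟩ _
    have hcont : Continuous (fun z : P × (ℝ × ℝ) =>
        (r (cP (H z.1 z.2.1) (H (i (r z.1)) z.2.1) z.2.2), r (H z.1 z.2.1))) := by
      have c1 : Continuous (fun z : P × (ℝ × ℝ) => H z.1 z.2.1) :=
        hH.comp (continuous_fst.prodMk (continuous_fst.comp continuous_snd))
      have c2 : Continuous (fun z : P × (ℝ × ℝ) => H (i (r z.1)) z.2.1) :=
        hHe.comp (continuous_fst.prodMk (continuous_fst.comp continuous_snd))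
      exact (hr.comp (hcP.cont.comp (c1.prodMk (c2.prodMk
        (continuous_snd.comp continuous_snd))))).prodMk (hr.comp c1)
    refine hcont.continuousAt.eventually ((hUs.ent 5).isOpen.mem_nhds ?_)
    change (r (cP (H p t) (H (i (r p)) t) s), r (H p t)) ∈ Us 5
    rw [hee p hp, hcP.diag]
    exact (hUs.ent 5).refl _
  obtain ⟨l, hl, hl1, hl0, hl01⟩ := a1_ury hi.isClosed_range (N := interior {x | ∀ k ∈ (Set.Icc (0:ℝ) 1 ×ˢ Set.Icc (0:ℝ) 1),
      (r (cP (H x k.1) (H (i (r x)) k.1) k.2), r (H x k.1)) ∈ Us 5}) isOpen_interior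
    (fun p hp => mem_interior_iff_mem_nhds.mpr (hN p hp))
  have ha : Continuous (fun p => 1 - l p) := continuous_const.sub hl
  have ha01 : ∀ p, 1 - l p ∈ Set.Icc (0:ℝ) 1 := fun p => by
    have := hl01 p
    exact ⟨by linarith [this.2], by linarith [this.1]⟩
  have m43 : ∀ {z : Q × Q}, z ∈ Us 4 → z ∈ Us 3 := fun {z} hz => hUs.mono hc (by norm_num) hz
  -- (1)
  have h1 : HT (fun p p' => (r p, r p') ∈ Us 3 ∧ (p ∈ Set.range i → p' = p)) id
      (fun p => H p (1 - l p)) := by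
    refine HT.of_Icc (H := fun p t => H p (t * (1 - l p))) ?_ ?_ ?_ ?_
    · exact (hH.comp (continuous_fst.prodMk
        (continuous_snd.mul (ha.comp continuous_fst)))).continuousOn
    · intro p
      change H p (0 * (1 - l p)) = p
      rw [zero_mul]
      exact hH0 p 0 le_rfl
    · intro p
      change H p (1 * (1 - l p)) = H p (1 - l p)
      rw [one_mul]
    · intro p t _
      refine ⟨m43 (hHS _ _), fun hp => ?_⟩
      change H p (t * (1 - l p)) = p
      rw [hl1 p hp, sub_self, mul_zero]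
      exact hH0 p 0 le_rfl
  -- (2)
  have h2 : HT (fun p p' => (r p, r p') ∈ Us 3 ∧ (p ∈ Set.range i → p' = p))
      (fun p => H p (1 - l p)) (fun p => H (i (r p)) (1 - l p)) := by
    refine HT.comb hcP (hH.comp (continuous_id.prodMk ha))
      (hHe.comp (continuous_id.prodMk ha)) ?_
    intro p t
    refine ⟨?_, fun hp => ?_⟩
    · by_cases hp : p ∈ interior {x | ∀ k ∈ (Set.Icc (0:ℝ) 1 ×ˢ Set.Icc (0:ℝ) 1),
          (r (cP (H x k.1) (H (i (r x)) k.1) k.2), r (H x k.1)) ∈ Us 5}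
      · have hp' := interior_subset hp
        have e2 : (r (cP (H p (1 - l p)) (H (i (r p)) (1 - l p)) t), r (H p (1 - l p))) ∈ Us 5 :=
          a1_comb_clamp hcP (R := fun y => (r y, r (H p (1 - l p))) ∈ Us 5)
            (fun s hs => hp' (1 - l p, s) ⟨ha01 p, hs⟩) t
        have e3 := (hUs.ent 5).symm _ _ e2
        exact hUs.comp hc (n := 3) (hHS p (1 - l p)) (hUs.mono hc (by norm_num) e3)
      · have e1 : H p (1 - l p) = i (r p) := by
          rw [hl0 p hp, sub_zero]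
          exact hH1 p 1 le_rfl
        have e2 : H (i (r p)) (1 - l p) = i (r p) := by
          rw [hl0 p hp, sub_zero, hH1 _ 1 le_rfl]
          change i (r (i (r p))) = i (r p)
          rw [hri]
        change (r p, r (cP (H p (1 - l p)) (H (i (r p)) (1 - l p)) t)) ∈ Us 3
        rw [e1, e2, hcP.diag, hri]
        exact (hUs.ent 3).refl _
    · change cP (H p (1 - l p)) (H (i (r p)) (1 - l p)) t = p
      rw [hee p hp, hcP.diag, hl1 p hp, sub_self]
      exact hH0 p 0 le_rfl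
  -- (3)
  have h3 : HT (fun p p' => (r p, r p') ∈ Us 3 ∧ (p ∈ Set.range i → p' = p))
      (fun p => H (i (r p)) (1 - l p)) (fun p => i (r p)) := by
    refine HT.of_Icc (H := fun p t => H (i (r p)) ((1 - t) * (1 - l p))) ?_ ?_ ?_ ?_
    · exact (hHe.comp (continuous_fst.prodMk
        ((continuous_const.sub continuous_snd).mul (ha.comp continuous_fst)))).continuousOn
    · intro p
      change H (i (r p)) ((1 - 0) * (1 - l p)) = H (i (r p)) (1 - l p)
      rw [sub_zero, one_mul]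
    · intro p
      change H (i (r p)) ((1 - 1) * (1 - l p)) = i (r p)
      rw [sub_self, zero_mul]
      exact hH0 _ 0 le_rfl
    · intro p t _
      refine ⟨?_, fun hp => ?_⟩
      · have e1 : (r (i (r p)), r (H (i (r p)) ((1 - t) * (1 - l p)))) ∈ Us 4 := hHS (i (r p)) ((1 - t) * (1 - l p))
        rw [hri] at e1
        exact m43 e1
      · change H (i (r p)) ((1 - t) * (1 - l p)) = p
        rw [hee p hp, hl1 p hp, sub_self, mul_zero]
        exact hH0 p 0 le_rfl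
  exact (h1.trans h2).trans h3

theorem stepA1 {κ : Cardinal.{0}} (hκ : ℵ₀ ≤ κ) {P Q : Type} [TopologicalSpace P]
    [TopologicalSpace Q] (hP : Good κ P) (hQ : Good κ Q) {c : Q → Q → ℝ → Q} (hc : IsComb c)
    {Us : ℕ → Set (Q × Q)} (hUs : EntSeq c Us) {φ : P → Q} (hφ : IsEqv (Us 10) φ) :
    ∃ (i : Q → P) (r : P → Q) (h : P → ℝ → P), IsStrong i r h ∧
      (∀ p t, (r p, r (h p t)) ∈ Us 0) ∧ ∀ p, (φ p, r p) ∈ Us 0 := by
  obtain ⟨hφc, ψ, hψ, hφψ, hK⟩ := hφ
  obtain ⟨cP, hcP⟩ := hP.comb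
  have := hP.complete
  have := hQ.complete
  obtain ⟨U1, hU1, hU1'⟩ := a1_ent hcP hφc (hUs.ent 10)
  obtain ⟨i, _, hi, hψi, _⟩ := exists_sz hκ hP hQ.dens hψ hU1 (G := fun _ => Set.univ)
    (fun _ => IsEnt.univ)
  have hψi' : ∀ q s, (φ (ψ q), φ (cP (ψ q) (i q) s)) ∈ Us 10 := fun q s => hU1' _ _ (hψi q) s
  have hφi : ∀ q, (q, φ (i q)) ∈ Us 9 := by
    intro q
    have e1 := hψi' q 1
    rw [hcP.of_one_le _ _ 1 le_rfl] at e1
    exact hUs.comp hc (n := 9) (hφψ q) e1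
  obtain ⟨r, hr, hri, hφr⟩ := a1_r hQ.ae hc hUs hφc hi hφi
  have hh := a1_hom hcP hc hUs hφc hψ hφψ hK hi.continuous hψi' hr hφr
  obtain ⟨h, hhc, hh0, hh1, hhS⟩ := a1_strong hcP hc hUs hi hr hri hh
  refine ⟨i, r, h, ⟨hi.continuous, hr, hhc, hri, hh0, hh1, ?_⟩, ?_, ?_⟩
  · intro x t
    exact (hhS (i x) t).2 ⟨x, rfl⟩
  · intro p t
    exact hUs.mono hc (by norm_num) (hhS p t).1
  · intro p
    exact hUs.mono hc (by norm_num) (hφr p)

end Pool.Agent.TOR
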