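import Pool.Agent.Lib.MP_5a68e6_TOR.Defs

set_option autoImplicit false

namespace Pool.Agent.TOR

open Set Filter Topology TopologicalSpace Cardinal

section Ent
variable {X Y : Type*} [TopologicalSpace X] [TopologicalSpace Y]

theorem IsEnt.univ : IsEnt (Set.univ : Set (X × X)) :=
  ⟨isOpen_univ, fun _ => mem_univ _, fun _ _ _ => mem_univ _⟩

theorem IsEnt.inter {U V : Set (X × X)} (hU : IsEnt U) (hV : IsEnt V) : IsEnt (U ∩ V) :=
  ⟨hU.isOpen.inter hV.isOpen, fun x => ⟨hU.refl x, hV.refl x⟩,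
    fun x y h => ⟨hU.symm x y h.1, hV.symm x y h.2⟩⟩

theorem IsEnt.mem_nhds {U : Set (X × X)} (hU : IsEnt U) (x : X) : {y | (x, y) ∈ U} ∈ 𝓝 x := by
  have h : IsOpen {y | (x, y) ∈ U} := hU.isOpen.preimage (by fun_prop : Continuous fun y => (x, y))
  exact h.mem_nhds (hU.refl x)

theorem IsEnt.comap {V : Set (Y × Y)} (hV : IsEnt V) {f : X → Y} (hf : Continuous f) :
    IsEnt {p : X × X | (f p.1, f p.2) ∈ V} := by
  refine ⟨?_, fun x => hV.refl _, fun x y h => hV.symm _ _ h⟩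
  exact hV.isOpen.preimage (by fun_prop : Continuous fun p : X × X => (f p.1, f p.2))

/-- the auxiliary form of the tube lemma -/
theorem ent_tube_open {Z K : Type*} [TopologicalSpace Z] [TopologicalSpace K] {S : Set K}
    (hS : IsCompact S) {T : Set (Z × K)} (hT : IsOpen T) : IsOpen {z : Z | ∀ k ∈ S, (z, k) ∈ T} := by
  rw [isOpen_iff_eventually]
  intro z hz
  refine hS.eventually_forall_of_forall_eventually ?_
  intro k hk
  exact hT.mem_nhds (hz k hk)

/-- a compact parameter -/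
theorem IsEnt.comap_compact {V : Set (Y × Y)} (hV : IsEnt V) {K : Type*} [TopologicalSpace K]
    {F : X → K → Y} (hF : Continuous fun p : X × K => F p.1 p.2) {S : Set K} (hS : IsCompact S) :
    IsEnt {p : X × X | ∀ k ∈ S, (F p.1 k, F p.2 k) ∈ V} := by
  refine ⟨?_, fun x k _ => hV.refl _, fun x y h k hk => hV.symm _ _ (h k hk)⟩
  have h1 : Continuous fun q : (X × X) × K => F q.1.1 q.2 :=
    hF.comp (by fun_prop : Continuous fun q : (X × X) × K => (q.1.1, q.2))
  have h2 : Continuous fun q : (X × X) × K => F q.1.2 q.2 :=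
    hF.comp (by fun_prop : Continuous fun q : (X × X) × K => (q.1.2, q.2))
  exact ent_tube_open hS (hV.isOpen.preimage (h1.prodMk h2))

theorem ent_symmetrize {D₀ : Set (X × X)} (hD : IsOpen D₀) (h : ∀ x, (x, x) ∈ D₀) :
    ∃ D, IsEnt D ∧ D ⊆ D₀ := by
  refine ⟨D₀ ∩ {p | (p.2, p.1) ∈ D₀}, ⟨?_, ?_, ?_⟩, fun p hp => hp.1⟩
  · exact hD.inter (hD.preimage (by fun_prop : Continuous fun p : X × X => (p.2, p.1)))
  · exact fun x => ⟨h x, h x⟩
  · exact fun x y hxy => ⟨hxy.2, hxy.1⟩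

/-- The tube lemma at the diagonal (the general tool for choosing small entourages). -/
theorem exists_ent_tube {K : Type*} [TopologicalSpace K] {S : Set K} (hS : IsCompact S)
    {T : Set (X × X × K)} (hT : IsOpen T) (h : ∀ x, ∀ k ∈ S, (x, x, k) ∈ T) :
    ∃ D : Set (X × X), IsEnt D ∧ ∀ x y, (x, y) ∈ D → ∀ k ∈ S, (x, y, k) ∈ T := by
  have hT' : IsOpen {q : (X × X) × K | (q.1.1, q.1.2, q.2) ∈ T} :=
    hT.preimage (by fun_prop : Continuous fun q : (X × X) × K => (q.1.1, q.1.2, q.2))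
  obtain ⟨D, hD, hsub⟩ := ent_symmetrize (ent_tube_open hS hT') (fun x k hk => h x k hk)
  exact ⟨D, hD, fun x y hxy k hk => hsub hxy k hk⟩

theorem exists_ent_of_local {D₀ : Set (X × X)} (h : ∀ x, ∃ O ∈ 𝓝 x, O ×ˢ O ⊆ D₀) :
    ∃ D, IsEnt D ∧ D ⊆ D₀ := by
  obtain ⟨D, hD, hsub⟩ := ent_symmetrize (D₀ := interior D₀) isOpen_interior (fun x => by
    obtain ⟨O, hO, hsub⟩ := h x
    rw [mem_interior_iff_mem_nhds]
    exact mem_of_superset (prod_mem_nhds hO hO) hsub)
  exact ⟨D, hD, hsub.trans interior_subset⟩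

end Ent

/-- In a metric space a local property is witnessed by a 1-Lipschitz radius. -/
theorem exists_lipschitz_radius {X : Type*} [MetricSpace X] {P : Set X → Prop}
    (hmono : ∀ O O' : Set X, O' ⊆ O → P O → P O') (hloc : ∀ x, ∃ O ∈ 𝓝 x, P O) :
    ∃ r : X → ℝ, (∀ x, 0 < r x ∧ r x ≤ 1) ∧ (∀ x y, r x ≤ r y + dist x y) ∧
      ∀ x, P (Metric.ball x (r x)) := by
  set A : X → Set ℝ := fun x => {e | 0 < e ∧ e ≤ 1 ∧ P (Metric.ball x e)} with hA
  have hbdd : ∀ x, BddAbove (A x) := fun x => ⟨1, fun e he => he.2.1⟩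
  have hne : ∀ x, (A x).Nonempty := by
    intro x
    obtain ⟨O, hO, hP⟩ := hloc x
    obtain ⟨e, he, hsub⟩ := Metric.mem_nhds_iff.1 hO
    refine ⟨min e 1, lt_min he one_pos, min_le_right _ _, hmono _ _ ?_ hP⟩
    exact (Metric.ball_subset_ball (min_le_left _ _)).trans hsub
  have hpos : ∀ x, 0 < sSup (A x) := fun x => by
    obtain ⟨e, he⟩ := hne x
    exact lt_of_lt_of_le he.1 (le_csSup (hbdd x) he)
  have hle : ∀ x, sSup (A x) ≤ 1 := fun x => csSup_le (hne x) fun e he => he.2.1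
  refine ⟨fun x => sSup (A x) / 2, fun x => ⟨?_, ?_⟩, fun x y => ?_, fun x => ?_⟩
  · have := hpos x
    positivity
  · have := hle x
    linarith
  · have key : sSup (A x) ≤ sSup (A y) + dist x y := by
      refine csSup_le (hne x) fun e he => ?_
      by_cases hd : dist x y < e
      · have hmem : e - dist x y ∈ A y := by
          refine ⟨by linarith, ?_, hmono _ _ ?_ he.2.2⟩
          · have := he.2.1
            have := dist_nonneg (x := x) (y := y)
            linarith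
          · refine Metric.ball_subset_ball' ?_
            rw [dist_comm y x]
            linarith
        have := le_csSup (hbdd y) hmem
        linarith
      · have := hpos y
        linarith
    have := dist_nonneg (x := x) (y := y)
    show sSup (A x) / 2 ≤ sSup (A y) / 2 + dist x y
    linarith
  · have h1 : sSup (A x) / 2 < sSup (A x) := by
      have := hpos x
      linarith
    obtain ⟨e, he, hlt⟩ := exists_lt_of_lt_csSup (hne x) h1
    exact hmono _ _ (Metric.ball_subset_ball hlt.le) he.2.2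

/-- entourages of a metric space -/
theorem IsEnt.exists_radius {X : Type*} [MetricSpace X] {U : Set (X × X)} (hU : IsEnt U) :
    ∃ r : X → ℝ, (∀ x, 0 < r x ∧ r x ≤ 1) ∧ (∀ x y, r x ≤ r y + dist x y) ∧
      ∀ x y, dist x y < r x → (x, y) ∈ U := by
  obtain ⟨r, h1, h2, h3⟩ := exists_lipschitz_radius (X := X) (P := fun O => O ×ˢ O ⊆ U)
    (fun O O' h hO => (prod_mono h h).trans hO)
    (fun x => by
      have hx : U ∈ 𝓝 (x, x) := hU.isOpen.mem_nhds (hU.refl x)
      obtain ⟨u, hu, v, hv, huv⟩ := mem_nhds_prod_iff.1 hx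
      exact ⟨u ∩ v, inter_mem hu hv,
        (prod_mono inter_subset_left inter_subset_right).trans huv⟩)
  refine ⟨r, h1, h2, fun x y hxy => h3 x ⟨Metric.mem_ball_self (h1 x).1, ?_⟩⟩
  rw [Metric.mem_ball, dist_comm]
  exact hxy

theorem isEnt_dist {X : Type*} [MetricSpace X] {ε : ℝ} (hε : 0 < ε) :
    IsEnt {p : X × X | dist p.1 p.2 < ε} := by
  refine ⟨isOpen_lt (by fun_prop) continuous_const, fun x => ?_, fun x y h => ?_⟩
  · show dist x x < ε
    rw [dist_self]
    exact hε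
  · show dist y x < ε
    rw [dist_comm]
    exact h

theorem isEnt_radius {X : Type*} [MetricSpace X] {r : X → ℝ} (hr : Continuous r)
    (h0 : ∀ x, 0 < r x) : IsEnt {p : X × X | dist p.1 p.2 < r p.1 ∧ dist p.1 p.2 < r p.2} := by
  refine ⟨?_, fun x => ?_, fun x y h => ?_⟩
  · have hd : Continuous fun p : X × X => dist p.1 p.2 := by fun_prop
    exact (isOpen_lt hd (hr.comp continuous_fst)).inter (isOpen_lt hd (hr.comp continuous_snd))
  · show dist x x < r x ∧ dist x x < r x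
    rw [dist_self]
    exact ⟨h0 x, h0 x⟩
  · show dist y x < r y ∧ dist y x < r x
    rw [dist_comm]
    exact ⟨h.2, h.1⟩

theorem ent_continuous_of_lip {X : Type*} [MetricSpace X] {r : X → ℝ}
    (h : ∀ x y, r x ≤ r y + dist x y) : Continuous r := by
  have : LipschitzWith 1 r := LipschitzWith.of_le_add h
  exact this.continuous

theorem IsEnt.exists_half {X : Type*} [TopologicalSpace X] [MetrizableSpace X]
    {U : Set (X × X)} (hU : IsEnt U) :
    ∃ V, IsEnt V ∧ ∀ x y z, (x, y) ∈ V → (y, z) ∈ V → (x, z) ∈ U := by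
  let _ : MetricSpace X := metrizableSpaceMetric X
  obtain ⟨r, h1, h2, h3⟩ := hU.exists_radius
  have hr : Continuous r := ent_continuous_of_lip h2
  have hr4 : Continuous fun x => r x / 4 := by fun_prop
  refine ⟨_, isEnt_radius hr4 (fun x => by have := (h1 x).1; positivity), ?_⟩
  intro x y z hxy hyz
  have hxy1 : dist x y < r x / 4 := hxy.1
  have hyz1 : dist y z < r y / 4 := hyz.1
  have h4 := h2 y x
  rw [dist_comm y x] at h4
  have h5 := dist_triangle x y z
  have h6 := (h1 x).1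
  exact h3 x z (by linarith)

theorem IsEnt.exists_third {X : Type*} [TopologicalSpace X] [MetrizableSpace X]
    {U : Set (X × X)} (hU : IsEnt U) :
    ∃ V, IsEnt V ∧ ∀ x y z w, (x, y) ∈ V → (y, z) ∈ V → (z, w) ∈ V → (x, w) ∈ U := by
  obtain ⟨V, hV, h⟩ := hU.exists_half
  obtain ⟨W, hW, h'⟩ := hV.exists_half
  refine ⟨W, hW, fun x y z w h1 h2 h3 => h x z w (h' x y z h1 h2) (h' z w w h3 (hW.refl w))⟩

theorem IsEnt.exists_nest {X : Type*} [TopologicalSpace X] [MetrizableSpace X]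
    {c : X → X → ℝ → X} (hc : IsComb c) {U : Set (X × X)} (hU : IsEnt U) :
    ∃ V, IsEnt V ∧ Nest c V U := by
  obtain ⟨U', hU', hhalf⟩ := hU.exists_half
  have hT : IsOpen {p : X × X × ℝ | (p.1, c p.1 p.2.1 p.2.2) ∈ U'} :=
    hU'.isOpen.preimage (continuous_fst.prodMk hc.cont)
  obtain ⟨D, hD, hDT⟩ := exists_ent_tube (S := Icc (0 : ℝ) 1) isCompact_Icc hT
    (fun x t _ => by
      show (x, c x x t) ∈ U'
      rw [hc.diag]
      exact hU'.refl x)
  have hall : ∀ x y, (x, y) ∈ D → ∀ t, (x, c x y t) ∈ U' := by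
    intro x y hxy t
    rcases le_total t 0 with ht | ht
    · have := hDT x y hxy 0 ⟨le_refl _, zero_le_one⟩
      have h' : (x, c x y 0) ∈ U' := this
      rw [hc.of_nonpos x y 0 le_rfl] at h'
      rw [hc.of_nonpos x y t ht]
      exact h'
    · rcases le_total t 1 with ht1 | ht1
      · exact hDT x y hxy t ⟨ht, ht1⟩
      · have := hDT x y hxy 1 ⟨zero_le_one, le_refl _⟩
        have h' : (x, c x y 1) ∈ U' := this
        rw [hc.of_one_le x y 1 le_rfl] at h'
        rw [hc.of_one_le x y t ht1]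
        exact h'
  obtain ⟨V, hV, hVD⟩ := hD.exists_half
  refine ⟨V, hV, fun x y z hxy hyz s t => ?_⟩
  have hxz := hVD x y z hxy hyz
  exact hhalf _ x _ (hU'.symm _ _ (hall x z hxz s)) (hall x z hxz t)

theorem exists_entSeq {X : Type*} [TopologicalSpace X] [MetrizableSpace X]
    {c : X → X → ℝ → X} (hc : IsComb c) {U : Set (X × X)} (hU : IsEnt U) :
    ∃ Us : ℕ → Set (X × X), EntSeq c Us ∧ Us 0 = U := by
  choose F hF1 hF2 using fun V : {V : Set (X × X) // IsEnt V} => V.2.exists_nest hc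
  let G : ℕ → {V : Set (X × X) // IsEnt V} := fun n =>
    Nat.rec ⟨U, hU⟩ (fun _ V => ⟨F V, hF1 V⟩) n
  refine ⟨fun n => (G n).1, ⟨fun n => (G n).2, fun n => ?_⟩, rfl⟩
  exact hF2 (G n)

theorem entSeq_univ {X : Type*} [TopologicalSpace X] (c : X → X → ℝ → X) :
    EntSeq c (fun _ => (Set.univ : Set (X × X))) :=
  ⟨fun _ => IsEnt.univ, fun _ _ _ _ _ _ _ _ => mem_univ _⟩

theorem EntSeq.comp {X : Type*} [TopologicalSpace X] {c : X → X → ℝ → X} (hc : IsComb c)
    {Us : ℕ → Set (X × X)} (h : EntSeq c Us) {n : ℕ} {x y z : X} (h1 : (x, y) ∈ Us (n + 1))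
    (h2 : (y, z) ∈ Us (n + 1)) : (x, z) ∈ Us n := by
  have := h.nest n x y z h1 h2 0 1
  rw [hc.of_nonpos x z 0 le_rfl, hc.of_one_le x z 1 le_rfl] at this
  exact this

theorem EntSeq.mono {X : Type*} [TopologicalSpace X] {c : X → X → ℝ → X} (hc : IsComb c)
    {Us : ℕ → Set (X × X)} (h : EntSeq c Us) {m n : ℕ} (hmn : m ≤ n) : Us n ⊆ Us m := by
  refine antitone_nat_of_succ_le (f := Us) (fun k => ?_) hmn
  rintro ⟨x, y⟩ hxy
  exact h.comp hc hxy ((h.ent (k + 1)).refl y)

theorem EntSeq.path {X : Type*} [TopologicalSpace X] {c : X → X → ℝ → X} (hc : IsComb c)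
    {Us : ℕ → Set (X × X)} (h : EntSeq c Us) {n : ℕ} {x y : X} (h1 : (x, y) ∈ Us (n + 1))
    (s t : ℝ) : (c x y s, c x y t) ∈ Us n :=
  h.nest n x y y h1 ((h.ent (n + 1)).refl y) s t

end Pool.Agent.TOR
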