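import Pool.Agent.Lib.MP_5a68e6_TOR.Defs2
import Pool.Agent.Lib.MP_5a68e6_TOR.Hot
import Pool.Agent.Lib.MP_5a68e6_TOR.Ent

set_option autoImplicit false

namespace Pool.Agent.TOR

open Set Filter Topology TopologicalSpace Cardinal

/-! ### auxiliary facts on `cl` and combings -/

theorem soft_cl_nonneg (t : ℝ) : 0 ≤ cl t := by
  unfold cl; exact le_min zero_le_one (le_max_left _ _)

theorem soft_cl_le_one (t : ℝ) : cl t ≤ 1 := by
  unfold cl; exact min_le_left _ _

theorem soft_cl_of_nonpos {t : ℝ} (h : t ≤ 0) : cl t = 0 := by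
  unfold cl; rw [max_eq_left h]; exact min_eq_right zero_le_one

theorem soft_cl_of_one_le {t : ℝ} (h : 1 ≤ t) : cl t = 1 := by
  unfold cl; rw [max_eq_right (by linarith)]; exact min_eq_left h

theorem soft_cl_cont : Continuous cl := by
  unfold cl; fun_prop

theorem soft_cl_of_mem {t : ℝ} (h0 : 0 ≤ t) (h1 : t ≤ 1) : cl t = t := by
  unfold cl; rw [max_eq_right h0]; exact min_eq_right h1

theorem soft_comb_cl {X : Type*} [TopologicalSpace X] {c : X → X → ℝ → X} (hc : IsComb c)
    (x y : X) (t : ℝ) : c x y (cl t) = c x y t := by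
  rcases le_total t 0 with h | h
  · rw [soft_cl_of_nonpos h, hc.of_nonpos x y t h, hc.of_nonpos x y 0 le_rfl]
  · rcases le_total 1 t with h1 | h1
    · rw [soft_cl_of_one_le h1, hc.of_one_le x y t h1, hc.of_one_le x y 1 le_rfl]
    · rw [soft_cl_of_mem h h1]

/-- a point of the segment from `x` to a point of the segment `x y` -/
theorem soft_comb_comp {X : Type*} [TopologicalSpace X] {c : X → X → ℝ → X} (hc : IsComb c)
    (x y : X) (s t : ℝ) : c x (c x y s) t = c x y (cl s * cl t) := by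
  rw [← soft_comb_cl hc x y s, ← soft_comb_cl hc x _ t]
  exact hc.assoc x y (cl s) (cl t) (soft_cl_nonneg _) (soft_cl_le_one _) (soft_cl_nonneg _)
    (soft_cl_le_one _)

theorem soft_comb_cont {X Z : Type*} [TopologicalSpace X] [TopologicalSpace Z]
    {c : X → X → ℝ → X} (hc : IsComb c) {f g : Z → X} {k : Z → ℝ} (hf : Continuous f)
    (hg : Continuous g) (hk : Continuous k) : Continuous fun z => c (f z) (g z) (k z) :=
  hc.cont.comp (hf.prodMk (hg.prodMk hk))

/-- `l a = 1` for `a ≤ 3` and `0` for `7 / 2 ≤ a` -/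
noncomputable def softL (a : ℝ) : ℝ := cl (7 - 2 * a)

/-- `f a = 0` for `a ≤ 2` and `4` for `3 ≤ a` -/
noncomputable def softF (a : ℝ) : ℝ := 4 * cl (a - 2)

theorem softL_cont : Continuous softL := by
  unfold softL; exact soft_cl_cont.comp (by fun_prop)

theorem softF_cont : Continuous softF := by
  unfold softF; exact continuous_const.mul (soft_cl_cont.comp (by fun_prop))

theorem softL_one {a : ℝ} (h : a ≤ 3) : softL a = 1 := soft_cl_of_one_le (by linarith)

theorem softL_zero {a : ℝ} (h : 7 / 2 ≤ a) : softL a = 0 := soft_cl_of_nonpos (by linarith)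

theorem softF_zero {a : ℝ} (h : a ≤ 2) : softF a = 0 := by
  unfold softF; rw [soft_cl_of_nonpos (by linarith)]; ring

theorem softF_four {a : ℝ} (h : 3 ≤ a) : softF a = 4 := by
  unfold softF; rw [soft_cl_of_one_le (by linarith)]; ring

theorem softF_nonneg (a : ℝ) : 0 ≤ softF a := by
  unfold softF; exact mul_nonneg (by norm_num) (soft_cl_nonneg _)

section
variable {X W Yb : Type} [TopologicalSpace X] [TopologicalSpace W] [TopologicalSpace Yb]

set_option linter.unusedSectionVars false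

/-- first coordinate after the first step -/
noncomputable def softX (cX : X → X → ℝ → X) (u : Yb → X) (m : X × Yb × ℝ) : X :=
  cX m.1 (u m.2.1) (softL m.2.2)

theorem softX_le {cX : X → X → ℝ → X} (hcX : IsComb cX) (u : Yb → X) {m : X × Yb × ℝ}
    (h : m.2.2 ≤ 3) : softX cX u m = u m.2.1 := by
  unfold softX; rw [softL_one h, hcX.of_one_le _ _ _ le_rfl]

theorem softX_ge {cX : X → X → ℝ → X} (hcX : IsComb cX) (u : Yb → X) {m : X × Yb × ℝ}
    (h : 7 / 2 ≤ m.2.2) : softX cX u m = m.1 := by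
  unfold softX; rw [softL_zero h, hcX.of_nonpos _ _ _ le_rfl]

theorem softX_seg {cX : X → X → ℝ → X} (hcX : IsComb cX) (u : Yb → X) (m : X × Yb × ℝ) :
    softX cX u m = cX (u m.2.1) m.1 (1 - softL m.2.2) := by
  unfold softX; exact hcX.symm _ _ _

theorem softR_le {cX : X → X → ℝ → X} {u : Yb → X} {R : Yb → ℝ → W} {i : X → W} {x : X} {y : Yb}
    {a : ℝ} (h : a ≤ 3) : softR cX u R i (x, y, a) = R y a := by
  unfold softR; exact if_pos h

theorem softR_gt {cX : X → X → ℝ → X} {u : Yb → X} {R : Yb → ℝ → W} {i : X → W} {x : X} {y : Yb}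
    {a : ℝ} (h : 3 < a) : softR cX u R i (x, y, a) = i (cX (u y) x (2 * (a - 3))) := by
  unfold softR; exact if_neg (not_le.2 h)

theorem softR_ge {cX : X → X → ℝ → X} (hcX : IsComb cX) {u : Yb → X} {R : Yb → ℝ → W} {i : X → W}
    {x : X} {y : Yb} {a : ℝ} (h : 7 / 2 ≤ a) : softR cX u R i (x, y, a) = i x := by
  rw [softR_gt (by linarith), hcX.of_one_le _ _ _ (by linarith)]

theorem softR_cont {cX : X → X → ℝ → X} (hcX : IsComb cX) {u : Yb → X} (hu : Continuous u)
    {R : Yb → ℝ → W} (hR : Continuous fun p : Yb × ℝ => R p.1 p.2) {i : X → W} (hi : Continuous i)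
    (hRi : ∀ y a, 2 ≤ a → R y a = i (u y)) : Continuous (softR cX u R i) := by
  unfold softR
  refine Continuous.if_le ?_ ?_ (by fun_prop) continuous_const ?_
  · exact hR.comp (f := fun m : X × Yb × ℝ => (m.2.1, m.2.2)) (by fun_prop)
  · refine hi.comp (soft_comb_cont hcX ?_ continuous_fst ?_)
    · exact hu.comp (by fun_prop)
    · fun_prop
  · intro m hm
    rw [hm, hRi _ _ (by norm_num), hcX.of_nonpos _ _ _ (by norm_num)]

end

theorem soft_contract {X W Yb : Type} [TopologicalSpace X] [TopologicalSpace W]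
    [TopologicalSpace Yb] {cX : X → X → ℝ → X} (hcX : IsComb cX) {cW : W → W → ℝ → W}
    (hcW : IsComb cW) {i : X → W} {r : W → X} {h : W → ℝ → W} (hs : IsStrong i r h)
    {u : Yb → X} (hu : Continuous u) {R : Yb → ℝ → W}
    (hR : Continuous fun p : Yb × ℝ => R p.1 p.2) {ycan : W → Yb} (hycan : Continuous ycan)
    {Y : Set Yb} (hycanY : ∀ w, ycan w ∈ Y) (hRcan : ∀ w a, 0 ≤ a → R (ycan w) a = h w a)
    (hucan : ∀ w, u (ycan w) = r w) (hRi : ∀ y a, 2 ≤ a → R y a = i (u y))
    {D : Set (X × X)} (hDr : ∀ x, (x, x) ∈ D) (hDstar : ∀ p q t, (p, q) ∈ D → (p, cX p q t) ∈ D)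
    {Us : ℕ → Set (X × X)} (hUs : EntSeq cX Us) (hDU : D ⊆ Us 3)
    {V : Set (W × W)} {V₁ : Set (W × W)} (hV₁ : IsEnt V₁)
    (hVV : ∀ x₀ x₁ x₂ x₃ x₄, (x₀, x₁) ∈ V₁ → (x₁, x₂) ∈ V₁ → (x₂, x₃) ∈ V₁ →
      (x₃, x₄) ∈ V₁ → (x₀, x₄) ∈ V)
    (hiV : ∀ x x', (x, x') ∈ Us 0 → (i x, i x') ∈ V₁)
    {D₁ : Set (X × X)} (hD₁ : IsEnt D₁) (hD₁U : D₁ ⊆ Us 3)
    (hD₁D : ∀ x x', (x, x') ∈ D₁ → ∀ t, (x', cX x' x t) ∈ D)
    (hcon : HT (fun (z : {z : Yb × ℝ // 0 ≤ z.2 ∧ z.2 ≤ 4}) (m : Yb × ℝ) =>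
        0 ≤ m.2 ∧ (z.1.1 ∈ Y → m.1 ∈ Y ∧ (R z.1.1 z.1.2, R m.1 m.2) ∈ V₁ ∧
          (2 ≤ z.1.2 → (u z.1.1, u m.1) ∈ D₁ ∧ ∀ a', m.2 ≤ a' → R m.1 a' = i (u m.1))))
      (fun z => z.1) (fun z => (ycan (R z.1.1 z.1.2), 0))) :
    HT (fun (z : {m : X × Yb × ℝ // m ∈ Soft u Y D ∧ m.2.2 ≤ 4}) (m : X × Yb × ℝ) =>
        m ∈ Soft u Y D ∧ (softR cX u R i z.1, softR cX u R i m) ∈ V)
      (fun z => z.1)
      (fun z => (r (softR cX u R i z.1), ycan (softR cX u R i z.1), 0)) := by
  -- everything is `V₁`-small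
  refine HT.mono (S := fun (z : {m : X × Yb × ℝ // m ∈ Soft u Y D ∧ m.2.2 ≤ 4})
      (m : X × Yb × ℝ) => m ∈ Soft u Y D ∧ (softR cX u R i z.1, softR cX u R i m) ∈ V₁) ?_ ?_
  swap
  · rintro z m ⟨h1, h2⟩
    exact ⟨h1, hVV _ _ _ _ _ h2 (hV₁.refl _) (hV₁.refl _) (hV₁.refl _)⟩
  set Z := {m : X × Yb × ℝ // m ∈ Soft u Y D ∧ m.2.2 ≤ 4} with hZ
  set sR := softR cX u R i with hsR
  -- the segments of `D`
  have h01 : Us 2 ⊆ Us 0 := hUs.mono hcX (by norm_num)
  have h02 : Us 1 ⊆ Us 0 := hUs.mono hcX (by norm_num)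
  have h03 : Us 3 ⊆ Us 0 := hUs.mono hcX (by norm_num)
  have seg2 : ∀ p q, (p, q) ∈ D → ∀ s t, (cX p q s, cX p q t) ∈ Us 2 := fun p q hpq s t =>
    hUs.path hcX (n := 2) (hDU hpq) s t
  have seg : ∀ p q, (p, q) ∈ D → ∀ s t, (i (cX p q s), i (cX p q t)) ∈ V₁ :=
    fun p q hpq s t => hiV _ _ (h01 (seg2 p q hpq s t))
  -- coordinates
  have cx : Continuous fun z : Z => z.1.1 := by fun_prop
  have cy : Continuous fun z : Z => z.1.2.1 := by fun_prop
  have ca : Continuous fun z : Z => z.1.2.2 := by fun_prop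
  have cuy : Continuous fun z : Z => u z.1.2.1 := hu.comp cy
  have csR : Continuous sR := softR_cont hcX hu hR hs.cont_i hRi
  have cw' : Continuous fun z : Z => sR z.1 := csR.comp continuous_subtype_val
  have cw0 : Continuous fun z : Z => R z.1.2.1 z.1.2.2 :=
    hR.comp (f := fun z : Z => (z.1.2.1, z.1.2.2)) (by fun_prop)
  have cx1 : Continuous fun z : Z => softX cX u z.1 :=
    soft_comb_cont hcX cx cuy (softL_cont.comp ca)
  have cF : Continuous fun z : Z => softF z.1.2.2 := softF_cont.comp ca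
  have cC : Continuous fun z : Z => cl (z.1.2.2 - 2) := soft_cl_cont.comp (by fun_prop)
  -- facts on points
  have ha0 : ∀ z : Z, 0 ≤ z.1.2.2 := fun z => z.2.1.1
  have ha4 : ∀ z : Z, z.1.2.2 ≤ 4 := fun z => z.2.2
  have hD : ∀ z : Z, z.1.2.2 ≤ 7 / 2 → z.1.2.1 ∈ Y ∧ (u z.1.2.1, z.1.1) ∈ D := by
    intro z hz
    rcases z.2.1.2 with h1 | h1
    · exact absurd h1 (not_lt.2 hz)
    · exact h1
  have sRle : ∀ z : Z, z.1.2.2 ≤ 3 → sR z.1 = R z.1.2.1 z.1.2.2 := fun z hz => softR_le hz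
  have sRgt : ∀ z : Z, 3 < z.1.2.2 → sR z.1 = i (cX (u z.1.2.1) z.1.1 (2 * (z.1.2.2 - 3))) :=
    fun z hz => softR_gt hz
  -- the value `i x₁` is close
  have val1 : ∀ z : Z, 3 < z.1.2.2 → (sR z.1, i (softX cX u z.1)) ∈ V₁ := by
    intro z hz
    rcases le_or_gt z.1.2.2 (7 / 2) with h1 | h1
    · rw [sRgt z hz, softX_seg hcX]
      exact seg _ _ (hD z h1).2 _ _
    · rw [sRgt z hz, softX_ge hcX u h1.le, hcX.of_one_le _ _ _ (by linarith)]
      exact hV₁.refl _
  -- step 1
  have H1 : HT (fun (z : Z) (m : X × Yb × ℝ) => m ∈ Soft u Y D ∧ (sR z.1, sR m) ∈ V₁)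
      (fun z => z.1) (fun z => (softX cX u z.1, z.1.2.1, z.1.2.2)) := by
    refine HT.of_Icc (H := fun z t => (cX z.1.1 (u z.1.2.1) (t * softL z.1.2.2), z.1.2.1,
      z.1.2.2)) ?_ ?_ ?_ ?_
    · refine Continuous.continuousOn (Continuous.prodMk ?_ ?_)
      · exact soft_comb_cont hcX (cx.comp continuous_fst) (cuy.comp continuous_fst)
          (continuous_snd.mul ((softL_cont.comp ca).comp continuous_fst))
      · exact (cy.comp continuous_fst).prodMk (ca.comp continuous_fst)
    · intro z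
      simp only [zero_mul]
      rw [hcX.of_nonpos _ _ _ le_rfl]
    · intro z
      simp only [one_mul]
      rfl
    · intro z t ht
      have e1 : cX z.1.1 (u z.1.2.1) (t * softL z.1.2.2) =
          cX (u z.1.2.1) z.1.1 (1 - t * softL z.1.2.2) := hcX.symm _ _ _
      refine ⟨⟨ha0 z, ?_⟩, ?_⟩
      · rcases le_or_gt z.1.2.2 (7 / 2) with h1 | h1
        · right
          refine ⟨(hD z h1).1, ?_⟩
          simp only [e1]
          exact hDstar _ _ _ (hD z h1).2
        · left; exact h1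
      · rcases le_or_gt z.1.2.2 3 with h1 | h1
        · rw [sRle z h1]
          simp only [hsR]
          rw [softR_le h1]
          exact hV₁.refl _
        · rw [sRgt z h1]
          simp only [hsR]
          rw [softR_gt h1]
          rcases le_or_gt z.1.2.2 (7 / 2) with h2 | h2
          · rw [e1, soft_comb_comp hcX]
            exact seg _ _ (hD z h2).2 _ _
          · rw [softL_zero h2.le, mul_zero, hcX.of_nonpos z.1.1 _ _ le_rfl]
            exact hV₁.refl _
  -- step 2
  have H2 : HT (fun (z : Z) (m : X × Yb × ℝ) => m ∈ Soft u Y D ∧ (sR z.1, sR m) ∈ V₁)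
      (fun z => (softX cX u z.1, z.1.2.1, z.1.2.2))
      (fun z => (softX cX u z.1, z.1.2.1, max z.1.2.2 (softF z.1.2.2))) := by
    refine HT.of_Icc (H := fun z t => (softX cX u z.1, z.1.2.1,
      max z.1.2.2 (t * softF z.1.2.2))) ?_ ?_ ?_ ?_
    · refine Continuous.continuousOn (Continuous.prodMk (cx1.comp continuous_fst)
        ((cy.comp continuous_fst).prodMk ?_))
      exact (ca.comp continuous_fst).max (continuous_snd.mul (cF.comp continuous_fst))
    · intro z
      simp only [zero_mul]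
      rw [max_eq_left (ha0 z)]
    · intro z
      simp only [one_mul]
    · intro z t ht
      have hle : z.1.2.2 ≤ max z.1.2.2 (t * softF z.1.2.2) := le_max_left _ _
      refine ⟨⟨(ha0 z).trans hle, ?_⟩, ?_⟩
      · rcases le_or_gt (max z.1.2.2 (t * softF z.1.2.2)) (7 / 2) with h1 | h1
        · right
          have h2 := hD z (hle.trans h1)
          refine ⟨h2.1, ?_⟩
          simp only [softX_seg hcX]
          exact hDstar _ _ _ h2.2
        · left; exact h1
      · rcases le_or_gt z.1.2.2 2 with h1 | h1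
        · rw [softF_zero h1, mul_zero, max_eq_left (ha0 z), sRle z (by linarith)]
          simp only [hsR]
          rw [softR_le (by linarith)]
          exact hV₁.refl _
        · rcases le_or_gt z.1.2.2 3 with h2 | h2
          · rw [sRle z h2, hRi _ _ h1.le, softX_le hcX u h2]
            simp only [hsR]
            rcases le_or_gt (max z.1.2.2 (t * softF z.1.2.2)) 3 with h3 | h3
            · rw [softR_le h3, hRi _ _ (h1.le.trans hle)]
              exact hV₁.refl _
            · rw [softR_gt h3, hcX.diag]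
              exact hV₁.refl _
          · have h3 : 3 < max z.1.2.2 (t * softF z.1.2.2) := h2.trans_le hle
            rcases le_or_gt z.1.2.2 (7 / 2) with h4 | h4
            · rw [sRgt z h2]
              simp only [hsR]
              rw [softR_gt h3, softX_seg hcX, soft_comb_comp hcX]
              exact seg _ _ (hD z h4).2 _ _
            · have h5 := val1 z h2
              simp only [hsR] at h5 ⊢
              rw [softR_ge hcX (h4.le.trans hle)]
              exact h5
  -- step 3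
  obtain ⟨K, cK, K0, K1, hK⟩ := hcon
  have hk0 : ∀ z : Z, 0 ≤ ((z.1.2.1, z.1.2.2) : Yb × ℝ).2 ∧
      ((z.1.2.1, z.1.2.2) : Yb × ℝ).2 ≤ 4 := fun z => ⟨ha0 z, ha4 z⟩
  set k : Z → {z : Yb × ℝ // 0 ≤ z.2 ∧ z.2 ≤ 4} := fun z => ⟨(z.1.2.1, z.1.2.2), hk0 z⟩ with hk
  have ck : Continuous k := Continuous.subtype_mk (cy.prodMk ca) _
  have cK' : Continuous fun p : Z × ℝ => K (k p.1) p.2 :=
    cK.comp (f := fun p : Z × ℝ => (k p.1, p.2)) ((ck.comp continuous_fst).prodMk continuous_snd)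
  have H3S : ∀ (z : Z) (t : ℝ),
      ((cX (u (K (k z) t).1) (softX cX u z.1) (cl (z.1.2.2 - 2)), (K (k z) t).1,
        max (K (k z) t).2 (softF z.1.2.2)) : X × Yb × ℝ) ∈ Soft u Y D ∧
      (sR z.1, sR (cX (u (K (k z) t).1) (softX cX u z.1) (cl (z.1.2.2 - 2)), (K (k z) t).1,
        max (K (k z) t).2 (softF z.1.2.2))) ∈ V₁ := by
    intro z t
    obtain ⟨hα, hY⟩ := hK (k z) t
    have hY' : z.1.2.1 ∈ Y → (K (k z) t).1 ∈ Y ∧
        (R z.1.2.1 z.1.2.2, R (K (k z) t).1 (K (k z) t).2) ∈ V₁ ∧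
        (2 ≤ z.1.2.2 → (u z.1.2.1, u (K (k z) t).1) ∈ D₁ ∧
          ∀ a', (K (k z) t).2 ≤ a' → R (K (k z) t).1 a' = i (u (K (k z) t).1)) := hY
    generalize hyt : (K (k z) t).1 = yt at hY' ⊢
    generalize hαt : (K (k z) t).2 = αt at hY' hα ⊢
    have hmax : αt ≤ max αt (softF z.1.2.2) := le_max_left _ _
    rcases le_or_gt z.1.2.2 2 with h1 | h1
    · -- `a ≤ 2`
      have h2 := hD z (by linarith)
      obtain ⟨y1, y2, -⟩ := hY' h2.1
      rw [softF_zero h1, max_eq_left hα, soft_cl_of_nonpos (by linarith),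
        hcX.of_nonpos _ _ _ le_rfl]
      refine ⟨⟨hα, Or.inr ⟨y1, hDr _⟩⟩, ?_⟩
      rw [sRle z (by linarith)]
      simp only [hsR]
      rcases le_or_gt αt 3 with h3 | h3
      · rw [softR_le h3]; exact y2
      · rw [softR_gt h3, hcX.diag, ← hRi yt αt (by linarith)]; exact y2
    · rcases le_or_gt z.1.2.2 3 with h2 | h2
      · -- `2 < a ≤ 3`
        have h3 := hD z (by linarith)
        obtain ⟨y1, y2, y3⟩ := hY' h3.1
        obtain ⟨y4, y5⟩ := y3 h1.le
        rw [softX_le hcX u h2]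
        refine ⟨⟨hα.trans hmax, Or.inr ⟨y1, hD₁D _ _ y4 _⟩⟩, ?_⟩
        rw [sRle z h2, hRi _ _ h1.le]
        simp only [hsR]
        rcases le_or_gt (max αt (softF z.1.2.2)) 3 with h4 | h4
        · rw [softR_le h4, y5 _ hmax]
          exact hiV _ _ (h03 (hD₁U y4))
        · rw [softR_gt h4, soft_comb_comp hcX]
          have h5 : (u yt, u z.1.2.1) ∈ Us 3 := (hUs.ent 3).symm _ _ (hD₁U y4)
          have h6 := hUs.path hcX (n := 2) h5 1 (cl (cl (z.1.2.2 - 2)) *
            cl (2 * (max αt (softF z.1.2.2) - 3)))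
          rw [hcX.of_one_le _ _ _ le_rfl] at h6
          exact hiV _ _ (h01 h6)
      · -- `3 < a`
        have h4 : (4:ℝ) ≤ max αt (softF z.1.2.2) := by
          rw [softF_four h2.le]; exact le_max_right _ _
        rw [soft_cl_of_one_le (by linarith : (1:ℝ) ≤ z.1.2.2 - 2), hcX.of_one_le _ _ _ le_rfl]
        refine ⟨⟨hα.trans hmax, Or.inl (by simp only; linarith)⟩, ?_⟩
        have e : sR (softX cX u z.1, yt, max αt (softF z.1.2.2)) = i (softX cX u z.1) :=
          softR_ge hcX (by linarith)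
        rw [e]
        exact val1 z h2
  have H3 : HT (fun (z : Z) (m : X × Yb × ℝ) => m ∈ Soft u Y D ∧ (sR z.1, sR m) ∈ V₁)
      (fun z => (softX cX u z.1, z.1.2.1, max z.1.2.2 (softF z.1.2.2)))
      (fun z => (cX (r (R z.1.2.1 z.1.2.2)) (softX cX u z.1) (cl (z.1.2.2 - 2)),
        ycan (R z.1.2.1 z.1.2.2), softF z.1.2.2)) := by
    refine ⟨fun z t => (cX (u (K (k z) t).1) (softX cX u z.1) (cl (z.1.2.2 - 2)), (K (k z) t).1,
        max (K (k z) t).2 (softF z.1.2.2)), ?_, ?_, ?_, H3S⟩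
    · refine Continuous.prodMk (soft_comb_cont hcX (hu.comp cK'.fst) (cx1.comp continuous_fst)
        (cC.comp continuous_fst)) (cK'.fst.prodMk (cK'.snd.max (cF.comp continuous_fst)))
    · intro z t ht
      have e : K (k z) t = (z.1.2.1, z.1.2.2) := K0 (k z) t ht
      simp only [e]
      have e2 : cX (u z.1.2.1) (softX cX u z.1) (cl (z.1.2.2 - 2)) = softX cX u z.1 := by
        rcases le_or_gt z.1.2.2 3 with h2 | h2
        · rw [softX_le hcX u h2, hcX.diag]
        · rw [soft_cl_of_one_le (by linarith : (1:ℝ) ≤ z.1.2.2 - 2), hcX.of_one_le _ _ _ le_rfl]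
      rw [e2]
    · intro z t ht
      have e : K (k z) t = (ycan (R z.1.2.1 z.1.2.2), 0) := K1 (k z) t ht
      simp only [e]
      rw [hucan, max_eq_right (softF_nonneg _)]
  -- the end of step 3
  have E3 : ∀ z : Z, ((cX (r (R z.1.2.1 z.1.2.2)) (softX cX u z.1) (cl (z.1.2.2 - 2)),
        ycan (R z.1.2.1 z.1.2.2), softF z.1.2.2) : X × Yb × ℝ) ∈ Soft u Y D ∧
      (sR z.1, sR (cX (r (R z.1.2.1 z.1.2.2)) (softX cX u z.1) (cl (z.1.2.2 - 2)),
        ycan (R z.1.2.1 z.1.2.2), softF z.1.2.2)) ∈ V₁ := by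
    intro z
    have h1 := H3S z 1
    have e : K (k z) 1 = (ycan (R z.1.2.1 z.1.2.2), 0) := K1 (k z) 1 le_rfl
    simp only [e] at h1
    rw [hucan, max_eq_right (softF_nonneg _)] at h1
    exact h1
  -- step 4
  have H4 : HT (fun (z : Z) (m : X × Yb × ℝ) => m ∈ Soft u Y D ∧ (sR z.1, sR m) ∈ V₁)
      (fun z => (cX (r (R z.1.2.1 z.1.2.2)) (softX cX u z.1) (cl (z.1.2.2 - 2)),
        ycan (R z.1.2.1 z.1.2.2), softF z.1.2.2))
      (fun z => (cX (r (sR z.1)) (softX cX u z.1) (cl (z.1.2.2 - 2)), ycan (sR z.1),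
        softF z.1.2.2)) := by
    refine ⟨fun z t => (cX (r (cW (R z.1.2.1 z.1.2.2) (sR z.1) t)) (softX cX u z.1)
        (cl (z.1.2.2 - 2)), ycan (cW (R z.1.2.1 z.1.2.2) (sR z.1) t), softF z.1.2.2),
        ?_, ?_, ?_, ?_⟩
    · have c1 : Continuous fun p : Z × ℝ => cW (R p.1.1.2.1 p.1.1.2.2) (sR p.1.1) p.2 :=
        soft_comb_cont hcW (cw0.comp continuous_fst) (cw'.comp continuous_fst) continuous_snd
      exact Continuous.prodMk (soft_comb_cont hcX (hs.cont_r.comp c1) (cx1.comp continuous_fst)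
        (cC.comp continuous_fst)) ((hycan.comp c1).prodMk (cF.comp continuous_fst))
    · intro z t ht
      simp only [hcW.of_nonpos _ _ _ ht]
    · intro z t ht
      simp only [hcW.of_one_le _ _ _ ht]
    · intro z t
      beta_reduce
      rcases le_or_gt z.1.2.2 3 with h2 | h2
      · have e : cW (R z.1.2.1 z.1.2.2) (sR z.1) t = R z.1.2.1 z.1.2.2 := by
          rw [sRle z h2, hcW.diag]
        simp only [e]
        exact E3 z
      · rw [soft_cl_of_one_le (by linarith : (1:ℝ) ≤ z.1.2.2 - 2), hcX.of_one_le _ _ _ le_rfl,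
          softF_four h2.le]
        refine ⟨⟨by norm_num, Or.inl (by norm_num)⟩, ?_⟩
        have e : sR (softX cX u z.1, ycan (cW (R z.1.2.1 z.1.2.2) (sR z.1) t), 4) =
            i (softX cX u z.1) := softR_ge hcX (by norm_num)
        rw [e]
        exact val1 z h2
  -- step 5
  have H5 : HT (fun (z : Z) (m : X × Yb × ℝ) => m ∈ Soft u Y D ∧ (sR z.1, sR m) ∈ V₁)
      (fun z => (cX (r (sR z.1)) (softX cX u z.1) (cl (z.1.2.2 - 2)), ycan (sR z.1),
        softF z.1.2.2))
      (fun z => (r (sR z.1), ycan (sR z.1), softF z.1.2.2)) := by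
    refine ⟨fun z t => (cX (cX (r (sR z.1)) (softX cX u z.1) (cl (z.1.2.2 - 2))) (r (sR z.1)) t,
        ycan (sR z.1), softF z.1.2.2), ?_, ?_, ?_, ?_⟩
    · have c1 : Continuous fun z : Z => r (sR z.1) := hs.cont_r.comp cw'
      have c2 : Continuous fun z : Z => cX (r (sR z.1)) (softX cX u z.1) (cl (z.1.2.2 - 2)) :=
        soft_comb_cont hcX c1 cx1 cC
      exact Continuous.prodMk (soft_comb_cont hcX (c2.comp continuous_fst)
        (c1.comp continuous_fst) continuous_snd) (((hycan.comp cw').comp continuous_fst).prodMk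
          (cF.comp continuous_fst))
    · intro z t ht
      simp only [hcX.of_nonpos _ _ _ ht]
    · intro z t ht
      simp only [hcX.of_one_le _ _ _ ht]
    · intro z t
      beta_reduce
      rcases le_or_gt z.1.2.2 3 with h2 | h2
      · have e0 : sR z.1 = R z.1.2.1 z.1.2.2 := sRle z h2
        have e : cX (cX (r (sR z.1)) (softX cX u z.1) (cl (z.1.2.2 - 2))) (r (sR z.1)) t =
            cX (r (sR z.1)) (softX cX u z.1) (cl (z.1.2.2 - 2)) := by
          rcases le_or_gt z.1.2.2 2 with h1 | h1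
          · rw [soft_cl_of_nonpos (by linarith : z.1.2.2 - 2 ≤ 0),
              hcX.of_nonpos _ _ 0 le_rfl, hcX.diag]
          · have e1 : r (sR z.1) = softX cX u z.1 := by
              rw [e0, hRi _ _ h1.le, hs.ri, softX_le hcX u h2]
            rw [e1, hcX.diag, hcX.diag]
        rw [e]
        have h3 := E3 z
        rw [← e0] at h3
        exact h3
      · rw [soft_cl_of_one_le (by linarith : (1:ℝ) ≤ z.1.2.2 - 2),
          hcX.of_one_le (r (sR z.1)) _ _ le_rfl, softF_four h2.le]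
        refine ⟨⟨by norm_num, Or.inl (by norm_num)⟩, ?_⟩
        have e2 : sR (cX (softX cX u z.1) (r (sR z.1)) t, ycan (sR z.1), 4) =
            i (cX (softX cX u z.1) (r (sR z.1)) t) := softR_ge hcX (by norm_num)
        rw [e2]
        have e3 := sRgt z h2
        have e4 : r (sR z.1) = cX (u z.1.2.1) z.1.1 (2 * (z.1.2.2 - 3)) := by rw [e3, hs.ri]
        have e5 : sR z.1 = i (r (sR z.1)) := by rw [e4]; exact e3
        rcases le_or_gt z.1.2.2 (7 / 2) with h4 | h4
        · have h6 : (softX cX u z.1, r (sR z.1)) ∈ Us 2 := by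
            rw [e4, softX_seg hcX]
            exact seg2 _ _ (hD z h4).2 _ _
          have h7 := hUs.path hcX (n := 1) h6 1 t
          rw [hcX.of_one_le _ _ _ le_rfl] at h7
          have h8 := hiV _ _ (h02 h7)
          rw [← e5] at h8
          exact h8
        · have e6 : r (sR z.1) = softX cX u z.1 := by
            rw [e4, hcX.of_one_le _ _ _ (by linarith), softX_ge hcX u h4.le]
          have h8 := val1 z h2
          rw [e6, hcX.diag]
          exact h8
  -- step 6
  have H6 : HT (fun (z : Z) (m : X × Yb × ℝ) => m ∈ Soft u Y D ∧ (sR z.1, sR m) ∈ V₁)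
      (fun z => (r (sR z.1), ycan (sR z.1), softF z.1.2.2))
      (fun z => (r (sR z.1), ycan (sR z.1), 0)) := by
    refine HT.of_Icc (H := fun z t => (r (sR z.1), ycan (sR z.1), (1 - t) * softF z.1.2.2))
      ?_ ?_ ?_ ?_
    · have c1 : Continuous fun z : Z => r (sR z.1) := hs.cont_r.comp cw'
      exact (Continuous.prodMk (c1.comp continuous_fst)
        (((hycan.comp cw').comp continuous_fst).prodMk
          ((continuous_const.sub continuous_snd).mul (cF.comp continuous_fst)))).continuousOn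
    · intro z
      simp only [sub_zero, one_mul]
    · intro z
      simp only [sub_self, zero_mul]
    · intro z t ht
      have h0 : 0 ≤ (1 - t) * softF z.1.2.2 :=
        mul_nonneg (by linarith [ht.2]) (softF_nonneg _)
      refine ⟨⟨h0, Or.inr ⟨hycanY _, ?_⟩⟩, ?_⟩
      · simp only [hucan]
        exact hDr _
      · rcases le_or_gt z.1.2.2 2 with h1 | h1
        · rw [softF_zero h1, mul_zero]
          have e : sR (r (sR z.1), ycan (sR z.1), 0) = sR z.1 := by
            simp only [hsR]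
            rw [softR_le (by norm_num), hRcan _ _ le_rfl, hs.of_nonpos _ _ le_rfl]
          rw [e]
          exact hV₁.refl _
        · obtain ⟨q, hq⟩ : ∃ q, sR z.1 = i q := by
            rcases le_or_gt z.1.2.2 3 with h2 | h2
            · exact ⟨_, (sRle z h2).trans (hRi _ _ h1.le)⟩
            · exact ⟨_, sRgt z h2⟩
          have e : sR (r (sR z.1), ycan (sR z.1), (1 - t) * softF z.1.2.2) = sR z.1 := by
            rcases le_or_gt ((1 - t) * softF z.1.2.2) 3 with h3 | h3
            · have e1 : sR (r (sR z.1), ycan (sR z.1), (1 - t) * softF z.1.2.2) =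
                  R (ycan (sR z.1)) ((1 - t) * softF z.1.2.2) := softR_le h3
              rw [e1, hRcan _ _ h0, hq, hs.fix]
            · have e1 : sR (r (sR z.1), ycan (sR z.1), (1 - t) * softF z.1.2.2) =
                  i (cX (u (ycan (sR z.1))) (r (sR z.1))
                    (2 * ((1 - t) * softF z.1.2.2 - 3))) := softR_gt h3
              rw [e1, hucan, hcX.diag, hq, hs.ri]
          rw [e]
          exact hV₁.refl _
  exact ((((H1.trans H2).trans H3).trans H4).trans H5).trans H6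

end Pool.Agent.TOR
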