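import Pool.Agent.Lib.MP_5a68e6_TOR.SwG
import Pool.Agent.Lib.MP_5a68e6_TOR.Hot

set_option autoImplicit false
set_option linter.unusedSectionVars false

namespace Pool.Agent.TOR

open Set Filter Topology TopologicalSpace Cardinal

/-! ### the clamp -/

theorem swb_cl_nonneg (t : ℝ) : 0 ≤ cl t := le_min zero_le_one (le_max_left 0 t)

theorem swb_cl_le_one (t : ℝ) : cl t ≤ 1 := min_le_left _ _

theorem swb_cl_zero {t : ℝ} (h : t ≤ 0) : cl t = 0 := by
  unfold cl
  rw [max_eq_left h, min_eq_right zero_le_one]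

theorem swb_cl_one {t : ℝ} (h : 1 ≤ t) : cl t = 1 := by
  unfold cl
  rw [max_eq_right (zero_le_one.trans h), min_eq_left h]

theorem swb_cl_id {t : ℝ} (h : 0 ≤ t) (h' : t ≤ 1) : cl t = t := by
  unfold cl
  rw [max_eq_right h, min_eq_right h']

theorem swb_cl_cl (t : ℝ) : cl (cl t) = cl t := swb_cl_id (swb_cl_nonneg t) (swb_cl_le_one t)

theorem swb_cl_cases (t : ℝ) : (t ≤ 0 ∧ cl t = 0) ∨ (0 ≤ t ∧ t ≤ 1 ∧ cl t = t) ∨
    (1 ≤ t ∧ cl t = 1) := by
  rcases le_total t 0 with h | h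
  · exact Or.inl ⟨h, swb_cl_zero h⟩
  · rcases le_total t 1 with h' | h'
    · exact Or.inr (Or.inl ⟨h, h', swb_cl_id h h'⟩)
    · exact Or.inr (Or.inr ⟨h', swb_cl_one h'⟩)

theorem swb_cl_sub (t : ℝ) : cl (1 - t) = 1 - cl t := by
  rcases swb_cl_cases t with ⟨h, e⟩ | ⟨h, h', e⟩ | ⟨h, e⟩
  · rw [e, swb_cl_one (by linarith)]; ring
  · rw [e, swb_cl_id (by linarith) (by linarith)]
  · rw [e, swb_cl_zero (by linarith)]; ring

theorem swb_cl_mono {s t : ℝ} (h : s ≤ t) : cl s ≤ cl t :=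
  min_le_min le_rfl (max_le_max le_rfl h)

theorem swb_cl_add (x : ℝ) : cl x + max (x - 1) 0 = max x 0 := by
  rcases swb_cl_cases x with ⟨h, e⟩ | ⟨h, h', e⟩ | ⟨h, e⟩
  · rw [e, max_eq_right (by linarith), max_eq_right h]; ring
  · rw [e, max_eq_right (by linarith), max_eq_left h]; ring
  · rw [e, max_eq_left (by linarith), max_eq_left (by linarith)]; ring

theorem swb_cl_cont : Continuous cl := by
  unfold cl
  fun_prop

/-! ### the sum in `st2a` -/

/-- the value of the sum in the block number `j` -/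
theorem swb_sum (x T : ℝ) (hx : x ≤ 5) (j : ℕ) (hj : 1 ≤ j) (hj' : j ≤ 6)
    (h1 : 3 * ((j : ℝ) - 1) ≤ T) (h2 : T ≤ 3 * ((j : ℝ) - 1) + 3) :
    ∑ i ∈ Finset.Icc (1:ℕ) 6, cl (x - (i : ℝ) + 1) * cl (3 * ((i : ℝ) - 1) + 2 - T) =
      cl (x - j + 1) * (1 - cl (T - 3 * ((j : ℝ) - 1) - 1)) + max (x - j) 0 := by
  have hs : ∀ f : ℕ → ℝ, ∑ i ∈ Finset.Icc (1:ℕ) 6, f i = f 1 + f 2 + f 3 + f 4 + f 5 + f 6 := by
    intro f
    have : Finset.Icc (1:ℕ) 6 = {1, 2, 3, 4, 5, 6} := by decide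
    rw [this]
    simp
    ring
  rw [hs]
  have e0 : ∀ y : ℝ, max y 0 = cl y + max (y - 1) 0 := fun y => (swb_cl_add y).symm
  have e6 : max (x - 6) 0 = 0 := max_eq_right (by linarith)
  have e5 : max (x - 5) 0 = cl (x - 5) := by
    rw [e0, show x - 5 - 1 = x - 6 by ring, e6, add_zero]
  have e4 : max (x - 4) 0 = cl (x - 4) + cl (x - 5) := by
    rw [e0, show x - 4 - 1 = x - 5 by ring, e5]
  have e3 : max (x - 3) 0 = cl (x - 3) + (cl (x - 4) + cl (x - 5)) := by
    rw [e0, show x - 3 - 1 = x - 4 by ring, e4]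
  have e2 : max (x - 2) 0 = cl (x - 2) + (cl (x - 3) + (cl (x - 4) + cl (x - 5))) := by
    rw [e0, show x - 2 - 1 = x - 3 by ring, e3]
  have e1 : max (x - 1) 0 = cl (x - 1) + (cl (x - 2) + (cl (x - 3) + (cl (x - 4) + cl (x - 5)))) := by
    rw [e0, show x - 1 - 1 = x - 2 by ring, e2]
  have hlt : ∀ i : ℕ, i < j → cl (3 * ((i : ℝ) - 1) + 2 - T) = 0 := by
    intro i hi
    have : (i : ℝ) + 1 ≤ j := by exact_mod_cast hi
    exact swb_cl_zero (by linarith)
  have hgt : ∀ i : ℕ, j < i → cl (3 * ((i : ℝ) - 1) + 2 - T) = 1 := by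
    intro i hi
    have : (j : ℝ) + 1 ≤ i := by exact_mod_cast hi
    exact swb_cl_one (by linarith)
  have heq : cl (3 * ((j : ℝ) - 1) + 2 - T) = 1 - cl (T - 3 * ((j : ℝ) - 1) - 1) := by
    rw [← swb_cl_sub]
    congr 1
    ring
  have b1 : cl (x - ((1 : ℕ) : ℝ) + 1) = cl x := by congr 1; push_cast; ring
  have b2 : cl (x - ((2 : ℕ) : ℝ) + 1) = cl (x - 1) := by congr 1; push_cast; ring
  have b3 : cl (x - ((3 : ℕ) : ℝ) + 1) = cl (x - 2) := by congr 1; push_cast; ring
  have b4 : cl (x - ((4 : ℕ) : ℝ) + 1) = cl (x - 3) := by congr 1; push_cast; ring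
  have b5 : cl (x - ((5 : ℕ) : ℝ) + 1) = cl (x - 4) := by congr 1; push_cast; ring
  have b6 : cl (x - ((6 : ℕ) : ℝ) + 1) = cl (x - 5) := by congr 1; push_cast; ring
  have hj6 : j = 1 ∨ j = 2 ∨ j = 3 ∨ j = 4 ∨ j = 5 ∨ j = 6 := by omega
  rcases hj6 with rfl | rfl | rfl | rfl | rfl | rfl
  · rw [heq, hgt 2 (by norm_num), hgt 3 (by norm_num), hgt 4 (by norm_num), hgt 5 (by norm_num),
      hgt 6 (by norm_num), b1, b2, b3, b4, b5, b6]
    rw [show x - ((1 : ℕ) : ℝ) = x - 1 by push_cast; ring, e1]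
    ring
  · rw [heq, hlt 1 (by norm_num), hgt 3 (by norm_num), hgt 4 (by norm_num), hgt 5 (by norm_num),
      hgt 6 (by norm_num), b1, b2, b3, b4, b5, b6]
    rw [show x - ((2 : ℕ) : ℝ) = x - 2 by push_cast; ring, e2]
    ring
  · rw [heq, hlt 1 (by norm_num), hlt 2 (by norm_num), hgt 4 (by norm_num), hgt 5 (by norm_num),
      hgt 6 (by norm_num), b1, b2, b3, b4, b5, b6]
    rw [show x - ((3 : ℕ) : ℝ) = x - 3 by push_cast; ring, e3]
    ring
  · rw [heq, hlt 1 (by norm_num), hlt 2 (by norm_num), hlt 3 (by norm_num), hgt 5 (by norm_num),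
      hgt 6 (by norm_num), b1, b2, b3, b4, b5, b6]
    rw [show x - ((4 : ℕ) : ℝ) = x - 4 by push_cast; ring, e4]
    ring
  · rw [heq, hlt 1 (by norm_num), hlt 2 (by norm_num), hlt 3 (by norm_num), hlt 4 (by norm_num),
      hgt 6 (by norm_num), b1, b2, b3, b4, b5, b6]
    rw [show x - ((5 : ℕ) : ℝ) = x - 5 by push_cast; ring, e5]
    ring
  · rw [heq, hlt 1 (by norm_num), hlt 2 (by norm_num), hlt 3 (by norm_num), hlt 4 (by norm_num),
      hlt 5 (by norm_num), b1, b2, b3, b4, b5, b6]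
    rw [show x - ((6 : ℕ) : ℝ) = x - 6 by push_cast; ring, e6]
    ring

/-- all the second factors are one -/
theorem swb_sum_one (x T : ℝ) (hx0 : 0 ≤ x) (hx : x ≤ 5) (h : T ≤ 0) :
    ∑ i ∈ Finset.Icc (1:ℕ) 6, cl (x - (i : ℝ) + 1) * cl (3 * ((i : ℝ) - 1) + 2 - T) = x := by
  have h0 := swb_sum x 0 hx 1 le_rfl (by norm_num) (by norm_num) (by norm_num)
  have h1 : ∑ i ∈ Finset.Icc (1:ℕ) 6, cl (x - (i : ℝ) + 1) * cl (3 * ((i : ℝ) - 1) + 2 - T) =
      ∑ i ∈ Finset.Icc (1:ℕ) 6, cl (x - (i : ℝ) + 1) * cl (3 * ((i : ℝ) - 1) + 2 - 0) := by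
    refine Finset.sum_congr rfl fun i hi => ?_
    have hi1 : (1 : ℝ) ≤ i := by exact_mod_cast (Finset.mem_Icc.1 hi).1
    rw [swb_cl_one (t := 3 * ((i : ℝ) - 1) + 2 - T) (by linarith),
      swb_cl_one (t := 3 * ((i : ℝ) - 1) + 2 - 0) (by linarith)]
  rw [h1, h0]
  have e1 : cl ((0:ℝ) - 3 * (((1:ℕ) : ℝ) - 1) - 1) = 0 := swb_cl_zero (by norm_num)
  have e2 : cl (x - ((1 : ℕ) : ℝ) + 1) = cl x := by congr 1; push_cast; ring
  rw [e1, e2, Nat.cast_one, sub_zero, mul_one, swb_cl_add, max_eq_left hx0]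

/-- all the terms vanish -/
theorem swb_sum_zero (x T : ℝ) (hx : x ≤ 5) (h : 15 ≤ T) :
    ∑ i ∈ Finset.Icc (1:ℕ) 6, cl (x - (i : ℝ) + 1) * cl (3 * ((i : ℝ) - 1) + 2 - T) = 0 := by
  refine Finset.sum_eq_zero fun i hi => ?_
  have hi6 := (Finset.mem_Icc.1 hi).2
  rcases Nat.lt_or_ge i 6 with h5 | h6
  · have : (i : ℝ) ≤ 5 := by exact_mod_cast (by omega : i ≤ 5)
    rw [swb_cl_zero (t := 3 * ((i : ℝ) - 1) + 2 - T) (by linarith), mul_zero]
  · have : (6 : ℝ) ≤ i := by exact_mod_cast h6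
    rw [swb_cl_zero (t := x - (i : ℝ) + 1) (by linarith), zero_mul]

/-- the sums of two neighbouring blocks -/
theorem swb_sum_succ (x T : ℝ) (hx0 : 0 ≤ x) (hx : x ≤ 4) :
    ∑ i ∈ Finset.Icc (1:ℕ) 6, cl (x - (i : ℝ) + 1) * cl (3 * ((i : ℝ) - 1) + 2 - T) =
      min x 1 * cl (2 - T) +
      ∑ i ∈ Finset.Icc (1:ℕ) 6, cl (x - min x 1 - (i : ℝ) + 1) *
        cl (3 * ((i : ℝ) - 1) + 2 - (T - 3)) := by
  have hs : ∀ f : ℕ → ℝ, ∑ i ∈ Finset.Icc (1:ℕ) 6, f i = f 1 + f 2 + f 3 + f 4 + f 5 + f 6 := by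
    intro f
    have : Finset.Icc (1:ℕ) 6 = {1, 2, 3, 4, 5, 6} := by decide
    rw [this]
    simp
    ring
  have key : ∀ i : ℕ, 1 ≤ i → cl (x - min x 1 - (i : ℝ) + 1) = cl (x - ((i + 1 : ℕ) : ℝ) + 1) := by
    intro i hi
    have hi' : (1 : ℝ) ≤ i := by exact_mod_cast hi
    rcases le_total x 1 with h | h
    · rw [min_eq_left h, swb_cl_zero (by linarith), swb_cl_zero (by push_cast; linarith)]
    · rw [min_eq_right h]
      congr 1
      push_cast
      ring
  have key2 : ∀ i : ℕ, cl (3 * ((i : ℝ) - 1) + 2 - (T - 3)) =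
      cl (3 * (((i + 1 : ℕ) : ℝ) - 1) + 2 - T) := by
    intro i
    congr 1
    push_cast
    ring
  rw [hs, hs, key 1 (by norm_num), key 2 (by norm_num), key 3 (by norm_num), key 4 (by norm_num),
    key 5 (by norm_num), key 6 (by norm_num), key2 1, key2 2, key2 3, key2 4, key2 5, key2 6]
  have e7 : cl (x - ((6 + 1 : ℕ) : ℝ) + 1) = 0 := swb_cl_zero (by push_cast; linarith)
  have e1 : cl (x - ((1 : ℕ) : ℝ) + 1) = min x 1 := by
    have : x - ((1 : ℕ) : ℝ) + 1 = x := by push_cast; ring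
    rw [this]
    unfold cl
    rw [max_eq_right hx0, min_comm]
  have e2 : cl (3 * (((1 : ℕ) : ℝ) - 1) + 2 - T) = cl (2 - T) := by
    congr 1; push_cast; ring
  rw [e7, e1, e2]
  ring

section Sw
variable {X W : Type}

/-! ### elementary bounds -/

theorem swb_kap_nonneg (y : Yb W) (n : ℕ) : 0 ≤ kap y n := swb_cl_nonneg _
theorem swb_kap_le_one (y : Yb W) (n : ℕ) : kap y n ≤ 1 := swb_cl_le_one _
theorem swb_rho_nonneg (s : ℝ) (n : ℕ) : 0 ≤ rho s n := swb_cl_nonneg _
theorem swb_rho_le_one (s : ℝ) (n : ℕ) : rho s n ≤ 1 := swb_cl_le_one _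
theorem swb_theta_nonneg (s : ℝ) (n : ℕ) : 0 ≤ theta s n := swb_cl_nonneg _
theorem swb_theta_le_one (s : ℝ) (n : ℕ) : theta s n ≤ 1 := swb_cl_le_one _

theorem swb_kapE_nonneg (y : Yb W) (n : ℕ) : 0 ≤ kapE y n :=
  (swb_kap_nonneg y n).trans (le_max_left _ _)

theorem swb_kapE_le_one (y : Yb W) (n : ℕ) : kapE y n ≤ 1 :=
  max_le (swb_kap_le_one y n) (by linarith [swb_rho_nonneg y.1 n])

theorem swb_ccc_nonneg (y : Yb W) (n : ℕ) {a : ℝ} (ha : 0 ≤ a) : 0 ≤ ccc y n a :=
  add_nonneg (mul_nonneg (swb_kap_nonneg y n) (swb_rho_nonneg y.1 n)) ha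

theorem swb_ccc_le (y : Yb W) (n : ℕ) (a : ℝ) : ccc y n a ≤ 1 + a := by
  unfold ccc
  have := mul_le_one₀ (swb_kap_le_one y n) (swb_rho_nonneg y.1 n) (swb_rho_le_one y.1 n)
  linarith

theorem swb_kapS_nonneg (y : Yb W) (n : ℕ) {a : ℝ} (ha : 0 ≤ a) : 0 ≤ kapS y n a :=
  le_min (swb_ccc_nonneg y n ha) (swb_kapE_nonneg y n)

theorem swb_kapS_le_one (y : Yb W) (n : ℕ) (a : ℝ) : kapS y n a ≤ 1 :=
  (min_le_right _ _).trans (swb_kapE_le_one y n)

theorem swb_aOne_nonneg (y : Yb W) (n : ℕ) (a : ℝ) : 0 ≤ aOne y n a :=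
  sub_nonneg.2 (min_le_left _ _)

theorem swb_aOne_le (y : Yb W) (n : ℕ) {a : ℝ} (ha : 0 ≤ a) : aOne y n a ≤ 1 + a := by
  unfold aOne
  have h1 := swb_kapS_nonneg y n ha
  have h2 := swb_ccc_le y n a
  linarith

theorem swb_blk (y : Yb W) : 3 * (blk y : ℝ) ≤ max y.1 0 ∧ max y.1 0 < 3 * (blk y : ℝ) + 3 := by
  have h0 : 0 ≤ max y.1 0 / 3 := div_nonneg (le_max_right _ _) (by norm_num)
  have h1 := Nat.floor_le h0
  have h2 := Nat.lt_floor_add_one (max y.1 0 / 3)
  unfold blk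
  constructor <;> linarith

variable [TopologicalSpace X] [TopologicalSpace W] {c : W → W → ℝ → W} (hc : IsComb c)
  {i : X → W} {r : W → X} {h : W → ℝ → W} (hs : IsStrong i r h)

include hc in
theorem swb_st1w (n : ℕ) (y : Yb W) (a : ℝ) (m : ℕ) : st1w c h n y a 1 m =
    if m ≤ n then y.2.1 m else if m = n + 1 then vOne c h y n a else Rn c h n y a := by
  unfold st1w
  rw [hc.of_one_le _ _ _ le_rfl, hc.of_one_le _ _ _ le_rfl]

theorem swb_st1k (n : ℕ) (y : Yb W) (a : ℝ) (m : ℕ) : st1k n y a 1 m =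
    if m < n then cl (y.2.2 m) else if m = n then kapS y n a
      else cl (aOne y n a - ((m : ℝ) - n) + 1) := by
  unfold st1k
  rw [swb_cl_one (le_refl (1:ℝ))]
  simp only [sub_self, zero_mul, zero_add, one_mul]

/-! ### the tie -/

theorem swb_tie {D : Set (W × W)} {y : Yb W} (hy : y ∈ YY h D) {a : ℝ} (ha : 0 ≤ a) :
    theta y.1 (blk y) = 0 ∨ (h (y.2.1 (blk y)) (kapS y (blk y) a), y.2.1 (blk y + 1)) ∈ D := by
  obtain ⟨h1, h2⟩ := swb_blk y
  rcases le_or_gt y.1 (3 * (blk y : ℝ) + 2) with h3 | h3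
  · left
    exact swb_cl_zero (by linarith)
  · right
    have h4 : y.1 ≤ 3 * (blk y : ℝ) + 3 := (le_max_left _ _).trans h2.le
    have h5 := hy (blk y) h3.le h4
    have h6 : rho y.1 (blk y) = 1 := swb_cl_one (by linarith)
    have h7 : kapE y (blk y) = kap y (blk y) := by
      unfold kapE
      rw [h6, sub_self, max_eq_left (swb_kap_nonneg y _)]
    have h8 : kapS y (blk y) a = kap y (blk y) := by
      unfold kapS ccc
      rw [h6, h7, mul_one, min_eq_right (by linarith)]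
    rw [h8]
    exact h5

include hc in
theorem swb_closeV {D V₁ : Set (W × W)} {D₁ : Set (X × X)} (hD : TieOK c h r D V₁ D₁)
    (hV₁ : IsEnt V₁) {y : Yb W} (hy : y ∈ YY h D) {a : ℝ} (ha : 0 ≤ a) (x x' b : ℝ) :
    (h (c (h (y.2.1 (blk y)) (kapS y (blk y) a)) (y.2.1 (blk y + 1)) (theta y.1 (blk y) * x)) b,
      h (c (h (y.2.1 (blk y)) (kapS y (blk y) a)) (y.2.1 (blk y + 1)) (theta y.1 (blk y) * x')) b)
      ∈ V₁ := by
  rcases swb_tie hy ha with h1 | h1
  · rw [h1, zero_mul, zero_mul]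
    exact hV₁.refl _
  · exact hD.smallV _ _ h1 _ _ _

include hc in
theorem swb_closeD {D V₁ : Set (W × W)} {D₁ : Set (X × X)} (hD : TieOK c h r D V₁ D₁)
    (hD₁ : IsEnt D₁) {y : Yb W} (hy : y ∈ YY h D) {a : ℝ} (ha : 0 ≤ a) (x x' : ℝ) :
    (r (c (h (y.2.1 (blk y)) (kapS y (blk y) a)) (y.2.1 (blk y + 1)) (theta y.1 (blk y) * x)),
      r (c (h (y.2.1 (blk y)) (kapS y (blk y) a)) (y.2.1 (blk y + 1)) (theta y.1 (blk y) * x')))
      ∈ D₁ := by
  rcases swb_tie hy ha with h1 | h1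
  · rw [h1, zero_mul, zero_mul]
    exact hD₁.refl _
  · exact hD.smallD _ _ h1 _ _

/-! ### the block of `y` itself -/

/-- the real number identity for the block `n` -/
theorem swb_real (k R R' cc : ℝ) (hR : R ≤ R') :
    min cc (max (min cc (max k (1 - R))) (1 - R')) = min cc (max k (1 - R)) := by
  rcases le_total cc (max k (1 - R)) with h1 | h1
  · rw [min_eq_left h1, min_eq_left (le_max_left _ _)]
  · rw [min_eq_right h1]
    have h2 : 1 - R' ≤ max k (1 - R) := (by linarith : 1 - R' ≤ 1 - R).trans (le_max_right _ _)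
    rw [max_eq_left h2, min_eq_right h1]

/-- the point after the second step -/
noncomputable def swb_pt (c : W → W → ℝ → W) (h : W → ℝ → W) (y : Yb W) (a s' : ℝ) : Yb W :=
  (s', st1w c h (blk y) y a 1, st1k (blk y) y a 1)

theorem swb_st2a_zero (y : Yb W) {a s' : ℝ} (ha : 0 ≤ a) (ha4 : a ≤ 4)
    (hs' : s' ≤ 3 * (blk y : ℝ) + 3) :
    st2a (blk y) y a s' = kapS y (blk y) a * (1 - rho s' (blk y)) + aOne y (blk y) a := by
  unfold st2a rho
  have h1 := swb_aOne_le y (blk y) ha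
  rw [swb_sum_one _ _ (swb_aOne_nonneg _ _ _) (by linarith) (by linarith)]
  congr 2
  rw [← swb_cl_sub]
  congr 1
  ring

theorem swb_st2a_pos (y : Yb W) {a s' : ℝ} (ha : 0 ≤ a) (ha4 : a ≤ 4) (j : ℕ) (hj : 1 ≤ j)
    (hj' : j ≤ 6) (h1 : 3 * ((blk y : ℝ) + j) ≤ s') (h2 : s' ≤ 3 * ((blk y : ℝ) + j) + 3) :
    st2a (blk y) y a s' = cl (aOne y (blk y) a - j + 1) * (1 - rho s' (blk y + j)) +
      max (aOne y (blk y) a - j) 0 := by
  have hj1 : (1 : ℝ) ≤ j := by exact_mod_cast hj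
  have h3 := swb_aOne_le y (blk y) ha
  unfold st2a rho
  rw [swb_sum _ _ (by linarith) j hj hj' (by linarith) (by linarith),
    swb_cl_zero (by linarith), mul_zero, zero_add]
  congr 3
  congr 1
  push_cast
  ring

theorem swb_st2a_nonneg (y : Yb W) {a s' : ℝ} (ha : 0 ≤ a) (n : ℕ) : 0 ≤ st2a n y a s' := by
  unfold st2a
  refine add_nonneg (mul_nonneg (swb_kapS_nonneg y n ha) (swb_cl_nonneg _)) ?_
  exact Finset.sum_nonneg fun j _ => mul_nonneg (swb_cl_nonneg _) (swb_cl_nonneg _)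

theorem swb_pt_kap_zero (y : Yb W) {a s' : ℝ} (ha : 0 ≤ a) :
    kap (swb_pt c h y a s') (blk y) = kapS y (blk y) a := by
  unfold kap swb_pt
  simp only
  rw [swb_st1k, if_neg (lt_irrefl _), if_pos rfl]
  exact swb_cl_id (swb_kapS_nonneg y _ ha) (swb_kapS_le_one y _ a)

include hc in
theorem swb_pt_w_zero (y : Yb W) (a s' : ℝ) :
    (swb_pt c h y a s').2.1 (blk y) = y.2.1 (blk y) := by
  unfold swb_pt
  simp only
  rw [swb_st1w hc, if_pos le_rfl]

include hc in
theorem swb_pt_w_one (y : Yb W) (a s' : ℝ) :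
    (swb_pt c h y a s').2.1 (blk y + 1) = vOne c h y (blk y) a := by
  unfold swb_pt
  simp only
  rw [swb_st1w hc, if_neg (by omega), if_pos rfl]

include hc in
theorem swb_pt_w_two (y : Yb W) (a s' : ℝ) (m : ℕ) (hm : blk y + 2 ≤ m) :
    (swb_pt c h y a s').2.1 m = Rn c h (blk y) y a := by
  unfold swb_pt
  simp only
  rw [swb_st1w hc, if_neg (by omega), if_neg (by omega)]

theorem swb_pt_kap_pos (y : Yb W) (a s' : ℝ) (j : ℕ) (hj : 1 ≤ j) :
    kap (swb_pt c h y a s') (blk y + j) = cl (aOne y (blk y) a - j + 1) := by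
  unfold kap swb_pt
  simp only
  rw [swb_st1k, if_neg (by omega), if_neg (by omega), swb_cl_cl]
  congr 1
  push_cast
  ring

theorem swb_rho_mono {s s' : ℝ} (h : s ≤ s') (n : ℕ) : rho s n ≤ rho s' n :=
  swb_cl_mono (by linarith)

section zero
variable {y : Yb W} {a s' : ℝ} (ha : 0 ≤ a) (ha4 : a ≤ 4) (hs1 : y.1 ≤ s')
  (hs2 : s' ≤ 3 * (blk y : ℝ) + 3)
include ha ha4 hs1 hs2

theorem swb_ccc_zero : ccc (swb_pt c h y a s') (blk y) (st2a (blk y) y a s') =
    ccc y (blk y) a := by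
  have h1 := swb_pt_kap_zero (c := c) (h := h) y (s' := s') ha
  have h2 := swb_st2a_zero y ha ha4 hs2
  unfold ccc at *
  rw [h1, h2]
  change kapS y (blk y) a * rho s' (blk y) + _ = _
  unfold aOne ccc
  ring

theorem swb_kapE_zero : kapE (swb_pt c h y a s') (blk y) =
    max (kapS y (blk y) a) (1 - rho s' (blk y)) := by
  unfold kapE
  rw [swb_pt_kap_zero (c := c) (h := h) y (s' := s') ha]
  rfl

theorem swb_kapS_zero : kapS (swb_pt c h y a s') (blk y) (st2a (blk y) y a s') =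
    kapS y (blk y) a := by
  have h1 := swb_ccc_zero (c := c) (h := h) ha ha4 hs1 hs2
  have h2 := swb_kapE_zero (c := c) (h := h) ha ha4 hs1 hs2
  have h3 : kapS (swb_pt c h y a s') (blk y) (st2a (blk y) y a s') =
    min (ccc (swb_pt c h y a s') (blk y) (st2a (blk y) y a s'))
      (kapE (swb_pt c h y a s') (blk y)) := rfl
  rw [h3, h1, h2]
  exact swb_real _ _ _ _ (swb_rho_mono hs1 _)

theorem swb_aOne_zero : aOne (swb_pt c h y a s') (blk y) (st2a (blk y) y a s') =
    aOne y (blk y) a := by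
  have h1 := swb_ccc_zero (c := c) (h := h) ha ha4 hs1 hs2
  have h2 := swb_kapS_zero (c := c) (h := h) ha ha4 hs1 hs2
  unfold aOne at *
  rw [h1, h2]

include hc in
theorem swb_vOne_zero (b : ℝ) (hb : kapS (swb_pt c h y a s') (blk y) b = kapS y (blk y) a) :
    vOne c h (swb_pt c h y a s') (blk y) b =
      c (h (y.2.1 (blk y)) (kapS y (blk y) a)) (y.2.1 (blk y + 1))
        (theta y.1 (blk y) * theta s' (blk y)) := by
  have h3 : vOne c h (swb_pt c h y a s') (blk y) b =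
    c (h ((swb_pt c h y a s').2.1 (blk y)) (kapS (swb_pt c h y a s') (blk y) b))
      ((swb_pt c h y a s').2.1 (blk y + 1)) (theta s' (blk y)) := rfl
  rw [h3, hb, swb_pt_w_zero hc, swb_pt_w_one hc]
  have h4 : vOne c h y (blk y) a = c (h (y.2.1 (blk y)) (kapS y (blk y) a)) (y.2.1 (blk y + 1))
    (theta y.1 (blk y)) := rfl
  rw [h4, hc.assoc _ _ _ _ (swb_theta_nonneg _ _) (swb_theta_le_one _ _)
    (swb_theta_nonneg _ _) (swb_theta_le_one _ _)]

theorem swb_kapS_zero' (ha2 : 2 ≤ a) (b : ℝ) (hb : st2a (blk y) y a s' ≤ b) :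
    kapS (swb_pt c h y a s') (blk y) b = kapS y (blk y) a ∧
      1 ≤ aOne (swb_pt c h y a s') (blk y) b ∧ kapE (swb_pt c h y a s') (blk y) =
      kapS y (blk y) a := by
  have h1 := swb_ccc_zero (c := c) (h := h) ha ha4 hs1 hs2
  have h2 := swb_kapE_zero (c := c) (h := h) ha ha4 hs1 hs2
  have h3 : kapS (swb_pt c h y a s') (blk y) b =
    min (ccc (swb_pt c h y a s') (blk y) b) (kapE (swb_pt c h y a s') (blk y)) := rfl
  have h4 : ccc (swb_pt c h y a s') (blk y) (st2a (blk y) y a s') ≤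
      ccc (swb_pt c h y a s') (blk y) b := by
    unfold ccc
    linarith
  have h5 : 2 ≤ ccc y (blk y) a := by
    have := mul_nonneg (swb_kap_nonneg y (blk y)) (swb_rho_nonneg y.1 (blk y))
    unfold ccc
    linarith
  have h6 : kapS y (blk y) a = kapE y (blk y) :=
    min_eq_right ((swb_kapE_le_one y _).trans (by linarith))
  have h7 : 1 - rho s' (blk y) ≤ kapS y (blk y) a := by
    rw [h6]
    refine le_trans ?_ (le_max_right _ _)
    linarith [swb_rho_mono hs1 (blk y)]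
  have h8 : kapE (swb_pt c h y a s') (blk y) = kapS y (blk y) a := by
    rw [h2, max_eq_left h7]
  have h9 : kapS (swb_pt c h y a s') (blk y) b = kapS y (blk y) a := by
    rw [h3, h8, min_eq_right]
    have := swb_kapS_le_one y (blk y) a
    linarith
  refine ⟨h9, ?_, h8⟩
  have h10 := swb_kapS_le_one y (blk y) a
  unfold aOne
  rw [h9]
  linarith

end zero

/-! ### the later blocks -/

include hs in
/-- the value of `R` is reached at `kapS`, clamped -/
theorem swb_h_cl (y : Yb W) (n : ℕ) (a : ℝ) :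
    h (vOne c h y n a) (cl (aOne y n a)) = Rn c h n y a := by
  have h0 := swb_aOne_nonneg y n a
  unfold Rn
  rcases le_total (aOne y n a) 1 with h1 | h1
  · rw [swb_cl_id h0 h1]
  · rw [swb_cl_one h1, hs.of_one_le _ _ le_rfl, hs.of_one_le _ _ h1]

include hs in
theorem swb_fix (y : Yb W) (n : ℕ) (a : ℝ) (h1 : 1 ≤ aOne y n a) :
    Rn c h n y a = i (r (vOne c h y n a)) ∧ (∀ t, h (Rn c h n y a) t = Rn c h n y a) ∧
      i (r (Rn c h n y a)) = Rn c h n y a ∧ r (Rn c h n y a) = r (vOne c h y n a) := by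
  have e : Rn c h n y a = i (r (vOne c h y n a)) := by
    unfold Rn
    rw [hs.of_one_le _ _ h1]
  refine ⟨e, fun t => ?_, ?_, ?_⟩
  · rw [e, hs.fix]
  · rw [e, hs.ri]
  · rw [e, hs.ri]

section pos
variable {y : Yb W} {a s' : ℝ} (ha : 0 ≤ a) (ha4 : a ≤ 4) {j : ℕ} (hj : 1 ≤ j) (hj6 : j ≤ 6)
  (hs1 : 3 * ((blk y : ℝ) + j) ≤ s') (hs2 : s' ≤ 3 * ((blk y : ℝ) + j) + 3)
include ha ha4 hj hj6 hs1 hs2

theorem swb_ccc_pos : ccc (swb_pt c h y a s') (blk y + j) (st2a (blk y) y a s') =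
    max (aOne y (blk y) a - j + 1) 0 := by
  have h1 := swb_pt_kap_pos (c := c) (h := h) y a s' j hj
  have h2 := swb_st2a_pos y ha ha4 j hj hj6 hs1 hs2
  have h3 : ccc (swb_pt c h y a s') (blk y + j) (st2a (blk y) y a s') =
    kap (swb_pt c h y a s') (blk y + j) * rho s' (blk y + j) + st2a (blk y) y a s' := rfl
  have h5 := swb_cl_add (aOne y (blk y) a - j + 1)
  have h4 : aOne y (blk y) a - j + 1 - 1 = aOne y (blk y) a - j := by ring
  rw [h4] at h5
  rw [h3, h1, h2, ← h5]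
  ring

include hc hs

/-- the facts needed for `R` in the block number `blk y + j` -/
theorem swb_pos_main : h ((swb_pt c h y a s').2.1 (blk y + j))
      (kapS (swb_pt c h y a s') (blk y + j) (st2a (blk y) y a s')) = Rn c h (blk y) y a ∧
    h (Rn c h (blk y) y a) (aOne (swb_pt c h y a s') (blk y + j) (st2a (blk y) y a s')) =
      Rn c h (blk y) y a := by
  have hccc := swb_ccc_pos (c := c) (h := h) ha ha4 hj hj6 hs1 hs2
  have hkap := swb_pt_kap_pos (c := c) (h := h) y a s' j hj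
  have hx0 := swb_aOne_nonneg y (blk y) a
  have hj1 : (1 : ℝ) ≤ j := by exact_mod_cast hj
  have hkE : cl (aOne y (blk y) a - j + 1) ≤ kapE (swb_pt c h y a s') (blk y + j) := by
    rw [← hkap]
    exact le_max_left _ _
  have hkS : kapS (swb_pt c h y a s') (blk y + j) (st2a (blk y) y a s') =
      min (max (aOne y (blk y) a - j + 1) 0) (kapE (swb_pt c h y a s') (blk y + j)) := by
    rw [← hccc]
    rfl
  have haO : aOne (swb_pt c h y a s') (blk y + j) (st2a (blk y) y a s') =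
      max (aOne y (blk y) a - j + 1) 0 -
        kapS (swb_pt c h y a s') (blk y + j) (st2a (blk y) y a s') := by
    rw [← hccc]
    rfl
  have hE1 := swb_kapE_le_one (swb_pt c h y a s') (blk y + j)
  rcases Nat.lt_or_ge 1 j with hj2 | hj2
  · -- `j ≥ 2`
    rw [swb_pt_w_two hc y a s' (blk y + j) (by omega)]
    rcases le_total (aOne y (blk y) a) 1 with h1 | h1
    · have hj2' : (2 : ℝ) ≤ j := by exact_mod_cast hj2
      have e0 : max (aOne y (blk y) a - j + 1) 0 = 0 := max_eq_right (by linarith)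
      have e1 : kapS (swb_pt c h y a s') (blk y + j) (st2a (blk y) y a s') = 0 := by
        rw [hkS, e0, min_eq_left (swb_kapE_nonneg _ _)]
      have e2 : aOne (swb_pt c h y a s') (blk y + j) (st2a (blk y) y a s') = 0 := by
        rw [haO, e0, e1, sub_self]
      rw [e1, e2]
      exact ⟨hs.of_nonpos _ _ le_rfl, hs.of_nonpos _ _ le_rfl⟩
    · obtain ⟨-, h2, -, -⟩ := swb_fix hs y (blk y) a h1 (c := c)
      exact ⟨h2 _, h2 _⟩
  · have hj3 : j = 1 := by omega
    subst hj3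
    rw [swb_pt_w_one hc]
    have ex : max (aOne y (blk y) a - ((1 : ℕ) : ℝ) + 1) 0 = aOne y (blk y) a := by
      rw [show aOne y (blk y) a - ((1 : ℕ) : ℝ) + 1 = aOne y (blk y) a by push_cast; ring,
        max_eq_left hx0]
    have ecl : cl (aOne y (blk y) a - ((1 : ℕ) : ℝ) + 1) = cl (aOne y (blk y) a) := by
      congr 1; push_cast; ring
    rw [ex] at hkS haO
    rw [ecl] at hkE
    rcases le_total (aOne y (blk y) a) 1 with h1 | h1
    · rw [swb_cl_id hx0 h1] at hkE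
      have e1 : kapS (swb_pt c h y a s') (blk y + 1) (st2a (blk y) y a s') =
          aOne y (blk y) a := by rw [hkS, min_eq_left hkE]
      have e2 : aOne (swb_pt c h y a s') (blk y + 1) (st2a (blk y) y a s') = 0 := by
        rw [haO, e1, sub_self]
      rw [e1, e2]
      exact ⟨rfl, hs.of_nonpos _ _ le_rfl⟩
    · obtain ⟨h3, h2, -, -⟩ := swb_fix hs y (blk y) a h1 (c := c)
      rw [swb_cl_one h1] at hkE
      refine ⟨?_, h2 _⟩
      rw [hkS, h3]
      exact hs.of_one_le _ _ (le_min h1 hkE)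

/-- the facts needed for `2 ≤ a` -/
theorem swb_pos_two (h1 : 1 ≤ aOne y (blk y) a) (b : ℝ) (hb : st2a (blk y) y a s' ≤ b) :
    h ((swb_pt c h y a s').2.1 (blk y + j)) (kapE (swb_pt c h y a s') (blk y + j)) =
      Rn c h (blk y) y a ∧
    h ((swb_pt c h y a s').2.1 (blk y + j)) (kapS (swb_pt c h y a s') (blk y + j) b) =
      Rn c h (blk y) y a := by
  have hccc := swb_ccc_pos (c := c) (h := h) ha ha4 hj hj6 hs1 hs2
  have hkap := swb_pt_kap_pos (c := c) (h := h) y a s' j hj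
  obtain ⟨h3, h2, -, -⟩ := swb_fix hs y (blk y) a h1 (c := c)
  rcases Nat.lt_or_ge 1 j with hj2 | hj2
  · rw [swb_pt_w_two hc y a s' (blk y + j) (by omega)]
    exact ⟨h2 _, h2 _⟩
  · have hj3 : j = 1 := by omega
    subst hj3
    rw [swb_pt_w_one hc]
    have hkE : 1 ≤ kapE (swb_pt c h y a s') (blk y + 1) := by
      refine le_trans ?_ (le_max_left _ _)
      rw [hkap, swb_cl_one (by push_cast; linarith)]
    have hcb : 1 ≤ ccc (swb_pt c h y a s') (blk y + 1) b := by
      have e1 : 1 ≤ ccc (swb_pt c h y a s') (blk y + 1) (st2a (blk y) y a s') := by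
        rw [hccc]
        refine le_trans ?_ (le_max_left _ _)
        push_cast
        linarith
      unfold ccc at *
      linarith
    rw [h3]
    exact ⟨hs.of_one_le _ _ hkE, hs.of_one_le _ _ (le_min hcb hkE)⟩

end pos

include hc hs in
theorem swb_YY {D V₁ : Set (W × W)} {D₁ : Set (X × X)} (hD : TieOK c h r D V₁ D₁)
    {y : Yb W} {a s' : ℝ} (ha : 0 ≤ a) (hs1 : y.1 ≤ s') (hy : y ∈ YY h D) :
    swb_pt c h y a s' ∈ YY h D := by
  obtain ⟨hb1, hb2⟩ := swb_blk y
  intro m hm1 hm2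
  change 3 * (m : ℝ) + 2 ≤ s' at hm1
  change s' ≤ 3 * (m : ℝ) + 3 at hm2
  have hm0 : (0 : ℝ) ≤ m := Nat.cast_nonneg m
  have hs0 : max y.1 0 ≤ s' := max_le hs1 (by linarith)
  have hnm : blk y ≤ m + 1 := by
    have : (blk y : ℝ) ≤ ((m + 1 : ℕ) : ℝ) := by push_cast; linarith
    exact_mod_cast this
  rcases Nat.lt_or_ge m (blk y) with h1 | h1
  · have h2 : blk y = m + 1 := by omega
    rw [h2] at hb1
    push_cast at hb1
    have h3 : y.1 = 3 * (m : ℝ) + 3 := by
      rcases le_total y.1 0 with h4 | h4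
      · rw [max_eq_right h4] at hb1
        linarith
      · rw [max_eq_left h4] at hb1 hs0
        linarith
    have h4 := hy m (by linarith) (by linarith)
    have e1 : (swb_pt c h y a s').2.1 m = y.2.1 m := by
      unfold swb_pt
      simp only
      rw [swb_st1w hc, if_pos h1.le]
    have e2 : (swb_pt c h y a s').2.1 (m + 1) = y.2.1 (m + 1) := by
      unfold swb_pt
      simp only
      rw [swb_st1w hc, if_pos (by omega)]
    have e3 : kap (swb_pt c h y a s') m = kap y m := by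
      unfold kap swb_pt
      simp only
      rw [swb_st1k, if_pos h1, swb_cl_cl]
    rw [e1, e2, e3]
    exact h4
  · obtain ⟨j, rfl⟩ := Nat.exists_eq_add_of_le h1
    rcases Nat.eq_zero_or_pos j with h2 | h2
    · subst h2
      rw [add_zero, swb_pt_w_zero hc, swb_pt_w_one hc, swb_pt_kap_zero y ha]
      have h4 : vOne c h y (blk y) a = c (h (y.2.1 (blk y)) (kapS y (blk y) a))
        (y.2.1 (blk y + 1)) (theta y.1 (blk y)) := rfl
      rw [h4]
      rcases swb_tie hy ha with h5 | h5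
      · rw [h5, hc.of_nonpos _ _ _ le_rfl]
        exact hD.diag _
      · exact hD.star _ _ _ h5
    · rw [swb_pt_w_two hc y a s' (blk y + j + 1) (by omega), swb_pt_kap_pos y a s' j h2]
      rcases Nat.lt_or_ge 1 j with h3 | h3
      · rw [swb_pt_w_two hc y a s' (blk y + j) (by omega)]
        rcases le_total (aOne y (blk y) a) 1 with h6 | h6
        · have hj2' : (2 : ℝ) ≤ j := by exact_mod_cast h3
          rw [swb_cl_zero (by linarith), hs.of_nonpos _ _ le_rfl]
          exact hD.diag _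
        · obtain ⟨-, h7, -, -⟩ := swb_fix hs y (blk y) a h6 (c := c)
          rw [h7]
          exact hD.diag _
      · have hj3 : j = 1 := by omega
        subst hj3
        have ecl : cl (aOne y (blk y) a - ((1 : ℕ) : ℝ) + 1) = cl (aOne y (blk y) a) := by
          congr 1; push_cast; ring
        rw [swb_pt_w_one hc, ecl, swb_h_cl hs]
        exact hD.diag _

include hc hs in
theorem swb_inv {D V₁ : Set (W × W)} {D₁ : Set (X × X)} (hD : TieOK c h r D V₁ D₁)
    (hV₁ : IsEnt V₁) (hD₁ : IsEnt D₁) (z : {z : Yb W × ℝ // 0 ≤ z.2 ∧ z.2 ≤ 4}) (s' : ℝ)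
    (hs1 : z.1.1.1 ≤ s') (hs2 : max s' 0 ≤ max z.1.1.1 0 + 18) :
    Inv c i h r D V₁ D₁ z (swb_pt c h z.1.1 z.1.2 s', st2a (blk z.1.1) z.1.1 z.1.2 s') := by
  obtain ⟨⟨y, a⟩, ha, ha4⟩ := z
  simp only at ha ha4 hs1 hs2 ⊢
  refine ⟨swb_st2a_nonneg y ha _, fun hy => ?_⟩
  simp only at hy ⊢
  refine ⟨swb_YY hc hs hD ha hs1 hy, ?_⟩
  obtain ⟨hb1, hb2⟩ := swb_blk y
  obtain ⟨hb3, hb4⟩ := swb_blk (swb_pt c h y a s')
  change 3 * (blk (swb_pt c h y a s') : ℝ) ≤ max s' 0 at hb3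
  change max s' 0 < 3 * (blk (swb_pt c h y a s') : ℝ) + 3 at hb4
  have hmono : max y.1 0 ≤ max s' 0 := max_le_max hs1 le_rfl
  have hn1 : blk y ≤ blk (swb_pt c h y a s') := by
    have : (blk y : ℝ) < ((blk (swb_pt c h y a s') + 1 : ℕ) : ℝ) := by push_cast; linarith
    have := Nat.cast_lt.1 this
    omega
  have hn2 : blk (swb_pt c h y a s') ≤ blk y + 6 := by
    have : (blk (swb_pt c h y a s') : ℝ) < ((blk y + 7 : ℕ) : ℝ) := by push_cast; linarith
    have := Nat.cast_lt.1 this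
    omega
  obtain ⟨j, hj⟩ := Nat.exists_eq_add_of_le hn1
  have hRP : ∀ b, RR c h (swb_pt c h y a s') b =
      Rn c h (blk y + j) (swb_pt c h y a s') b := fun b => by
    unfold RR
    rw [hj]
  have huP : uu c h r (swb_pt c h y a s') = un c h r (blk y + j) (swb_pt c h y a s') := by
    unfold uu
    rw [hj]
  have hRy : RR c h y a = Rn c h (blk y) y a := rfl
  have hkE2 : 2 ≤ a → kapE y (blk y) = kapS y (blk y) a ∧ 1 ≤ aOne y (blk y) a := by
    intro ha2
    have h5 : 2 ≤ ccc y (blk y) a := by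
      have := mul_nonneg (swb_kap_nonneg y (blk y)) (swb_rho_nonneg y.1 (blk y))
      unfold ccc
      linarith
    have h6 : kapS y (blk y) a = kapE y (blk y) :=
      min_eq_right ((swb_kapE_le_one y _).trans (by linarith))
    refine ⟨h6.symm, ?_⟩
    have := swb_kapS_le_one y (blk y) a
    unfold aOne
    linarith
  have huy : 2 ≤ a → uu c h r y = r (vOne c h y (blk y) a) := by
    intro ha2
    unfold uu un vOne
    rw [(hkE2 ha2).1]
  rcases Nat.eq_zero_or_pos j with h2 | h2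
  · subst h2
    rw [add_zero] at hj hRP huP
    have hs3 : s' ≤ 3 * (blk y : ℝ) + 3 := by
      rw [hj] at hb4
      exact (le_max_left _ _).trans hb4.le
    have hkS := swb_kapS_zero (c := c) (h := h) ha ha4 hs1 hs3
    constructor
    · rw [hRP, hRy]
      unfold Rn
      rw [swb_vOne_zero hc ha ha4 hs1 hs3 _ hkS, swb_aOne_zero ha ha4 hs1 hs3]
      have h4 : vOne c h y (blk y) a = c (h (y.2.1 (blk y)) (kapS y (blk y) a))
        (y.2.1 (blk y + 1)) (theta y.1 (blk y) * 1) := by rw [mul_one]; rfl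
      rw [h4]
      exact swb_closeV hc hD hV₁ hy ha _ _ _
    · intro ha2
      have hu : uu c h r (swb_pt c h y a s') = r (c (h (y.2.1 (blk y)) (kapS y (blk y) a))
          (y.2.1 (blk y + 1)) (theta y.1 (blk y) * theta s' (blk y))) := by
        rw [huP]
        obtain ⟨-, -, h5⟩ := swb_kapS_zero' (c := c) (h := h) ha ha4 hs1 hs3 ha2 _ le_rfl
        have h6 := swb_vOne_zero hc ha ha4 hs1 hs3 _ hkS
        rw [← h6]
        unfold un vOne
        rw [h5, hkS]
      constructor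
      · rw [hu, huy ha2]
        have h4 : vOne c h y (blk y) a = c (h (y.2.1 (blk y)) (kapS y (blk y) a))
          (y.2.1 (blk y + 1)) (theta y.1 (blk y) * 1) := by rw [mul_one]; rfl
        rw [h4]
        exact swb_closeD hc hD hD₁ hy ha _ _
      · intro b hb
        obtain ⟨h5, h6, -⟩ := swb_kapS_zero' (c := c) (h := h) ha ha4 hs1 hs3 ha2 b hb
        rw [hRP, hu]
        unfold Rn
        rw [hs.of_one_le _ _ h6, swb_vOne_zero hc ha ha4 hs1 hs3 _ h5]
  · have hj1 : (1 : ℝ) ≤ j := by exact_mod_cast h2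
    have hn0 : (0 : ℝ) ≤ blk y := Nat.cast_nonneg _
    have hj6 : j ≤ 6 := by omega
    rw [hj] at hb3 hb4
    push_cast at hb3 hb4
    have hmax : max s' 0 = s' := by
      rcases le_total s' 0 with h4 | h4
      · rw [max_eq_right h4] at hb3
        linarith
      · exact max_eq_left h4
    rw [hmax] at hb3 hb4
    obtain ⟨m1, m2⟩ := swb_pos_main hc hs ha ha4 h2 hj6 hb3 hb4.le
    have m3 := swb_pt_w_two hc y a s' (blk y + j + 1) (by omega) (h := h)
    constructor
    · rw [hRP, hRy]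
      unfold Rn
      unfold vOne
      rw [m1, m3, hc.diag, m2]
      exact hV₁.refl _
    · intro ha2
      have hx := (hkE2 ha2).2
      obtain ⟨-, f2, f3, f4⟩ := swb_fix hs y (blk y) a hx (c := c)
      have hu : uu c h r (swb_pt c h y a s') = r (Rn c h (blk y) y a) := by
        rw [huP]
        unfold un
        rw [(swb_pos_two hc hs ha ha4 h2 hj6 hb3 hb4.le hx _ le_rfl).1, m3, hc.diag]
      constructor
      · rw [hu, huy ha2, f4]
        exact hD₁.refl _
      · intro b hb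
        obtain ⟨-, p2⟩ := swb_pos_two hc hs ha ha4 h2 hj6 hb3 hb4.le hx b hb
        rw [hu, f3, hRP]
        have e1 : Rn c h (blk y + j) (swb_pt c h y a s') b =
            h (c (h ((swb_pt c h y a s').2.1 (blk y + j)) (kapS (swb_pt c h y a s')
              (blk y + j) b)) ((swb_pt c h y a s').2.1 (blk y + j + 1))
              (theta (swb_pt c h y a s').1 (blk y + j)))
              (aOne (swb_pt c h y a s') (blk y + j) b) := rfl
        rw [e1, p2, m3, hc.diag, f2]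

/-! ### continuity -/

theorem swb_c_kap (n : ℕ) : Continuous fun p : Yb W × ℝ => kap p.1 n :=
  swb_cl_cont.comp ((continuous_apply n).comp (continuous_snd.comp (continuous_snd.comp
    continuous_fst)))

theorem swb_c_rho (n : ℕ) : Continuous fun p : Yb W × ℝ => rho p.1.1 n := by
  have h1 : Continuous fun p : Yb W × ℝ => p.1.1 - 3 * (n : ℝ) - 1 := by fun_prop
  exact swb_cl_cont.comp h1

theorem swb_c_theta (n : ℕ) : Continuous fun p : Yb W × ℝ => theta p.1.1 n := by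
  have h1 : Continuous fun p : Yb W × ℝ => p.1.1 - 3 * (n : ℝ) - 2 := by fun_prop
  exact swb_cl_cont.comp h1

theorem swb_c_kapE (n : ℕ) : Continuous fun p : Yb W × ℝ => kapE p.1 n :=
  (swb_c_kap n).max (continuous_const.sub (swb_c_rho n))

theorem swb_c_ccc (n : ℕ) : Continuous fun p : Yb W × ℝ => ccc p.1 n p.2 :=
  ((swb_c_kap n).mul (swb_c_rho n)).add continuous_snd

theorem swb_c_kapS (n : ℕ) : Continuous fun p : Yb W × ℝ => kapS p.1 n p.2 :=
  (swb_c_ccc n).min (swb_c_kapE n)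

theorem swb_c_aOne (n : ℕ) : Continuous fun p : Yb W × ℝ => aOne p.1 n p.2 :=
  (swb_c_ccc n).sub (swb_c_kapS n)

theorem swb_c_w (m : ℕ) : Continuous fun p : Yb W × ℝ => p.1.2.1 m :=
  (continuous_apply m).comp (continuous_fst.comp (continuous_snd.comp continuous_fst))

include hc hs in
theorem swb_c_vOne (n : ℕ) : Continuous fun p : Yb W × ℝ => vOne c h p.1 n p.2 :=
  hc.cont.comp ((hs.cont_h.comp ((swb_c_w n).prodMk (swb_c_kapS n))).prodMk
    ((swb_c_w (n + 1)).prodMk (swb_c_theta n)))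

include hc hs in
theorem swb_c_Rn (n : ℕ) : Continuous fun p : Yb W × ℝ => Rn c h n p.1 p.2 :=
  hs.cont_h.comp ((swb_c_vOne hc hs n).prodMk (swb_c_aOne n))

include hc hs in
theorem swb_c_st1w (n : ℕ) : Continuous fun p : Yb W × ℝ => st1w c h n p.1 p.2 1 := by
  refine continuous_pi fun m => ?_
  have h1 : (fun p : Yb W × ℝ => st1w c h n p.1 p.2 1 m) = fun p : Yb W × ℝ =>
      if m ≤ n then p.1.2.1 m else if m = n + 1 then vOne c h p.1 n p.2
        else Rn c h n p.1 p.2 := funext fun p => swb_st1w hc n p.1 p.2 m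
  rw [h1]
  split_ifs
  · exact swb_c_w m
  · exact swb_c_vOne hc hs n
  · exact swb_c_Rn hc hs n

theorem swb_c_st1k (n : ℕ) : Continuous fun p : Yb W × ℝ => st1k n p.1 p.2 1 := by
  refine continuous_pi fun m => ?_
  have h1 : (fun p : Yb W × ℝ => st1k n p.1 p.2 1 m) = fun p : Yb W × ℝ =>
      if m < n then cl (p.1.2.2 m) else if m = n then kapS p.1 n p.2
        else cl (aOne p.1 n p.2 - ((m : ℝ) - n) + 1) := funext fun p => swb_st1k n p.1 p.2 m
  rw [h1]
  split_ifs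
  · exact swb_c_kap m
  · exact swb_c_kapS n
  · exact swb_cl_cont.comp (((swb_c_aOne n).sub continuous_const).add continuous_const)

theorem swb_c_st2a (n : ℕ) :
    Continuous fun q : (Yb W × ℝ) × ℝ => st2a n q.1.1 q.1.2 q.2 := by
  unfold st2a
  have h1 : Continuous fun q : (Yb W × ℝ) × ℝ => kapS q.1.1 n q.1.2 :=
    (swb_c_kapS n).comp continuous_fst
  have h2 : Continuous fun q : (Yb W × ℝ) × ℝ => aOne q.1.1 n q.1.2 :=
    (swb_c_aOne n).comp continuous_fst
  refine (h1.mul (swb_cl_cont.comp (continuous_const.sub continuous_snd))).add ?_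
  refine continuous_finsetSum _ fun j _ => ?_
  refine (swb_cl_cont.comp ((h2.sub continuous_const).add continuous_const)).mul ?_
  exact swb_cl_cont.comp (continuous_const.sub (continuous_snd.sub continuous_const))

theorem swb_c_st2s : Continuous fun p : ℝ × ℝ => st2s p.1 p.2 := by
  unfold st2s
  have h1 : Continuous fun p : ℝ × ℝ => cl p.2 := swb_cl_cont.comp continuous_snd
  fun_prop

/-! ### matching at the ends of the blocks -/

section match_
variable {n : ℕ} {y : Yb W} {a : ℝ} (hy : y.1 = 3 * (n : ℝ) + 3) (ha : 0 ≤ a) (ha4 : a ≤ 4)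
include hy ha

theorem swb_m_kapS : kapS y n a = kap y n := by
  have h6 : rho y.1 n = 1 := swb_cl_one (by rw [hy]; linarith)
  have h7 : kapE y n = kap y n := by
    unfold kapE
    rw [h6, sub_self, max_eq_left (swb_kap_nonneg y _)]
  unfold kapS ccc
  rw [h6, h7, mul_one, min_eq_right (by linarith)]

theorem swb_m_aOne : aOne y n a = a := by
  have h6 : rho y.1 n = 1 := swb_cl_one (by rw [hy]; linarith)
  unfold aOne
  rw [swb_m_kapS hy ha]
  unfold ccc
  rw [h6]
  ring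

include hc in
theorem swb_m_vOne : vOne c h y n a = y.2.1 (n + 1) := by
  unfold vOne
  exact hc.of_one_le _ _ _ (by
    have : theta y.1 n = 1 := swb_cl_one (by rw [hy]; linarith)
    rw [this])

theorem swb_m_kapS' : kapS y (n + 1) a = min a 1 := by
  have h6 : rho y.1 (n + 1) = 0 := swb_cl_zero (by rw [hy]; push_cast; linarith)
  have h7 : kapE y (n + 1) = 1 := by
    unfold kapE
    rw [h6, sub_zero, max_eq_right (swb_kap_le_one y _)]
  unfold kapS ccc
  rw [h6, h7, mul_zero, zero_add]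

theorem swb_m_aOne' : aOne y (n + 1) a = a - min a 1 := by
  have h6 : rho y.1 (n + 1) = 0 := swb_cl_zero (by rw [hy]; push_cast; linarith)
  unfold aOne
  rw [swb_m_kapS' hy ha]
  unfold ccc
  rw [h6]
  ring

include hc in
theorem swb_m_vOne' : vOne c h y (n + 1) a = h (y.2.1 (n + 1)) (min a 1) := by
  unfold vOne
  rw [swb_m_kapS' hy ha]
  exact hc.of_nonpos _ _ _ (by
    have : theta y.1 (n + 1) = 0 := swb_cl_zero (by rw [hy]; push_cast; linarith)
    rw [this])

include hc hs in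
theorem swb_m_Rn : Rn c h n y a = h (y.2.1 (n + 1)) (min a 1) := by
  unfold Rn
  rw [swb_m_vOne hc hy ha, swb_m_aOne hy ha]
  rcases le_total a 1 with h1 | h1
  · rw [min_eq_left h1]
  · rw [min_eq_right h1, hs.of_one_le _ _ le_rfl, hs.of_one_le _ _ h1]

include hc hs in
theorem swb_m_st1w : st1w c h n y a 1 = st1w c h (n + 1) y a 1 := by
  funext m
  rw [swb_st1w hc, swb_st1w hc]
  rcases lt_trichotomy m (n + 1) with h1 | h1 | h1
  · rw [if_pos (by omega), if_pos (by omega)]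
  · rw [if_neg (by omega), if_pos h1, if_pos (by omega), swb_m_vOne hc hy ha, h1]
  · rw [if_neg (by omega), if_neg (by omega), if_neg (by omega)]
    by_cases h2 : m = n + 1 + 1
    · rw [if_pos h2, swb_m_Rn hc hs hy ha, swb_m_vOne' hc hy ha]
    · rw [if_neg h2]
      exact Rn_succ hc hs n y a hy

theorem swb_m_st1k : st1k n y a 1 = st1k (n + 1) y a 1 := by
  funext m
  rw [swb_st1k, swb_st1k]
  rcases lt_trichotomy m n with h1 | h1 | h1
  · rw [if_pos h1, if_pos (by omega)]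
  · rw [if_neg (by omega), if_pos h1, if_pos (by omega), swb_m_kapS hy ha, h1]
    rfl
  · rw [if_neg (by omega), if_neg (by omega), if_neg (by omega), swb_m_aOne hy ha]
    by_cases h2 : m = n + 1
    · rw [if_pos h2, swb_m_kapS' hy ha, h2]
      have e1 : a - (((n + 1 : ℕ) : ℝ) - n) + 1 = a := by push_cast; ring
      rw [e1]
      unfold cl
      rw [max_eq_right ha, min_comm]
    · rw [if_neg h2, swb_m_aOne' hy ha]
      have h3 : (n : ℝ) + 2 ≤ m := by exact_mod_cast (by omega : n + 2 ≤ m)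
      rcases le_total a 1 with h4 | h4
      · rw [min_eq_left h4, swb_cl_zero (by linarith), swb_cl_zero (by push_cast; linarith)]
      · rw [min_eq_right h4]
        congr 1
        push_cast
        ring

include ha4

theorem swb_m_st2a {s' : ℝ} (hs' : y.1 ≤ s') : st2a n y a s' = st2a (n + 1) y a s' := by
  unfold st2a
  rw [swb_m_aOne hy ha, swb_m_aOne' hy ha, swb_m_kapS' hy ha, swb_cl_zero (by linarith),
    mul_zero, zero_add, swb_sum_succ a _ ha ha4]
  congr 1
  · congr 2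
    push_cast
    ring
  · refine Finset.sum_congr rfl fun j _ => ?_
    congr 2
    push_cast
    ring

end match_

theorem swb_st2s_le (s τ : ℝ) : s ≤ st2s s τ := by
  unfold st2s
  have := mul_nonneg (swb_cl_nonneg τ) (by linarith [le_max_right (-s) 0] :
    0 ≤ 18 + max (-s) 0)
  linarith

theorem swb_st2s_le' (s τ : ℝ) : max (st2s s τ) 0 ≤ max s 0 + 18 := by
  have h1 : st2s s τ ≤ s + (18 + max (-s) 0) := by
    unfold st2s
    have h2 : (0 : ℝ) ≤ 18 + max (-s) 0 := by linarith [le_max_right (-s) 0]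
    have := mul_le_of_le_one_left h2 (swb_cl_le_one τ)
    linarith
  have h3 : s + max (-s) 0 = max s 0 := by
    rcases le_total s 0 with h4 | h4
    · rw [max_eq_left (by linarith), max_eq_right h4]; ring
    · rw [max_eq_right (by linarith), max_eq_left h4]; ring
  refine max_le (by linarith) ?_
  linarith [le_max_right s 0]

include hc hs

theorem swb_cont : Continuous fun p : {z : Yb W × ℝ // 0 ≤ z.2 ∧ z.2 ≤ 4} × ℝ =>
    st2 c h (blk p.1.1.1) p.1.1 p.2 := by
  have hv : Continuous fun p : {z : Yb W × ℝ // 0 ≤ z.2 ∧ z.2 ≤ 4} × ℝ => p.1.1 :=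
    continuous_subtype_val.comp continuous_fst
  have hσ : Continuous fun p : {z : Yb W × ℝ // 0 ≤ z.2 ∧ z.2 ≤ 4} × ℝ => p.1.1.1.1 :=
    continuous_fst.comp (continuous_fst.comp hv)
  refine continuous_blocks hσ (F := fun n p => st2 c h n p.1.1 p.2) ?_ ?_
  · intro n
    apply Continuous.continuousOn
    have hs2 : Continuous fun p : {z : Yb W × ℝ // 0 ≤ z.2 ∧ z.2 ≤ 4} × ℝ =>
        st2s p.1.1.1.1 p.2 := swb_c_st2s.comp (hσ.prodMk continuous_snd)
    exact (hs2.prodMk (((swb_c_st1w hc hs n).comp hv).prodMk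
      ((swb_c_st1k n).comp hv))).prodMk ((swb_c_st2a n).comp (hv.prodMk hs2))
  · rintro n ⟨⟨⟨y, a⟩, ha, ha4⟩, τ⟩ hy
    change y.1 = 3 * (n : ℝ) + 3 at hy
    change st2 c h n (y, a) τ = st2 c h (n + 1) (y, a) τ
    unfold st2
    simp only
    rw [swb_m_st1w hc hs hy ha, swb_m_st1k hy ha, swb_m_st2a hy ha ha4 (swb_st2s_le _ _)]

theorem step2 {D V₁ : Set (W × W)} {D₁ : Set (X × X)} (hD : TieOK c h r D V₁ D₁)
    (hV₁ : IsEnt V₁) (hD₁ : IsEnt D₁) :
    HT (Inv c i h r D V₁ D₁) (fun z => st1 c h (blk z.1.1) z.1 1)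
      (fun z => ((max z.1.1.1 0 + 18, st1w c h (blk z.1.1) z.1.1 z.1.2 1,
        st1k (blk z.1.1) z.1.1 z.1.2 1), 0)) := by
  refine ⟨fun z τ => st2 c h (blk z.1.1) z.1 τ, swb_cont hc hs, ?_, ?_, ?_⟩
  · rintro ⟨⟨y, a⟩, ha, ha4⟩ τ hτ
    simp only at ha ha4
    obtain ⟨hb1, hb2⟩ := swb_blk y
    have e1 : st2s y.1 τ = y.1 := by
      unfold st2s
      rw [swb_cl_zero hτ, zero_mul, add_zero]
    have e2 := swb_st2a_zero y ha ha4 (s' := y.1) ((le_max_left _ _).trans hb2.le)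
    have e3 : cl (st1k (blk y) y a 1 (blk y)) = kapS y (blk y) a := by
      rw [swb_st1k, if_neg (lt_irrefl _), if_pos rfl]
      exact swb_cl_id (swb_kapS_nonneg y _ ha) (swb_kapS_le_one y _ a)
    change st2 c h (blk y) (y, a) τ = st1 c h (blk y) (y, a) 1
    unfold st2 st1
    simp only
    rw [e1, e2, e3]
    congr 1
    unfold aOne ccc
    ring
  · rintro ⟨⟨y, a⟩, ha, ha4⟩ τ hτ
    simp only at ha ha4
    obtain ⟨hb1, hb2⟩ := swb_blk y
    have h3 : y.1 + max (-y.1) 0 = max y.1 0 := by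
      rcases le_total y.1 0 with h4 | h4
      · rw [max_eq_left (by linarith), max_eq_right h4]; ring
      · rw [max_eq_right (by linarith), max_eq_left h4]; ring
    have e1 : st2s y.1 τ = max y.1 0 + 18 := by
      unfold st2s
      rw [swb_cl_one hτ]
      linarith
    have hx := swb_aOne_le y (blk y) ha
    have e2 : st2a (blk y) y a (max y.1 0 + 18) = 0 := by
      unfold st2a
      rw [swb_cl_zero (by linarith), mul_zero, zero_add,
        swb_sum_zero _ _ (by linarith) (by linarith)]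
    change st2 c h (blk y) (y, a) τ = _
    unfold st2
    simp only
    rw [e1, e2]
  · intro z τ
    exact swb_inv hc hs hD hV₁ hD₁ z (st2s z.1.1.1 τ) (swb_st2s_le _ _) (swb_st2s_le' _ _)

end Sw

end Pool.Agent.TOR
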