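import Pool.Agent.Lib.MP_5a68e6_TOR.SwG
import Pool.Agent.Lib.MP_5a68e6_TOR.Hot

set_option autoImplicit false

namespace Pool.Agent.TOR

open Set Filter Topology TopologicalSpace Cardinal

section Sw
variable {X W : Type}

theorem swc_continuous_cl : Continuous cl := by
  unfold cl
  exact continuous_const.min (continuous_const.max continuous_id)

theorem swc_cl_nonneg (t : ℝ) : 0 ≤ cl t := by
  unfold cl
  exact le_min zero_le_one (le_max_left _ _)

theorem swc_cl_le_one (t : ℝ) : cl t ≤ 1 := by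
  unfold cl
  exact min_le_left _ _

theorem swc_cl_of_nonpos {t : ℝ} (ht : t ≤ 0) : cl t = 0 := by
  unfold cl
  rw [max_eq_left ht]
  exact min_eq_right zero_le_one

theorem swc_cl_of_one_le {t : ℝ} (ht : 1 ≤ t) : cl t = 1 := by
  unfold cl
  rw [max_eq_right (by linarith)]
  exact min_eq_left ht

theorem swc_cl_of_nonneg {t : ℝ} (ht : 0 ≤ t) : cl t = min t 1 := by
  unfold cl
  rw [max_eq_right ht, min_comm]

theorem swc_kapE_nonneg (y : Yb W) (n : ℕ) : 0 ≤ kapE y n :=
  le_trans (swc_cl_nonneg _) (le_max_left _ _)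

theorem swc_kapE_le_one (y : Yb W) (n : ℕ) : kapE y n ≤ 1 := by
  unfold kapE
  refine max_le (swc_cl_le_one _) ?_
  have := swc_cl_nonneg (y.1 - 3 * n - 1)
  unfold rho
  linarith

theorem swc_ccc_nonneg (y : Yb W) (n : ℕ) {a : ℝ} (ha : 0 ≤ a) : 0 ≤ ccc y n a := by
  unfold ccc kap rho
  have := mul_nonneg (swc_cl_nonneg (y.2.2 n)) (swc_cl_nonneg (y.1 - 3 * n - 1))
  linarith

theorem swc_ccc_le (y : Yb W) (n : ℕ) (a : ℝ) : ccc y n a ≤ 1 + a := by
  unfold ccc kap rho
  have := mul_le_one₀ (swc_cl_le_one (y.2.2 n)) (swc_cl_nonneg (y.1 - 3 * n - 1))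
    (swc_cl_le_one _)
  linarith

theorem swc_le_ccc (y : Yb W) (n : ℕ) (a : ℝ) : a ≤ ccc y n a := by
  unfold ccc kap rho
  have := mul_nonneg (swc_cl_nonneg (y.2.2 n)) (swc_cl_nonneg (y.1 - 3 * n - 1))
  linarith

theorem swc_kapS_nonneg (y : Yb W) (n : ℕ) {a : ℝ} (ha : 0 ≤ a) : 0 ≤ kapS y n a :=
  le_min (swc_ccc_nonneg y n ha) (swc_kapE_nonneg y n)

theorem swc_aOne_le (y : Yb W) (n : ℕ) {a : ℝ} (ha : 0 ≤ a) (ha4 : a ≤ 4) : aOne y n a ≤ 5 := by
  unfold aOne
  have h1 := swc_kapS_nonneg y n ha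
  have h2 := swc_ccc_le y n a
  linarith

/-- the values at the end of a block -/
theorem swc_end (n : ℕ) (y : Yb W) {a : ℝ} (ha : 0 ≤ a) (hy : y.1 = 3 * (n:ℝ) + 3) :
    theta y.1 n = 1 ∧ kapS y n a = cl (y.2.2 n) ∧ aOne y n a = a := by
  have h1 : theta y.1 n = 1 := by
    unfold theta
    rw [hy]
    exact swc_cl_of_one_le (by linarith)
  have h2 : rho y.1 n = 1 := by
    unfold rho
    rw [hy]
    exact swc_cl_of_one_le (by linarith)
  have h3 : kapS y n a = cl (y.2.2 n) := by
    unfold kapS ccc kapE kap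
    rw [h2, sub_self, mul_one, max_eq_left (swc_cl_nonneg _), min_eq_right (by linarith)]
  refine ⟨h1, h3, ?_⟩
  unfold aOne
  rw [h3]
  unfold ccc kap
  rw [h2]
  ring

/-- the values at the beginning of a block -/
theorem swc_start (n : ℕ) (y : Yb W) {a : ℝ} (hy : y.1 = 3 * (n:ℝ) + 3) :
    theta y.1 (n + 1) = 0 ∧ kapS y (n + 1) a = min a 1 ∧ aOne y (n + 1) a = a - min a 1 := by
  have h1 : theta y.1 (n + 1) = 0 := by
    unfold theta
    rw [hy]
    exact swc_cl_of_nonpos (by push_cast; linarith)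
  have h2 : rho y.1 (n + 1) = 0 := by
    unfold rho
    rw [hy]
    exact swc_cl_of_nonpos (by push_cast; linarith)
  have h3 : kapS y (n + 1) a = min a 1 := by
    unfold kapS ccc kapE kap
    rw [h2, sub_zero, mul_zero, zero_add, max_eq_right (swc_cl_le_one _)]
  refine ⟨h1, h3, ?_⟩
  unfold aOne
  rw [h3]
  unfold ccc kap
  rw [h2]
  ring

variable [TopologicalSpace X] [TopologicalSpace W] {c : W → W → ℝ → W} (hc : IsComb c)
  {i : X → W} {r : W → X} {h : W → ℝ → W} (hs : IsStrong i r h)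
include hc hs

omit hc in
/-- `h w (min a 1)` and `h w a` -/
theorem swc_h_min (w : W) (a : ℝ) : h (h w (min a 1)) (a - min a 1) = h w (min a 1) := by
  rcases le_total a 1 with h1 | h1
  · rw [min_eq_left h1, sub_self, hs.of_nonpos _ _ le_rfl]
  · rw [min_eq_right h1, hs.of_one_le w 1 le_rfl, hs.fix]

theorem swc_vOne_start (n : ℕ) (y : Yb W) {a : ℝ} (hy : y.1 = 3 * (n:ℝ) + 3) :
    vOne c h y (n + 1) a = Rn c h (n + 1) y a := by
  obtain ⟨h1, h2, h3⟩ := swc_start n y (a := a) hy
  unfold Rn vOne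
  rw [h1, h2, h3, hc.of_nonpos _ _ _ le_rfl]
  exact (swc_h_min hs _ a).symm

theorem swc_st1w_succ (n : ℕ) (y : Yb W) {a : ℝ} (ha : 0 ≤ a) (hy : y.1 = 3 * (n:ℝ) + 3)
    (m : ℕ) : st1w c h n y a 1 m = st1w c h (n + 1) y a 1 m := by
  have hR := Rn_succ hc hs n y a hy
  obtain ⟨h1, h2, h3⟩ := swc_end n y ha hy
  unfold st1w
  rcases Nat.lt_or_ge m (n + 1) with hm | hm
  · rw [if_pos (by omega), if_pos (by omega)]
  · rw [if_neg (by omega)]
    rcases Nat.lt_or_ge m (n + 2) with hm2 | hm2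
    · have hmn : m = n + 1 := by omega
      rw [if_pos hmn, if_pos (by omega), hc.of_one_le _ _ _ le_rfl]
      unfold vOne
      rw [h1, hc.of_one_le _ _ _ le_rfl, hmn]
    · rw [if_neg (by omega), if_neg (by omega), hc.of_one_le _ _ _ le_rfl]
      rcases Nat.lt_or_ge m (n + 3) with hm3 | hm3
      · have hmn : m = n + 2 := by omega
        rw [if_pos (by omega), hc.of_one_le _ _ _ le_rfl, swc_vOne_start hc hs n y hy, hR]
      · rw [if_neg (by omega), hc.of_one_le _ _ _ le_rfl, hR]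

omit [TopologicalSpace X] [TopologicalSpace W] hc hs in
theorem swc_st1k_succ (n : ℕ) (y : Yb W) {a : ℝ} (ha : 0 ≤ a) (hy : y.1 = 3 * (n:ℝ) + 3)
    (m : ℕ) : st1k n y a 1 m = st1k (n + 1) y a 1 m := by
  obtain ⟨_, h2, h3⟩ := swc_end n y ha hy
  obtain ⟨_, k2, k3⟩ := swc_start n y (a := a) hy
  have hcl1 : cl 1 = 1 := swc_cl_of_one_le le_rfl
  unfold st1k
  simp only [hcl1, sub_self, zero_mul, zero_add, one_mul]
  rcases Nat.lt_or_ge m n with hm | hm
  · rw [if_pos hm, if_pos (by omega)]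
  · rw [if_neg (by omega)]
    rcases Nat.lt_or_ge m (n + 1) with hm1 | hm1
    · have hmn : m = n := by omega
      rw [if_pos hmn, if_pos (by omega), h2, hmn]
    · rw [if_neg (by omega), if_neg (by omega)]
      rcases Nat.lt_or_ge m (n + 2) with hm2 | hm2
      · have hmn : m = n + 1 := by omega
        rw [if_pos hmn, k2, h3, hmn, ← swc_cl_of_nonneg ha]
        congr 1
        push_cast
        ring
      · rw [if_neg (by omega), h3, k3]
        have hm' : (n : ℝ) + 2 ≤ m := by exact_mod_cast hm2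
        rcases le_total a 1 with h1 | h1
        · rw [min_eq_left h1, swc_cl_of_nonpos (by linarith), swc_cl_of_nonpos (by push_cast; linarith)]
        · rw [min_eq_right h1]
          congr 1
          push_cast
          ring


omit hs in
theorem swc_key (y : Yb W) (m : ℕ) (hm : blk y = m) (w : W) (h1 : y.2.1 m = w)
    (h2 : y.2.1 (m + 1) = w) (hk : kap y m = 0) (hw0 : h w 0 = w) :
    RR c h y 0 = w := by
  have hcc : ccc y m 0 = 0 := by
    unfold ccc
    rw [hk, zero_mul, zero_add]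
  have hkS : kapS y m 0 = 0 := by
    unfold kapS
    rw [hcc]
    exact min_eq_left (swc_kapE_nonneg y m)
  have ha1 : aOne y m 0 = 0 := by
    unfold aOne
    rw [hcc, hkS, sub_self]
  unfold RR Rn vOne
  rw [hm, hkS, ha1, h1, h2, hw0, hc.diag, hw0]

omit [TopologicalSpace X] hs in
theorem swc_key2 (y : Yb W) (m : ℕ) (hm : blk y = m) (w : W) (h1 : y.2.1 m = w)
    (h2 : y.2.1 (m + 1) = w) (hw : ∀ t, h w t = w) :
    uu c h r y = r w ∧ ∀ a, RR c h y a = w := by
  constructor
  · unfold uu un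
    rw [hm, h1, h2, hw, hc.diag]
  · intro a
    unfold RR Rn vOne
    rw [hm, h1, h2, hw, hc.diag, hw]

/-- the invariant at a point all of whose relevant coordinates are the value of `R` -/
theorem swc_inv {D V₁ : Set (W × W)} {D₁ : Set (X × X)} (hD : TieOK c h r D V₁ D₁)
    (hV₁ : IsEnt V₁) (hD₁ : IsEnt D₁) (z : {z : Yb W × ℝ // 0 ≤ z.2 ∧ z.2 ≤ 4})
    (y : Yb W) (m : ℕ) (hm : blk y = m) (h1 : y.2.1 m = RR c h z.1.1 z.1.2)
    (h2 : y.2.1 (m + 1) = RR c h z.1.1 z.1.2) (hk : kap y m = 0)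
    (hY : ∀ l : ℕ, 3 * (l : ℝ) + 2 ≤ y.1 → y.1 ≤ 3 * (l : ℝ) + 3 →
      y.2.1 (l + 1) = RR c h z.1.1 z.1.2 ∧
      h (y.2.1 l) (kap y l) = RR c h z.1.1 z.1.2) :
    Inv c i h r D V₁ D₁ z (y, 0) := by
  refine ⟨le_rfl, fun _ => ⟨?_, ?_, ?_⟩⟩
  · intro l hl1 hl2
    obtain ⟨e1, e2⟩ := hY l hl1 hl2
    rw [e1, e2]
    exact hD.diag _
  · have := swc_key hc y m hm _ h1 h2 hk (hs.of_nonpos _ _ le_rfl)
    change (_, RR c h y 0) ∈ V₁
    rw [this]
    exact hV₁.refl _
  · intro h2a
    have hR := RR_eq_i hc hs z.1.1 z.1.2 h2a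
    have hw : ∀ t, h (RR c h z.1.1 z.1.2) t = RR c h z.1.1 z.1.2 := by
      intro t
      rw [hR, hs.fix]
    obtain ⟨k1, k2⟩ := swc_key2 (r := r) hc y m hm _ h1 h2 hw
    have k3 : uu c h r y = uu c h r z.1.1 := by
      rw [k1, hR, hs.ri]
    refine ⟨?_, ?_⟩
    · change (_, uu c h r y) ∈ D₁
      rw [k3]
      exact hD₁.refl _
    · intro a' _
      change RR c h y a' = i (uu c h r y)
      rw [k2, k3, hR]

omit hc hs [TopologicalSpace X] in
theorem swc_cont_kap (n : ℕ) : Continuous fun p : Yb W × ℝ => kap p.1 n := by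
  unfold kap
  exact swc_continuous_cl.comp ((continuous_apply n).comp
    (continuous_snd.comp (continuous_snd.comp continuous_fst)))

omit hc hs [TopologicalSpace X] in
theorem swc_cont_rho (n : ℕ) : Continuous fun p : Yb W × ℝ => rho p.1.1 n := by
  unfold rho
  refine swc_continuous_cl.comp (Continuous.sub (Continuous.sub ?_ continuous_const)
    continuous_const)
  exact continuous_fst.comp continuous_fst

omit hc hs [TopologicalSpace X] in
theorem swc_cont_theta (n : ℕ) : Continuous fun p : Yb W × ℝ => theta p.1.1 n := by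
  unfold theta
  refine swc_continuous_cl.comp (Continuous.sub (Continuous.sub ?_ continuous_const)
    continuous_const)
  exact continuous_fst.comp continuous_fst

omit hc hs [TopologicalSpace X] in
theorem swc_cont_ccc (n : ℕ) : Continuous fun p : Yb W × ℝ => ccc p.1 n p.2 := by
  unfold ccc
  exact ((swc_cont_kap n).mul (swc_cont_rho n)).add continuous_snd

omit hc hs [TopologicalSpace X] in
theorem swc_cont_kapS (n : ℕ) : Continuous fun p : Yb W × ℝ => kapS p.1 n p.2 := by
  unfold kapS kapE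
  exact (swc_cont_ccc n).min ((swc_cont_kap n).max (continuous_const.sub (swc_cont_rho n)))

omit hc hs [TopologicalSpace X] in
theorem swc_cont_aOne (n : ℕ) : Continuous fun p : Yb W × ℝ => aOne p.1 n p.2 := by
  unfold aOne
  exact (swc_cont_ccc n).sub (swc_cont_kapS n)

omit hc hs [TopologicalSpace X] in
theorem swc_cont_w (m : ℕ) : Continuous fun p : Yb W × ℝ => p.1.2.1 m :=
  (continuous_apply m).comp (continuous_fst.comp (continuous_snd.comp continuous_fst))

theorem swc_cont_vOne (n : ℕ) : Continuous fun p : Yb W × ℝ => vOne c h p.1 n p.2 := by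
  unfold vOne
  exact hc.cont.comp ((hs.cont_h.comp ((swc_cont_w n).prodMk (swc_cont_kapS n))).prodMk
    ((swc_cont_w (n + 1)).prodMk (swc_cont_theta n)))

theorem swc_cont_Rn (n : ℕ) : Continuous fun p : Yb W × ℝ => Rn c h n p.1 p.2 := by
  unfold Rn
  exact hs.cont_h.comp ((swc_cont_vOne hc hs n).prodMk (swc_cont_aOne n))

theorem swc_cont_st1w (n m : ℕ) : Continuous fun p : Yb W × ℝ => st1w c h n p.1 p.2 1 m := by
  unfold st1w
  by_cases h1 : m ≤ n
  · simp only [if_pos h1]
    exact swc_cont_w m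
  · simp only [if_neg h1]
    by_cases h2 : m = n + 1
    · simp only [if_pos h2]
      exact hc.cont.comp ((swc_cont_w m).prodMk ((swc_cont_vOne hc hs n).prodMk
        continuous_const))
    · simp only [if_neg h2]
      exact hc.cont.comp ((swc_cont_w m).prodMk ((swc_cont_Rn hc hs n).prodMk
        continuous_const))

omit hc hs [TopologicalSpace X] in
theorem swc_cont_k (m : ℕ) : Continuous fun p : Yb W × ℝ => p.1.2.2 m :=
  (continuous_apply m).comp (continuous_snd.comp (continuous_snd.comp continuous_fst))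

omit hc hs [TopologicalSpace X] in
theorem swc_cont_st1k (n m : ℕ) : Continuous fun p : Yb W × ℝ => st1k n p.1 p.2 1 m := by
  unfold st1k
  have h0 : Continuous fun p : Yb W × ℝ => (1 - cl 1) * p.1.2.2 m :=
    continuous_const.mul (swc_cont_k m)
  by_cases h1 : m < n
  · simp only [if_pos h1]
    exact h0.add (continuous_const.mul (swc_continuous_cl.comp (swc_cont_k m)))
  · simp only [if_neg h1]
    by_cases h2 : m = n
    · simp only [if_pos h2]
      exact h0.add (continuous_const.mul (swc_cont_kapS n))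
    · simp only [if_neg h2]
      exact h0.add (continuous_const.mul (swc_continuous_cl.comp
        (((swc_cont_aOne n).sub continuous_const).add continuous_const)))

omit hc hs [TopologicalSpace X] [TopologicalSpace W] in
theorem swc_blk_add (y : Yb W) (s : ℝ) (hs' : s = max y.1 0 + 18) (w : ℕ → W) (k : ℕ → ℝ) :
    blk ((s, w, k) : Yb W) = blk y + 6 := by
  unfold blk
  have h0 : 0 ≤ max y.1 0 := le_max_right _ _
  have h1 : max s 0 = max y.1 0 + 18 := by
    rw [hs']
    exact max_eq_left (by linarith)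
  change ⌊max s 0 / 3⌋₊ = _
  rw [h1]
  have h2 : (max y.1 0 + 18) / 3 = max y.1 0 / 3 + (6 : ℕ) := by
    push_cast
    ring
  rw [h2, Nat.floor_add_natCast (by positivity)]

omit hc hs [TopologicalSpace X] [TopologicalSpace W] in
theorem swc_blk_bounds (y : Yb W) : 3 * (blk y : ℝ) ≤ max y.1 0 ∧
    max y.1 0 < 3 * (blk y : ℝ) + 3 := by
  unfold blk
  have h0 : 0 ≤ max y.1 0 / 3 := div_nonneg (le_max_right _ _) (by norm_num)
  have h1 := Nat.floor_le h0
  have h2 := Nat.lt_floor_add_one (max y.1 0 / 3)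
  constructor <;> linarith

omit [TopologicalSpace X] hs in
theorem swc_st1w_far (n : ℕ) (y : Yb W) (a : ℝ) (m : ℕ) (hm : n + 2 ≤ m) :
    st1w c h n y a 1 m = Rn c h n y a := by
  unfold st1w
  rw [if_neg (by omega), if_neg (by omega), hc.of_one_le _ _ _ le_rfl]

omit hc hs [TopologicalSpace X] [TopologicalSpace W] in
theorem swc_st1k_far (n : ℕ) (y : Yb W) (a : ℝ) (m : ℕ) (hm : n < m) :
    st1k n y a 1 m = cl (aOne y n a - ((m : ℝ) - n) + 1) := by
  unfold st1k
  rw [if_neg (by omega), if_neg (by omega), swc_cl_of_one_le le_rfl, sub_self, zero_mul,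
    zero_add, one_mul]

omit hc in
/-- the value of `R` in block `n` is fixed by `h w a` if `a = 0` or if `1 ≤ a1` -/
theorem swc_fix_Rn (n : ℕ) (y : Yb W) (a t : ℝ) (ht : 1 < aOne y n a ∨ t ≤ 0) :
    h (Rn c h n y a) t = Rn c h n y a := by
  rcases ht with ht | ht
  · have : Rn c h n y a = i (r (vOne c h y n a)) := by
      unfold Rn
      exact hs.of_one_le _ _ ht.le
    rw [this, hs.fix]
  · exact hs.of_nonpos _ _ ht

theorem swc_cont_st3 (n : ℕ) : Continuous fun p : (Yb W × ℝ) × ℝ => st3 c h n p.1 p.2 := by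
  unfold st3
  refine Continuous.prodMk (Continuous.prodMk ?_ (Continuous.prodMk ?_ ?_)) continuous_const
  · refine Continuous.add (Continuous.max ?_ continuous_const) continuous_const
    exact continuous_fst.comp (continuous_fst.comp continuous_fst)
  · refine continuous_pi fun m => ?_
    exact hc.cont.comp (((swc_cont_st1w hc hs n m).comp continuous_fst).prodMk
      (((swc_cont_Rn hc hs n).comp continuous_fst).prodMk continuous_snd))
  · refine continuous_pi fun m => ?_
    exact (continuous_const.sub (swc_continuous_cl.comp continuous_snd)).mul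
      ((swc_cont_st1k n m).comp continuous_fst)

theorem step3 {D V₁ : Set (W × W)} {D₁ : Set (X × X)} (hD : TieOK c h r D V₁ D₁)
    (hV₁ : IsEnt V₁) (hD₁ : IsEnt D₁) :
    HT (Inv c i h r D V₁ D₁)
      (fun z => ((max z.1.1.1 0 + 18, st1w c h (blk z.1.1) z.1.1 z.1.2 1,
        st1k (blk z.1.1) z.1.1 z.1.2 1), 0))
      (fun z => ((max z.1.1.1 0 + 18, fun _ => RR c h z.1.1 z.1.2, fun _ => 0), 0)) := by
  refine ⟨fun z τ => st3 c h (blk z.1.1) z.1 τ, ?_, ?_, ?_, ?_⟩
  · have hσ : Continuous fun p : {z : Yb W × ℝ // 0 ≤ z.2 ∧ z.2 ≤ 4} × ℝ => p.1.1.1.1 :=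
      continuous_fst.comp (continuous_fst.comp (continuous_subtype_val.comp continuous_fst))
    refine continuous_blocks hσ (F := fun n p => st3 c h n p.1.1 p.2) ?_ ?_
    · intro n
      exact ((swc_cont_st3 hc hs n).comp
        ((continuous_subtype_val.comp continuous_fst).prodMk continuous_snd)).continuousOn
    · rintro n ⟨⟨⟨y, a⟩, ha⟩, τ⟩ hy
      have hy' : y.1 = 3 * (n : ℝ) + 3 := hy
      have ha0 : 0 ≤ a := ha.1
      change st3 c h n (y, a) τ = st3 c h (n + 1) (y, a) τ
      have e1 : st1w c h n y a 1 = st1w c h (n + 1) y a 1 :=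
        funext fun m => swc_st1w_succ hc hs n y ha0 hy' m
      have e2 : st1k n y a 1 = st1k (n + 1) y a 1 :=
        funext fun m => swc_st1k_succ n y ha0 hy' m
      have e3 := Rn_succ hc hs n y a hy'
      unfold st3
      simp only [e1, e2, e3]
  · intro z t ht
    unfold st3
    simp only [hc.of_nonpos _ _ _ ht, swc_cl_of_nonpos ht, sub_zero, one_mul]
  · intro z t ht
    unfold st3
    simp only [hc.of_one_le _ _ _ ht, swc_cl_of_one_le ht, sub_self, zero_mul]
    rfl
  · intro z t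
    obtain ⟨⟨y, a⟩, ha⟩ := z
    change Inv c i h r D V₁ D₁ _ (((max y.1 0 + 18 : ℝ),
      fun m => c (st1w c h (blk y) y a 1 m) (Rn c h (blk y) y a) t,
      fun m => (1 - cl t) * st1k (blk y) y a 1 m), 0)
    set n := blk y with hn
    have ha0 : 0 ≤ a := ha.1
    have ha4 : a ≤ 4 := ha.2
    have hw : ∀ m, n + 2 ≤ m → c (st1w c h n y a 1 m) (Rn c h n y a) t = RR c h y a := by
      intro m hm
      rw [swc_st1w_far hc n y a m hm, hc.diag]
      rfl
    have hcl := swc_cl_nonneg t
    have hcl1 := swc_cl_le_one t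
    have h5 := swc_aOne_le y n ha0 ha4
    have hk : ∀ m, n < m → aOne y n a - ((m : ℝ) - n) + 1 ≤ 0 →
        cl ((1 - cl t) * st1k n y a 1 m) = 0 := by
      intro m hm hm1
      rw [swc_st1k_far n y a m hm, swc_cl_of_nonpos hm1, mul_zero]
      exact swc_cl_of_nonpos le_rfl
    refine swc_inv hc hs hD hV₁ hD₁ ⟨(y, a), ha⟩ _ (n + 6)
      (swc_blk_add y _ rfl _ _) (hw _ (by omega)) (hw _ (by omega)) ?_ ?_
    · exact hk (n + 6) (by omega) (by push_cast; linarith)
    · intro l hl1 hl2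
      obtain ⟨b1, b2⟩ := swc_blk_bounds y
      rw [← hn] at b1 b2
      have hl1' : 3 * (l : ℝ) + 2 ≤ max y.1 0 + 18 := hl1
      have hl2' : max y.1 0 + 18 ≤ 3 * (l : ℝ) + 3 := hl2
      have hl3 : n + 5 ≤ l := by
        have : (n : ℝ) + 5 ≤ l := by linarith
        exact_mod_cast this
      refine ⟨hw _ (by omega), ?_⟩
      change h (c (st1w c h n y a 1 l) (Rn c h n y a) t) (cl ((1 - cl t) * st1k n y a 1 l)) = _
      rw [swc_st1w_far hc n y a l (by omega), hc.diag]
      refine swc_fix_Rn hs n y a _ ?_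
      rcases lt_or_ge 1 (aOne y n a) with h1 | h1
      · exact Or.inl h1
      · right
        have hl4 : (n : ℝ) + 5 ≤ l := by exact_mod_cast hl3
        exact (hk l (by omega) (by linarith)).le

theorem step4 {D V₁ : Set (W × W)} {D₁ : Set (X × X)} (hD : TieOK c h r D V₁ D₁)
    (hV₁ : IsEnt V₁) (hD₁ : IsEnt D₁) :
    HT (Inv c i h r D V₁ D₁)
      (fun z => ((max z.1.1.1 0 + 18, fun _ => RR c h z.1.1 z.1.2, fun _ => 0), 0))
      (fun z => (ycan (RR c h z.1.1 z.1.2), 0)) := by
  have hRR : Continuous fun p : {z : Yb W × ℝ // 0 ≤ z.2 ∧ z.2 ≤ 4} × ℝ =>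
      RR c h p.1.1.1 p.1.1.2 :=
    (continuous_RR hc hs).comp (continuous_subtype_val.comp continuous_fst)
  refine ⟨fun z τ => (((1 - cl τ) * (max z.1.1.1 0 + 18), fun _ => RR c h z.1.1 z.1.2,
    fun _ => 0), 0), ?_, ?_, ?_, ?_⟩
  · refine Continuous.prodMk (Continuous.prodMk ?_ (Continuous.prodMk ?_ ?_)) continuous_const
    · refine Continuous.mul (continuous_const.sub (swc_continuous_cl.comp continuous_snd)) ?_
      refine Continuous.add (Continuous.max ?_ continuous_const) continuous_const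
      exact continuous_fst.comp (continuous_fst.comp (continuous_subtype_val.comp continuous_fst))
    · exact continuous_pi fun _ => hRR
    · exact continuous_const
  · intro z t ht
    simp only [swc_cl_of_nonpos ht, sub_zero, one_mul]
  · intro z t ht
    simp only [swc_cl_of_one_le ht, sub_self, zero_mul]
    rfl
  · intro z t
    have hk : ∀ l : ℕ, kap (((1 - cl t) * (max z.1.1.1 0 + 18), fun _ => RR c h z.1.1 z.1.2,
        fun _ => 0) : Yb W) l = 0 := fun l => swc_cl_of_nonpos le_rfl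
    refine swc_inv hc hs hD hV₁ hD₁ z _ _ rfl rfl rfl (hk _) ?_
    intro l _ _
    refine ⟨rfl, ?_⟩
    rw [hk l]
    exact hs.of_nonpos _ _ le_rfl

end Sw

end Pool.Agent.TOR
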