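import Pool.Agent.Lib.MP_5a68e6_TOR.SwA
import Pool.Agent.Lib.MP_5a68e6_TOR.SwB
import Pool.Agent.Lib.MP_5a68e6_TOR.SwC

set_option autoImplicit false

namespace Pool.Agent.TOR

open Set Filter Topology TopologicalSpace Cardinal

section Sw
variable {X W : Type}

variable [TopologicalSpace X] [TopologicalSpace W] {c : W → W → ℝ → W} (hc : IsComb c)
  {i : X → W} {r : W → X} {h : W → ℝ → W} (hs : IsStrong i r h)
include hc hs

theorem contract {D V₁ : Set (W × W)} {D₁ : Set (X × X)} (hD : TieOK c h r D V₁ D₁)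
    (hV₁ : IsEnt V₁) (hD₁ : IsEnt D₁) :
    HT (Inv c i h r D V₁ D₁) (fun z => z.1) (fun z => (ycan (RR c h z.1.1 z.1.2), 0)) :=
  (((step1 hc hs hD hV₁ hD₁).trans (step2 hc hs hD hV₁ hD₁)).trans
    (step3 hc hs hD hV₁ hD₁)).trans (step4 hc hs hD hV₁ hD₁)

end Sw

end Pool.Agent.TOR
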