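import Pool.Agent.Lib.MP_5a68e6_TOR.Push
import Pool.Agent.Lib.MP_5a68e6_TOR.Soft
import Pool.Agent.Lib.MP_5a68e6_TOR.SwD

set_option autoImplicit false

namespace Pool.Agent.TOR

open Set Filter Topology TopologicalSpace Cardinal

private theorem a2_isOpen_forall {Z K : Type*} [TopologicalSpace Z] [TopologicalSpace K]
    {S : Set K} (hS : IsCompact S) {T : Set (Z × K)} (hT : IsOpen T) :
    IsOpen {z : Z | ∀ k ∈ S, (z, k) ∈ T} := by
  rw [isOpen_iff_mem_nhds]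
  intro z hz
  exact hS.eventually_forall_of_forall_eventually (P := fun z k => (z, k) ∈ T)
    (fun k hk => hT.mem_nhds (hz k hk))

private theorem a2_clamp_mem (t : ℝ) : max 0 (min 1 t) ∈ Icc (0 : ℝ) 1 :=
  ⟨le_max_left _ _, max_le zero_le_one (min_le_left _ _)⟩

private theorem a2_clamp {X : Type*} [TopologicalSpace X] {c : X → X → ℝ → X} (hc : IsComb c)
    (x y : X) (t : ℝ) : c x y t = c x y (max 0 (min 1 t)) := by
  rcases le_total t 0 with ht | ht
  · have h1 : max 0 (min 1 t) = 0 := max_eq_left ((min_le_right _ _).trans ht)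
    rw [h1, hc.of_nonpos x y t ht, hc.of_nonpos x y 0 le_rfl]
  · rcases le_total 1 t with ht' | ht'
    · have h1 : max 0 (min 1 t) = 1 := by rw [min_eq_left ht', max_eq_right zero_le_one]
      rw [h1, hc.of_one_le x y t ht', hc.of_one_le x y 1 le_rfl]
    · rw [min_eq_right ht', max_eq_right ht]

private theorem a2_clamph {X W : Type*} [TopologicalSpace X] [TopologicalSpace W] {i : X → W}
    {r : W → X} {h : W → ℝ → W} (hs : IsStrong i r h) (w : W) (t : ℝ) :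
    h w t = h w (max 0 (min 1 t)) := by
  rcases le_total t 0 with ht | ht
  · have h1 : max 0 (min 1 t) = 0 := max_eq_left ((min_le_right _ _).trans ht)
    rw [h1, hs.of_nonpos w t ht, hs.of_nonpos w 0 le_rfl]
  · rcases le_total 1 t with ht' | ht'
    · have h1 : max 0 (min 1 t) = 1 := by rw [min_eq_left ht', max_eq_right zero_le_one]
      rw [h1, hs.of_one_le w t ht', hs.of_one_le w 1 le_rfl]
    · rw [min_eq_right ht', max_eq_right ht]

private theorem a2_star {X : Type*} [TopologicalSpace X] {c : X → X → ℝ → X} (hc : IsComb c)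
    (p q : X) (t s : ℝ) (hs : s ∈ Icc (0 : ℝ) 1) :
    (∃ s' ∈ Icc (0 : ℝ) 1, c p (c p q t) s = c p q s') := by
  rw [a2_clamp hc p q t]
  have ht := a2_clamp_mem t
  generalize max 0 (min 1 t) = t' at ht
  exact ⟨t' * s, ⟨mul_nonneg ht.1 hs.1, mul_le_one₀ ht.2 hs.1 hs.2⟩,
    hc.assoc p q t' s ht.1 ht.2 hs.1 hs.2⟩

private theorem a2_continuous_softR {X W Yb : Type*} [TopologicalSpace X] [TopologicalSpace W]
    [TopologicalSpace Yb] {c : X → X → ℝ → X} (hc : IsComb c) {i : X → W} (hi : Continuous i)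
    {u : Yb → X} (hu : Continuous u) {R : Yb → ℝ → W}
    (hR : Continuous fun p : Yb × ℝ => R p.1 p.2) (hRi : ∀ y a, 2 ≤ a → R y a = i (u y)) :
    Continuous (softR c u R i) := by
  unfold softR
  refine Continuous.if_le ?_ ?_ (continuous_snd.comp continuous_snd) continuous_const ?_
  · exact hR.comp continuous_snd
  · refine hi.comp ?_
    have h1 : Continuous fun m : X × Yb × ℝ => (u m.2.1, m.1, 2 * (m.2.2 - 3)) :=
      (hu.comp (continuous_fst.comp continuous_snd)).prodMk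
        (continuous_fst.prodMk (continuous_const.mul
          ((continuous_snd.comp continuous_snd).sub continuous_const)))
    exact hc.cont.comp h1
  · intro m hm
    rw [hm, hRi _ 3 (by norm_num)]
    congr 1
    rw [hc.of_nonpos _ _ _ (by norm_num)]

theorem stepA2 {κ : Cardinal.{0}} (hκ : ℵ₀ ≤ κ) {X W : Type} [TopologicalSpace X]
    [TopologicalSpace W] (hX : Good κ X) (hW : Good κ W) {i : X → W} {r : W → X} {h : W → ℝ → W}
    (hs : IsStrong i r h) {U : Set (X × X)} (hU : IsEnt U) (hrU : ∀ w t, (r w, r (h w t)) ∈ U)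
    {V : Set (W × W)} (hV : IsEnt V) :
    ∃ η : X → W, IsEqv V η ∧ ∀ x, ∃ x₁ x₂, (x, x₁) ∈ U ∧ (x₁, x₂) ∈ U ∧ (x₂, r (η x)) ∈ U := by
  classical
  obtain ⟨cX, hcX⟩ := hX.comb
  obtain ⟨cW, hcW⟩ := hW.comb
  have := hX.complete
  have := hW.complete
  have : MetrizableSpace X := inferInstance
  have : MetrizableSpace W := inferInstance
  obtain ⟨Va, hVa, hVa2⟩ := hV.exists_half
  obtain ⟨V4, hV4, hV42⟩ := hVa.exists_half
  obtain ⟨V2, hV2, hV22⟩ := hV4.exists_half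
  obtain ⟨V', hV', hV'2⟩ := hV2.exists_half
  have h8 : ∀ x₀ x₁ x₂ x₃ x₄ x₅ x₆ x₇ x₈ : W, (x₀, x₁) ∈ V' → (x₁, x₂) ∈ V' → (x₂, x₃) ∈ V' →
      (x₃, x₄) ∈ V' → (x₄, x₅) ∈ V' → (x₅, x₆) ∈ V' → (x₆, x₇) ∈ V' → (x₇, x₈) ∈ V' →
      (x₀, x₈) ∈ Va := fun x₀ x₁ x₂ x₃ x₄ x₅ x₆ x₇ x₈ h1 h2 h3 h4 h5 h6 h7 h8 =>
    hV42 _ _ _ (hV22 _ _ _ (hV'2 _ _ _ h1 h2) (hV'2 _ _ _ h3 h4))
      (hV22 _ _ _ (hV'2 _ _ _ h5 h6) (hV'2 _ _ _ h7 h8))
  have h4 : ∀ x₀ x₁ x₂ x₃ x₄ : W, (x₀, x₁) ∈ V' → (x₁, x₂) ∈ V' → (x₂, x₃) ∈ V' →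
      (x₃, x₄) ∈ V' → (x₀, x₄) ∈ Va := fun x₀ x₁ x₂ x₃ x₄ h1 h2 h3 h4 =>
    hV42 _ _ _ (hV22 _ _ _ (hV'2 _ _ _ h1 h2) (hV'2 _ _ _ h3 h4)) (hV4.refl x₄)
  have hU0 : IsEnt ({p : X × X | (i p.1, i p.2) ∈ V'} ∩ U) := (hV'.comap hs.cont_i).inter hU
  obtain ⟨Us, hUs, hUs0⟩ := exists_entSeq hcX hU0
  have hiV : ∀ x x', (x, x') ∈ Us 0 → (i x, i x') ∈ V' := by
    intro x x' hx
    rw [hUs0] at hx
    exact hx.1
  have hU4 : ∀ x x', (x, x') ∈ Us 4 → (x, x') ∈ U := by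
    intro x x' hx
    have h1 := hUs.mono hcX (Nat.zero_le 4) hx
    rw [hUs0] at h1
    exact h1.2
  have hU3 : ∀ x x', (x, x') ∈ Us 3 → (x, x') ∈ U := by
    intro x x' hx
    have h1 := hUs.mono hcX (Nat.zero_le 3) hx
    rw [hUs0] at h1
    exact h1.2
  have hIcc : IsCompact (Icc (0 : ℝ) 1) := isCompact_Icc
  -- the entourage `D`
  set D : Set (X × X) := {p | ∀ t ∈ Icc (0 : ℝ) 1, (p.1, cX p.1 p.2 t) ∈ Us 4} with hDdef
  have hDo : IsOpen D := by
    have hT : IsOpen {q : (X × X) × ℝ | (q.1.1, cX q.1.1 q.1.2 q.2) ∈ Us 4} := by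
      refine (hUs.ent 4).isOpen.preimage ?_
      have h1 : Continuous fun q : (X × X) × ℝ => (q.1.1, q.1.2, q.2) :=
        (continuous_fst.comp continuous_fst).prodMk
          ((continuous_snd.comp continuous_fst).prodMk continuous_snd)
      exact (continuous_fst.comp continuous_fst).prodMk (hcX.cont.comp h1)
    exact a2_isOpen_forall hIcc hT
  have hDr : ∀ x, (x, x) ∈ D := by
    intro x t _
    rw [hcX.diag]
    exact (hUs.ent 4).refl x
  have hDstar : ∀ p q t, (p, q) ∈ D → (p, cX p q t) ∈ D := by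
    intro p q t hpq s hs'
    obtain ⟨s', hs'', he⟩ := a2_star hcX p q t s hs'
    show (p, cX p (cX p q t) s) ∈ Us 4
    rw [he]
    exact hpq s' hs''
  have hDU4 : ∀ p q, (p, q) ∈ D → (p, q) ∈ Us 4 := by
    intro p q hpq
    have h1 := hpq 1 ⟨zero_le_one, le_rfl⟩
    rwa [hcX.of_one_le _ _ 1 le_rfl] at h1
  have hDU : D ⊆ Us 3 := by
    rintro ⟨p, q⟩ hpq
    exact hUs.mono hcX (by norm_num : 3 ≤ 4) (hDU4 p q hpq)
  -- the entourage `D₁`
  obtain ⟨D₁, hD₁, hD₁T⟩ := exists_ent_tube (X := X) hIcc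
    (T := {m : X × X × ℝ | (m.1, m.2.1) ∈ Us 3 ∧ (m.2.1, cX m.2.1 m.1 m.2.2) ∈ D}) (by
      have h1 : IsOpen {m : X × X × ℝ | (m.1, m.2.1) ∈ Us 3} :=
        (hUs.ent 3).isOpen.preimage (continuous_fst.prodMk (continuous_fst.comp continuous_snd))
      have h2 : IsOpen {m : X × X × ℝ | (m.2.1, cX m.2.1 m.1 m.2.2) ∈ D} := by
        refine hDo.preimage ?_
        have h3 : Continuous fun m : X × X × ℝ => (m.2.1, m.1, m.2.2) :=
          (continuous_fst.comp continuous_snd).prodMk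
            (continuous_fst.prodMk (continuous_snd.comp continuous_snd))
        exact (continuous_fst.comp continuous_snd).prodMk (hcX.cont.comp h3)
      exact h1.inter h2) (by
      intro x t _
      refine ⟨(hUs.ent 3).refl x, ?_⟩
      show (x, cX x x t) ∈ D
      rw [hcX.diag]
      exact hDr x)
  have hD₁U : D₁ ⊆ Us 3 := by
    rintro ⟨p, q⟩ hpq
    exact (hD₁T p q hpq 0 ⟨le_rfl, zero_le_one⟩).1
  have hD₁D : ∀ x x', (x, x') ∈ D₁ → ∀ t, (x', cX x' x t) ∈ D := by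
    intro x x' hx t
    rw [a2_clamp hcX]
    exact (hD₁T x x' hx _ (a2_clamp_mem t)).2
  -- the tie entourage
  set DW : Set (W × W) := {p | ∀ k ∈ (Icc (0 : ℝ) 1 ×ˢ (Icc (0 : ℝ) 1 ×ˢ Icc (0 : ℝ) 1)),
    (h (cW p.1 p.2 k.1) k.2.2, h (cW p.1 p.2 k.2.1) k.2.2) ∈ V' ∧
      (r (cW p.1 p.2 k.1), r (cW p.1 p.2 k.2.1)) ∈ D₁} with hDWdef
  have hDWo : IsOpen DW := by
    have c1 : Continuous fun q : (W × W) × ℝ × ℝ × ℝ => cW q.1.1 q.1.2 q.2.1 := by
      have h1 : Continuous fun q : (W × W) × ℝ × ℝ × ℝ => (q.1.1, q.1.2, q.2.1) := by fun_prop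
      exact hcW.cont.comp h1
    have c2 : Continuous fun q : (W × W) × ℝ × ℝ × ℝ => cW q.1.1 q.1.2 q.2.2.1 := by
      have h1 : Continuous fun q : (W × W) × ℝ × ℝ × ℝ => (q.1.1, q.1.2, q.2.2.1) := by fun_prop
      exact hcW.cont.comp h1
    have c3 : Continuous fun q : (W × W) × ℝ × ℝ × ℝ => q.2.2.2 := by fun_prop
    have hT : IsOpen {q : (W × W) × ℝ × ℝ × ℝ |
        (h (cW q.1.1 q.1.2 q.2.1) q.2.2.2, h (cW q.1.1 q.1.2 q.2.2.1) q.2.2.2) ∈ V' ∧
        (r (cW q.1.1 q.1.2 q.2.1), r (cW q.1.1 q.1.2 q.2.2.1)) ∈ D₁} := by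
      refine IsOpen.inter (hV'.isOpen.preimage ?_) (hD₁.isOpen.preimage ?_)
      · exact (hs.cont_h.comp (c1.prodMk c3)).prodMk (hs.cont_h.comp (c2.prodMk c3))
      · exact (hs.cont_r.comp c1).prodMk (hs.cont_r.comp c2)
    exact a2_isOpen_forall (hIcc.prod (hIcc.prod hIcc)) hT
  have hTie : TieOK cW h r DW V' D₁ := by
    refine ⟨?_, ?_, ?_, ?_⟩
    · intro p k _
      refine ⟨?_, ?_⟩
      · show (h (cW p p k.1) k.2.2, h (cW p p k.2.1) k.2.2) ∈ V'
        rw [hcW.diag, hcW.diag]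
        exact hV'.refl _
      · show (r (cW p p k.1), r (cW p p k.2.1)) ∈ D₁
        rw [hcW.diag, hcW.diag]
        exact hD₁.refl _
    · intro p q t hpq k hk
      obtain ⟨hk1, hk2, hk3⟩ := hk
      obtain ⟨s1, hs1, e1⟩ := a2_star hcW p q t k.1 hk1
      obtain ⟨s2, hs2, e2⟩ := a2_star hcW p q t k.2.1 hk2
      show (h (cW p (cW p q t) k.1) k.2.2, h (cW p (cW p q t) k.2.1) k.2.2) ∈ V' ∧
        (r (cW p (cW p q t) k.1), r (cW p (cW p q t) k.2.1)) ∈ D₁
      rw [e1, e2]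
      exact hpq (s1, s2, k.2.2) ⟨hs1, hs2, hk3⟩
    · intro p q hpq s t a
      rw [a2_clamp hcW p q s, a2_clamp hcW p q t, a2_clamph hs _ a,
        a2_clamph hs (cW p q (max 0 (min 1 t))) a]
      exact (hpq (max 0 (min 1 s), max 0 (min 1 t), max 0 (min 1 a))
        ⟨a2_clamp_mem s, a2_clamp_mem t, a2_clamp_mem a⟩).1
    · intro p q hpq s t
      rw [a2_clamp hcW p q s, a2_clamp hcW p q t]
      exact (hpq (max 0 (min 1 s), max 0 (min 1 t), 0)
        ⟨a2_clamp_mem s, a2_clamp_mem t, ⟨le_rfl, zero_le_one⟩⟩).2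
  -- the swindle space
  have hu := continuous_uu hcW hs
  have hR := continuous_RR hcW hs
  have hRi : ∀ y a, 2 ≤ a → RR cW h y a = i (uu cW h r y) := RR_eq_i hcW hs
  have hycan : Continuous (ycan : W → Yb W) := by
    unfold ycan
    exact continuous_const.prodMk ((continuous_pi fun _ => continuous_id).prodMk continuous_const)
  have hcon := contract hcW hs hTie hV' hD₁
  have hK := soft_contract hcX hcW hs hu hR hycan (Y := YY h DW)
    (ycan_mem_YY hcW hs hTie.diag) (RR_ycan hcW hs) (uu_ycan hcW hs) hRi hDr hDstar hUs hDU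
    (V := Va) hV' h4 hiV hD₁ hD₁U hD₁D hcon
  have hYd : DensLE κ (Yb W) := DensLE.prod hκ (DensLE.real hκ)
    (DensLE.prod hκ (DensLE.pi hκ hW.dens) (DensLE.pi hκ (DensLE.real hκ)))
  have hYae : IsAE (Yb W) := IsAE.prod IsAE.real (IsAE.prod (IsAE.pi hW.ae) (IsAE.pi IsAE.real))
  obtain ⟨ν, a, ω, hν, ha, ha4, hmem, hω, hVω, hHT⟩ := exists_push hκ hX hcX hYd hYae hu hR
    hs.cont_i hRi (isOpen_YY hcW hs hDWo) hDo hDr hUs hDU hVa hV' h8 hiV
  have hSR := a2_continuous_softR hcX hs.cont_i hu hR hRi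
  set SR : X × Yb W × ℝ → W := softR cX (uu cW h r) (RR cW h) i with hSRdef
  have hη : Continuous fun x => SR (x, ν x, a x) :=
    hSR.comp (continuous_id.prodMk (hν.prodMk ha))
  have hjc : Continuous fun w : W => ((r w, ycan w, 0) : X × Yb W × ℝ) :=
    hs.cont_r.prodMk (hycan.prodMk continuous_const)
  have hjm : ∀ w : W, ((r w, ycan w, 0) : X × Yb W × ℝ) ∈ Soft (uu cW h r) (YY h DW) D := by
    intro w
    refine ⟨le_rfl, Or.inr ⟨ycan_mem_YY hcW hs hTie.diag w, ?_⟩⟩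
    show (uu cW h r (ycan w), r w) ∈ D
    rw [uu_ycan hcW hs]
    exact hDr _
  have hjS : ∀ w : W, SR (r w, ycan w, 0) = w := by
    intro w
    have h1 : SR (r w, ycan w, 0) = RR cW h (ycan w) 0 := by
      rw [hSRdef]
      unfold softR
      exact if_pos (by norm_num)
    rw [h1, RR_ycan hcW hs w 0 le_rfl, hs.of_nonpos w 0 le_rfl]
  refine ⟨fun x => SR (x, ν x, a x), ⟨hη, fun w => ω (r w, ycan w, 0),
    hω.comp_continuous hjc hjm, ?_, ?_⟩, ?_⟩
  · intro w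
    have h1 := hVω _ (hjm w)
    rw [hjS w] at h1
    exact hVa2 _ _ _ h1 (hVa.refl _)
  · have hH1 : HT (fun x x' => (SR (x, ν x, a x), SR (x', ν x', a x')) ∈ V) id
        (fun x => ω (x, ν x, a x)) := hHT.mono fun x x' hx => hVa2 _ _ _ hx (hVa.refl _)
    have hH2 : HT (fun x x' => (SR (x, ν x, a x), SR (x', ν x', a x')) ∈ V)
        (fun x => ω (x, ν x, a x))
        (fun x => ω (r (SR (x, ν x, a x)), ycan (SR (x, ν x, a x)), 0)) := by
      have hk : Continuous fun x : X => (⟨(x, ν x, a x), hmem x, ha4 x⟩ :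
          {m : X × Yb W × ℝ // m ∈ Soft (uu cW h r) (YY h DW) D ∧ m.2.2 ≤ 4}) :=
        (continuous_id.prodMk (hν.prodMk ha)).subtype_mk _
      refine hK.comp hk (l := ω) (hω.mono ?_) ?_
      · rintro m ⟨z, hz⟩
        exact hz.1
      · rintro x m ⟨hm1, hm2⟩
        exact hVa2 _ _ _ hm2 (hVω m hm1)
    exact hH1.trans hH2
  · intro x
    obtain ⟨ha0, hor⟩ := hmem x
    have hxa : SR (x, ν x, a x) = if a x ≤ 3 then RR cW h (ν x) (a x)
        else i (cX (uu cW h r (ν x)) x (2 * (a x - 3))) := rfl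
    by_cases h3 : a x ≤ 3
    · have hD : (uu cW h r (ν x), x) ∈ D := by
        rcases hor with h72 | hD
        · exact absurd h72 (by
            show ¬ (7 / 2 : ℝ) < a x
            linarith)
        · exact hD.2
      obtain ⟨x', hx1, hx2⟩ := r_RR hcW hs hU hrU (ν x) (a x) ha0
      refine ⟨uu cW h r (ν x), x', ?_, hx1, ?_⟩
      · exact hU.symm _ _ (hU3 _ _ (hDU hD))
      · show (x', r (SR (x, ν x, a x))) ∈ U
        rw [hxa, if_pos h3]
        exact hx2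
    · have hr : r (SR (x, ν x, a x)) = cX (uu cW h r (ν x)) x (2 * (a x - 3)) := by
        rw [hxa, if_neg h3, hs.ri]
      rcases hor with h72 | hD
      · have h72' : (7 / 2 : ℝ) < a x := h72
        refine ⟨x, x, hU.refl x, hU.refl x, ?_⟩
        show (x, r (SR (x, ν x, a x))) ∈ U
        rw [hr, hcX.of_one_le _ _ _ (by linarith)]
        exact hU.refl x
      · have hD2 : (uu cW h r (ν x), x) ∈ D := hD.2
        refine ⟨uu cW h r (ν x), uu cW h r (ν x), ?_, hU.refl _, ?_⟩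
        · exact hU.symm _ _ (hU3 _ _ (hDU hD2))
        · show (uu cW h r (ν x), r (SR (x, ν x, a x))) ∈ U
          rw [hr, a2_clamp hcX]
          exact hU4 _ _ (hD2 _ (a2_clamp_mem _))

end Pool.Agent.TOR
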