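import Pool.Agent.Lib.MP_5a68e6_TOR.A1
import Pool.Agent.Lib.MP_5a68e6_TOR.A2

set_option autoImplicit false

namespace Pool.Agent.TOR

open Set Filter Topology TopologicalSpace Cardinal

theorem a3_shift {Q : Type} [TopologicalSpace Q] {c : Q → Q → ℝ → Q} {Us : ℕ → Set (Q × Q)}
    (hUs : EntSeq c Us) (k : ℕ) : EntSeq c (fun n => Us (n + k)) := by
  refine ⟨fun n => hUs.ent _, fun n => ?_⟩
  have h := hUs.nest (n + k)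
  have e : n + 1 + k = n + k + 1 := by omega
  show Nest c (Us (n + 1 + k)) (Us (n + k))
  rw [e]
  exact h

theorem stepA {κ : Cardinal.{0}} (hκ : ℵ₀ ≤ κ) {P Q : Type} [TopologicalSpace P]
    [TopologicalSpace Q] (hP : Good κ P) (hQ : Good κ Q) {c : Q → Q → ℝ → Q} (hc : IsComb c)
    {Us : ℕ → Set (Q × Q)} (hUs : EntSeq c Us) {φ : P → Q} (hφ : IsEqv (Us 15) φ)
    {V : Set (P × P)} (hV : IsEnt V) :
    ∃ η : Q → P, IsEqv V η ∧ ∀ q, (q, φ (η q)) ∈ Us 0 := by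
  obtain ⟨i, r, h, hs, h1, h2⟩ := stepA1 hκ hP hQ hc (a3_shift hUs 5) (φ := φ) hφ
  obtain ⟨η, hη, h3⟩ := stepA2 hκ hQ hP hs (hUs.ent (0 + 5)) h1 hV
  refine ⟨η, hη, fun q => ?_⟩
  obtain ⟨x₁, x₂, ha, hb, hd⟩ := h3 q
  have m54 : Us 5 ⊆ Us 4 := hUs.mono hc (by norm_num)
  have m53 : Us 5 ⊆ Us 3 := hUs.mono hc (by norm_num)
  have m20 : Us 2 ⊆ Us 0 := hUs.mono hc (by norm_num)
  have e1 : (q, x₂) ∈ Us 4 := hUs.comp hc ha hb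
  have e2 : (q, r (η q)) ∈ Us 3 := hUs.comp hc e1 (m54 hd)
  have e3 : (r (η q), φ (η q)) ∈ Us 5 := (hUs.ent 5).symm _ _ (h2 (η q))
  exact m20 (hUs.comp hc e2 (m53 e3))

theorem stepI2 {κ : Cardinal.{0}} (hκ : ℵ₀ ≤ κ) {P Q : Type} [TopologicalSpace P]
    [TopologicalSpace Q] (hP : Good κ P) (hQ : Good κ Q) {c : Q → Q → ℝ → Q} (hc : IsComb c)
    {Us : ℕ → Set (Q × Q)} (hUs : EntSeq c Us) {φ : P → Q} (hφ : IsEqv (Us 20) φ)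
    {V : Set (P × P)} (hV : IsEnt V) :
    ∃ D : Set (Q × Q), IsEnt D ∧ ∀ U' : Set (Q × Q), IsEnt U' → ∃ φ' : P → Q, IsEqv U' φ' ∧
      (∀ p, (φ p, φ' p) ∈ Us 0) ∧ ∀ p p', (φ' p, φ' p') ∈ D → (p, p') ∈ V := by
  have := hP.complete
  obtain ⟨cP, hcP⟩ := hP.comb
  obtain ⟨V3, hV3, hV3'⟩ := hV.exists_third
  have hVt : IsEnt (V3 ∩ {p : P × P | (φ p.1, φ p.2) ∈ Us 5}) :=
    hV3.inter ((hUs.ent 5).comap hφ.1)
  obtain ⟨Vs, hVs, hVs0⟩ := exists_entSeq hcP hVt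
  obtain ⟨η, hη, h1⟩ := stepA hκ hP hQ hc (a3_shift hUs 5) (φ := φ) hφ (hVs.ent 15)
  have h1' : ∀ q, (q, φ (η q)) ∈ Us 5 := h1
  refine ⟨{p : Q × Q | (η p.1, η p.2) ∈ V3 ∩ {p : P × P | (φ p.1, φ p.2) ∈ Us 5}},
    hVt.comap hη.1, fun U' hU' => ?_⟩
  obtain ⟨φ', hφ', h2⟩ := stepA hκ hQ hP hcP hVs hη hU'
  rw [hVs0] at h2
  refine ⟨φ', hφ', fun p => ?_, fun p p' hpp => ?_⟩
  · have e1 : (φ p, φ (η (φ' p))) ∈ Us 5 := (h2 p).2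
    have e2 : (φ (η (φ' p)), φ' p) ∈ Us 5 := (hUs.ent 5).symm _ _ (h1' (φ' p))
    exact (hUs.mono hc (by norm_num : 0 ≤ 4)) (hUs.comp hc e1 e2)
  · have e1 : (p, η (φ' p)) ∈ V3 := (h2 p).1
    have e2 : (η (φ' p), η (φ' p')) ∈ V3 := hpp.1
    have e3 : (η (φ' p'), p') ∈ V3 := hV3.symm _ _ (h2 p').1
    exact hV3' _ _ _ _ e1 e2 e3

end Pool.Agent.TOR
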