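import Pool.Agent.Lib.MP_5a68e6_TOR.FN

set_option autoImplicit false
set_option linter.unusedVariables false

namespace Pool.Agent.TOR

open Set Filter Topology TopologicalSpace Cardinal Pool.Agent.HLF

section LF1
variable {E : Type*} [AddCommGroup E] [Module ℝ E] [TopologicalSpace E]
  [IsTopologicalAddGroup E] [ContinuousSMul ℝ E]

omit [IsTopologicalAddGroup E] [ContinuousSMul ℝ E] in
theorem amp_mono {N : E → ℝ} (hN : IsFNorm N) {s t : ℝ} (hs : 0 ≤ s) (hst : s ≤ t) (x : E) :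
    N (s • x) ≤ N (t • x) := by
  rcases hs.eq_or_lt with h | h
  · rw [← h, zero_smul, hN.zero]; exact hN.nonneg _
  · have ht : 0 < t := h.trans_le hst
    have h1 : s • x = (s / t) • (t • x) := by
      rw [smul_smul, div_mul_cancel₀ _ ht.ne']
    rw [h1]
    apply hN.smul_le
    rw [abs_of_nonneg (div_nonneg hs ht.le)]
    exact (div_le_one ht).2 hst

/-- selection of almost maximal amplitudes -/
theorem exists_amplitude [MetrizableSpace E] {C : Set E} {N : E → ℝ} (hN : IsFNorm N)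
    {r : C → ℝ} (hr0 : ∀ x, 0 < r x) (hrc : Continuous r)
    (hr : ∀ x y : C, r x ≤ r y + N ((x : E) - y)) {b : ℝ → ℝ} (hb0 : ∀ s, 0 ≤ b s) (hb : Monotone b)
    (hb' : ∀ ε > 0, ∃ s > 0, b s < ε) {α β m : ℝ} (hα : 0 < α) (hαβ : α < β) (hβ : β ≤ 1)
    (hm : 0 < m) (hm1 : m ≤ 1) :
    ∃ t : C → ℝ, Continuous t ∧ (∀ x, 0 < t x ∧ t x ≤ m) ∧
      (∀ x : C, N (t x • (x : E)) + b (t x) < β * r x) ∧
      ∀ (x : C) (s : ℝ), 0 < s → s ≤ m → N (s • (x : E)) + b s < α * r x → s ≤ 2 * t x := by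
  classical
  have hNc := hN.continuous
  let T : C → Set ℝ := fun x => {t | 0 < t ∧ t ≤ m ∧ N (t • (x : E)) + b t < β * r x ∧
    ∀ s, 0 < s → s ≤ m → N (s • (x : E)) + b s < α * r x → s ≤ 2 * t}
  have hTconv : ∀ x, Convex ℝ (T x) := by
    intro x
    refine OrdConnected.convex ⟨?_⟩
    rintro t1 ⟨h1, h2, h3, h4⟩ t2 ⟨k1, k2, k3, k4⟩ t ⟨ht1, ht2⟩
    refine ⟨h1.trans_le ht1, ht2.trans k2, ?_, fun s hs hsm h => ?_⟩
    · have e1 := amp_mono hN (h1.trans_le ht1).le ht2 (x : E)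
      have e2 := hb ht2
      linarith
    · have := h4 s hs hsm h
      linarith
  have hloc : ∀ x0 : C, ∃ t0 : ℝ, ∀ᶠ y in 𝓝 x0, t0 ∈ T y := by
    intro x0
    set γ : ℝ := (α + β) / 2 with hγ
    have hαγ : α < γ := by rw [hγ]; linarith
    have hγβ : γ < β := by rw [hγ]; linarith
    have hγ0 : 0 < γ := hα.trans hαγ
    have hrx := hr0 x0
    set A : Set ℝ := {s | 0 < s ∧ s ≤ m ∧ N (s • (x0 : E)) + b s < γ * r x0} with hA
    have hAne : A.Nonempty := by
      have h1 : 0 < γ * r x0 / 2 := by positivity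
      obtain ⟨s1, hs1, hbs1⟩ := hb' _ h1
      have h2 : ∀ᶠ t in 𝓝[>] (0 : ℝ), N (t • (x0 : E)) < γ * r x0 / 2 :=
        ((hN.smul_tendsto (x0 : E)).eventually (gt_mem_nhds h1)).filter_mono nhdsWithin_le_nhds
      have h3 : ∀ᶠ t in 𝓝[>] (0 : ℝ), t < s1 :=
        (gt_mem_nhds hs1 : ∀ᶠ t in 𝓝 (0 : ℝ), t < s1).filter_mono nhdsWithin_le_nhds
      have h4 : ∀ᶠ t in 𝓝[>] (0 : ℝ), t < m :=
        (gt_mem_nhds hm : ∀ᶠ t in 𝓝 (0 : ℝ), t < m).filter_mono nhdsWithin_le_nhds
      have h5 : ∀ᶠ t in 𝓝[>] (0 : ℝ), 0 < t := self_mem_nhdsWithin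
      obtain ⟨t, k2, k3, k4, k5⟩ := (h2.and (h3.and (h4.and h5))).exists
      refine ⟨t, k5, k4.le, ?_⟩
      have := hb k3.le
      linarith
    have hAbdd : BddAbove A := ⟨m, fun s hs => hs.2.1⟩
    set s0 := sSup A with hs0
    have hs0pos : 0 < s0 := by
      obtain ⟨s, hs⟩ := hAne
      exact hs.1.trans_le (le_csSup hAbdd hs)
    have hs0m : s0 ≤ m := csSup_le hAne fun s hs => hs.2.1
    obtain ⟨s, hsA, hts⟩ := exists_lt_of_lt_csSup hAne (show 3 / 4 * s0 < s0 by linarith)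
    refine ⟨3 / 4 * s0, ?_⟩
    have ht0 : 0 < 3 / 4 * s0 := by linarith
    have h1 : N ((3 / 4 * s0) • (x0 : E)) + b (3 / 4 * s0) < β * r x0 := by
      have e1 := amp_mono hN ht0.le hts.le (x0 : E)
      have e2 := hb hts.le
      have e3 := hsA.2.2
      have e4 : γ * r x0 < β * r x0 := mul_lt_mul_of_pos_right hγβ hrx
      linarith
    have h2 : ∀ᶠ y : C in 𝓝 x0, N ((3 / 4 * s0) • (y : E)) + b (3 / 4 * s0) < β * r y := by
      have c1 : Continuous fun y : C => N ((3 / 4 * s0) • (y : E)) + b (3 / 4 * s0) :=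
        (hNc.comp (continuous_subtype_val.const_smul _)).add continuous_const
      have c2 : Continuous fun y : C => β * r y := continuous_const.mul hrc
      exact (c1.tendsto x0).eventually_lt (c2.tendsto x0) h1
    have h3 : ∀ᶠ y : C in 𝓝 x0, α * r y + N ((x0 : E) - y) < γ * r x0 := by
      have c1 : Continuous fun y : C => α * r y + N ((x0 : E) - y) :=
        (continuous_const.mul hrc).add (hNc.comp (continuous_const.sub continuous_subtype_val))
      have e : α * r x0 + N ((x0 : E) - x0) < γ * r x0 := by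
        rw [sub_self, hN.zero, add_zero]
        exact mul_lt_mul_of_pos_right hαγ hrx
      exact (c1.tendsto x0).eventually (gt_mem_nhds e)
    filter_upwards [h2, h3] with y hy2 hy3
    refine ⟨ht0, by linarith, hy2, fun s' hs' hs'm h => ?_⟩
    have hs'A : s' ∈ A := by
      refine ⟨hs', hs'm, ?_⟩
      have e1 : N (s' • (x0 : E)) ≤ N (s' • (y : E)) + N (s' • ((x0 : E) - y)) := by
        have : s' • (x0 : E) = s' • (y : E) + s' • ((x0 : E) - y) := by
          rw [smul_sub]; abel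
        rw [this]
        exact hN.add_le _ _
      have e2 : N (s' • ((x0 : E) - y)) ≤ N ((x0 : E) - y) := by
        apply hN.smul_le
        rw [abs_of_pos hs']
        linarith
      linarith
    have := le_csSup hAbdd hs'A
    linarith
  have hpara : ParacompactSpace C := by
    let _ := metrizableSpaceMetric C
    infer_instance
  obtain ⟨g, hg⟩ := exists_continuous_forall_mem_convex_of_local_const hTconv hloc
  exact ⟨g, g.continuous, fun x => ⟨(hg x).1, (hg x).2.1⟩, fun x => (hg x).2.2.1,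
    fun x s h1 h2 h3 => (hg x).2.2.2 s h1 h2 h3⟩

end LF1

end Pool.Agent.TOR
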