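import Pool.Agent.Lib.MP_5a68e6_TOR.Dug
import Pool.Agent.Lib.MP_5a68e6_TOR.Ent

set_option autoImplicit false

namespace Pool.Agent.TOR

open Set Filter Topology TopologicalSpace Cardinal

/-- a retraction of a Banach space onto a completely metrized absolute extensor -/
theorem base_retraction {X : Type} [MetricSpace X] [CompleteSpace X] [Nonempty X]
    (hX : IsAE X) : ∃ (ι : X → BoundedContinuousFunction X ℝ)
      (rr : BoundedContinuousFunction X ℝ → X), Isometry ι ∧ Continuous rr ∧ ∀ x, rr (ι x) = x := by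
  obtain ⟨ι, hι⟩ := exists_kuratowski X
  have hcl : IsClosedEmbedding ι := hι.isClosedEmbedding
  let e : X ≃ₜ range ι := hcl.isEmbedding.toHomeomorph
  obtain ⟨g, hg, hgA⟩ := hX (BoundedContinuousFunction X ℝ) (range ι) hcl.isClosed_range
    e.symm e.symm.continuous
  refine ⟨ι, g, hι, hg, fun x => ?_⟩
  have h1 := hgA (e x)
  rw [e.symm_apply_apply] at h1
  exact h1

/-- the radius -/
theorem base_radius {X : Type} [MetricSpace X] {L : Type} [NormedAddCommGroup L]
    {ι : X → L} {rr : L → X} (hrr : Continuous rr) (hr : ∀ x, rr (ι x) = x)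
    {U : Set (X × X)} (hU : IsEnt U) {ρ : X → ℝ} (hρ : Continuous ρ) (hρ0 : ∀ x, 0 < ρ x) (x : X) :
    ∃ ζ : ℝ, 0 < ζ ∧ (∀ x' l, dist x' x < ζ → dist l (ι x) < 2 * ζ → (x', rr l) ∈ U) ∧
      ∀ x', dist x' x < ζ → ρ x / 2 < ρ x' := by
  have h1 : {p : X × L | (p.1, rr p.2) ∈ U} ∈ 𝓝 (x, ι x) := by
    refine (hU.isOpen.preimage (f := fun p : X × L => (p.1, rr p.2)) (by fun_prop)).mem_nhds ?_
    show (x, rr (ι x)) ∈ U
    rw [hr]
    exact hU.refl x
  obtain ⟨ε, hε, hball⟩ := Metric.mem_nhds_iff.1 h1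
  have h2 : {x' | ρ x / 2 < ρ x'} ∈ 𝓝 x := by
    refine (isOpen_lt continuous_const hρ).mem_nhds ?_
    show ρ x / 2 < ρ x
    linarith [hρ0 x]
  obtain ⟨ε', hε', hball'⟩ := Metric.mem_nhds_iff.1 h2
  refine ⟨min (ε / 2) ε', lt_min (half_pos hε) hε', ?_, ?_⟩
  · intro x' l hx' hl
    have hlt : min (ε / 2) ε' ≤ ε / 2 := min_le_left _ _
    have : (x', l) ∈ Metric.ball (x, ι x) ε := by
      rw [Metric.mem_ball, Prod.dist_eq]
      exact max_lt (by linarith) (by linarith)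
    exact hball this
  · intro x' hx'
    exact hball' (Metric.mem_ball.2 (hx'.trans_le (min_le_right _ _)))

/-- the number of nonempty supports of a locally finite family of open sets -/
theorem base_card {κ : Cardinal.{0}} (hκ : ℵ₀ ≤ κ) {Y : Type} [TopologicalSpace Y]
    (hY : DensLE κ Y) {I : Type} {f : I → Y → ℝ} (hf : ∀ i, Continuous (f i))
    (hlf : LocallyFinite fun i => {y | f i y ≠ 0}) :
    #{i // ∃ y, f i y ≠ 0} ≤ κ := by
  obtain ⟨D, hD, hDκ⟩ := hY
  have hex : ∀ b : {i // ∃ y, f i y ≠ 0}, ∃ d : D, f b.1 d ≠ 0 := by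
    rintro ⟨i, y, hy⟩
    have hopen : IsOpen {y | f i y ≠ 0} := isOpen_ne_fun (hf i) continuous_const
    obtain ⟨d, hd, hdD⟩ := hD.inter_open_nonempty _ hopen ⟨y, hy⟩
    exact ⟨⟨d, hdD⟩, hd⟩
  choose d hd using hex
  have hinj : Function.Injective
      (fun b : {i // ∃ y, f i y ≠ 0} => (⟨d b, b.1, hd b⟩ : Σ d : D, {i : I // f i d ≠ 0})) := by
    intro b b' h
    have h2 := congrArg (fun s : Σ d : D, {i : I // f i d ≠ 0} => s.2.1) h
    exact Subtype.ext h2
  refine (Cardinal.mk_le_of_injective hinj).trans ?_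
  rw [Cardinal.mk_sigma]
  calc Cardinal.sum (fun d : D => #{i : I // f i d ≠ 0})
      ≤ Cardinal.sum (fun _ : D => ℵ₀) := by
        refine Cardinal.sum_le_sum _ _ fun d => ?_
        have hfin : {i : I | f i d ≠ 0}.Finite := hlf.point_finite (d : Y)
        have : Finite {i : I // f i d ≠ 0} := hfin.to_subtype
        exact (Cardinal.lt_aleph0_of_finite _).le
    _ = #D * ℵ₀ := by rw [Cardinal.sum_const']
    _ ≤ κ * κ := mul_le_mul' hDκ hκ
    _ = κ := Cardinal.mul_eq_self hκ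

theorem exists_base {κ : Cardinal.{0}} (hκ : ℵ₀ ≤ κ) {X : Type} [TopologicalSpace X]
    [IsCompletelyMetrizableSpace X] [Nonempty X] (hX : IsAE X) {Y : Type} [TopologicalSpace Y]
    [MetrizableSpace Y] (hY : DensLE κ Y) {u : Y → X} (hu : Continuous u) {U : Set (X × X)}
    (hU : IsEnt U) {V : Set (Y × Y)} (hV : IsEnt V) {ρ : X → ℝ} (hρ : Continuous ρ)
    (hρ0 : ∀ x, 0 < ρ x) :
    ∃ (B : Type) (lam : B → Y → ℝ) (δ : B → ℝ) (K : Finset B → Set X), #B ≤ κ ∧
      (∀ b, Continuous (lam b)) ∧ LocallyFinite (fun b => {y | lam b y ≠ 0}) ∧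
      (∀ b y, 0 ≤ lam b y) ∧ (∀ y, ∃ b, 0 < lam b y) ∧
      (∀ b y y', lam b y ≠ 0 → lam b y' ≠ 0 → (y, y') ∈ V) ∧
      (∀ b, 0 < δ b) ∧ (∀ b y, lam b y ≠ 0 → δ b ≤ ρ (u y)) ∧ (∀ F, IsCompact (K F)) ∧
      ∀ ξ : B → Y → ℝ, (∀ b, Continuous (ξ b)) → LocallyFinite (fun b => {y | ξ b y ≠ 0}) →
        (∀ b y, 0 ≤ ξ b y) → (∀ y, ∑ᶠ b, ξ b y = 1) → (∀ b y, ξ b y ≠ 0 → 0 < lam b y) →
        ∃ base : Y → X, Continuous base ∧ (∀ y, (u y, base y) ∈ U) ∧
          ∀ y (F : Finset B), (∀ b, ξ b y ≠ 0 → b ∈ F) → base y ∈ K F := by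
  let _ := TopologicalSpace.upgradeIsCompletelyMetrizable X
  let _ := TopologicalSpace.metrizableSpaceMetric Y
  obtain ⟨ι, rr, hι, hrr, hr⟩ := base_retraction hX
  choose ζ hζ0 hζU hζρ using base_radius hrr hr hU hρ hρ0
  obtain ⟨V₁, hV₁, hVV⟩ := hV.exists_half
  -- the cover
  set O : Y → Set Y := fun y₀ => {y | dist (u y) (u y₀) < ζ (u y₀) ∧ (y, y₀) ∈ V₁} with hO
  have hOo : ∀ y₀, IsOpen (O y₀) := by
    intro y₀
    have h1 : Continuous fun y => dist (u y) (u y₀) := hu.dist continuous_const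
    refine (isOpen_lt h1 continuous_const).inter ?_
    exact hV₁.isOpen.preimage (f := fun y : Y => (y, y₀)) (by fun_prop)
  have hOc : (univ : Set Y) ⊆ ⋃ y₀, O y₀ := by
    intro y _
    refine mem_iUnion.2 ⟨y, ?_, hV₁.refl y⟩
    rw [dist_self]
    exact hζ0 _
  obtain ⟨f, hf⟩ := PartitionOfUnity.exists_isSubordinate isClosed_univ O hOo hOc
  have hfO : ∀ y₀ y, f y₀ y ≠ 0 → y ∈ O y₀ := fun y₀ y h => hf y₀ (subset_closure h)
  have hflf : LocallyFinite fun y₀ => {y | f y₀ y ≠ 0} := f.locallyFinite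
  have hfcont : ∀ y₀, Continuous (fun y => f y₀ y) := fun y₀ => (f y₀).continuous
  let B : Type := {y₀ : Y // ∃ y, f y₀ y ≠ 0}
  let xx : B → X := fun b => u b.1
  refine ⟨B, fun b y => f b.1 y, fun b => ρ (xx b) / 2,
    fun F => rr '' convexHull ℝ ((fun b => ι (xx b)) '' (F : Set B)), ?_, ?_, ?_, ?_, ?_, ?_, ?_,
    ?_, ?_, ?_⟩
  · exact base_card hκ hY hfcont hflf
  · exact fun b => hfcont b.1
  · exact hflf.comp_injective Subtype.val_injective
  · exact fun b y => f.nonneg b.1 y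
  · intro y
    obtain ⟨y₀, hy₀⟩ := f.exists_pos (mem_univ y)
    exact ⟨⟨y₀, y, hy₀.ne'⟩, hy₀⟩
  · intro b y y' hy hy'
    exact hVV y b.1 y' (hfO _ _ hy).2 (hV₁.symm _ _ (hfO _ _ hy').2)
  · exact fun b => half_pos (hρ0 _)
  · intro b y hy
    exact (hζρ (u b.1) (u y) (hfO _ _ hy).1).le
  · intro F
    exact ((((F.finite_toSet).image _).isCompact_convexHull (𝕜 := ℝ))).image hrr
  · intro ξ hξc hξlf hξ0 hξ1 hξs
    have hfin : ∀ y, {b | ξ b y ≠ 0}.Finite := fun y => hξlf.point_finite y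
    have hsum : ∀ y, ∑ᶠ b, ξ b y • ι (xx b) = ∑ b ∈ (hfin y).toFinset, ξ b y • ι (xx b) := by
      intro y
      refine finsum_eq_sum_of_support_subset _ ?_
      intro b hb
      rw [Function.mem_support] at hb
      simp only [Finite.coe_toFinset, mem_ofPred_eq]
      exact fun h => hb (by rw [h, zero_smul])
    have hsum1 : ∀ y, ∑ b ∈ (hfin y).toFinset, ξ b y = 1 := by
      intro y
      rw [← hξ1 y]
      symm
      refine finsum_eq_sum_of_support_subset _ ?_
      intro b hb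
      simpa using hb
    refine ⟨fun y => rr (∑ᶠ b, ξ b y • ι (xx b)), ?_, ?_, ?_⟩
    · refine hrr.comp ?_
      refine continuous_finsum (fun b => (hξc b).smul continuous_const) ?_
      refine hξlf.subset fun b y hy => ?_
      rw [Function.mem_support] at hy
      exact fun h => hy (by rw [h, zero_smul])
    · intro y
      have hne : (hfin y).toFinset.Nonempty := by
        by_contra hcon
        rw [Finset.not_nonempty_iff_eq_empty] at hcon
        have := hsum1 y
        rw [hcon, Finset.sum_empty] at this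
        exact zero_ne_one this
      obtain ⟨b₀, hb₀, hmax⟩ := Finset.exists_max_image (hfin y).toFinset (fun b => ζ (xx b)) hne
      have hdist : ∀ b ∈ (hfin y).toFinset, dist (u y) (xx b) < ζ (xx b) := by
        intro b hb
        have hb' : ξ b y ≠ 0 := by simpa using hb
        exact (hfO b.1 y (hξs b y hb').ne').1
      refine hζU (xx b₀) (u y) _ (hdist b₀ hb₀) ?_
      rw [hsum y, ← Metric.mem_ball]
      refine (convex_ball (ι (xx b₀)) (2 * ζ (xx b₀))).sum_mem (fun b _ => hξ0 b y) (hsum1 y) ?_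
      intro b hb
      rw [Metric.mem_ball, hι.dist_eq]
      have h1 := hdist b hb
      have h2 := hdist b₀ hb₀
      have h3 := hmax b hb
      have h4 := dist_triangle (xx b) (u y) (xx b₀)
      rw [dist_comm (xx b) (u y)] at h4
      linarith
    · intro y F hF
      refine mem_image_of_mem _ ?_
      rw [hsum y]
      refine (convex_convexHull ℝ _).sum_mem (fun b _ => hξ0 b y) (hsum1 y) ?_
      intro b hb
      have hb' : ξ b y ≠ 0 := by simpa using hb
      exact subset_convexHull ℝ _ (mem_image_of_mem _ (hF b hb'))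

end Pool.Agent.TOR
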