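import Pool.Agent.Lib.MP_5a68e6_TOR.Defs

set_option autoImplicit false

namespace Pool.Agent.TOR

open Set Filter Topology TopologicalSpace Cardinal

theorem isComb_convex {E : Type} [AddCommGroup E] [Module ℝ E] [TopologicalSpace E]
    [IsTopologicalAddGroup E] [ContinuousSMul ℝ E] {C : Set E} (hC : Convex ℝ C) :
    ∃ c : C → C → ℝ → C, IsComb c := by
  have hcl0 : ∀ t, 0 ≤ cl t := fun t => le_min zero_le_one (le_max_left _ _)
  have hcl1 : ∀ t, cl t ≤ 1 := fun t => min_le_left _ _
  have hmem : ∀ (x y : C) (t : ℝ), (1 - cl t) • (x : E) + cl t • (y : E) ∈ C := fun x y t =>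
    hC x.2 y.2 (by linarith [hcl1 t]) (hcl0 t) (by ring)
  refine ⟨fun x y t => ⟨(1 - cl t) • (x : E) + cl t • (y : E), hmem x y t⟩, ?_⟩
  have hclc : Continuous cl := by
    unfold cl
    fun_prop
  constructor
  · apply Continuous.subtype_mk
    have h1 : Continuous fun p : C × C × ℝ => cl p.2.2 := hclc.comp (by fun_prop)
    have h2 : Continuous fun p : C × C × ℝ => (p.1 : E) := by fun_prop
    have h3 : Continuous fun p : C × C × ℝ => (p.2.1 : E) := by fun_prop
    exact ((continuous_const.sub h1).smul h2).add (h1.smul h3)
  · intro x y t ht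
    ext
    have : cl t = 0 := by
      unfold cl
      rw [max_eq_left ht, min_eq_right zero_le_one]
    simp [this]
  · intro x y t ht
    ext
    have : cl t = 1 := by
      unfold cl
      rw [max_eq_right (zero_le_one.trans ht), min_eq_left ht]
    simp [this]
  · intro x t
    ext
    show (1 - cl t) • (x : E) + cl t • (x : E) = x
    rw [← add_smul]
    simp
  · intro x y t
    ext
    show (1 - cl t) • (x : E) + cl t • (y : E) = (1 - cl (1 - t)) • (y : E) + cl (1 - t) • (x : E)
    have : cl (1 - t) = 1 - cl t := by
      unfold cl
      rcases le_total t 0 with h | h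
      · rw [max_eq_left h, min_eq_right zero_le_one, max_eq_right (by linarith),
          min_eq_left (by linarith)]
        ring
      · rcases le_total t 1 with h' | h'
        · rw [max_eq_right h, min_eq_right h', max_eq_right (by linarith),
            min_eq_right (by linarith)]
        · rw [max_eq_right h, min_eq_left h', max_eq_left (by linarith),
            min_eq_right zero_le_one]
          ring
    rw [this, add_comm]
    congr 2
    ring
  · intro x y s t hs0 hs1 ht0 ht1
    have hs : cl s = s := by
      unfold cl
      rw [max_eq_right hs0, min_eq_right hs1]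
    have ht : cl t = t := by
      unfold cl
      rw [max_eq_right ht0, min_eq_right ht1]
    have hst : cl (s * t) = s * t := by
      unfold cl
      rw [max_eq_right (mul_nonneg hs0 ht0), min_eq_right (mul_le_one₀ hs1 ht0 ht1)]
    ext
    show (1 - cl t) • (x : E) + cl t • ((1 - cl s) • (x : E) + cl s • (y : E)) =
      (1 - cl (s * t)) • (x : E) + cl (s * t) • (y : E)
    rw [hs, ht, hst]
    module

end Pool.Agent.TOR
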