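import Pool.Agent.Lib.MP_5a68e6_TOR.Defs

set_option autoImplicit false

namespace Pool.Agent.TOR

open Set Filter Topology TopologicalSpace Cardinal

theorem dsub_finsupp {D : Type} {κ : Cardinal.{0}} (hκ : ℵ₀ ≤ κ) (hD : #D ≤ κ) :
    #(D →₀ ℚ) ≤ κ := by
  classical
  cases isEmpty_or_nonempty D with
  | inl h =>
    have : Countable (D →₀ ℚ) := inferInstance
    exact (Cardinal.mk_le_aleph0_iff.2 this).trans hκ
  | inr h =>
    rw [Cardinal.mk_finsupp_of_infinite']
    exact max_le hD ((Cardinal.mk_le_aleph0_iff.2 inferInstance).trans hκ)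

theorem dsub_span {E : Type} [AddCommGroup E] [Module ℝ E]
    [TopologicalSpace E] [IsTopologicalAddGroup E] [ContinuousSMul ℝ E]
    {D : Set E} {κ : Cardinal.{0}} (hκ : ℵ₀ ≤ κ) (hD : #D ≤ κ) :
    ∃ S : Set E, #S ≤ κ ∧ (Submodule.span ℝ D : Set E) ⊆ closure S := by
  classical
  let f : (D →₀ ℚ) →+ E := Finsupp.liftAddHom (fun d : D =>
    ((smulAddHom ℝ E).flip (d : E)).comp (Rat.castHom ℝ).toAddMonoidHom)
  have hfs : ∀ (l : D →₀ ℚ), f l = l.sum (fun d q => (q : ℝ) • (d : E)) := fun l => rfl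
  have hsingle : ∀ (d : D) (q : ℚ), f (Finsupp.single d q) = (q : ℝ) • (d : E) := by
    intro d q
    rw [hfs, Finsupp.sum_single_index]
    simp
  have hsmul : ∀ (q : ℚ) (l : D →₀ ℚ), f (q • l) = (q : ℝ) • f l := by
    intro q l
    rw [hfs, hfs, Finsupp.sum_smul_index (by simp), Finsupp.smul_sum]
    simp [mul_smul]
  refine ⟨(f.range : Set E), ?_, ?_⟩
  · refine le_trans ?_ (dsub_finsupp hκ hD)
    rw [AddMonoidHom.coe_range]
    exact Cardinal.mk_range_le
  · intro x hx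
    have hcl : ((f.range.topologicalClosure : AddSubgroup E) : Set E) = closure (f.range : Set E) :=
      rfl
    rw [← hcl]
    refine Submodule.span_induction (p := fun x _ => x ∈ f.range.topologicalClosure)
      ?_ ?_ ?_ ?_ hx
    · intro d hd
      apply AddSubgroup.le_topologicalClosure
      exact ⟨Finsupp.single ⟨d, hd⟩ 1, by rw [hsingle]; simp⟩
    · exact zero_mem _
    · intro x y _ _ h1 h2
      exact add_mem h1 h2
    · intro a x _ h
      have ha : a ∈ closure (range ((↑) : ℚ → ℝ)) := Rat.denseRange_cast a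
      exact map_mem_closure₂ (f := fun (a : ℝ) (x : E) => a • x) continuous_smul ha h (by
        rintro _ ⟨q, rfl⟩ _ ⟨l, rfl⟩
        exact ⟨q • l, hsmul q l⟩)

theorem dsub_subset {X : Type} [TopologicalSpace X] [MetrizableSpace X] {C S : Set X}
    {κ : Cardinal.{0}} (hκ : ℵ₀ ≤ κ) (hS : #S ≤ κ) (hCS : C ⊆ closure S) : DensLE κ C := by
  classical
  let _ := metrizableSpaceMetric X
  let T := {p : S × ℕ // (Metric.ball (p.1 : X) (1 / ((p.2 : ℝ) + 1)) ∩ C).Nonempty}
  let g : T → C := fun p => ⟨p.2.choose, p.2.choose_spec.2⟩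
  have hg : ∀ p : T, dist (g p : X) (p.1.1 : X) < 1 / ((p.1.2 : ℝ) + 1) := fun p =>
    p.2.choose_spec.1
  refine ⟨range g, ?_, ?_⟩
  · rw [Metric.dense_iff]
    intro x ε hε
    obtain ⟨n, hn⟩ := exists_nat_one_div_lt (half_pos hε)
    have hn0 : (0 : ℝ) < 1 / ((n : ℝ) + 1) := by positivity
    obtain ⟨s, hs, hxs⟩ := Metric.mem_closure_iff.1 (hCS x.2) _ hn0
    let p : T := ⟨(⟨s, hs⟩, n), ⟨x, by simpa [Metric.mem_ball] using hxs, x.2⟩⟩
    refine ⟨g p, ?_, p, rfl⟩
    rw [Metric.mem_ball, Subtype.dist_eq]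
    have h1 := hg p
    have h2 : dist (g p : X) (x : X) ≤ dist (g p : X) s + dist s (x : X) := dist_triangle _ _ _
    have h3 : dist s (x : X) < 1 / ((n : ℝ) + 1) := by rw [dist_comm]; exact hxs
    have h4 : dist (g p : X) s < 1 / ((n : ℝ) + 1) := h1
    linarith
  · refine Cardinal.mk_range_le.trans ?_
    refine (Cardinal.mk_subtype_le _).trans ?_
    rw [Cardinal.mk_prod]
    simp only [Cardinal.lift_id]
    exact Cardinal.mul_le_of_le hκ hS (by simpa using hκ)

/-- density of subsets of the closed span of a small set -/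
theorem densLE_of_subset_closure_span {E : Type} [AddCommGroup E] [Module ℝ E]
    [TopologicalSpace E] [IsTopologicalAddGroup E] [ContinuousSMul ℝ E] [MetrizableSpace E]
    {C D : Set E} {κ : Cardinal.{0}} (hκ : ℵ₀ ≤ κ) (hD : #D ≤ κ)
    (hCD : C ⊆ closure (Submodule.span ℝ D : Set E)) : DensLE κ C := by
  obtain ⟨S, hS, hDS⟩ := dsub_span hκ hD
  exact dsub_subset hκ hS (hCD.trans (closure_minimal hDS isClosed_closure))

/-- the density character -/
theorem exists_density_char (X : Type) [TopologicalSpace X] (hX : ¬ SeparableSpace X) :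
    ∃ κ : Cardinal.{0}, ℵ₀ < κ ∧ DensLE κ X ∧ ∀ κ', DensLE κ' X → κ ≤ κ' := by
  have hne : {κ : Cardinal.{0} | DensLE κ X}.Nonempty := ⟨_, univ, dense_univ, le_rfl⟩
  refine ⟨sInf {κ : Cardinal.{0} | DensLE κ X}, ?_, csInf_mem hne, ?_⟩
  · by_contra hcon
    push Not at hcon
    obtain ⟨D, hD, hDc⟩ := csInf_mem hne
    exact hX ⟨⟨D, Cardinal.mk_le_aleph0_iff.1 (hDc.trans hcon), hD⟩⟩
  · intro κ' hκ'
    exact csInf_le' hκ'

end Pool.Agent.TOR
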