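import Mathlib

/-!
# Project TOR (MP_5a68e6_gt, frozen statement S13221): definitions

Conventions. All spaces live in `Type`.  Parameters `t` of paths / homotopies are REAL numbers; a
homotopy is a function `H : Z → ℝ → Y` which is jointly continuous and constant for `t ≤ 0` and for
`1 ≤ t`.
-/

set_option autoImplicit false

namespace Pool.Agent.TOR

open Set Filter Topology TopologicalSpace Cardinal

/-- `U` is an entourage of `X`: a symmetric open neighbourhood of the diagonal. -/
structure IsEnt {X : Type*} [TopologicalSpace X] (U : Set (X × X)) : Prop where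
  isOpen : IsOpen U
  refl : ∀ x, (x, x) ∈ U
  symm : ∀ x y, (x, y) ∈ U → (y, x) ∈ U

/-- A combing of `X` (in the applications: `c x y t = (1 - t) x + t y` in a convex set, `t` clamped
to `[0,1]`). -/
structure IsComb {X : Type*} [TopologicalSpace X] (c : X → X → ℝ → X) : Prop where
  cont : Continuous fun p : X × X × ℝ => c p.1 p.2.1 p.2.2
  of_nonpos : ∀ x y t, t ≤ 0 → c x y t = x
  of_one_le : ∀ x y t, 1 ≤ t → c x y t = y
  diag : ∀ x t, c x x t = x
  symm : ∀ x y t, c x y t = c y x (1 - t)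
  assoc : ∀ x y s t, 0 ≤ s → s ≤ 1 → 0 ≤ t → t ≤ 1 → c x (c x y s) t = c x y (s * t)

/-- `U` is much smaller than `V` (with respect to the combing `c`). -/
def Nest {X : Type*} (c : X → X → ℝ → X) (U V : Set (X × X)) : Prop :=
  ∀ x y z, (x, y) ∈ U → (y, z) ∈ U → ∀ s t, (c x z s, c x z t) ∈ V

/-- A sequence of entourages, each much smaller than the previous one. -/
structure EntSeq {X : Type*} [TopologicalSpace X] (c : X → X → ℝ → X) (Us : ℕ → Set (X × X)) :
    Prop where
  ent : ∀ n, IsEnt (Us n)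
  nest : ∀ n, Nest c (Us (n + 1)) (Us n)

/-- Absolute extensor for metrizable spaces (the form used in the frozen statement). -/
def IsAE (X : Type) [TopologicalSpace X] : Prop :=
  ∀ (Y : Type) [TopologicalSpace Y] [MetrizableSpace Y] (A : Set Y), IsClosed A →
    ∀ f : A → X, Continuous f → ∃ g : Y → X, Continuous g ∧ ∀ a : A, g a = f a

/-- Density at most `κ`. -/
def DensLE (κ : Cardinal.{0}) (X : Type) [TopologicalSpace X] : Prop :=
  ∃ D : Set X, Dense D ∧ #D ≤ κ

/-- `g : Y → X` is a `V`-map (`V` an entourage of `Y`): small sets have `V`-small preimages. -/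
def IsVMap {X Y : Type*} [TopologicalSpace X] (V : Set (Y × Y)) (g : Y → X) : Prop :=
  ∀ x : X, ∃ O ∈ 𝓝 x, ∀ y y', g y ∈ O → g y' ∈ O → (y, y') ∈ V

/-- Every map from a metrizable space of density at most `κ` can be approximated by `V`-maps. -/
def IsSU (κ : Cardinal.{0}) (X : Type) [TopologicalSpace X] : Prop :=
  ∀ (Y : Type) [TopologicalSpace Y] [MetrizableSpace Y], DensLE κ Y →
    ∀ u : Y → X, Continuous u → ∀ U, IsEnt U → ∀ V : Set (Y × Y), IsEnt V →
      ∃ g : Y → X, Continuous g ∧ (∀ y, (u y, g y) ∈ U) ∧ IsVMap V g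

/-- The spaces of the main theorem. -/
structure Good (κ : Cardinal.{0}) (X : Type) [TopologicalSpace X] : Prop where
  nonempty : Nonempty X
  complete : IsCompletelyMetrizableSpace X
  dens : DensLE κ X
  comb : ∃ c : X → X → ℝ → X, IsComb c
  ae : IsAE X
  su : IsSU κ X

/-- Homotopic, by a homotopy whose track at `z` stays in `{y | S z y}`. -/
def HT {Z Y : Type*} [TopologicalSpace Z] [TopologicalSpace Y] (S : Z → Y → Prop)
    (f g : Z → Y) : Prop :=
  ∃ H : Z → ℝ → Y, Continuous (fun p : Z × ℝ => H p.1 p.2) ∧ (∀ z t, t ≤ 0 → H z t = f z) ∧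
    (∀ z t, 1 ≤ t → H z t = g z) ∧ ∀ z t, S z (H z t)

/-- `φ : P → Q` is a `U`-equivalence (`U` an entourage of `Q`). -/
def IsEqv {P Q : Type*} [TopologicalSpace P] [TopologicalSpace Q] (U : Set (Q × Q))
    (φ : P → Q) : Prop :=
  Continuous φ ∧ ∃ ψ : Q → P, Continuous ψ ∧ (∀ q, (q, φ (ψ q)) ∈ U) ∧
    HT (fun p p' => (φ p, φ p') ∈ U) id (ψ ∘ φ)

/-- clamp to `[0,1]` -/
noncomputable def cl (t : ℝ) : ℝ := min 1 (max 0 t)

end Pool.Agent.TOR
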