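import Pool.Agent.Lib.MP_5a68e6_TOR.Defs
import Pool.Agent.Lib.MP_5a68e6_HLF.B
import Pool.Agent.Lib.MP_5a68e6_HLF.C

/-! Project TOR: definitions for the analytic part -/

set_option autoImplicit false

namespace Pool.Agent.TOR

open Set Filter Topology TopologicalSpace Cardinal Pool.Agent.HLF

/-- F-norms -/
structure IsFNorm {E : Type*} [AddCommGroup E] [Module ℝ E] [TopologicalSpace E] (N : E → ℝ) :
    Prop where
  nonneg : ∀ x, 0 ≤ N x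
  zero : N 0 = 0
  add_le : ∀ x y, N (x + y) ≤ N x + N y
  neg : ∀ x, N (-x) = N x
  smul_le : ∀ (t : ℝ) x, |t| ≤ 1 → N (t • x) ≤ N x
  nhds : (𝓝 (0 : E)).HasBasis (fun ε : ℝ => 0 < ε) (fun ε => {x | N x < ε})

/-- the two parameter path -/
noncomputable def Z2 {E : Type*} [AddCommGroup E] [Module ℝ E] (e : ℕ → E) (μ τ : ℝ) : E :=
  pathZ (fun m => pathZ (fun k => e (Nat.pair m k)) (max τ 0)) (max μ 0)

/-- strength of the marker of `F` -/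
noncomputable def eta {B : Type} (k j : Finset B → ℕ) (F : Finset B) : ℝ :=
  1 / ((j F : ℝ) * k F * 2 ^ (F.card + 5))

/-- nested weights of finite subsets -/
structure IsWeights {B Y : Type} [TopologicalSpace Y] (lam : B → Y → ℝ) (w : Finset B → Y → ℝ)
    (ξ : B → Y → ℝ) : Prop where
  w_cont : ∀ F, Continuous (w F)
  w_nonneg : ∀ F y, 0 ≤ w F y
  w_lf : LocallyFinite fun F => {y | w F y ≠ 0}
  w_sum : ∀ y, ∑ᶠ F, w F y = 1
  w_nonempty : ∀ F y, w F y ≠ 0 → F.Nonempty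
  w_supp : ∀ F y, w F y ≠ 0 → ∀ b ∈ F, 0 < lam b y
  w_chain : ∀ F G y, w F y ≠ 0 → w G y ≠ 0 → F ⊆ G ∨ G ⊆ F
  x_cont : ∀ b, Continuous (ξ b)
  x_nonneg : ∀ b y, 0 ≤ ξ b y
  x_lf : LocallyFinite fun b => {y | ξ b y ≠ 0}
  x_sum : ∀ y, ∑ᶠ b, ξ b y = 1
  x_supp : ∀ b y, ξ b y ≠ 0 → 0 < lam b y
  x_mem : ∀ b F y, ξ b y ≠ 0 → w F y ≠ 0 → b ∈ F

end Pool.Agent.TOR
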