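import Pool.Agent.Lib.MP_5a68e6_TOR.Defs

set_option autoImplicit false

namespace Pool.Agent.TOR

open Set Filter Topology TopologicalSpace Cardinal

theorem IsAE.real : IsAE ℝ := by
  intro Y _ _ A hA f hf
  letI : MetricSpace Y := metrizableSpaceMetric Y
  obtain ⟨g, hg⟩ := ContinuousMap.exists_restrict_eq hA (⟨f, hf⟩ : C(A, ℝ))
  refine ⟨g, g.continuous, fun a => ?_⟩
  have := congrArg (fun h : C(A, ℝ) => h a) hg
  simpa using this

theorem IsAE.prod {X Y : Type} [TopologicalSpace X] [TopologicalSpace Y] (hX : IsAE X)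
    (hY : IsAE Y) : IsAE (X × Y) := by
  intro Z _ _ A hA f hf
  obtain ⟨g1, hg1, h1⟩ := hX Z A hA (fun a => (f a).1) (continuous_fst.comp hf)
  obtain ⟨g2, hg2, h2⟩ := hY Z A hA (fun a => (f a).2) (continuous_snd.comp hf)
  exact ⟨fun z => (g1 z, g2 z), hg1.prodMk hg2, fun a => Prod.ext (h1 a) (h2 a)⟩

theorem IsAE.pi {X : Type} [TopologicalSpace X] (hX : IsAE X) : IsAE (ℕ → X) := by
  intro Z _ _ A hA f hf
  choose g hg h using fun n : ℕ => hX Z A hA (fun a => f a n) ((continuous_apply n).comp hf)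
  exact ⟨fun z n => g n z, continuous_pi fun n => hg n, fun a => funext fun n => h n a⟩

theorem DensLE.prod {κ : Cardinal.{0}} (hκ : ℵ₀ ≤ κ) {X Y : Type} [TopologicalSpace X]
    [TopologicalSpace Y] (hX : DensLE κ X) (hY : DensLE κ Y) : DensLE κ (X × Y) := by
  obtain ⟨D, hD, hDκ⟩ := hX
  obtain ⟨E, hE, hEκ⟩ := hY
  refine ⟨D ×ˢ E, hD.prod hE, ?_⟩
  have h1 : #(↥(D ×ˢ E)) = #(↥D × ↥E) := Cardinal.mk_congr (Equiv.Set.prod D E)
  rw [h1, Cardinal.mk_prod, Cardinal.lift_id, Cardinal.lift_id]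
  calc #↥D * #↥E ≤ κ * κ := mul_le_mul' hDκ hEκ
    _ = κ := Cardinal.mul_eq_self hκ

theorem DensLE.sum {κ : Cardinal.{0}} (hκ : ℵ₀ ≤ κ) {X Y : Type} [TopologicalSpace X]
    [TopologicalSpace Y] (hX : DensLE κ X) (hY : DensLE κ Y) : DensLE κ (X ⊕ Y) := by
  obtain ⟨D, hD, hDκ⟩ := hX
  obtain ⟨E, hE, hEκ⟩ := hY
  refine ⟨Sum.inl '' D ∪ Sum.inr '' E, ?_, ?_⟩
  · rintro (x | y)
    · apply closure_mono subset_union_left
      exact image_closure_subset_closure_image continuous_inl ⟨x, hD x, rfl⟩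
    · apply closure_mono subset_union_right
      exact image_closure_subset_closure_image continuous_inr ⟨y, hE y, rfl⟩
  · calc #(↥(Sum.inl '' D ∪ Sum.inr '' E : Set (X ⊕ Y)))
        ≤ #(↥(Sum.inl '' D : Set (X ⊕ Y))) + #(↥(Sum.inr '' E : Set (X ⊕ Y))) :=
          Cardinal.mk_union_le _ _
      _ ≤ #↥D + #↥E := add_le_add Cardinal.mk_image_le Cardinal.mk_image_le
      _ ≤ κ + κ := add_le_add hDκ hEκ
      _ = κ := Cardinal.add_eq_self hκ

theorem DensLE.pi {κ : Cardinal.{0}} (hκ : ℵ₀ ≤ κ) {X : Type} [TopologicalSpace X]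
    (hX : DensLE κ X) : DensLE κ (ℕ → X) := by
  obtain ⟨D, hD, hDκ⟩ := hX
  rcases isEmpty_or_nonempty X with hemp | ⟨⟨x0⟩⟩
  · haveI : IsEmpty (ℕ → X) := ⟨fun f => hemp.false (f 0)⟩
    exact ⟨∅, fun f => isEmptyElim f, by simp⟩
  refine ⟨range (fun (l : List D) (j : ℕ) => ((l.map Subtype.val).getD j x0)), ?_, ?_⟩
  · rw [dense_iff_inter_open]
    rintro O hO ⟨f, hf⟩
    obtain ⟨I, u, hu, hI⟩ := isOpen_pi_iff.1 hO f hf
    have hch : ∀ j : ℕ, ∃ d : D, j ∈ I → (d : X) ∈ u j := by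
      intro j
      by_cases hj : j ∈ I
      · obtain ⟨d, hd1, hd2⟩ := hD.inter_open_nonempty (u j) (hu j hj).1 ⟨f j, (hu j hj).2⟩
        exact ⟨⟨d, hd2⟩, fun _ => hd1⟩
      · obtain ⟨d, -, hd2⟩ := hD.inter_open_nonempty univ isOpen_univ ⟨x0, mem_univ _⟩
        exact ⟨⟨d, hd2⟩, fun h => absurd h hj⟩
    choose d hd using hch
    obtain ⟨n, hn⟩ : ∃ n, ∀ j ∈ I, j < n := ⟨I.sup id + 1, fun j hj =>
      Nat.lt_succ_of_le (Finset.le_sup (f := id) hj)⟩
    refine ⟨fun j => (((List.ofFn fun i : Fin n => d i).map Subtype.val).getD j x0), hI ?_,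
      ⟨List.ofFn fun i : Fin n => d i, rfl⟩⟩
    intro j hj
    have hj' : j ∈ I := hj
    have hjn := hn j hj'
    have : (((List.ofFn fun i : Fin n => d i).map Subtype.val).getD j x0) = (d j : X) := by
      rw [List.getD_eq_getElem _ _ (by simpa using hjn)]
      simp
    show (((List.ofFn fun i : Fin n => d i).map Subtype.val).getD j x0) ∈ u j
    rw [this]
    exact hd j hj'
  · calc #(↥(range (fun (l : List D) (j : ℕ) => ((l.map Subtype.val).getD j x0))))
        ≤ #(List D) := Cardinal.mk_range_le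
      _ ≤ max ℵ₀ #D := Cardinal.mk_list_le_max _
      _ ≤ κ := max_le hκ hDκ

theorem DensLE.real {κ : Cardinal.{0}} (hκ : ℵ₀ ≤ κ) : DensLE κ ℝ := by
  obtain ⟨D, hDc, hD⟩ := TopologicalSpace.exists_countable_dense ℝ
  exact ⟨D, hD, (Cardinal.le_aleph0_iff_set_countable.2 hDc).trans hκ⟩

theorem DensLE.open {κ : Cardinal.{0}} {X : Type} [TopologicalSpace X]
    (hX : DensLE κ X) {O : Set X} (hO : IsOpen O) : DensLE κ O := by
  obtain ⟨D, hD, hDκ⟩ := hX
  exact ⟨Subtype.val ⁻¹' D, hD.preimage hO.isOpenMap_subtype_val,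
    (Cardinal.mk_preimage_of_injective _ _ Subtype.val_injective).trans hDκ⟩

theorem completelyMetrizable_open {X : Type*} [TopologicalSpace X] [IsCompletelyMetrizableSpace X]
    {O : Set X} (hO : IsOpen O) : IsCompletelyMetrizableSpace O := by
  let := upgradeIsCompletelyMetrizable X
  lift O to Opens X using hO
  exact inferInstanceAs (IsCompletelyMetrizableSpace O.CompleteCopy)

theorem completelyMetrizable_sum {X Y : Type} [TopologicalSpace X] [IsCompletelyMetrizableSpace X]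
    [TopologicalSpace Y] [IsCompletelyMetrizableSpace Y] : MetrizableSpace (X ⊕ Y) := by
  infer_instance

end Pool.Agent.TOR
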