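import Pool.Agent.Lib.MP_5a68e6_TOR.Defs

set_option autoImplicit false

namespace Pool.Agent.TOR

open Set Filter Topology TopologicalSpace Cardinal

theorem dugundji {Y : Type*} [TopologicalSpace Y] [MetrizableSpace Y] {F : Type*}
    [NormedAddCommGroup F] [NormedSpace ℝ F] {A : Set Y} (hA : IsClosed A) (f : A → F)
    (hf : Continuous f) : ∃ g : Y → F, Continuous g ∧ ∀ a : A, g a = f a := by
  classical
  let _ : MetricSpace Y := metrizableSpaceMetric Y
  rcases A.eq_empty_or_nonempty with hA0 | hA0
  · subst hA0
    exact ⟨fun _ => 0, continuous_const, fun a => absurd a.2 (notMem_empty _)⟩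
  let X : Set Y := Aᶜ
  have hXo : IsOpen X := hA.isOpen_compl
  let t : X → Set F := fun y => convexHull ℝ
    (f '' {a : A | dist (a : Y) (y : Y) < 2 * Metric.infDist (y : Y) A})
  have ht : ∀ y, Convex ℝ (t y) := fun y => convex_convexHull _ _
  have hpos : ∀ y : X, 0 < Metric.infDist (y : Y) A := fun y =>
    (hA.notMem_iff_infDist_pos hA0).1 y.2
  obtain ⟨g, hg⟩ := exists_continuous_forall_mem_convex_of_local_const ht (by
    intro x
    obtain ⟨a, haA, ha⟩ := (Metric.infDist_lt_iff hA0 (x := (x : Y))
      (r := 2 * Metric.infDist (x : Y) A)).1 (by linarith [hpos x])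
    refine ⟨f ⟨a, haA⟩, ?_⟩
    have h1 : ∀ᶠ y : X in 𝓝 x, dist a (y : Y) < 2 * Metric.infDist (y : Y) A := by
      have hc1 : Continuous fun y : X => dist a (y : Y) :=
        continuous_const.dist continuous_subtype_val
      have hc2 : Continuous fun y : X => 2 * Metric.infDist (y : Y) A :=
        continuous_const.mul ((Metric.continuous_infDist_pt A).comp continuous_subtype_val)
      refine (isOpen_lt hc1 hc2).mem_nhds ?_
      show dist a (x : Y) < 2 * Metric.infDist (x : Y) A
      rw [dist_comm]
      exact ha
    filter_upwards [h1] with y hy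
    exact subset_convexHull _ _ ⟨⟨a, haA⟩, hy, rfl⟩)
  let G : Y → F := fun y => if h : y ∈ A then f ⟨y, h⟩ else g ⟨y, h⟩
  have hGA : ∀ a : A, G a = f a := by
    intro a
    simp only [G]
    rw [dif_pos a.2]
  have hGX : ∀ x : X, G x = g x := by
    intro x
    simp only [G]
    rw [dif_neg x.2]
  refine ⟨G, ?_, hGA⟩
  rw [continuous_iff_continuousAt]
  intro y
  by_cases hy : y ∈ A
  · rw [Metric.continuousAt_iff]
    intro ε hε
    have hfy := (Metric.continuous_iff.1 hf) ⟨y, hy⟩ ε hε
    obtain ⟨δ, hδ, hfδ⟩ := hfy
    refine ⟨δ / 3, by positivity, ?_⟩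
    intro z hz
    have hGy : G y = f ⟨y, hy⟩ := hGA ⟨y, hy⟩
    by_cases hzA : z ∈ A
    · rw [hGy, show G z = f ⟨z, hzA⟩ from hGA ⟨z, hzA⟩]
      apply hfδ
      show dist z y < δ
      linarith
    · rw [hGy, show G z = g ⟨z, hzA⟩ from hGX ⟨z, hzA⟩]
      have h1 : t ⟨z, hzA⟩ ⊆ Metric.ball (f ⟨y, hy⟩) ε := by
        refine convexHull_min ?_ (convex_ball _ _)
        rintro _ ⟨a, ha, rfl⟩
        rw [Metric.mem_ball]
        apply hfδ
        show dist (a : Y) y < δ
        have h2 : Metric.infDist z A ≤ dist z y := Metric.infDist_le_dist_of_mem hy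
        have h3 : dist (a : Y) z < 2 * Metric.infDist z A := ha
        have h4 := dist_triangle (a : Y) z y
        linarith
      exact h1 (hg ⟨z, hzA⟩)
  · have h1 : ContinuousOn G X := by
      rw [continuousOn_iff_continuous_domRestrict]
      have h2 : X.domRestrict G = g := by
        ext x
        exact hGX x
      rw [h2]
      exact g.continuous
    exact h1.continuousAt (hXo.mem_nhds hy)

/-- Kuratowski embedding into a Banach space -/
theorem exists_kuratowski (X : Type*) [MetricSpace X] [Nonempty X] :
    ∃ ι : X → BoundedContinuousFunction X ℝ, Isometry ι := by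
  obtain ⟨x0⟩ := (inferInstance : Nonempty X)
  have hb : ∀ x : X, ∀ y : X, ‖dist y x - dist y x0‖ ≤ dist x x0 := by
    intro x y
    rw [Real.norm_eq_abs, abs_le]
    constructor
    · have := dist_triangle y x x0
      linarith
    · have h2 := dist_triangle y x0 x
      rw [dist_comm x0 x] at h2
      linarith
  let ι : X → BoundedContinuousFunction X ℝ := fun x =>
    BoundedContinuousFunction.ofNormedAddCommGroup (fun y => dist y x - dist y x0)
      ((continuous_id.dist continuous_const).sub (continuous_id.dist continuous_const))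
      (dist x x0) (hb x)
  have hι : ∀ x y, ι x y = dist y x - dist y x0 := fun x y => rfl
  refine ⟨ι, Isometry.of_dist_eq fun x x' => le_antisymm ?_ ?_⟩
  · rw [BoundedContinuousFunction.dist_le dist_nonneg]
    intro y
    rw [hι, hι, Real.dist_eq, abs_le]
    constructor
    · have := dist_triangle y x x'
      linarith
    · have h2 := dist_triangle y x' x
      rw [dist_comm x' x] at h2
      linarith
  · have h1 := BoundedContinuousFunction.dist_coe_le_dist (f := ι x) (g := ι x') x'
    rw [hι, hι, Real.dist_eq, dist_self, dist_comm x' x] at h1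
    have h2 : dist x x' - dist x' x0 - (0 - dist x' x0) = dist x x' := by ring
    rw [h2, abs_of_nonneg dist_nonneg] at h1
    exact h1

end Pool.Agent.TOR
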