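import Pool.Agent.Lib.MP_5a68e6_TOR.Defs3
import Pool.Agent.Lib.MP_5a68e6_TOR.Ent

set_option autoImplicit false
set_option linter.unusedSectionVars false

namespace Pool.Agent.TOR

open Set Filter Topology TopologicalSpace Cardinal Pool.Agent.HLF

section FN
variable {E : Type*} [AddCommGroup E] [Module ℝ E] [TopologicalSpace E]
  [IsTopologicalAddGroup E] [ContinuousSMul ℝ E]

omit [Module ℝ E] [ContinuousSMul ℝ E] in
theorem fn_exists_pm [FirstCountableTopology E] : ∃ D : E → E → ℝ, (∀ x, D x x = 0) ∧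
    (∀ x y z, D x z ≤ D x y + D y z) ∧ (∀ x y, 0 ≤ D x y) ∧
    (∀ ε : ℝ, 0 < ε → ∃ V ∈ 𝓝 (0 : E), ∀ x ∈ V, ∀ z, D (x + z) z < ε) ∧
    (∀ V ∈ 𝓝 (0 : E), ∃ ε : ℝ, 0 < ε ∧ ∀ x, D x 0 < ε → x ∈ V) := by
  let _ : UniformSpace E := IsTopologicalAddGroup.rightUniformSpace E
  have : IsUniformAddGroup E := isUniformAddGroup_of_addCommGroup
  have : (uniformity E).IsCountablyGenerated :=
    IsUniformAddGroup.uniformity_countably_generated
  obtain ⟨I, hI⟩ := UniformSpace.metrizable_uniformity E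
  refine ⟨fun x y => @dist E I.toDist x y, fun x => @dist_self E I x,
    fun x y z => @dist_triangle E I x y z, fun x y => @dist_nonneg E I x y, ?_, ?_⟩
  · intro ε hε
    have h1 : {p : E × E | @dist E I.toDist p.1 p.2 < ε} ∈ @uniformity E I.toUniformSpace :=
      @Metric.dist_mem_uniformity E I ε hε
    rw [hI, uniformity_eq_comap_nhds_zero E, mem_comap] at h1
    obtain ⟨V, hV, hVs⟩ := h1
    refine ⟨V, hV, fun x hx z => ?_⟩
    have h2 : ((z, x + z) : E × E) ∈ {p : E × E | @dist E I.toDist p.1 p.2 < ε} := by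
      apply hVs
      show x + z - z ∈ V
      rw [add_sub_cancel_right]
      exact hx
    show @dist E I.toDist (x + z) z < ε
    rw [@dist_comm E I]
    exact h2
  · intro V hV
    have h1 : {p : E × E | p.2 - p.1 ∈ V} ∈ @uniformity E I.toUniformSpace := by
      rw [hI, uniformity_eq_comap_nhds_zero E, mem_comap]
      exact ⟨V, hV, fun p hp => hp⟩
    obtain ⟨ε, hε, h⟩ := (@Metric.mem_uniformity_dist E I _).1 h1
    refine ⟨ε, hε, fun x hx => ?_⟩
    have h2 : ((0, x) : E × E) ∈ {p : E × E | p.2 - p.1 ∈ V} := by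
      apply h
      have hx' : @dist E I.toDist x 0 < ε := hx
      rw [@dist_comm E I]
      exact hx'
    have h3 : x - 0 ∈ V := h2
    rwa [sub_zero] at h3

theorem fn_min_add {a b : ℝ} (ha : 0 ≤ a) (hb : 0 ≤ b) :
    min 1 (a + b) ≤ min 1 a + min 1 b := by
  rcases le_total 1 a with h1 | h1
  · rw [min_eq_left h1]
    have : 0 ≤ min 1 b := le_min zero_le_one hb
    linarith [min_le_left 1 (a + b)]
  · rcases le_total 1 b with h2 | h2
    · rw [min_eq_left h2]
      have : 0 ≤ min 1 a := le_min zero_le_one ha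
      linarith [min_le_left 1 (a + b)]
    · rw [min_eq_right h1, min_eq_right h2]
      exact min_le_right _ _

theorem exists_fnorm [FirstCountableTopology E] : ∃ N : E → ℝ, IsFNorm N := by
  obtain ⟨D, hD0, hDt, hDn, hD1, hD2⟩ := fn_exists_pm (E := E)
  have hb : ∀ x : E, BddAbove (range fun p : (Icc (-1 : ℝ) 1) × E =>
      min 1 (D ((p.1 : ℝ) • x + p.2) p.2)) := by
    intro x
    refine ⟨1, ?_⟩
    rintro _ ⟨p, rfl⟩
    exact min_le_left _ _
  have hone : (1 : ℝ) ∈ Icc (-1 : ℝ) 1 := by norm_num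
  have : Nonempty ((Icc (-1 : ℝ) 1) × E) := ⟨(⟨1, hone⟩, 0)⟩
  obtain ⟨N, hN⟩ : ∃ N : E → ℝ, ∀ x, N x = ⨆ p : (Icc (-1 : ℝ) 1) × E,
      min 1 (D ((p.1 : ℝ) • x + p.2) p.2) := ⟨_, fun _ => rfl⟩
  have hle : ∀ x (t : ℝ), |t| ≤ 1 → ∀ z, min 1 (D (t • x + z) z) ≤ N x := by
    intro x t ht z
    rw [hN]
    have := le_ciSup (hb x) (⟨t, abs_le.1 ht⟩, z)
    exact this
  have hge : ∀ x (c : ℝ), (∀ t : ℝ, |t| ≤ 1 → ∀ z, min 1 (D (t • x + z) z) ≤ c) → N x ≤ c := by
    intro x c h
    rw [hN]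
    exact ciSup_le fun p => h p.1 (abs_le.2 p.1.2) p.2
  have hnonneg : ∀ x, 0 ≤ N x := by
    intro x
    have := hle x 1 (by norm_num) 0
    exact le_trans (le_min zero_le_one (hDn _ _)) this
  have hsmul : ∀ (t : ℝ) x, |t| ≤ 1 → N (t • x) ≤ N x := by
    intro s x hs
    apply hge
    intro t ht z
    rw [smul_smul]
    apply hle
    rw [abs_mul]
    exact mul_le_one₀ ht (abs_nonneg _) hs
  refine ⟨N, hnonneg, ?_, ?_, ?_, hsmul, ?_⟩
  · apply le_antisymm _ (hnonneg 0)
    apply hge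
    intro t _ z
    rw [smul_zero, zero_add, hD0]
    simp
  · intro x y
    apply hge
    intro t ht z
    have h1 := hle x t ht (t • y + z)
    have h2 := hle y t ht z
    have h3 : D (t • (x + y) + z) z ≤ D (t • x + (t • y + z)) (t • y + z) + D (t • y + z) z := by
      have := hDt (t • x + (t • y + z)) (t • y + z) z
      rw [← add_assoc, ← smul_add] at this
      rw [← add_assoc, ← smul_add]
      exact this
    have h4 := fn_min_add (hDn (t • x + (t • y + z)) (t • y + z)) (hDn (t • y + z) z)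
    have h5 : min 1 (D (t • (x + y) + z) z) ≤
        min 1 (D (t • x + (t • y + z)) (t • y + z) + D (t • y + z) z) :=
      min_le_min le_rfl h3
    linarith
  · intro x
    apply le_antisymm
    · have := hsmul (-1) x (by norm_num)
      rwa [neg_one_smul] at this
    · have := hsmul (-1) (-x) (by norm_num)
      rwa [neg_one_smul, neg_neg] at this
  · refine ⟨fun U => ⟨fun hU => ?_, ?_⟩⟩
    · obtain ⟨ε, hε, h⟩ := hD2 U hU
      refine ⟨min ε 1, lt_min hε zero_lt_one, fun x hx => ?_⟩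
      apply h
      have h1 : N x < min ε 1 := hx
      have h2 := hle x 1 (by norm_num) 0
      rw [one_smul, add_zero] at h2
      have h3 : min 1 (D x 0) < min ε 1 := lt_of_le_of_lt h2 h1
      have h4 : min 1 (D x 0) < 1 := lt_of_lt_of_le h3 (min_le_right _ _)
      have h5 : min 1 (D x 0) < ε := lt_of_lt_of_le h3 (min_le_left _ _)
      rcases min_lt_iff.1 h5 with h6 | h6
      · rcases min_lt_iff.1 h4 with h7 | h7
        · exact absurd h7 (lt_irrefl _)
        · exact lt_trans h7 h6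
      · exact h6
    · rintro ⟨ε, hε, h⟩
      obtain ⟨V, hV, hVs⟩ := hD1 (ε / 2) (half_pos hε)
      obtain ⟨W, ⟨hW, hWb⟩, hWV⟩ := (nhds_basis_balanced ℝ E).mem_iff.1 hV
      refine mem_of_superset hW fun x hx => h ?_
      show N x < ε
      refine lt_of_le_of_lt (hge x (ε / 2) fun t ht z => ?_) (half_lt_self hε)
      refine le_trans (min_le_right _ _) (hVs _ (hWV ?_) z).le
      exact hWb t (by rwa [Real.norm_eq_abs]) ⟨x, hx, rfl⟩

omit [IsTopologicalAddGroup E] [ContinuousSMul ℝ E] in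
theorem fn_sub_comm {N : E → ℝ} (hN : IsFNorm N) (x y : E) : N (x - y) = N (y - x) := by
  rw [← hN.neg (x - y), neg_sub]

omit [IsTopologicalAddGroup E] [ContinuousSMul ℝ E] in
theorem fn_sub_tri {N : E → ℝ} (hN : IsFNorm N) (x y z : E) :
    N (x - z) ≤ N (x - y) + N (y - z) := by
  have := hN.add_le (x - y) (y - z)
  rwa [sub_add_sub_cancel] at this

omit [IsTopologicalAddGroup E] [ContinuousSMul ℝ E] in
theorem fn_le_add {N : E → ℝ} (hN : IsFNorm N) (x y : E) : N x ≤ N y + N (x - y) := by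
  have := hN.add_le y (x - y)
  rwa [add_sub_cancel] at this

omit [ContinuousSMul ℝ E] in
theorem fn_ball_mem {N : E → ℝ} (hN : IsFNorm N) (x : E) {ε : ℝ} (hε : 0 < ε) :
    {y | N (x - y) < ε} ∈ 𝓝 x := by
  have h : Tendsto (fun y : E => x - y) (𝓝 x) (𝓝 0) := by
    have h1 : Continuous fun y : E => x - y := continuous_const.sub continuous_id
    have h2 := h1.tendsto x
    rwa [sub_self] at h2
  exact h (hN.nhds.mem_of_mem hε)

omit [ContinuousSMul ℝ E] in
theorem fn_mem_nhds {N : E → ℝ} (hN : IsFNorm N) (x : E) {U : Set E} (hU : U ∈ 𝓝 x) :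
    ∃ ε : ℝ, 0 < ε ∧ ∀ y, N (x - y) < ε → y ∈ U := by
  have h : Tendsto (fun v : E => x + v) (𝓝 0) (𝓝 x) := by
    have h1 : Continuous fun v : E => x + v := continuous_const.add continuous_id
    have h2 := h1.tendsto 0
    rwa [add_zero] at h2
  obtain ⟨ε, hε, hs⟩ := hN.nhds.mem_iff.1 (h hU)
  refine ⟨ε, hε, fun y hy => ?_⟩
  have h1 : y - x ∈ {v : E | N v < ε} := by
    show N (y - x) < ε
    rwa [fn_sub_comm hN]
  have h2 : x + (y - x) ∈ U := hs h1
  rwa [add_sub_cancel] at h2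

omit [ContinuousSMul ℝ E] in
/-- a function which varies at most like `N` is continuous -/
theorem fn_continuous_of_le {N : E → ℝ} (hN : IsFNorm N) {C : Set E} {r : C → ℝ}
    (h : ∀ x y : C, r x ≤ r y + N ((x : E) - y)) : Continuous r := by
  rw [continuous_iff_continuousAt]
  intro x
  rw [ContinuousAt, Metric.tendsto_nhds]
  intro ε hε
  have h1 : {y : C | N ((x : E) - y) < ε} ∈ 𝓝 x := by
    rw [nhds_subtype_eq_comap]
    exact preimage_mem_comap (fn_ball_mem hN (x : E) hε)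
  refine mem_of_superset h1 fun y hy => ?_
  have hy' : N ((x : E) - y) < ε := hy
  show dist (r y) (r x) < ε
  rw [Real.dist_eq, abs_lt]
  have h2 := h x y
  have h3 := h y x
  rw [fn_sub_comm hN] at h3
  constructor
  · linarith
  · linarith

theorem IsFNorm.continuous {N : E → ℝ} (hN : IsFNorm N) : Continuous N := by
  rw [continuous_iff_continuousAt]
  intro x
  rw [ContinuousAt, Metric.tendsto_nhds]
  intro ε hε
  refine mem_of_superset (fn_ball_mem hN x hε) fun y hy => ?_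
  have hy' : N (x - y) < ε := hy
  show dist (N y) (N x) < ε
  rw [Real.dist_eq, abs_lt]
  have h2 := fn_le_add hN x y
  have h3 := fn_le_add hN y x
  rw [fn_sub_comm hN] at h3
  constructor
  · linarith
  · linarith

theorem IsFNorm.smul_tendsto {N : E → ℝ} (hN : IsFNorm N) (x : E) :
    Tendsto (fun t : ℝ => N (t • x)) (𝓝 0) (𝓝 0) := by
  have h : Continuous fun t : ℝ => N (t • x) :=
    hN.continuous.comp (continuous_id.smul continuous_const)
  have h1 := h.tendsto 0
  simp only [zero_smul, hN.zero] at h1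
  exact h1

theorem IsFNorm.nat_smul_le {N : E → ℝ} (hN : IsFNorm N) (n : ℕ) (x : E) :
    N ((n : ℝ) • x) ≤ n * N x := by
  induction n with
  | zero => simp [hN.zero]
  | succ n ih =>
    have h := hN.add_le ((n : ℝ) • x) x
    have h1 : ((n + 1 : ℕ) : ℝ) • x = (n : ℝ) • x + x := by
      push_cast
      rw [add_smul, one_smul]
    rw [h1]
    push_cast
    linarith

theorem IsFNorm.small_of_compact {N : E → ℝ} (hN : IsFNorm N) {K : Set E} (hK : IsCompact K)
    {ε : ℝ} (hε : 0 < ε) : ∃ k : ℕ, 1 ≤ k ∧ ∀ k' : ℕ, k ≤ k' → ∀ q ∈ K, N ((1 / (k' : ℝ)) • q) ≤ ε := by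
  have hc : Continuous fun p : ℝ × E => N (p.1 • p.2) :=
    hN.continuous.comp (continuous_fst.smul continuous_snd)
  have ho : IsOpen {p : ℝ × E | N (p.1 • p.2) < ε} := isOpen_lt hc continuous_const
  obtain ⟨u, v, hu, _, h0, hKv, huv⟩ := generalized_tube_lemma (isCompact_singleton (x := (0 : ℝ)))
    hK ho (by
      rintro ⟨t, q⟩ ⟨ht, _⟩
      have : t = 0 := ht
      show N (t • q) < ε
      rw [this, zero_smul, hN.zero]
      exact hε)
  have hu0 : u ∈ 𝓝 (0 : ℝ) := hu.mem_nhds (h0 rfl)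
  have h1 : ∀ᶠ k : ℕ in atTop, 1 / (k : ℝ) ∈ u := tendsto_one_div_atTop_nhds_zero_nat hu0
  obtain ⟨k, hk⟩ := eventually_atTop.1 h1
  refine ⟨max k 1, le_max_right _ _, fun k' hk' q hq => ?_⟩
  have h2 : ((1 / (k' : ℝ), q) : ℝ × E) ∈ {p : ℝ × E | N (p.1 • p.2) < ε} :=
    huv ⟨hk k' (le_trans (le_max_left _ _) hk'), hKv hq⟩
  exact le_of_lt h2

/-- a local property of open subsets of `C` is witnessed by a radius function -/
theorem IsFNorm.exists_radius {N : E → ℝ} (hN : IsFNorm N) [T2Space E] {C : Set E}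
    {P : Set C → Prop} (hmono : ∀ O O' : Set C, O' ⊆ O → P O → P O')
    (hloc : ∀ x, ∃ O ∈ 𝓝 x, P O) :
    ∃ r : C → ℝ, (∀ x, 0 < r x ∧ r x ≤ 1) ∧ Continuous r ∧
      (∀ x y : C, r x ≤ r y + N ((x : E) - y)) ∧ ∀ x : C, P {y : C | N ((x : E) - y) < r x} := by
  obtain ⟨S, hS⟩ : ∃ S : C → Set ℝ, ∀ x, S x =
      {e : ℝ | 0 < e ∧ e ≤ 1 ∧ P {y : C | N ((x : E) - y) < e}} := ⟨_, fun _ => rfl⟩
  have hmem : ∀ x (e : ℝ), e ∈ S x ↔ 0 < e ∧ e ≤ 1 ∧ P {y : C | N ((x : E) - y) < e} := by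
    intro x e
    rw [hS]
    rfl
  have hne : ∀ x, (S x).Nonempty := by
    intro x
    obtain ⟨O, hO, hPO⟩ := hloc x
    rw [nhds_subtype_eq_comap, mem_comap] at hO
    obtain ⟨U, hU, hUO⟩ := hO
    obtain ⟨ε, hε, h⟩ := fn_mem_nhds hN (x : E) hU
    refine ⟨min ε 1, (hmem _ _).2 ⟨lt_min hε zero_lt_one, min_le_right _ _, ?_⟩⟩
    refine hmono _ _ (fun y hy => hUO ?_) hPO
    exact h y (lt_of_lt_of_le hy (min_le_left _ _))
  have hbd : ∀ x, BddAbove (S x) := fun x => ⟨1, fun e he => ((hmem _ _).1 he).2.1⟩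
  have hpos : ∀ x, 0 < sSup (S x) := by
    intro x
    obtain ⟨e, he⟩ := hne x
    exact lt_of_lt_of_le ((hmem _ _).1 he).1 (le_csSup (hbd x) he)
  have hle1 : ∀ x, sSup (S x) ≤ 1 := fun x => csSup_le (hne x) fun e he => ((hmem _ _).1 he).2.1
  have hlip : ∀ x y : C, sSup (S x) ≤ sSup (S y) + N ((x : E) - y) := by
    intro x y
    apply csSup_le (hne x)
    intro e he
    obtain ⟨he0, he1, heP⟩ := (hmem _ _).1 he
    rcases le_or_gt e (N ((x : E) - y)) with h | h
    · linarith [hpos y]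
    · have h1 : e - N ((x : E) - y) ∈ S y := by
        rw [hmem]
        refine ⟨by linarith, by linarith [hN.nonneg ((x : E) - y)], ?_⟩
        refine hmono _ _ (fun z hz => ?_) heP
        have hz' : N ((y : E) - z) < e - N ((x : E) - y) := hz
        have := fn_sub_tri hN (x : E) y z
        show N ((x : E) - z) < e
        linarith
      have := le_csSup (hbd y) h1
      linarith
  have hlip2 : ∀ x y : C, sSup (S x) / 2 ≤ sSup (S y) / 2 + N ((x : E) - y) := by
    intro x y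
    have := hlip x y
    have := hN.nonneg ((x : E) - y)
    linarith
  refine ⟨fun x => sSup (S x) / 2, fun x => ⟨half_pos (hpos x), ?_⟩,
    fn_continuous_of_le hN hlip2, hlip2, fun x => ?_⟩
  · show sSup (S x) / 2 ≤ 1
    linarith [hle1 x, hpos x]
  · obtain ⟨e, he, hlt⟩ := exists_lt_of_lt_csSup (hne x) (half_lt_self (hpos x))
    refine hmono _ _ (fun y hy => ?_) ((hmem _ _).1 he).2.2
    have hy' : N ((x : E) - y) < sSup (S x) / 2 := hy
    exact lt_trans hy' hlt

theorem IsFNorm.isEnt {N : E → ℝ} (hN : IsFNorm N) {C : Set E} {r : C → ℝ} (hr : Continuous r)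
    (h0 : ∀ x, 0 < r x) :
    IsEnt {p : C × C | N ((p.1 : E) - p.2) < r p.1 ∧ N ((p.1 : E) - p.2) < r p.2} := by
  have hc : Continuous fun p : C × C => N ((p.1 : E) - p.2) :=
    hN.continuous.comp ((continuous_subtype_val.comp continuous_fst).sub
      (continuous_subtype_val.comp continuous_snd))
  refine ⟨?_, ?_, ?_⟩
  · exact (isOpen_lt hc (hr.comp continuous_fst)).inter (isOpen_lt hc (hr.comp continuous_snd))
  · intro x
    show N ((x : E) - x) < r x ∧ N ((x : E) - x) < r x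
    rw [sub_self, hN.zero]
    exact ⟨h0 x, h0 x⟩
  · rintro x y ⟨h1, h2⟩
    have h1' : N ((x : E) - y) < r x := h1
    have h2' : N ((x : E) - y) < r y := h2
    show N ((y : E) - x) < r y ∧ N ((y : E) - x) < r x
    rw [fn_sub_comm hN]
    exact ⟨h2', h1'⟩

end FN

end Pool.Agent.TOR
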