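import Pool.Agent.Lib.MP_5a68e6_TOR.Defs

set_option autoImplicit false

namespace Pool.Agent.TOR

open Set Filter Topology TopologicalSpace Cardinal

theorem densLE_l2 (ι : Type) (hι : ℵ₀ ≤ #ι) : DensLE (#ι) (lp (fun _ : ι => ℝ) (2 : ENNReal)) := by
  classical
  have : Fact ((1 : ENNReal) ≤ 2) := ⟨by norm_num⟩
  have hinf : Infinite ι := Cardinal.infinite_iff.2 hι
  let Φ : (ι →₀ ℚ) → lp (fun _ : ι => ℝ) (2 : ENNReal) := fun f =>
    ∑ i ∈ f.support, lp.single 2 i ((f i : ℚ) : ℝ)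
  refine ⟨Set.range Φ, ?_, ?_⟩
  · rw [Metric.dense_iff]
    intro f ε hε
    have h1 := lp.hasSum_single (p := (2 : ENNReal)) (by norm_num) f
    have h2 := (Metric.tendsto_atTop.1 h1) (ε / 2) (half_pos hε)
    obtain ⟨s, hs⟩ := h2
    have hs' := hs s le_rfl
    have hN : (0 : ℝ) < (s.card : ℝ) + 1 := by positivity
    have hδ : 0 < ε / 2 / ((s.card : ℝ) + 1) := div_pos (half_pos hε) hN
    choose q hq using fun i : ι => exists_rat_near (f i) hδ
    let g : ι →₀ ℚ := Finsupp.onFinset s (fun i => if i ∈ s then q i else 0) (by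
      intro i hi
      by_contra hcon
      exact hi (if_neg hcon))
    refine ⟨Φ g, ?_, Set.mem_range_self g⟩
    have h3 : Φ g = ∑ i ∈ s, lp.single 2 i ((q i : ℚ) : ℝ) := by
      have h4 : Φ g = ∑ i ∈ s, lp.single 2 i ((g i : ℚ) : ℝ) := by
        apply Finset.sum_subset Finsupp.support_onFinset_subset
        intro i _ hi
        rw [Finsupp.notMem_support_iff.1 hi, Rat.cast_zero, lp.single_zero]
      rw [h4]
      apply Finset.sum_congr rfl
      intro i hi
      have h5 : g i = q i := by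
        show (if i ∈ s then q i else 0) = q i
        rw [if_pos hi]
      rw [h5]
    have h4 : dist (∑ i ∈ s, lp.single 2 i (f i)) (Φ g) ≤ ε / 2 := by
      rw [h3, dist_eq_norm, ← Finset.sum_sub_distrib]
      refine (norm_sum_le _ _).trans ?_
      have h5 : ∀ i ∈ s, ‖lp.single (E := fun _ : ι => ℝ) 2 i (f i) - lp.single 2 i ((q i : ℚ) : ℝ)‖ ≤
          ε / 2 / ((s.card : ℝ) + 1) := by
        intro i _
        rw [← lp.single_sub, lp.norm_single (by norm_num), Real.norm_eq_abs]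
        exact (hq i).le
      refine (Finset.sum_le_card_nsmul _ _ _ h5).trans ?_
      rw [nsmul_eq_mul, mul_div_assoc', div_le_iff₀ hN]
      nlinarith [half_pos hε]
    rw [Metric.mem_ball]
    calc dist (Φ g) f ≤ dist (Φ g) (∑ i ∈ s, lp.single 2 i (f i)) +
          dist (∑ i ∈ s, lp.single 2 i (f i)) f := dist_triangle _ _ _
      _ < ε / 2 + ε / 2 := by
          rw [dist_comm (Φ g)]
          exact add_lt_add_of_le_of_lt h4 hs'
      _ = ε := add_halves ε
  · refine Cardinal.mk_range_le.trans ?_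
    rw [Cardinal.mk_finsupp_of_infinite, Cardinal.mkRat]
    exact max_le le_rfl hι

theorem le_dens_l2 (ι : Type) {κ : Cardinal.{0}}
    (h : DensLE κ (lp (fun _ : ι => ℝ) (2 : ENNReal))) : #ι ≤ κ := by
  classical
  have : Fact ((1 : ENNReal) ≤ 2) := ⟨by norm_num⟩
  obtain ⟨D, hD, hDκ⟩ := h
  refine le_trans ?_ hDκ
  have h1 : ∀ i : ι, ∃ d : D, dist (lp.single (E := fun _ : ι => ℝ) 2 i (1 : ℝ)) (d : lp (fun _ : ι => ℝ) (2 : ENNReal)) < 1 / 2 := by
    intro i
    obtain ⟨d, hd, hd2⟩ := (Metric.dense_iff.1 hD) (lp.single (E := fun _ : ι => ℝ) 2 i (1 : ℝ)) (1 / 2)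
      (by norm_num)
    refine ⟨⟨d, hd2⟩, ?_⟩
    rw [dist_comm]
    exact hd
  choose d hd using h1
  apply Cardinal.mk_le_of_injective (f := d)
  intro i j hij
  by_contra hne
  have h2 : dist (lp.single (E := fun _ : ι => ℝ) 2 i (1 : ℝ)) (lp.single (E := fun _ : ι => ℝ) 2 j (1 : ℝ)) < 1 := by
    have h3 := hd i
    have h4 := hd j
    rw [← hij, dist_comm] at h4
    linarith [dist_triangle (lp.single (E := fun _ : ι => ℝ) 2 i (1 : ℝ))
      (d i : lp (fun _ : ι => ℝ) (2 : ENNReal)) (lp.single (E := fun _ : ι => ℝ) 2 j (1 : ℝ))]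
  rw [dist_eq_norm] at h2
  have h5 := lp.norm_apply_le_norm (p := (2 : ENNReal)) (by norm_num)
    (lp.single (E := fun _ : ι => ℝ) 2 i (1 : ℝ) - lp.single (E := fun _ : ι => ℝ) 2 j (1 : ℝ)) i
  rw [lp.coeFn_sub, Pi.sub_apply, lp.single_apply_self, lp.single_apply_ne _ _ _ hne, sub_zero,
    norm_one] at h5
  linarith

end Pool.Agent.TOR
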