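import Pool.Agent.Lib.MP_5a68e6_TOR.WO
import Pool.Agent.Lib.MP_5a68e6_TOR.FN

set_option autoImplicit false

namespace Pool.Agent.TOR

open Set Filter Topology TopologicalSpace Cardinal Pool.Agent.HLF

/-- a compact set has a countable dense subset -/
theorem mark_countable {E : Type} [AddCommGroup E] [Module ℝ E] [TopologicalSpace E]
    [IsTopologicalAddGroup E] [ContinuousSMul ℝ E] {N : E → ℝ} (hN : IsFNorm N) {K : Set E}
    (hK : IsCompact K) : ∃ D : Set E, D.Countable ∧ K ⊆ closure D := by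
  have h1 : ∀ n : ℕ, ∃ t : Finset E, (∀ x ∈ t, x ∈ K) ∧
      K ⊆ ⋃ x ∈ t, {y | N (x - y) < 1 / ((n : ℝ) + 1)} := fun n =>
    hK.elim_nhds_subcover (fun x => {y | N (x - y) < 1 / ((n : ℝ) + 1)})
      (fun x _ => fn_ball_mem hN x (by positivity))
  choose t _ ht using h1
  refine ⟨⋃ n, (t n : Set E), countable_iUnion fun n => (t n).countable_toSet, fun q hq => ?_⟩
  rw [mem_closure_iff_nhds]
  intro U hU
  obtain ⟨ε, hε, h⟩ := fn_mem_nhds hN q hU
  obtain ⟨n, hn⟩ := exists_nat_one_div_lt hε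
  have h2 := ht n hq
  simp only [mem_iUnion, exists_prop] at h2
  obtain ⟨x, hx, hxq⟩ := h2
  refine ⟨x, h x ?_, mem_iUnion.2 ⟨n, hx⟩⟩
  rw [fn_sub_comm hN]
  exact lt_trans hxq hn

/-- the step of the recursion -/
theorem mark_step {E : Type} [AddCommGroup E] [Module ℝ E] [TopologicalSpace E]
    [IsTopologicalAddGroup E] [ContinuousSMul ℝ E] {N : E → ℝ} (hN : IsFNorm N) {C : Set E}
    {κ : Cardinal.{0}} (hκ : ℵ₀ < κ)
    (hfar : ∀ D : Set E, #D < κ → ∃ z ∈ C, z ∉ closure (Submodule.span ℝ D : Set E))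
    {B : Type} {H₀ : Set E} (hH₀ : H₀.Countable) {K : Finset B → Set E}
    (hK : ∀ F, IsCompact (K F)) {δ : Finset B → ℝ} (hδ : ∀ F, 0 < δ F)
    {r : Finset B → Finset B → Prop} (hr : ∀ F, #{G // r G F} < κ) (F : Finset B)
    (ih : ∀ G, r G F → E × ℕ+ × ℕ+) :
    ∃ s : E × ℕ+ × ℕ+, s.1 ∈ C ∧
      (∀ q ∈ closure (Submodule.span ℝ
        (H₀ ∪ (⋃ G ∈ {G | r G F ∨ G = F}, K G) ∪
          range (fun G : {G // r G F} => (ih G.1 G.2).1)) : Set E),
        1 / (((s.2.2 : ℕ+) : ℕ) : ℝ) ≤ N (s.1 - q)) ∧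
      (N ((1 / (((s.2.1 : ℕ+) : ℕ) : ℝ)) • s.1) ≤ (1 / 2) ^ F.card * δ F ∧
        ∀ q ∈ K F, N ((1 / (((s.2.1 : ℕ+) : ℕ) : ℝ)) • q) ≤ (1 / 2) ^ F.card * δ F) ∧
      (∀ G (h : r G F), G ⊂ F → N ((1 / (((s.2.1 : ℕ+) : ℕ) : ℝ)) • s.1) ≤ (1 / 2) ^ F.card *
          (1 / (((((ih G h).2.2 : ℕ+) : ℕ) : ℝ) * ((((ih G h).2.1 : ℕ+) : ℕ) : ℝ) *
            2 ^ (G.card + 5)) / 16) ∧
        ∀ q ∈ K F, N ((1 / (((s.2.1 : ℕ+) : ℕ) : ℝ)) • q) ≤ (1 / 2) ^ F.card *
          (1 / (((((ih G h).2.2 : ℕ+) : ℕ) : ℝ) * ((((ih G h).2.1 : ℕ+) : ℕ) : ℝ) *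
            2 ^ (G.card + 5)) / 16)) := by
  classical
  choose DK hDKc hDK using fun G => mark_countable hN (hK G)
  obtain ⟨D, hD⟩ : ∃ D : Set E, D = H₀ ∪ (⋃ G ∈ {G | r G F ∨ G = F}, DK G) ∪
      range (fun G : {G // r G F} => (ih G.1 G.2).1) := ⟨_, rfl⟩
  have hcardD : #D < κ := by
    rw [hD]
    refine lt_of_le_of_lt (mk_union_le _ _) (add_lt_of_lt hκ.le ?_ ?_)
    · refine lt_of_le_of_lt (mk_union_le _ _) (add_lt_of_lt hκ.le ?_ ?_)
      · exact lt_of_le_of_lt (le_aleph0_iff_set_countable.2 hH₀) hκ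
      · refine lt_of_le_of_lt (mk_biUnion_le _ _) (mul_lt_of_lt hκ.le ?_ ?_)
        · have h1 : ({G | r G F ∨ G = F} : Set (Finset B)) = {G | r G F} ∪ {F} := by
            ext G
            simp [or_comm]
          rw [h1]
          refine lt_of_le_of_lt (mk_union_le _ _) (add_lt_of_lt hκ.le (hr F) ?_)
          rw [mk_singleton]
          exact lt_trans one_lt_aleph0 hκ
        · refine lt_of_le_of_lt (ciSup_le' fun x => ?_) hκ
          exact le_aleph0_iff_set_countable.2 (hDKc _)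
    · exact lt_of_le_of_lt mk_range_le (hr F)
  obtain ⟨z, hzC, hz⟩ := hfar D hcardD
  -- the closed set
  have hsub : closure (Submodule.span ℝ
        (H₀ ∪ (⋃ G ∈ {G | r G F ∨ G = F}, K G) ∪
          range (fun G : {G // r G F} => (ih G.1 G.2).1)) : Set E) ⊆
      closure (Submodule.span ℝ D : Set E) := by
    have h1 : (H₀ ∪ (⋃ G ∈ {G | r G F ∨ G = F}, K G) ∪
          range (fun G : {G // r G F} => (ih G.1 G.2).1)) ⊆
        closure (Submodule.span ℝ D : Set E) := by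
      refine union_subset (union_subset ?_ ?_) ?_
      · refine subset_trans ?_ subset_closure
        refine subset_trans ?_ Submodule.subset_span
        rw [hD]
        exact subset_trans subset_union_left subset_union_left
      · refine iUnion₂_subset fun G hG => ?_
        refine subset_trans (hDK G) (closure_mono ?_)
        refine subset_trans ?_ Submodule.subset_span
        rw [hD]
        refine subset_trans ?_ subset_union_left
        refine subset_trans ?_ subset_union_right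
        exact subset_biUnion_of_mem (u := DK) hG
      · refine subset_trans ?_ subset_closure
        refine subset_trans ?_ Submodule.subset_span
        rw [hD]
        exact subset_union_right
    have h2 : Submodule.span ℝ (H₀ ∪ (⋃ G ∈ {G | r G F ∨ G = F}, K G) ∪
          range (fun G : {G // r G F} => (ih G.1 G.2).1)) ≤
        (Submodule.span ℝ D).topologicalClosure := by
      rw [Submodule.span_le]
      exact h1
    have h3 := closure_mono (show ((Submodule.span ℝ (H₀ ∪ (⋃ G ∈ {G | r G F ∨ G = F}, K G) ∪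
          range (fun G : {G // r G F} => (ih G.1 G.2).1)) : Submodule ℝ E) : Set E) ⊆
        closure (Submodule.span ℝ D : Set E) from h2)
    rwa [closure_closure] at h3
  obtain ⟨ε₀, hε₀, hε₀z⟩ := fn_mem_nhds hN z (isClosed_closure.isOpen_compl.mem_nhds hz)
  obtain ⟨n, hn⟩ := exists_nat_one_div_lt hε₀
  -- the common bound
  obtain ⟨a, ha⟩ : ∃ a : Finset B → ℝ, ∀ G, a G = if h : r G F then
      1 / (((((ih G h).2.2 : ℕ+) : ℕ) : ℝ) * ((((ih G h).2.1 : ℕ+) : ℕ) : ℝ) *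
            2 ^ (G.card + 5)) / 16 else 1 := ⟨_, fun _ => rfl⟩
  have hapos : ∀ G, 0 < a G := by
    intro G
    rw [ha]
    split_ifs with h
    · have h1 : (0 : ℝ) < (((ih G h).2.2 : ℕ+) : ℕ) := by exact_mod_cast ((ih G h).2.2).pos
      have h2 : (0 : ℝ) < (((ih G h).2.1 : ℕ+) : ℕ) := by exact_mod_cast ((ih G h).2.1).pos
      positivity
    · exact one_pos
  have hne : F.powerset.Nonempty := ⟨F, Finset.mem_powerset_self F⟩
  have he : 0 < min (δ F) (F.powerset.inf' hne a) := by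
    refine lt_min (hδ F) ?_
    rw [Finset.lt_inf'_iff]
    exact fun G _ => hapos G
  have hea : ∀ G, G ⊂ F → min (δ F) (F.powerset.inf' hne a) ≤ a G := by
    intro G hG
    refine le_trans (min_le_right _ _) (Finset.inf'_le a ?_)
    rw [Finset.mem_powerset]
    exact hG.1
  have hp : (0 : ℝ) < (1 / 2) ^ F.card := by positivity
  obtain ⟨k, hk1, hk⟩ := hN.small_of_compact ((hK F).union (isCompact_singleton (x := z)))
    (mul_pos hp he)
  have hk' := hk k le_rfl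
  refine ⟨(z, ⟨k, hk1⟩, ⟨n + 1, Nat.succ_pos n⟩), hzC, ?_, ⟨?_, ?_⟩, ?_⟩
  · intro q hq
    have hq' := hsub hq
    have h1 : ε₀ ≤ N (z - q) := by
      by_contra hlt
      exact hε₀z q (not_le.1 hlt) hq'
    show 1 / (((n + 1 : ℕ)) : ℝ) ≤ N (z - q)
    push_cast
    exact le_trans hn.le h1
  · exact le_trans (hk' z (Or.inr rfl)) (mul_le_mul_of_nonneg_left (min_le_left _ _) hp.le)
  · intro q hq
    exact le_trans (hk' q (Or.inl hq)) (mul_le_mul_of_nonneg_left (min_le_left _ _) hp.le)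
  · intro G h hG
    have h1 := hea G hG
    rw [ha G, dif_pos h] at h1
    refine ⟨?_, fun q hq => ?_⟩
    · exact le_trans (hk' z (Or.inr rfl)) (mul_le_mul_of_nonneg_left h1 hp.le)
    · exact le_trans (hk' q (Or.inl hq)) (mul_le_mul_of_nonneg_left h1 hp.le)

theorem exists_markers {E : Type} [AddCommGroup E] [Module ℝ E] [TopologicalSpace E]
    [IsTopologicalAddGroup E] [ContinuousSMul ℝ E] {N : E → ℝ} (hN : IsFNorm N) {C : Set E}
    {κ : Cardinal.{0}} (hκ : ℵ₀ < κ)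
    (hfar : ∀ D : Set E, #D < κ → ∃ z ∈ C, z ∉ closure (Submodule.span ℝ D : Set E))
    {B : Type} (hB : #B ≤ κ) {H₀ : Set E} (hH₀ : H₀.Countable) {K : Finset B → Set E}
    (hK : ∀ F, IsCompact (K F)) {δ : Finset B → ℝ} (hδ : ∀ F, 0 < δ F) :
    ∃ (r : Finset B → Finset B → Prop) (z : Finset B → E) (k j : Finset B → ℕ),
      IsWellOrder (Finset B) r ∧ (∀ F G, F ⊂ G → r F G) ∧ (∀ F, z F ∈ C) ∧
      (∀ F, 1 ≤ k F ∧ 1 ≤ j F) ∧
      (∀ F, ∀ q ∈ closure (Submodule.span ℝ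
        (H₀ ∪ (⋃ G ∈ {G | r G F ∨ G = F}, K G) ∪ z '' {G | r G F}) : Set E),
        1 / (j F : ℝ) ≤ N (z F - q)) ∧
      (∀ F, N ((1 / (k F : ℝ)) • z F) ≤ (1 / 2) ^ F.card * δ F ∧
        ∀ q ∈ K F, N ((1 / (k F : ℝ)) • q) ≤ (1 / 2) ^ F.card * δ F) ∧
      (∀ F G, G ⊂ F → N ((1 / (k F : ℝ)) • z F) ≤ (1 / 2) ^ F.card * (eta k j G / 16) ∧
        ∀ q ∈ K F, N ((1 / (k F : ℝ)) • q) ≤ (1 / 2) ^ F.card * (eta k j G / 16)) := by
  obtain ⟨r, hwo, hss, hcard⟩ := exists_wo hκ hB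
  choose step hstep using fun (F : Finset B) (ih : ∀ G, r G F → E × ℕ+ × ℕ+) =>
    mark_step hN hκ hfar hH₀ hK hδ hcard F ih
  have hwf : WellFounded r := hwo.wf
  obtain ⟨s, hs⟩ : ∃ s : Finset B → E × ℕ+ × ℕ+, ∀ F, s F = step F (fun G _ => s G) :=
    ⟨hwf.fix step, fun F => hwf.fix_eq step F⟩
  have key := fun F => hstep F (fun G _ => s G)
  simp only [← hs] at key
  refine ⟨r, fun F => (s F).1, fun F => ((s F).2.1 : ℕ), fun F => ((s F).2.2 : ℕ), hwo, hss,
    fun F => (key F).1, fun F => ⟨(s F).2.1.pos, (s F).2.2.pos⟩, ?_, fun F => (key F).2.2.1, ?_⟩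
  · intro F q hq
    refine (key F).2.1 q ?_
    have h1 : (fun F => (s F).1) '' {G | r G F} =
        range (fun G : {G // r G F} => (s G.1).1) := by
      ext x
      constructor
      · rintro ⟨G, hG, rfl⟩
        exact ⟨⟨G, hG⟩, rfl⟩
      · rintro ⟨⟨G, hG⟩, rfl⟩
        exact ⟨G, hG, rfl⟩
    rw [h1] at hq
    exact hq
  · intro F G hG
    exact (key F).2.2.2 G (hss G F hG) hG

end Pool.Agent.TOR
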