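import Pool.Agent.Lib.MP_5a68e6_TOR.Defs3

set_option autoImplicit false

namespace Pool.Agent.TOR

open Set Filter Topology TopologicalSpace Cardinal Pool.Agent.HLF

/-- positivity of a locally finite sum -/
theorem wt_finsum_pos {I : Type} {u : I → ℝ} (hf : {i | u i ≠ 0}.Finite) (h0 : ∀ i, 0 ≤ u i)
    (hp : ∃ i, u i ≠ 0) : 0 < ∑ᶠ i, u i := by
  have hs : (∑ᶠ i, u i) = ∑ i ∈ hf.toFinset, u i := by
    apply finsum_eq_sum_of_support_subset
    intro i hi
    simpa using hi
  rw [hs]
  obtain ⟨i, hi⟩ := hp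
  apply Finset.sum_pos'
  · intro j _
    exact h0 j
  · refine ⟨i, by simpa using hi, lt_of_le_of_ne (h0 i) (Ne.symm hi)⟩

/-- normalisation -/
theorem wt_normalise {I Y : Type} [TopologicalSpace Y] {u : I → Y → ℝ}
    (hc : ∀ i, Continuous (u i)) (hlf : LocallyFinite fun i => {y | u i y ≠ 0})
    (h0 : ∀ i y, 0 ≤ u i y) (hp : ∀ y, ∃ i, u i y ≠ 0) :
    ∃ n : I → Y → ℝ, (∀ i, Continuous (n i)) ∧ (∀ i y, 0 ≤ n i y) ∧
      (LocallyFinite fun i => {y | n i y ≠ 0}) ∧ (∀ y, ∑ᶠ i, n i y = 1) ∧
      (∀ i y, n i y ≠ 0 → u i y ≠ 0) := by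
  have hVc : Continuous fun y => ∑ᶠ i, u i y := continuous_finsum hc hlf
  have hVp : ∀ y, 0 < ∑ᶠ i, u i y := fun y =>
    wt_finsum_pos (hlf.point_finite y) (fun i => h0 i y) (hp y)
  refine ⟨fun i y => u i y / ∑ᶠ j, u j y, ?_, ?_, ?_, ?_, ?_⟩
  · intro i
    exact (hc i).div hVc (fun y => (hVp y).ne')
  · intro i y
    exact div_nonneg (h0 i y) (hVp y).le
  · refine hlf.subset ?_
    intro i y hy hn
    apply hy
    simp [hn]
  · intro y
    have h1 : (∑ᶠ i, u i y / ∑ᶠ j, u j y) = (∑ᶠ i, u i y) / ∑ᶠ j, u j y := by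
      simp only [div_eq_mul_inv]
      rw [finsum_mul]
    rw [h1, div_self (hVp y).ne']
  · intro i y hy hn
    apply hy
    simp [hn]

/-- the continuous threshold -/
theorem wt_threshold {B Y : Type} [TopologicalSpace Y] {lam : B → Y → ℝ}
    (hc : ∀ b, Continuous (lam b)) (hlf : LocallyFinite fun b => {y | lam b y ≠ 0})
    (h0 : ∀ b y, 0 ≤ lam b y) (hpos : ∀ y, ∃ b, 0 < lam b y) :
    ∃ T : Y → ℝ, Continuous T ∧ (∀ y, 0 < T y) ∧ ∀ y, ∃ b, T y ≤ lam b y := by
  have hlf2 : LocallyFinite fun b => {y | lam b y ^ 2 ≠ 0} := by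
    refine hlf.subset ?_
    intro b y hy hn
    apply hy
    simp [hn]
  have hp1 : ∀ y, 0 < ∑ᶠ b, lam b y := fun y =>
    wt_finsum_pos (hlf.point_finite y) (fun b => h0 b y)
      (by obtain ⟨b, hb⟩ := hpos y; exact ⟨b, hb.ne'⟩)
  have hp2 : ∀ y, 0 < ∑ᶠ b, lam b y ^ 2 := fun y =>
    wt_finsum_pos (hlf2.point_finite y) (fun b => sq_nonneg _)
      (by obtain ⟨b, hb⟩ := hpos y; exact ⟨b, pow_ne_zero 2 hb.ne'⟩)
  refine ⟨fun y => (∑ᶠ b, lam b y ^ 2) / ∑ᶠ b, lam b y, ?_, ?_, ?_⟩
  · exact (continuous_finsum (fun b => (hc b).pow 2) hlf2).div (continuous_finsum hc hlf)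
      (fun y => (hp1 y).ne')
  · intro y
    exact div_pos (hp2 y) (hp1 y)
  · intro y
    by_contra hcon
    push Not at hcon
    set t : ℝ := (∑ᶠ b, lam b y ^ 2) / ∑ᶠ b, lam b y with ht
    have hfin : {b | lam b y ≠ 0}.Finite := hlf.point_finite y
    have e1 : (∑ᶠ b, lam b y) = ∑ b ∈ hfin.toFinset, lam b y := by
      apply finsum_eq_sum_of_support_subset
      intro i hi
      simpa using hi
    have e2 : (∑ᶠ b, lam b y ^ 2) = ∑ b ∈ hfin.toFinset, lam b y ^ 2 := by
      apply finsum_eq_sum_of_support_subset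
      intro i hi
      simpa using hi
    have hlt : (∑ b ∈ hfin.toFinset, lam b y ^ 2) < ∑ b ∈ hfin.toFinset, t * lam b y := by
      obtain ⟨b0, hb0⟩ := hpos y
      apply Finset.sum_lt_sum_of_nonempty
      · exact ⟨b0, by simpa using hb0.ne'⟩
      · intro b hb
        have hb' : 0 < lam b y := lt_of_le_of_ne (h0 b y) (by simpa [eq_comm] using hb)
        have := hcon b
        nlinarith
    rw [← Finset.mul_sum, ← e1, ← e2] at hlt
    have : t * (∑ᶠ b, lam b y) = ∑ᶠ b, lam b y ^ 2 := by
      rw [ht]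
      exact div_mul_cancel₀ _ (hp1 y).ne'
    linarith

theorem exists_weights {B Y : Type} [TopologicalSpace Y] {lam : B → Y → ℝ}
    (hc : ∀ b, Continuous (lam b)) (hlf : LocallyFinite fun b => {y | lam b y ≠ 0})
    (h0 : ∀ b y, 0 ≤ lam b y) (hpos : ∀ y, ∃ b, 0 < lam b y) :
    ∃ (w : Finset B → Y → ℝ) (ξ : B → Y → ℝ), IsWeights lam w ξ := by
  classical
  obtain ⟨T, hTc, hTp, hTb⟩ := wt_threshold hc hlf h0 hpos
  have hfin : ∀ y, {b | lam b y ≠ 0}.Finite := fun y => hlf.point_finite y
  -- the truncated functions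
  set G : B → Y → NNReal := fun b y => Real.toNNReal (min (lam b y) (T y / 2)) with hG
  have hGc : ∀ b, Continuous (G b) := fun b =>
    continuous_real_toNNReal.comp ((hc b).min (hTc.div_const 2))
  have hG0 : ∀ b y, lam b y = 0 → G b y = 0 := by
    intro b y h
    simp only [hG]
    rw [Real.toNNReal_eq_zero, h]
    exact min_le_left _ _
  have hGpos : ∀ b y, 0 < G b y → 0 < lam b y := by
    intro b y h
    rcases (h0 b y).lt_or_eq with h1 | h1
    · exact h1
    · rw [hG0 b y h1.symm] at h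
      exact absurd h (lt_irrefl _)
  have hGle : ∀ b y, G b y ≤ Real.toNNReal (T y / 2) := fun b y =>
    Real.toNNReal_le_toNNReal (min_le_right _ _)
  have hGeq : ∀ b y, T y / 2 ≤ lam b y → G b y = Real.toNNReal (T y / 2) := by
    intro b y h
    simp only [hG]
    rw [min_eq_right h]
  have hGlt : ∀ b y, lam b y < T y / 2 → G b y < Real.toNNReal (T y / 2) := by
    intro b y h
    simp only [hG]
    rw [min_eq_left h.le]
    exact (Real.toNNReal_lt_toNNReal_iff (by have := hTp y; linarith)).2 h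
  -- the outer supremum
  set p : Finset B → Y → NNReal := fun F y => ((hfin y).toFinset \ F).sup (fun b => G b y) with hp
  have hple : ∀ F y b, b ∉ F → G b y ≤ p F y := by
    intro F y b hb
    by_cases h : lam b y = 0
    · rw [hG0 b y h]
      exact zero_le
    · exact Finset.le_sup (f := fun b => G b y) (by simp [h, hb])
  have hpc : ∀ F, Continuous (p F) := by
    intro F
    rw [continuous_iff_continuousAt]
    intro y0
    obtain ⟨t, ht, hS⟩ := hlf y0
    have hev : (fun y => (hS.toFinset \ F).sup (fun b => G b y)) =ᶠ[𝓝 y0] p F := by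
      filter_upwards [ht] with y hy
      apply le_antisymm
      · apply Finset.sup_le
        intro b hb
        exact hple F y b (Finset.mem_sdiff.1 hb).2
      · apply Finset.sup_le
        intro b hb
        have hb2 := Finset.mem_sdiff.1 hb
        refine Finset.le_sup (f := fun b => G b y) (Finset.mem_sdiff.2 ⟨?_, hb2.2⟩)
        have h1 : lam b y ≠ 0 := by simpa using hb2.1
        simp only [Set.Finite.mem_toFinset]
        exact ⟨y, h1, hy⟩
    refine ContinuousAt.congr ?_ hev
    exact ContinuousAt.finset_sup_apply (fun b _ => (hGc b).continuousAt)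
  -- the unnormalised weights
  set v : Finset B → Y → NNReal := fun F y =>
    if h : F.Nonempty then (F.inf' h (fun b => G b y)) - p F y else 0 with hv
  have hvc : ∀ F, Continuous (v F) := by
    intro F
    by_cases h : F.Nonempty
    · have : v F = fun y => (F.inf' h (fun b => G b y)) - p F y := by
        funext y
        simp only [hv, dif_pos h]
      rw [this]
      exact (Continuous.finset_inf'_apply h (fun b _ => hGc b)).sub (hpc F)
    · have : v F = fun _ => 0 := by
        funext y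
        simp only [hv, dif_neg h]
      rw [this]
      exact continuous_const
  have hvne : ∀ F y, v F y ≠ 0 → F.Nonempty := by
    intro F y h
    by_contra hF
    apply h
    simp only [hv, dif_neg hF]
  have hvlt : ∀ F y, v F y ≠ 0 → ∀ a ∈ F, p F y < G a y := by
    intro F y h a ha
    have hF := hvne F y h
    have h1 : v F y = (F.inf' hF (fun b => G b y)) - p F y := by
      simp only [hv, dif_pos hF]
    rw [h1] at h
    have h2 : p F y < F.inf' hF (fun b => G b y) := by
      by_contra hcon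
      push Not at hcon
      exact h (tsub_eq_zero_of_le hcon)
    exact lt_of_lt_of_le h2 (Finset.inf'_le (fun b => G b y) ha)
  have hvsupp : ∀ F y, v F y ≠ 0 → ∀ a ∈ F, 0 < lam a y := by
    intro F y h a ha
    exact hGpos a y (lt_of_le_of_lt zero_le (hvlt F y h a ha))
  have hvlf : LocallyFinite fun F => {y | ((v F y : NNReal) : ℝ) ≠ 0} := by
    intro y0
    obtain ⟨t, ht, hS⟩ := hlf y0
    refine ⟨t, ht, ?_⟩
    refine Set.Finite.subset (hS.toFinset.powerset.finite_toSet) ?_
    intro F hF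
    obtain ⟨y, hy1, hy2⟩ := hF
    have hy1' : v F y ≠ 0 := by
      intro h
      apply hy1
      simp [h]
    rw [Finset.mem_coe, Finset.mem_powerset]
    intro b hb
    simp only [Set.Finite.mem_toFinset]
    exact ⟨y, (hvsupp F y hy1' b hb).ne', hy2⟩
  have hvex : ∀ y, ∃ F, ((v F y : NNReal) : ℝ) ≠ 0 := by
    intro y
    obtain ⟨b0, hb0⟩ := hTb y
    have hT := hTp y
    refine ⟨(hfin y).toFinset.filter (fun b => T y / 2 ≤ lam b y), ?_⟩
    set F := (hfin y).toFinset.filter (fun b => T y / 2 ≤ lam b y) with hFdef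
    have hb0F : b0 ∈ F := by
      rw [hFdef, Finset.mem_filter]
      refine ⟨?_, by linarith⟩
      simp only [Set.Finite.mem_toFinset, Set.mem_ofPred_eq]
      intro h
      linarith
    have hF : F.Nonempty := ⟨b0, hb0F⟩
    have h1 : v F y = (F.inf' hF (fun b => G b y)) - p F y := by
      simp only [hv, dif_pos hF]
    have hTT : 0 < Real.toNNReal (T y / 2) := Real.toNNReal_pos.2 (by linarith)
    have h2 : Real.toNNReal (T y / 2) ≤ F.inf' hF (fun b => G b y) := by
      apply Finset.le_inf'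
      intro b hb
      rw [hGeq b y (Finset.mem_filter.1 hb).2]
    have h3 : p F y < Real.toNNReal (T y / 2) := by
      rw [hp]
      simp only
      rw [Finset.sup_lt_iff (by simpa using hTT)]
      intro b hb
      apply hGlt
      have hb2 := Finset.mem_sdiff.1 hb
      by_contra hcon
      push Not at hcon
      apply hb2.2
      rw [hFdef, Finset.mem_filter]
      exact ⟨hb2.1, hcon⟩
    have h4 : 0 < v F y := by
      rw [h1]
      exact tsub_pos_of_lt (lt_of_lt_of_le h3 h2)
    exact_mod_cast h4.ne'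
  obtain ⟨w, w1, w2, w3, w4, w5⟩ := wt_normalise (u := fun F y => ((v F y : NNReal) : ℝ))
    (fun F => NNReal.continuous_coe.comp (hvc F)) hvlf (fun F y => NNReal.coe_nonneg _) hvex
  -- the partition of unity
  have hxlf : LocallyFinite fun b => {y | max 0 (lam b y - T y / 2) ≠ 0} := by
    refine hlf.subset ?_
    intro b y hy hn
    apply hy
    rw [max_eq_left_iff]
    have := hTp y
    linarith
  have hxex : ∀ y, ∃ b, max 0 (lam b y - T y / 2) ≠ 0 := by
    intro y
    obtain ⟨b0, hb0⟩ := hTb y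
    have hT := hTp y
    refine ⟨b0, ?_⟩
    have : 0 < max 0 (lam b0 y - T y / 2) := lt_max_of_lt_right (by linarith)
    exact this.ne'
  obtain ⟨ξ, x1, x2, x3, x4, x5⟩ := wt_normalise (u := fun b y => max 0 (lam b y - T y / 2))
    (fun b => continuous_const.max ((hc b).sub (hTc.div_const 2))) hxlf
    (fun b y => le_max_left _ _) hxex
  have hxb : ∀ b y, ξ b y ≠ 0 → T y / 2 < lam b y := by
    intro b y h
    by_contra hcon
    push Not at hcon
    apply x5 b y h
    rw [max_eq_left_iff]
    linarith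
  have hwv : ∀ F y, w F y ≠ 0 → v F y ≠ 0 := by
    intro F y h hn
    apply w5 F y h
    simp [hn]
  refine ⟨w, ξ, ?_⟩
  refine
    { w_cont := w1
      w_nonneg := w2
      w_lf := w3
      w_sum := w4
      w_nonempty := fun F y h => hvne F y (hwv F y h)
      w_supp := fun F y h => hvsupp F y (hwv F y h)
      w_chain := ?_
      x_cont := x1
      x_nonneg := x2
      x_lf := x3
      x_sum := x4
      x_supp := ?_
      x_mem := ?_ }
  · intro F G' y hF hG'
    by_contra hcon
    rw [not_or] at hcon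
    obtain ⟨hc1, hc2⟩ := hcon
    rw [Finset.not_subset] at hc1 hc2
    obtain ⟨a, ha1, ha2⟩ := hc1
    obtain ⟨b, hb1, hb2⟩ := hc2
    have e1 : G b y < G a y := lt_of_le_of_lt (hple F y b hb2) (hvlt F y (hwv F y hF) a ha1)
    have e2 : G a y < G b y := lt_of_le_of_lt (hple G' y a ha2) (hvlt G' y (hwv G' y hG') b hb1)
    exact absurd (e1.trans e2) (lt_irrefl _)
  · intro b y h
    have := hxb b y h
    have := hTp y
    linarith
  · intro b F y hx hw
    by_contra hb
    obtain ⟨a, ha⟩ := hvne F y (hwv F y hw)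
    have e1 : G b y < G a y := lt_of_le_of_lt (hple F y b hb) (hvlt F y (hwv F y hw) a ha)
    rw [hGeq b y (hxb b y hx).le] at e1
    exact absurd (lt_of_lt_of_le e1 (hGle a y)) (lt_irrefl _)

end Pool.Agent.TOR
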