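import Pool.Agent.Lib.MP_5a68e6_TOR.LFinf
import Pool.Agent.Lib.MP_5a68e6_TOR.Mark
import Pool.Agent.Lib.MP_5a68e6_TOR.Wt
import Pool.Agent.Lib.MP_5a68e6_TOR.Base

/-! Project TOR (MP_5a68e6_gt), module SU: strong universality of convex sets -/

set_option autoImplicit false

namespace Pool.Agent.TOR

open Set Filter Topology TopologicalSpace Cardinal Pool.Agent.HLF

section Weights
variable {B Y : Type} [TopologicalSpace Y] {lam : B → Y → ℝ} {w : Finset B → Y → ℝ}
  {ξ : B → Y → ℝ}

/-- the active sets at `y` -/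
noncomputable def su_act (hw : IsWeights lam w ξ) (y : Y) : Finset (Finset B) :=
  (hw.w_lf.point_finite y).toFinset

theorem su_mem_act (hw : IsWeights lam w ξ) {y : Y} {F : Finset B} :
    F ∈ su_act hw y ↔ w F y ≠ 0 := by
  simp [su_act]

theorem su_finsum {M : Type*} [AddCommMonoid M] (hw : IsWeights lam w ξ) (y : Y)
    {φ : Finset B → M} (h : ∀ F, w F y = 0 → φ F = 0) :
    ∑ᶠ F, φ F = ∑ F ∈ su_act hw y, φ F := by
  apply finsum_eq_sum_of_support_subset
  intro F hF
  rw [Finset.mem_coe, su_mem_act]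
  intro h0
  exact hF (h F h0)

theorem su_cont {M : Type*} [TopologicalSpace M] [AddCommMonoid M] [ContinuousAdd M]
    (hw : IsWeights lam w ξ) {φ : Finset B → Y → M} (hc : ∀ F, Continuous (φ F))
    (h : ∀ F y, w F y = 0 → φ F y = 0) : Continuous fun y => ∑ᶠ F, φ F y := by
  apply continuous_finsum hc
  refine hw.w_lf.subset fun F y hy => ?_
  intro h0
  exact hy (h F y h0)

theorem su_geomN (T : Finset ℕ) (hT : ∀ n ∈ T, 1 ≤ n) : ∑ n ∈ T, (1 / 2 : ℝ) ^ n ≤ 1 := by
  have h1 : ∀ M : ℕ, ∑ n ∈ Finset.range M, (1 / 2 : ℝ) ^ (n + 1) = 1 - (1 / 2) ^ M := by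
    intro M
    induction M with
    | zero => simp
    | succ M ih =>
      rw [Finset.sum_range_succ, ih]
      ring
  have h2 : ∃ M : ℕ, T ⊆ (Finset.range M).map ⟨fun n => n + 1, add_left_injective 1⟩ := by
    refine ⟨T.sup id + 1, fun n hn => ?_⟩
    rw [Finset.mem_map]
    have h3 := hT n hn
    have h4 : n ≤ T.sup id := Finset.le_sup (f := id) hn
    exact ⟨n - 1, by rw [Finset.mem_range]; omega, by simp; omega⟩
  obtain ⟨M, hM⟩ := h2
  calc ∑ n ∈ T, (1 / 2 : ℝ) ^ n
      ≤ ∑ n ∈ (Finset.range M).map ⟨fun n => n + 1, add_left_injective 1⟩, (1 / 2 : ℝ) ^ n :=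
        Finset.sum_le_sum_of_subset_of_nonneg hM fun _ _ _ => by positivity
    _ = 1 - (1 / 2) ^ M := by
        rw [Finset.sum_map]
        exact h1 M
    _ ≤ 1 := by
        have : (0 : ℝ) < (1 / 2) ^ M := by positivity
        linarith

theorem su_geom (S : Finset (Finset B)) (hne : ∀ F ∈ S, F.Nonempty)
    (hch : ∀ F ∈ S, ∀ G ∈ S, F ⊆ G ∨ G ⊆ F) : ∑ F ∈ S, (1 / 2 : ℝ) ^ F.card ≤ 1 := by
  have hinj : Set.InjOn Finset.card (S : Set (Finset B)) := by
    intro F hF G hG h
    rcases hch F hF G hG with h1 | h1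
    · exact Finset.eq_of_subset_of_card_le h1 h.ge
    · exact (Finset.eq_of_subset_of_card_le h1 h.le).symm
  classical
  have h1 := Finset.sum_image (f := fun n : ℕ => (1 / 2 : ℝ) ^ n) hinj
  rw [← h1]
  apply su_geomN
  intro n hn
  rw [Finset.mem_image] at hn
  obtain ⟨F, hF, rfl⟩ := hn
  exact Finset.card_pos.mpr (hne F hF)

theorem su_eq_of_card (hw : IsWeights lam w ξ) {y : Y} {F G : Finset B} (hF : w F y ≠ 0)
    (hG : w G y ≠ 0) (h : F.card = G.card) : F = G := by
  rcases hw.w_chain F G y hF hG with h1 | h1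
  · exact Finset.eq_of_subset_of_card_le h1 h.ge
  · exact (Finset.eq_of_subset_of_card_le h1 h.le).symm

theorem su_sum_one (hw : IsWeights lam w ξ) (y : Y) : ∑ F ∈ su_act hw y, w F y = 1 := by
  rw [← su_finsum hw y (φ := fun F => w F y) (fun F h => h)]
  exact hw.w_sum y

theorem su_w_le (hw : IsWeights lam w ξ) (F : Finset B) (y : Y) : w F y ≤ 1 := by
  by_cases h : w F y = 0
  · rw [h]; exact zero_le_one
  · rw [← su_sum_one hw y]
    exact Finset.single_le_sum (f := fun F => w F y) (fun G _ => hw.w_nonneg G y)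
      ((su_mem_act hw).mpr h)

/-- the class of `F` -/
def su_cls (k j : Finset B → ℕ) (F : Finset B) : ℕ := Nat.pair F.card (Nat.pair (k F) (j F))

theorem su_cls_eq {k j : Finset B → ℕ} {F G : Finset B} (h : su_cls k j F = su_cls k j G) :
    F.card = G.card ∧ k F = k G ∧ j F = j G := by
  unfold su_cls at h
  rw [Nat.pair_eq_pair, Nat.pair_eq_pair] at h
  exact h

/-- the weight of a class -/
noncomputable def su_W (w : Finset B → Y → ℝ) (k j : Finset B → ℕ) (c : ℕ) (y : Y) : ℝ :=
  ∑ᶠ F, if su_cls k j F = c then w F y else 0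

noncomputable def su_s (w : Finset B → Y → ℝ) (k j : Finset B → ℕ) (y : Y) : ℝ :=
  ∑ᶠ F, w F y * su_cls k j F

/-- the parameters -/
noncomputable def su_par (w : Finset B → Y → ℝ) (k j : Finset B → ℕ) (y : Y) : ℕ → ℝ
  | 0 => su_s w k j y
  | (m + 1) => ((Nat.unpair m).1 : ℝ) * su_W w k j (Nat.unpair m).2 y

theorem su_W_cont (hw : IsWeights lam w ξ) (k j : Finset B → ℕ) (c : ℕ) :
    Continuous (su_W w k j c) := by
  unfold su_W
  apply su_cont hw
  · intro F
    by_cases h : su_cls k j F = c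
    · simp only [h, if_true]; exact hw.w_cont F
    · simp only [h, if_false]; exact continuous_const
  · intro F y h
    rw [h, ite_self]

theorem su_W_nonneg (hw : IsWeights lam w ξ) (k j : Finset B → ℕ) (c : ℕ) (y : Y) :
    0 ≤ su_W w k j c y := by
  unfold su_W
  apply finsum_nonneg
  intro F
  split_ifs
  · exact hw.w_nonneg F y
  · exact le_rfl

theorem su_s_nonneg (hw : IsWeights lam w ξ) (k j : Finset B → ℕ) (y : Y) :
    0 ≤ su_s w k j y := by
  unfold su_s
  exact finsum_nonneg fun F => mul_nonneg (hw.w_nonneg F y) (Nat.cast_nonneg _)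

theorem su_s_cont (hw : IsWeights lam w ξ) (k j : Finset B → ℕ) :
    Continuous (su_s w k j) := by
  unfold su_s
  apply su_cont hw
  · intro F
    exact (hw.w_cont F).mul continuous_const
  · intro F y h
    rw [h, zero_mul]

theorem su_par_cont (hw : IsWeights lam w ξ) (k j : Finset B → ℕ) :
    Continuous (su_par w k j) := by
  apply continuous_pi
  intro m
  cases m with
  | zero => exact su_s_cont hw k j
  | succ m => exact continuous_const.mul (su_W_cont hw k j _)

theorem su_par_nonneg (hw : IsWeights lam w ξ) (k j : Finset B → ℕ) (y : Y) (m : ℕ) :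
    0 ≤ su_par w k j y m := by
  cases m with
  | zero => exact su_s_nonneg hw k j y
  | succ m => exact mul_nonneg (Nat.cast_nonneg _) (su_W_nonneg hw k j _ y)

omit [TopologicalSpace Y] in
theorem su_par_pair (k j : Finset B → ℕ) (y : Y) (n c : ℕ) :
    su_par w k j y (Nat.pair n c + 1) = n * su_W w k j c y := by
  simp [su_par]

theorem su_W_eq (hw : IsWeights lam w ξ) (k j : Finset B → ℕ) {F : Finset B} {y : Y}
    (h : w F y ≠ 0) : su_W w k j (su_cls k j F) y = w F y := by
  unfold su_W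
  rw [finsum_eq_single _ F]
  · rw [if_pos rfl]
  · intro G hG
    split_ifs with h1
    · by_contra h2
      exact hG (su_eq_of_card hw h2 h (su_cls_eq h1).1)
    · rfl

theorem su_W_ex (hw : IsWeights lam w ξ) (k j : Finset B → ℕ) {c : ℕ} {y : Y}
    (h : su_W w k j c y ≠ 0) : ∃ F, w F y ≠ 0 ∧ su_cls k j F = c ∧ w F y = su_W w k j c y := by
  have h1 : ∃ F, w F y ≠ 0 ∧ su_cls k j F = c := by
    by_contra hcon
    push Not at hcon
    apply h
    unfold su_W
    apply finsum_eq_zero_of_forall_eq_zero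
    intro F
    split_ifs with h2
    · by_contra h3
      exact hcon F h3 h2
    · rfl
  obtain ⟨F, h2, h3⟩ := h1
  refine ⟨F, h2, h3, ?_⟩
  rw [← h3, su_W_eq hw k j h2]

/-- there is a heavy set of small class -/
theorem su_heavy (hw : IsWeights lam w ξ) (k j : Finset B → ℕ) {y : Y} {S : ℝ} (hS : 1 ≤ S)
    (hs : su_s w k j y ≤ S) {M : ℕ} (hM : 2 * S ≤ M) :
    ∃ F, su_cls k j F ≤ M ∧ 2 * (1 / 2 : ℝ) ^ (F.card + 4) ≤ w F y := by
  by_contra hcon
  push Not at hcon
  have h1 := su_sum_one hw y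
  rw [← Finset.sum_filter_add_sum_filter_not (su_act hw y) (fun F => su_cls k j F ≤ M)] at h1
  have h2 : ∑ F ∈ (su_act hw y).filter (fun F => su_cls k j F ≤ M), w F y ≤ 1 / 8 := by
    calc ∑ F ∈ (su_act hw y).filter (fun F => su_cls k j F ≤ M), w F y
        ≤ ∑ F ∈ (su_act hw y).filter (fun F => su_cls k j F ≤ M),
          (1 / 8 : ℝ) * (1 / 2) ^ F.card := by
          apply Finset.sum_le_sum
          intro F hF
          rw [Finset.mem_filter] at hF
          have h3 := (hcon F hF.2).le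
          have h4 : 2 * (1 / 2 : ℝ) ^ (F.card + 4) = 1 / 8 * (1 / 2) ^ F.card := by
            rw [pow_add]; ring
          rwa [h4] at h3
      _ = 1 / 8 * ∑ F ∈ (su_act hw y).filter (fun F => su_cls k j F ≤ M),
          (1 / 2 : ℝ) ^ F.card := by rw [Finset.mul_sum]
      _ ≤ 1 / 8 * 1 := by
          apply mul_le_mul_of_nonneg_left _ (by norm_num)
          apply su_geom
          · intro F hF
            exact hw.w_nonempty F y ((su_mem_act hw).mp (Finset.mem_filter.mp hF).1)
          · intro F hF G hG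
            exact hw.w_chain F G y ((su_mem_act hw).mp (Finset.mem_filter.mp hF).1)
              ((su_mem_act hw).mp (Finset.mem_filter.mp hG).1)
      _ = 1 / 8 := by ring
  have h3 : ∑ F ∈ (su_act hw y).filter (fun F => ¬ su_cls k j F ≤ M), w F y ≤ 1 / 2 := by
    have h4 : 2 * S * ∑ F ∈ (su_act hw y).filter (fun F => ¬ su_cls k j F ≤ M), w F y ≤ S := by
      calc 2 * S * ∑ F ∈ (su_act hw y).filter (fun F => ¬ su_cls k j F ≤ M), w F y
          = ∑ F ∈ (su_act hw y).filter (fun F => ¬ su_cls k j F ≤ M), 2 * S * w F y := by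
            rw [Finset.mul_sum]
        _ ≤ ∑ F ∈ (su_act hw y).filter (fun F => ¬ su_cls k j F ≤ M),
            w F y * su_cls k j F := by
            apply Finset.sum_le_sum
            intro F hF
            rw [Finset.mem_filter] at hF
            have h5 : (M : ℝ) ≤ su_cls k j F := by
              exact_mod_cast (not_le.mp hF.2).le
            rw [mul_comm]
            exact mul_le_mul_of_nonneg_left (hM.trans h5) (hw.w_nonneg F y)
        _ ≤ ∑ F ∈ su_act hw y, w F y * su_cls k j F := by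
            apply Finset.sum_le_sum_of_subset_of_nonneg (Finset.filter_subset _ _)
            intro F _ _
            exact mul_nonneg (hw.w_nonneg F y) (Nat.cast_nonneg _)
        _ = su_s w k j y := by
            unfold su_s
            rw [su_finsum hw y]
            intro F h
            rw [h, zero_mul]
        _ ≤ S := hs
    nlinarith
  linarith

end Weights

section Norm
variable {E : Type} [AddCommGroup E] [Module ℝ E] [TopologicalSpace E]
variable {B Y : Type} [TopologicalSpace Y] {lam : B → Y → ℝ} {w : Finset B → Y → ℝ}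
  {ξ : B → Y → ℝ}

/-- the first approximation -/
noncomputable def su_v (base : Y → E) (w : Finset B → Y → ℝ) (k : Finset B → ℕ)
    (z : Finset B → E) (y : Y) : E :=
  base y + ∑ᶠ F, (w F y / (k F : ℝ)) • (z F - base y)

omit [TopologicalSpace E] in
theorem su_v_eq (hw : IsWeights lam w ξ) (base : Y → E) (k : Finset B → ℕ) (z : Finset B → E)
    (y : Y) : su_v base w k z y =
      base y + ∑ F ∈ su_act hw y, (w F y / (k F : ℝ)) • (z F - base y) := by
  unfold su_v
  rw [su_finsum hw y]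
  intro F h
  rw [h, zero_div, zero_smul]

theorem su_v_cont [IsTopologicalAddGroup E] [ContinuousSMul ℝ E] (hw : IsWeights lam w ξ)
    {base : Y → E} (hb : Continuous base) (k : Finset B → ℕ) (z : Finset B → E) :
    Continuous (su_v base w k z) := by
  unfold su_v
  refine hb.add ?_
  apply su_cont hw
  · intro F
    exact ((hw.w_cont F).div_const _).smul (continuous_const.sub hb)
  · intro F y h
    rw [h, zero_div, zero_smul]

omit [TopologicalSpace E] in
theorem su_v_mem (hw : IsWeights lam w ξ) {C : Set E} (hC : Convex ℝ C) {base : Y → E}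
    {k : Finset B → ℕ} {z : Finset B → E} (hk : ∀ F, 1 ≤ k F) (hz : ∀ F, z F ∈ C) {y : Y}
    (hb : base y ∈ C) : su_v base w k z y ∈ C := by
  have h1 : su_v base w k z y =
      ∑ F ∈ su_act hw y, w F y • ((1 - 1 / (k F : ℝ)) • base y + (1 / (k F : ℝ)) • z F) := by
    rw [su_v_eq hw]
    have h2 : ∀ F, w F y • ((1 - 1 / (k F : ℝ)) • base y + (1 / (k F : ℝ)) • z F) =
        w F y • base y + (w F y / (k F : ℝ)) • (z F - base y) := by
      intro F
      module
    simp only [h2]
    rw [Finset.sum_add_distrib, ← Finset.sum_smul, su_sum_one hw y, one_smul]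
  rw [h1]
  apply hC.sum_mem (fun F _ => hw.w_nonneg F y) (su_sum_one hw y)
  intro F _
  have h3 : (1 : ℝ) ≤ k F := by exact_mod_cast hk F
  have h4 : 1 / (k F : ℝ) ≤ 1 := by
    rw [div_le_one (by linarith)]
    exact h3
  apply hC hb (hz F) (by linarith) (by positivity) (by ring)

theorem su_N_sub {N : E → ℝ} (hN : IsFNorm N) (x y : E) : N (x - y) ≤ N x + N y := by
  rw [sub_eq_add_neg]
  have := hN.add_le x (-y)
  rwa [hN.neg] at this

theorem su_N_sum {N : E → ℝ} (hN : IsFNorm N) {ι : Type*} (S : Finset ι) (f : ι → E) :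
    N (∑ i ∈ S, f i) ≤ ∑ i ∈ S, N (f i) :=
  Finset.le_sum_of_subadditive N hN.zero.le hN.add_le S f

/-- bound of a part of the sum -/
theorem su_tail {N : E → ℝ} (hN : IsFNorm N) (hw : IsWeights lam w ξ) {base : Y → E}
    {k : Finset B → ℕ} {z : Finset B → E} {y : Y} {S : Finset (Finset B)}
    (hS : S ⊆ su_act hw y) {D : ℝ} (hD : 0 ≤ D)
    (h1 : ∀ F ∈ S, N ((1 / (k F : ℝ)) • z F) ≤ (1 / 2) ^ F.card * D)
    (h2 : ∀ F ∈ S, N ((1 / (k F : ℝ)) • base y) ≤ (1 / 2) ^ F.card * D) :
    N (∑ F ∈ S, (w F y / (k F : ℝ)) • (z F - base y)) ≤ 2 * D := by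
  calc N (∑ F ∈ S, (w F y / (k F : ℝ)) • (z F - base y))
      ≤ ∑ F ∈ S, N ((w F y / (k F : ℝ)) • (z F - base y)) := su_N_sum hN _ _
    _ ≤ ∑ F ∈ S, (1 / 2 : ℝ) ^ F.card * (2 * D) := by
        apply Finset.sum_le_sum
        intro F hF
        have h3 : (w F y / (k F : ℝ)) • (z F - base y) =
            w F y • ((1 / (k F : ℝ)) • z F - (1 / (k F : ℝ)) • base y) := by
          module
        rw [h3]
        have h4 : |w F y| ≤ 1 := by
          rw [abs_of_nonneg (hw.w_nonneg F y)]
          exact su_w_le hw F y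
        calc N (w F y • ((1 / (k F : ℝ)) • z F - (1 / (k F : ℝ)) • base y))
            ≤ N ((1 / (k F : ℝ)) • z F - (1 / (k F : ℝ)) • base y) := hN.smul_le _ _ h4
          _ ≤ N ((1 / (k F : ℝ)) • z F) + N ((1 / (k F : ℝ)) • base y) := su_N_sub hN _ _
          _ ≤ (1 / 2 : ℝ) ^ F.card * (2 * D) := by
              have := h1 F hF
              have := h2 F hF
              linarith
    _ = (∑ F ∈ S, (1 / 2 : ℝ) ^ F.card) * (2 * D) := by rw [Finset.sum_mul]
    _ ≤ 1 * (2 * D) := by
        apply mul_le_mul_of_nonneg_right _ (by linarith)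
        apply su_geom
        · intro F hF
          exact hw.w_nonempty F y ((su_mem_act hw).mp (hS hF))
        · intro F hF G hG
          exact hw.w_chain F G y ((su_mem_act hw).mp (hS hF)) ((su_mem_act hw).mp (hS hG))
    _ = 2 * D := one_mul _

/-- the first approximation up to a submodule and a small tail -/
theorem su_mod {N : E → ℝ} (hN : IsFNorm N) (hw : IsWeights lam w ξ) {base : Y → E}
    {k j : Finset B → ℕ} {z : Finset B → E} {K : Finset B → Set E}
    (hbase : ∀ y F, w F y ≠ 0 → base y ∈ K F)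
    (hsmall : ∀ F G, G ⊂ F → N ((1 / (k F : ℝ)) • z F) ≤ (1 / 2) ^ F.card * (eta k j G / 16) ∧
        ∀ q ∈ K F, N ((1 / (k F : ℝ)) • q) ≤ (1 / 2) ^ F.card * (eta k j G / 16))
    {y : Y} {F : Finset B} (hF : w F y ≠ 0) {P : Submodule ℝ E} (hb : base y ∈ P)
    (hz : ∀ G, G ⊂ F → z G ∈ P) :
    ∃ p ∈ P, ∃ tl : E, N tl ≤ eta k j F / 8 ∧
      su_v base w k z y = p + (w F y / (k F : ℝ)) • z F + tl := by
  classical
  have hFa : F ∈ su_act hw y := (su_mem_act hw).mpr hF
  set S := su_act hw y with hS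
  set f : Finset B → E := fun G => (w G y / (k G : ℝ)) • (z G - base y) with hf
  have hη : 0 ≤ eta k j F := by unfold eta; positivity
  refine ⟨base y + ∑ G ∈ S.filter (fun G => G ⊂ F), f G - (w F y / (k F : ℝ)) • base y, ?_,
    ∑ G ∈ S.filter (fun G => F ⊂ G), f G, ?_, ?_⟩
  · apply P.sub_mem _ (P.smul_mem _ hb)
    apply P.add_mem hb
    apply P.sum_mem
    intro G hG
    rw [Finset.mem_filter] at hG
    exact P.smul_mem _ (P.sub_mem (hz G hG.2) hb)
  · have h1 := su_tail hN hw (base := base) (k := k) (z := z) (y := y)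
      (S := S.filter (fun G => F ⊂ G)) (Finset.filter_subset _ _) (D := eta k j F / 16)
      (by positivity)
      (fun G hG => (hsmall G F (Finset.mem_filter.mp hG).2).1)
      (fun G hG => (hsmall G F (Finset.mem_filter.mp hG).2).2 _
        (hbase y G ((su_mem_act hw).mp (Finset.mem_filter.mp hG).1)))
    linarith
  · rw [su_v_eq hw]
    have h1 : ∑ G ∈ S, f G = ∑ G ∈ S.filter (fun G => G ⊂ F), f G + f F +
        ∑ G ∈ S.filter (fun G => F ⊂ G), f G := by
      rw [← Finset.sum_filter_add_sum_filter_not S (fun G => G ⊂ F), add_assoc]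
      congr 1
      rw [← Finset.sum_erase_add _ _ (a := F), add_comm]
      · congr 1
        apply Finset.sum_congr _ fun _ _ => rfl
        ext G
        rw [Finset.mem_erase, Finset.mem_filter, Finset.mem_filter]
        constructor
        · rintro ⟨hne, hGS, hGF⟩
          refine ⟨hGS, ?_⟩
          rcases hw.w_chain F G y hF ((su_mem_act hw).mp hGS) with h | h
          · exact lt_of_le_of_ne h (Ne.symm hne)
          · exact absurd (lt_of_le_of_ne h hne) hGF
        · rintro ⟨hGS, hGF⟩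
          exact ⟨hGF.ne', hGS, hGF.not_gt⟩
      · rw [Finset.mem_filter]
        exact ⟨hFa, (ssubset_irrefl F)⟩
    rw [h1]
    simp only [hf]
    module

/-- the core of the argument -/
theorem su_core [IsTopologicalAddGroup E] [ContinuousSMul ℝ E] {N : E → ℝ} (hN : IsFNorm N)
    (hw : IsWeights lam w ξ) {base : Y → E}
    {k j : Finset B → ℕ} {z : Finset B → E} {K : Finset B → Set E} {H₀ : Set E}
    {r : Finset B → Finset B → Prop} (hr : IsWellOrder (Finset B) r)
    (hrs : ∀ F G, F ⊂ G → r F G) (hkj : ∀ F, 1 ≤ k F ∧ 1 ≤ j F)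
    (hmark : ∀ F, ∀ q ∈ closure (Submodule.span ℝ
        (H₀ ∪ (⋃ G ∈ {G | r G F ∨ G = F}, K G) ∪ z '' {G | r G F}) : Set E),
        1 / (j F : ℝ) ≤ N (z F - q))
    (hbase : ∀ y F, w F y ≠ 0 → base y ∈ K F)
    (hsmall : ∀ F G, G ⊂ F → N ((1 / (k F : ℝ)) • z F) ≤ (1 / 2) ^ F.card * (eta k j G / 16) ∧
        ∀ q ∈ K F, N ((1 / (k F : ℝ)) • q) ≤ (1 / 2) ^ F.card * (eta k j G / 16))
    {y y' : Y} {F F' : Finset B} (hF : (1 / 2 : ℝ) ^ (F.card + 4) ≤ w F y) (hF' : w F' y' ≠ 0)
    (hcls : su_cls k j F = su_cls k j F') (hFF : r F' F) {a a' : ℝ} (ha : 1 / 2 ≤ a) (ha1 : a ≤ 1)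
    (ha' : 1 / 2 ≤ a') (ha'1 : a' ≤ 1) {g g' : E}
    (hg : g - a • su_v base w k z y ∈ closure (Submodule.span ℝ H₀ : Set E))
    (hg' : g' - a' • su_v base w k z y' ∈ closure (Submodule.span ℝ H₀ : Set E))
    (hd : N (g - g') ≤ eta k j F / 8) : False := by
  set T : Set E := H₀ ∪ (⋃ G ∈ {G | r G F ∨ G = F}, K G) ∪ z '' {G | r G F} with hT
  set P : Submodule ℝ E := (Submodule.span ℝ T).topologicalClosure with hP
  have hPc : (P : Set E) = closure (Submodule.span ℝ T : Set E) :=
    Submodule.topologicalClosure_coe _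
  have hTP : ∀ x ∈ T, x ∈ P := fun x hx =>
    Submodule.le_topologicalClosure _ (Submodule.subset_span hx)
  have hHP : ∀ x ∈ closure (Submodule.span ℝ H₀ : Set E), x ∈ P := by
    intro x hx
    rw [← SetLike.mem_coe, hPc]
    refine closure_mono ?_ hx
    exact Submodule.span_mono (fun x hx => Or.inl (Or.inl hx))
  have hFy : w F y ≠ 0 := by
    have : (0 : ℝ) < (1 / 2) ^ (F.card + 4) := by positivity
    linarith
  have hbP : base y ∈ P := by
    apply hTP
    left; right
    simp only [mem_iUnion]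
    exact ⟨F, Or.inr rfl, hbase y F hFy⟩
  have hbP' : base y' ∈ P := by
    apply hTP
    left; right
    simp only [mem_iUnion]
    exact ⟨F', Or.inl hFF, hbase y' F' hF'⟩
  have hzP : ∀ G, r G F → z G ∈ P := fun G hG => hTP _ (Or.inr ⟨G, hG, rfl⟩)
  obtain ⟨p, hp, tl, htl, hv⟩ := su_mod hN hw hbase hsmall hFy hbP
    (fun G hG => hzP G (hrs G F hG))
  obtain ⟨p', hp', tl', htl', hv'⟩ := su_mod hN hw hbase hsmall hF' hbP'
    (fun G hG => hzP G (trans_of r (hrs G F' hG) hFF))
  obtain ⟨hc1, hc2, hc3⟩ := su_cls_eq hcls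
  have hη' : eta k j F' = eta k j F := by
    unfold eta
    rw [hc1, hc2, hc3]
  rw [hη'] at htl'
  have hk : (1 : ℝ) ≤ k F := by exact_mod_cast (hkj F).1
  have hj : (1 : ℝ) ≤ j F := by exact_mod_cast (hkj F).2
  set t : ℝ := a * (w F y / (k F : ℝ)) with ht
  set e₁ : E := (g - g') + (a' • tl' - a • tl) with he₁
  have hq : t • z F - e₁ ∈ P := by
    have h1 : t • z F - e₁ = -(g - a • su_v base w k z y) + (g' - a' • su_v base w k z y') -
        a • p + a' • (p' + (w F' y' / (k F' : ℝ)) • z F') +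
        ((2 : ℝ) • (g - g') - (2 : ℝ) • (g - g')) := by
      rw [hv, hv', he₁, ht]
      module
    rw [h1, sub_self, add_zero]
    apply P.add_mem
    · apply P.sub_mem
      · exact P.add_mem (P.neg_mem (hHP _ hg)) (hHP _ hg')
      · exact P.smul_mem _ hp
    · exact P.smul_mem _ (P.add_mem hp' (P.smul_mem _ (hzP _ hFF)))
  have hη0 : 0 < eta k j F := by
    unfold eta
    positivity
  have hNe : N e₁ ≤ 3 * (eta k j F / 8) := by
    have h1 : N (a' • tl') ≤ N tl' := hN.smul_le _ _ (by rw [abs_le]; constructor <;> linarith)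
    have h2 : N (a • tl) ≤ N tl := hN.smul_le _ _ (by rw [abs_le]; constructor <;> linarith)
    have h3 := hN.add_le (g - g') (a' • tl' - a • tl)
    have h4 := su_N_sub hN (a' • tl') (a • tl)
    linarith
  have hpow : (0 : ℝ) < (1 / 2) ^ (F.card + 4) := by positivity
  have ht0 : 0 < t := by
    rw [ht]
    have : 0 < w F y := by linarith
    positivity
  set n : ℕ := 2 ^ (F.card + 5) * k F with hn
  have hnt : 1 ≤ t * n := by
    rw [ht, hn]
    push_cast
    have h1 : a * (w F y / (k F : ℝ)) * (2 ^ (F.card + 5) * (k F : ℝ)) =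
        a * w F y * 2 ^ (F.card + 5) := by
      field_simp
    rw [h1]
    have h2 : (1 / 2 : ℝ) * (1 / 2) ^ (F.card + 4) * 2 ^ (F.card + 5) = 1 := by
      rw [← pow_succ', ← mul_pow]
      norm_num
    calc (1 : ℝ) = (1 / 2 : ℝ) * (1 / 2) ^ (F.card + 4) * 2 ^ (F.card + 5) := h2.symm
      _ ≤ a * w F y * 2 ^ (F.card + 5) := by gcongr
  have hn0 : (0 : ℝ) < n := by
    rw [hn]
    push_cast
    positivity
  have hq2 : z F - t⁻¹ • e₁ ∈ P := by
    have h1 : z F - t⁻¹ • e₁ = t⁻¹ • (t • z F - e₁) := by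
      rw [smul_sub, smul_smul, inv_mul_cancel₀ ht0.ne', one_smul]
    rw [h1]
    exact P.smul_mem _ hq
  have h1 := hmark F (z F - t⁻¹ • e₁) (by rw [← hT, ← hPc]; exact hq2)
  rw [sub_sub_cancel] at h1
  have h2 : N (t⁻¹ • e₁) ≤ n * N e₁ := by
    have h3 : t⁻¹ • e₁ = (n : ℝ) • ((1 / (t * n)) • e₁) := by
      rw [smul_smul]
      congr 1
      field_simp
    rw [h3]
    refine (hN.nat_smul_le n _).trans ?_
    apply mul_le_mul_of_nonneg_left _ hn0.le
    apply hN.smul_le
    rw [abs_of_nonneg (by positivity), div_le_one (by positivity)]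
    exact hnt
  have h3 : (n : ℝ) * eta k j F = 1 / (j F : ℝ) := by
    rw [hn]
    unfold eta
    push_cast
    field_simp
  have h4 : (n : ℝ) * N e₁ ≤ n * (3 * (eta k j F / 8)) := by gcongr
  have h5 : (0 : ℝ) < 1 / (j F : ℝ) := by positivity
  nlinarith

end Norm

theorem su_nonsep {E : Type} [AddCommGroup E] [Module ℝ E] [TopologicalSpace E]
    {C : Set E} {κ : Cardinal.{0}} (hκ : ℵ₀ < κ)
    (hfar : ∀ D : Set E, #D < κ → ∃ z ∈ C, z ∉ closure (Submodule.span ℝ D : Set E)) :
    ¬ SeparableSpace C := by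
  intro hs
  obtain ⟨D, hDc, hD⟩ := exists_countable_dense C
  obtain ⟨z, hz, hz'⟩ := hfar (Subtype.val '' D)
    ((mk_le_aleph0_iff.mpr (hDc.image _).to_subtype).trans_lt hκ)
  apply hz'
  have h1 : (⟨z, hz⟩ : C) ∈ closure D := hD ⟨z, hz⟩
  rw [closure_subtype] at h1
  exact closure_mono Submodule.subset_span h1

theorem isSU_convex {E : Type} [AddCommGroup E] [Module ℝ E] [TopologicalSpace E]
    [IsTopologicalAddGroup E] [ContinuousSMul ℝ E] [MetrizableSpace E] {C : Set E}
    (hC : Convex ℝ C) [IsCompletelyMetrizableSpace C] (hAE : IsAE C) {κ : Cardinal.{0}}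
    (hκ : ℵ₀ < κ)
    (hfar : ∀ D : Set E, #D < κ → ∃ z ∈ C, z ∉ closure (Submodule.span ℝ D : Set E)) :
    IsSU κ C := by
  obtain ⟨x₀, hx₀, -⟩ := hfar ∅ (by
    rw [Cardinal.mk_eq_zero]
    exact aleph0_pos.trans hκ)
  have : Nonempty C := ⟨⟨x₀, hx₀⟩⟩
  obtain ⟨e₀, he₀, hb₀, U₀, hU₀, hsep⟩ := exists_bounded_separated (su_nonsep hκ hfar)
  obtain ⟨V₁, hV₁, f, hsel⟩ := exists_selection hU₀ e₀ hsep
  set e : ℕ → E := e₀ ∘ f with he
  have heC : ∀ n, e n ∈ C := fun n => he₀ _
  have hb : Bornology.IsVonNBounded ℝ (range e) :=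
    hb₀.subset (range_comp_subset_range f e₀)
  obtain ⟨N, hN⟩ := exists_fnorm (E := E)
  intro Y _ _ hY u hu U hU V hV
  obtain ⟨U₁, hU₁, hU₁U⟩ := hU.exists_half
  obtain ⟨G, A, hGc, hA, hGU, hGH, hGl⟩ := exists_lfinf hC heC hb hV₁ hsel hU₁
  obtain ⟨r, hr01, hrc, -, hrP⟩ := hN.exists_radius (C := C) (P := fun S => S ×ˢ S ⊆ U₁)
    (fun O O' h h' => (prod_mono h h).trans h')
    (fun x => by
      have h1 : U₁ ∈ 𝓝 (x, x) := hU₁.isOpen.mem_nhds (hU₁.refl x)
      rw [nhds_prod_eq] at h1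
      obtain ⟨O, hO, h⟩ := mem_prod_same_iff.mp h1
      exact ⟨O, hO, h⟩)
  have hrU : ∀ x x' : C, N ((x : E) - x') < r x → (x, x') ∈ U₁ := by
    intro x x' h
    apply hrP x
    refine ⟨?_, h⟩
    simp only [mem_ofPred_eq, sub_self, hN.zero]
    exact (hr01 x).1
  have hU₂ := hN.isEnt (C := C) (r := fun x => r x / 4) (hrc.div_const 4)
    (fun x => by have := (hr01 x).1; positivity)
  obtain ⟨B, lam, δ, K, hB, hlc, hllf, hl0, hlp, hlV, hδ0, hδ, hKc, hbase⟩ :=
    exists_base hκ.le hAE hY hu hU₂ hV (ρ := fun x => r x / 64) (hrc.div_const 64)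
    (fun x => by have := (hr01 x).1; positivity)
  obtain ⟨w, ξ, hw⟩ := exists_weights hlc hllf hl0 hlp
  obtain ⟨base, hbc, hbU, hbK⟩ := hbase ξ hw.x_cont hw.x_lf hw.x_nonneg hw.x_sum hw.x_supp
  classical
  set δ' : Finset B → ℝ := fun F => if h : F.Nonempty then F.inf' h δ else 1 with hδ'
  have hδ'0 : ∀ F, 0 < δ' F := by
    intro F
    simp only [hδ']
    split_ifs with h
    · rw [Finset.lt_inf'_iff]
      intro b _
      exact hδ0 b
    · exact one_pos
  obtain ⟨rr, z, k, j, hrr, hrs, hzC, hkj, hmark, hsm1, hsm2⟩ :=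
    exists_markers hN hκ hfar hB (countable_range e) (K := fun F => Subtype.val '' K F)
    (fun F => (hKc F).image continuous_subtype_val) hδ'0
  have hbaseK : ∀ y F, w F y ≠ 0 → (base y : E) ∈ Subtype.val '' K F := by
    intro y F hF
    exact ⟨base y, hbK y F (fun b hb => hw.x_mem b F y hb hF), rfl⟩
  -- the first approximation
  set v : Y → C := fun y => ⟨su_v (fun y => (base y : E)) w k z y,
    su_v_mem hw hC (fun F => (hkj F).1) hzC (base y).2⟩ with hv
  have hvc : Continuous v :=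
    Continuous.subtype_mk (su_v_cont hw (continuous_subtype_val.comp hbc) k z) _
  have hvU : ∀ y, (u y, v y) ∈ U₁ := by
    intro y
    apply hrU
    have h1 := (hbU y).1
    simp only at h1
    have hr0 := (hr01 (u y)).1
    have h2 : N ((base y : E) - v y) ≤ 2 * (r (u y) / 64) := by
      have h3 : (base y : E) - v y =
          -(∑ F ∈ su_act hw y, (w F y / (k F : ℝ)) • (z F - (base y : E))) := by
        simp only [hv]
        rw [su_v_eq hw]
        abel
      rw [h3, hN.neg]
      have h4 : ∀ F ∈ su_act hw y, δ' F ≤ r (u y) / 64 := by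
        intro F hF
        have h5 := (su_mem_act hw).mp hF
        have h6 := hw.w_nonempty F y h5
        simp only [hδ']
        rw [dif_pos h6]
        obtain ⟨b, hb⟩ := h6
        exact (Finset.inf'_le _ hb).trans (hδ b y (hw.w_supp F y h5 b hb).ne')
      apply su_tail hN hw (base := fun y => (base y : E)) (Finset.Subset.refl _) (by positivity)
      · intro F hF
        refine (hsm1 F).1.trans ?_
        exact mul_le_mul_of_nonneg_left (h4 F hF) (by positivity)
      · intro F hF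
        refine ((hsm1 F).2 _ (hbaseK y F ((su_mem_act hw).mp hF))).trans ?_
        exact mul_le_mul_of_nonneg_left (h4 F hF) (by positivity)
    have h3 := hN.add_le ((u y : E) - base y) ((base y : E) - v y)
    rw [sub_add_sub_cancel] at h3
    linarith
  have hpar0 : ∀ y m, 0 ≤ su_par w k j y m := su_par_nonneg hw k j
  refine ⟨fun y => G (v y) (su_par w k j y), hGc.comp (hvc.prodMk (su_par_cont hw k j)),
    fun y => hU₁U _ _ _ (hvU y) (hGU _ _), ?_⟩
  -- the `V`-map property
  intro p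
  obtain ⟨O₀, hO₀, hO₀2⟩ := hGl 0 p
  by_cases hex : ∃ y₁, G (v y₁) (su_par w k j y₁) ∈ O₀
  swap
  · push Not at hex
    exact ⟨O₀, hO₀, fun y y' h _ => absurd h (hex y)⟩
  obtain ⟨y₁, hy₁⟩ := hex
  set S : ℝ := su_s w k j y₁ + 2 with hS
  have hS1 : 1 ≤ S := by
    have := su_s_nonneg hw k j y₁
    rw [hS]
    linarith
  have hsS : ∀ y, G (v y) (su_par w k j y) ∈ O₀ → su_s w k j y ≤ S := by
    intro y hy
    have h1 := hO₀2 _ _ _ _ (hpar0 y) (hpar0 y₁) hy hy₁
    have h2 := (abs_le.mp h1).2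
    change su_s w k j y - su_s w k j y₁ ≤ 2 at h2
    rw [hS]
    linarith
  set M : ℕ := ⌈2 * S⌉₊ with hM
  have hSM : 2 * S ≤ M := Nat.le_ceil _
  set n₀ : ℕ := 2 ^ (M + 5) with hn₀
  choose O hO hO2 using fun l => hGl l p
  -- lower bound for `eta`
  obtain ⟨ε, hε, hεη⟩ : ∃ ε > 0, ∀ F, su_cls k j F ≤ M → ε ≤ eta k j F := by
    refine ⟨1 / ((M + 1 : ℝ) * (M + 1) * 2 ^ (M + 5)), by positivity, ?_⟩
    intro F hF
    have h1 : F.card ≤ M := (Nat.left_le_pair _ _).trans hF
    have h2 : k F ≤ M := (Nat.left_le_pair _ _).trans ((Nat.right_le_pair _ _).trans hF)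
    have h3 : j F ≤ M := (Nat.right_le_pair _ _).trans ((Nat.right_le_pair _ _).trans hF)
    have h2' : (k F : ℝ) ≤ M + 1 := by
      have : (k F : ℝ) ≤ M := by exact_mod_cast h2
      linarith
    have h3' : (j F : ℝ) ≤ M + 1 := by
      have : (j F : ℝ) ≤ M := by exact_mod_cast h3
      linarith
    have hk : (1 : ℝ) ≤ k F := by exact_mod_cast (hkj F).1
    have hj : (1 : ℝ) ≤ j F := by exact_mod_cast (hkj F).2
    unfold eta
    apply one_div_le_one_div_of_le (by positivity)
    have h4 : (2 : ℝ) ^ (F.card + 5) ≤ 2 ^ (M + 5) :=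
      pow_le_pow_right₀ (by norm_num) (by omega)
    gcongr
  have hball : {q : C | N ((q : E) - p) < ε / 16} ∈ 𝓝 p := by
    have h1 : Continuous fun q : C => N ((q : E) - p) :=
      hN.continuous.comp (continuous_subtype_val.sub continuous_const)
    have h2 : IsOpen {q : C | N ((q : E) - p) < ε / 16} := isOpen_lt h1 continuous_const
    apply h2.mem_nhds
    simp only [mem_ofPred_eq, sub_self, hN.zero]
    positivity
  refine ⟨(O₀ ∩ ⋂ c ∈ Finset.range (M + 1), O (Nat.pair n₀ c + 1)) ∩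
    {q : C | N ((q : E) - p) < ε / 16}, inter_mem (inter_mem hO₀ ?_) hball, ?_⟩
  · rw [Filter.biInter_finset_mem]
    intro c _
    exact hO _
  intro y y' hy hy'
  obtain ⟨⟨hy0, hyc⟩, hyN⟩ := hy
  obtain ⟨⟨hy0', hyc'⟩, hyN'⟩ := hy'
  obtain ⟨F, hFM, hFw⟩ := su_heavy hw k j hS1 (hsS y hy0) hSM
  have hpow : (0 : ℝ) < (1 / 2) ^ (F.card + 4) := by positivity
  have hFy : w F y ≠ 0 := by
    intro h
    rw [h] at hFw
    linarith
  set c : ℕ := su_cls k j F with hc
  have hcM : c ∈ Finset.range (M + 1) := by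
    rw [Finset.mem_range]
    omega
  have h1 := hO2 (Nat.pair n₀ c + 1) _ _ _ _ (hpar0 y) (hpar0 y')
    (by
      have := mem_iInter₂.mp hyc c hcM
      exact this)
    (by
      have := mem_iInter₂.mp hyc' c hcM
      exact this)
  rw [su_par_pair, su_par_pair, ← mul_sub, abs_mul] at h1
  have hWy : su_W w k j c y = w F y := su_W_eq hw k j hFy
  have hW' : (1 / 2 : ℝ) ^ (F.card + 4) ≤ su_W w k j c y' := by
    have h2 : |su_W w k j c y - su_W w k j c y'| ≤ (1 / 2 : ℝ) ^ (F.card + 4) := by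
      have h3 : (0 : ℝ) < n₀ := by rw [hn₀]; positivity
      rw [abs_of_pos h3] at h1
      have h4 : |su_W w k j c y - su_W w k j c y'| ≤ 2 / n₀ := by
        rw [le_div_iff₀ h3]
        linarith
      refine h4.trans ?_
      have h5 : (2 : ℝ) / n₀ = (1 / 2) ^ (M + 4) := by
        rw [hn₀]
        push_cast
        rw [one_div, inv_pow, pow_succ 2 (M + 4)]
        field_simp
      rw [h5]
      have h6 : F.card ≤ M := (Nat.left_le_pair _ _).trans hFM
      exact pow_le_pow_of_le_one (by norm_num) (by norm_num) (by omega)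
    have h3 := (abs_le.mp h2).2
    rw [hWy] at h3
    linarith
  obtain ⟨F', hFy', hcF', hwF'⟩ := su_W_ex hw k j (c := c) (y := y') (by linarith)
  have hcard : F'.card = F.card := (su_cls_eq (hcF'.trans hc)).1
  have hF'w : (1 / 2 : ℝ) ^ (F'.card + 4) ≤ w F' y' := by
    rw [hwF', hcard]
    exact hW'
  by_cases hFF : F = F'
  · subst hFF
    obtain ⟨b, hb⟩ := hw.w_nonempty F y hFy
    exact hlV b y y' (hw.w_supp F y hFy b hb).ne' (hw.w_supp F y' hFy' b hb).ne'
  exfalso
  have hyN1 : N ((G (v y) (su_par w k j y) : E) - p) < ε / 16 := hyN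
  have hyN2 : N ((G (v y') (su_par w k j y') : E) - p) < ε / 16 := hyN'
  have hdist : N ((G (v y) (su_par w k j y) : E) - G (v y') (su_par w k j y')) ≤ ε / 8 := by
    have h2 := su_N_sub hN ((G (v y) (su_par w k j y) : E) - p)
      ((G (v y') (su_par w k j y') : E) - p)
    rw [sub_sub_sub_cancel_right] at h2
    linarith
  have hdist' : N ((G (v y') (su_par w k j y') : E) - G (v y) (su_par w k j y)) ≤ ε / 8 := by
    rw [← neg_sub, hN.neg]
    exact hdist
  have hηF := hεη F hFM
  have hηF' := hεη F' (by rw [hcF']; exact hFM)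
  have hwF1 : (1 / 2 : ℝ) ^ (F.card + 4) ≤ w F y := by linarith
  rcases trichotomous_of rr F F' with h | h | h
  · exact su_core hN hw hrr hrs hkj hmark (base := fun y => (base y : E)) hbaseK hsm2 hF'w hFy
      (hcF'.trans hc) h (hA _ _).1 (hA _ _).2 (hA _ _).1 (hA _ _).2
      (hGH (v y') (su_par w k j y')) (hGH (v y) (su_par w k j y)) (by linarith)
  · exact hFF h
  · exact su_core hN hw hrr hrs hkj hmark (base := fun y => (base y : E)) hbaseK hsm2 hwF1 hFy'
      (hcF'.trans hc).symm h (hA _ _).1 (hA _ _).2 (hA _ _).1 (hA _ _).2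
      (hGH (v y) (su_par w k j y)) (hGH (v y') (su_par w k j y')) (by linarith)

end Pool.Agent.TOR
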