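import Pool.Agent.Lib.MP_5a68e6_TOR.Main
import Pool.Agent.Lib.MP_5a68e6_TOR.SU
import Pool.Agent.Lib.MP_5a68e6_TOR.Comb
import Pool.Agent.Lib.MP_5a68e6_TOR.DSub
import Pool.Agent.Lib.MP_5a68e6_TOR.L2
import Pool.Agent.Lib.MP_5a68e6_TOR.Dens

set_option autoImplicit false

namespace Pool.Agent.TOR

open Set Filter Topology TopologicalSpace Cardinal

theorem good_convex {E : Type} [AddCommGroup E] [Module ℝ E] [TopologicalSpace E]
    [IsTopologicalAddGroup E] [ContinuousSMul ℝ E] [MetrizableSpace E] {C : Set E}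
    (hC : Convex ℝ C) [IsCompletelyMetrizableSpace C] (hAE : IsAE C) {κ : Cardinal.{0}}
    (hκ : ℵ₀ < κ) (hdens : DensLE κ C)
    (hfar : ∀ D : Set E, #D < κ → ∃ z ∈ C, z ∉ closure (Submodule.span ℝ D : Set E)) :
    Good κ C := by
  refine ⟨?_, inferInstance, hdens, isComb_convex hC, hAE, isSU_convex hC hAE hκ hfar⟩
  obtain ⟨z, hz, _⟩ := hfar ∅ (by
    rw [Cardinal.mk_emptyCollection]
    exact (Cardinal.aleph0_pos).trans hκ)
  exact ⟨⟨z, hz⟩⟩

theorem good_l2 (ι : Type) (hι : ℵ₀ < #ι) :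
    Good (#ι) (univ : Set (lp (fun _ : ι => ℝ) (2 : ENNReal))) := by
  haveI : Fact ((1 : ENNReal) ≤ 2) := ⟨by norm_num⟩
  let e := Homeomorph.Set.univ (lp (fun _ : ι => ℝ) (2 : ENNReal))
  haveI : IsCompletelyMetrizableSpace (univ : Set (lp (fun _ : ι => ℝ) (2 : ENNReal))) :=
    e.isClosedEmbedding.IsCompletelyMetrizableSpace
  apply good_convex convex_univ
  · intro Y _ _ A hA f hf
    obtain ⟨g, hg, hgf⟩ := dugundji hA (fun a => (f a : lp (fun _ : ι => ℝ) (2 : ENNReal)))
      (continuous_subtype_val.comp hf)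
    exact ⟨fun y => ⟨g y, trivial⟩, hg.subtype_mk _, fun a => Subtype.ext (hgf a)⟩
  · exact hι
  · obtain ⟨D, hD, hDc⟩ := densLE_l2 ι hι.le
    refine ⟨e.symm '' D, ?_, ?_⟩
    · exact e.symm.surjective.denseRange.dense_image e.symm.continuous hD
    · exact Cardinal.mk_image_le.trans hDc
  · intro D hD
    by_contra hcon
    push Not at hcon
    have hsub : (univ : Set (lp (fun _ : ι => ℝ) (2 : ENNReal))) ⊆
        closure (Submodule.span ℝ D : Set _) := fun z _ => hcon z trivial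
    have h1 : DensLE (max ℵ₀ #D) (univ : Set (lp (fun _ : ι => ℝ) (2 : ENNReal))) :=
      densLE_of_subset_closure_span (le_max_left _ _) (le_max_right _ _) hsub
    obtain ⟨D', hD', hD'c⟩ := h1
    have h2 : DensLE (max ℵ₀ #D) (lp (fun _ : ι => ℝ) (2 : ENNReal)) := by
      refine ⟨e '' D', ?_, Cardinal.mk_image_le.trans hD'c⟩
      exact e.surjective.denseRange.dense_image e.continuous hD'
    have h3 := le_dens_l2 ι h2
    exact absurd (h3.trans_lt (max_lt hι hD)) (lt_irrefl _)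

theorem final :
    ∀ (E : Type) [AddCommGroup E] [Module ℝ E] [TopologicalSpace E]
      [IsTopologicalAddGroup E] [ContinuousSMul ℝ E]
      [TopologicalSpace.MetrizableSpace E] (C : Set E),
      Convex ℝ C →
      TopologicalSpace.IsCompletelyMetrizableSpace C →
      ¬ TopologicalSpace.SeparableSpace C →
      (∀ (Y : Type) [TopologicalSpace Y] [TopologicalSpace.MetrizableSpace Y]
          (A : Set Y), IsClosed A → ∀ f : A → C, Continuous f →
            ∃ g : Y → C, Continuous g ∧ ∀ a : A, g a = f a) →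
      ∃ ι : Type, Nonempty (C ≃ₜ lp (fun _ : ι => ℝ) (2 : ENNReal)) := by
  intro E _ _ _ _ _ _ C hC hcm hsep hAE
  haveI := hcm
  obtain ⟨κ, hκ, hdens, hmin⟩ := exists_density_char C hsep
  have hfar : ∀ D : Set E, #D < κ → ∃ z ∈ C, z ∉ closure (Submodule.span ℝ D : Set E) := by
    intro D hD
    by_contra hcon
    push Not at hcon
    have h1 : DensLE (max ℵ₀ #D) C :=
      densLE_of_subset_closure_span (le_max_left _ _) (le_max_right _ _) hcon
    exact absurd ((hmin _ h1).trans_lt (max_lt hκ hD)) (lt_irrefl _)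
  have hg : Good κ C := good_convex hC hAE hκ hdens hfar
  have hι : #κ.out = κ := Cardinal.mk_out κ
  have hg2 : Good κ (univ : Set (lp (fun _ : κ.out => ℝ) (2 : ENNReal))) := by
    have := good_l2 κ.out (by rw [hι]; exact hκ)
    rwa [hι] at this
  obtain ⟨e⟩ := good_unique hκ.le hg hg2
  exact ⟨κ.out, ⟨e.trans (Homeomorph.Set.univ _)⟩⟩

end Pool.Agent.TOR
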