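import Pool.Agent.Lib.MP_5a68e6_TOR.Defs3
import Pool.Agent.Lib.MP_5a68e6_HLF.D

set_option autoImplicit false

namespace Pool.Agent.TOR

open Set Filter Topology TopologicalSpace Cardinal Pool.Agent.HLF

section LF1
variable {E : Type*} [AddCommGroup E] [Module ℝ E] [TopologicalSpace E]
  [IsTopologicalAddGroup E] [ContinuousSMul ℝ E]

/-- selection of the scale function `μ` -/
theorem exists_scale {X : Type*} [TopologicalSpace X] [MetrizableSpace X]
    [FirstCountableTopology E] {e : ℕ → E} {q : X → E} (hq : Continuous q) {ρ : X → ℝ}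
    (hρ : Continuous ρ) (hρ0 : ∀ x, 0 < ρ x) {V' : ℕ → Set E} (hV' : ∀ m, V' m ∈ 𝓝 (0 : E))
    {L : ℕ → ℕ → ℝ} :
    ∃ μ : X → ℝ, Continuous μ ∧ (∀ x, 0 ≤ μ x) ∧ ∀ (m : ℕ) (p : E), ∃ s : E, ∃ O ∈ 𝓝 p, ∀ x : X,
      ρ x ≤ 2 * (1 / 2) ^ m → (∃ k ∈ Submodule.span ℝ (range e), q x + k ∈ O) →
        ∃ M : ℕ, L m M ≤ μ x ∧ ∃ k ∈ boxC e M M, q x - s - k ∈ V' m := by
  let H : Submodule ℝ E := Submodule.span ℝ (range e)
  let π : E → E ⧸ H := fun x => Submodule.Quotient.mk x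
  have hπc : Continuous π := continuous_quotient_mk'
  have hπo : IsOpenMap π := QuotientAddGroup.isOpenMap_coe
  haveI : FirstCountableTopology (E ⧸ H) :=
    inferInstanceAs (FirstCountableTopology (E ⧸ H.toAddSubgroup))
  haveI : PseudoMetrizableSpace (E ⧸ H) := paracompact_of_group (E ⧸ H)
  haveI : ParacompactSpace (E ⧸ H) := paracompact_of_pseudoMetrizable _
  haveI : ParacompactSpace X := paracompact_of_pseudoMetrizable X
  have hV''ex : ∀ m, ∃ V'' : Set E, IsOpen V'' ∧ (0 : E) ∈ V'' ∧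
      ∀ v ∈ V'', ∀ v' ∈ V'', v + v' ∈ V' m := by
    intro m
    obtain ⟨V₄, hV₄, hadd⟩ := exists_add_mem (hV' m)
    obtain ⟨V₅, hV₅, hV₅o, h05⟩ := mem_nhds_iff.1 hV₄
    exact ⟨V₅, hV₅o, h05, fun v hv v' hv' => hadd v (hV₅ hv) v' (hV₅ hv')⟩
  choose V'' hV''o hV''0 hadd using hV''ex
  have hsec : ∀ w : E ⧸ H, ∃ s : E, π s = w := Submodule.Quotient.mk_surjective H
  choose s hs using hsec
  let O : ℕ → (E ⧸ H) → Set (E ⧸ H) := fun m w => π '' {y : E | y - s w ∈ V'' m}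
  have hOo : ∀ m w, IsOpen (O m w) := by
    intro m w
    apply hπo
    exact (hV''o m).preimage (by fun_prop : Continuous fun y : E => y - s w)
  have hOc : ∀ m, ⋃ w, O m w = Set.univ := by
    intro m
    rw [iUnion_eq_univ_iff]
    intro w
    refine ⟨w, s w, ?_, hs w⟩
    show s w - s w ∈ V'' m
    rw [sub_self]
    exact hV''0 m
  have hcov := fun m => precise_refinement (O m) (hOo m) (hOc m)
  choose v hvo hvc hvf hvO using hcov
  let T : X → Set ℝ := fun x => {T | 0 ≤ T ∧ ∀ m : ℕ, ρ x ≤ 2 * (1 / 2) ^ m →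
    ∀ w, π (q x) ∈ v m w → ∃ M : ℕ, L m M ≤ T ∧ ∃ k ∈ boxC e M M, q x - s w - k ∈ V' m}
  have hconv : ∀ x, Convex ℝ (T x) := by
    intro x
    apply OrdConnected.convex
    refine ⟨?_⟩
    rintro a ⟨ha0, ha⟩ b _ c ⟨hac, _⟩
    refine ⟨ha0.trans hac, fun m hm w hw => ?_⟩
    obtain ⟨M, hM, hk⟩ := ha m hm w hw
    exact ⟨M, hM.trans hac, hk⟩
  have hloc : ∀ x : X, ∃ c : ℝ, ∀ᶠ y in 𝓝 x, c ∈ T y := by
    intro x
    obtain ⟨m0, hm0⟩ := exists_pow_lt_of_lt_one (show (0 : ℝ) < ρ x / 4 by linarith [hρ0 x])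
      (show (1 / 2 : ℝ) < 1 by norm_num)
    choose N hN hNf using fun m => hvf m (π (q x))
    have hw : ∀ (m : ℕ) (w : E ⧸ H), ∃ c : ℝ, 0 ≤ c ∧ ∀ᶠ y in 𝓝 x, π (q y) ∈ v m w →
        ∃ M : ℕ, L m M ≤ c ∧ ∃ k ∈ boxC e M M, q y - s w - k ∈ V' m := by
      intro m w
      have hc : Continuous fun p : X × X => q p.1 - q p.2 := by fun_prop
      have ht := hc.tendsto (x, x)
      simp only [sub_self] at ht
      have h1 := ht ((hV''o m).mem_nhds (hV''0 m))
      rw [nhds_prod_eq, mem_map] at h1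
      obtain ⟨A, hA, A', hA', hAA⟩ := mem_prod_iff.1 h1
      by_cases hex : ∃ x1 ∈ A', π (q x1) ∈ v m w
      · obtain ⟨x1, hx1, hx1v⟩ := hex
        obtain ⟨y, hy, hyp⟩ := hvO m w hx1v
        have hpy : q x1 - y ∈ H := by
          have h2 : (Submodule.Quotient.mk (q x1) : E ⧸ H) = Submodule.Quotient.mk y := hyp.symm
          rwa [Submodule.Quotient.eq] at h2
        obtain ⟨M, hM⟩ := exists_mem_boxC_of_mem_span hpy
        refine ⟨max (L m M) 0, le_max_right _ _, ?_⟩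
        filter_upwards [hA] with z hz _
        refine ⟨M, le_max_left _ _, q x1 - y, hM, ?_⟩
        have h3 : q z - q x1 ∈ V'' m := hAA (show (z, x1) ∈ A ×ˢ A' from ⟨hz, hx1⟩)
        have h4 := hadd m _ h3 _ hy
        have h5 : q z - q x1 + (y - s w) = q z - s w - (q x1 - y) := by abel
        rwa [h5] at h4
      · refine ⟨0, le_rfl, ?_⟩
        filter_upwards [hA'] with z hz hzv
        exact absurd ⟨z, hz, hzv⟩ hex
    choose c hc0 hc using hw
    have hS0 : ∀ m, 0 ≤ ∑ w ∈ (hNf m).toFinset, c m w := fun m =>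
      Finset.sum_nonneg fun w _ => hc0 m w
    refine ⟨∑ m ∈ Finset.range m0, ∑ w ∈ (hNf m).toFinset, c m w, ?_⟩
    have hfin : ∀ᶠ y in 𝓝 x, ∀ m ∈ Finset.range m0, ∀ w ∈ (hNf m).toFinset,
        π (q y) ∈ v m w → ∃ M : ℕ, L m M ≤ c m w ∧ ∃ k ∈ boxC e M M, q y - s w - k ∈ V' m := by
      rw [Filter.eventually_all_finset]
      intro m _
      rw [Filter.eventually_all_finset]
      intro w _
      exact hc m w
    have hqN : ∀ᶠ y in 𝓝 x, ∀ m ∈ Finset.range m0, π (q y) ∈ N m := by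
      rw [Filter.eventually_all_finset]
      intro m _
      exact ((hπc.comp hq).tendsto x) (hN m)
    have hρx : ∀ᶠ y in 𝓝 x, ρ x / 2 < ρ y :=
      (hρ.tendsto x).eventually (lt_mem_nhds (by linarith [hρ0 x]))
    filter_upwards [hfin, hqN, hρx] with y hy hyN hyρ
    refine ⟨Finset.sum_nonneg fun m _ => hS0 m, fun m hm w hwv => ?_⟩
    have hmm : m < m0 := by
      by_contra hcon
      rw [not_lt] at hcon
      have h1 : ((1 : ℝ) / 2) ^ m ≤ (1 / 2) ^ m0 :=
        pow_le_pow_of_le_one (by norm_num) (by norm_num) hcon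
      linarith
    have hmr := Finset.mem_range.2 hmm
    have hwf : w ∈ (hNf m).toFinset := by
      rw [Set.Finite.mem_toFinset]
      exact ⟨π (q y), hwv, hyN m hmr⟩
    obtain ⟨M, hM, hk⟩ := hy m hmr w hwf hwv
    refine ⟨M, hM.trans ?_, hk⟩
    refine (Finset.single_le_sum (f := fun w => c m w) (fun w _ => hc0 m w) hwf).trans ?_
    exact Finset.single_le_sum (f := fun m => ∑ w ∈ (hNf m).toFinset, c m w)
      (fun m _ => hS0 m) hmr
  obtain ⟨g, hg⟩ := exists_continuous_forall_mem_convex_of_local_const hconv hloc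
  refine ⟨g, g.continuous, fun x => (hg x).1, fun m p => ?_⟩
  obtain ⟨w, hw⟩ : ∃ w, π p ∈ v m w := by
    have : π p ∈ ⋃ w, v m w := by rw [hvc]; trivial
    exact mem_iUnion.1 this
  refine ⟨s w, π ⁻¹' (v m w), ((hvo m w).preimage hπc).mem_nhds hw, ?_⟩
  rintro x hx ⟨k, hk, hkO⟩
  have h1 : π (q x + k) = π (q x) := by
    show Submodule.Quotient.mk _ = Submodule.Quotient.mk _
    rw [Submodule.Quotient.eq, add_sub_cancel_left]
    exact hk
  have h2 : π (q x) ∈ v m w := by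
    rw [← h1]
    exact hkO
  exact (hg x).2 m hx w h2

end LF1

end Pool.Agent.TOR
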