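import Pool.Agent.Lib.MP_5a68e6_TOR.Z2

set_option autoImplicit false
set_option linter.unusedSectionVars false

namespace Pool.Agent.TOR

open Set Filter Topology TopologicalSpace Cardinal Pool.Agent.HLF

section Z2
variable {E : Type*} [AddCommGroup E] [Module ℝ E] [TopologicalSpace E]
  [IsTopologicalAddGroup E] [ContinuousSMul ℝ E]

theorem sepz_hat_nonneg (n : ℕ) (τ : ℝ) : 0 ≤ hat n τ := le_max_left _ _

theorem sepz_hat_le_one (n : ℕ) (τ : ℝ) : hat n τ ≤ 1 := by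
  unfold hat
  exact max_le zero_le_one (by linarith [abs_nonneg (τ - n)])

theorem sepz_hat_left (k : ℕ) {b : ℝ} (hb0 : 0 ≤ b) (hb1 : b ≤ 1) :
    hat k ((k : ℝ) + b) = 1 - b := by
  unfold hat
  rw [add_sub_cancel_left, abs_of_nonneg hb0]
  exact max_eq_right (by linarith)

theorem sepz_hat_right (k : ℕ) {b : ℝ} (hb0 : 0 ≤ b) (hb1 : b ≤ 1) :
    hat (k + 1) ((k : ℝ) + b) = b := by
  unfold hat
  push_cast
  rw [show (k : ℝ) + b - (k + 1) = -(1 - b) by ring, abs_neg, abs_of_nonneg (by linarith)]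
  rw [max_eq_right (by linarith)]
  ring

/-- the coefficient of `e j` in `Z2 e μ τ` -/
noncomputable def sepzC (μ τ : ℝ) (j : ℕ) : ℝ := hat (Nat.unpair j).1 μ * hat (Nat.unpair j).2 τ

/-- the expansion of `Z2` -/
theorem sepz_expand (e : ℕ → E) {μ τ : ℝ} (hμ : 0 ≤ μ) (hτ : 0 ≤ τ) :
    ∃ J : Finset ℕ, J.card ≤ 4 ∧ (∀ j ∉ J, sepzC μ τ j = 0) ∧ (∀ j ∈ J, μ - 1 < j) ∧
      ∑ j ∈ J, sepzC μ τ j = 1 ∧ Z2 e μ τ = ∑ j ∈ J, sepzC μ τ j • e j := by
  obtain ⟨i, b, hb0, hb1, hμe, _, hμ1⟩ := exists_param μ hμ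
  obtain ⟨l, c, hc0, hc1, hτe, _, _⟩ := exists_param τ hτ
  have hinj : Set.InjOn (fun p : ℕ × ℕ => Nat.pair p.1 p.2)
      (({i, i + 1} : Finset ℕ) ×ˢ ({l, l + 1} : Finset ℕ) : Finset (ℕ × ℕ)) := by
    rintro ⟨m, k⟩ _ ⟨m', k'⟩ _ h
    have h' : Nat.pair m k = Nat.pair m' k' := h
    rw [Nat.pair_eq_pair] at h'
    exact Prod.ext h'.1 h'.2
  refine ⟨(({i, i + 1} : Finset ℕ) ×ˢ ({l, l + 1} : Finset ℕ)).image
    (fun p => Nat.pair p.1 p.2), ?_, ?_, ?_, ?_, ?_⟩
  · refine Finset.card_image_le.trans ?_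
    rw [Finset.card_product, Finset.card_pair (by omega), Finset.card_pair (by omega)]
  · intro j hj
    unfold sepzC
    by_contra hne
    apply hj
    rw [Finset.mem_image]
    refine ⟨Nat.unpair j, ?_, Nat.pair_unpair j⟩
    rw [Finset.mem_product]
    have h1 : hat (Nat.unpair j).1 μ ≠ 0 := left_ne_zero_of_mul hne
    have h2 : hat (Nat.unpair j).2 τ ≠ 0 := right_ne_zero_of_mul hne
    have key : ∀ (n k : ℕ) (b σ : ℝ), 0 ≤ b → b < 1 → σ = k + b → hat n σ ≠ 0 →
        n ∈ ({k, k + 1} : Finset ℕ) := by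
      intro n k b σ hb0 hb1 hσ hn
      by_contra hmem
      apply hn
      have h1 : n ≠ k ∧ n ≠ k + 1 := by simpa using hmem
      rw [hat_of_far]
      rcases lt_or_gt_of_ne h1.1 with h | h
      · have : (n : ℝ) + 1 ≤ k := by exact_mod_cast h
        rw [le_abs]
        left
        linarith
      · have h2 : k + 2 ≤ n := by omega
        have : (k : ℝ) + 2 ≤ n := by exact_mod_cast h2
        rw [le_abs]
        right
        linarith
    exact ⟨key _ _ _ _ hb0 hb1 hμe h1, key _ _ _ _ hc0 hc1 hτe h2⟩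
  · intro j hj
    rw [Finset.mem_image] at hj
    obtain ⟨⟨m, k⟩, hp, rfl⟩ := hj
    rw [Finset.mem_product] at hp
    have h1 : i ≤ m := by
      have : m = i ∨ m = i + 1 := by simpa using hp.1
      omega
    have h2 : m ≤ Nat.pair m k := Nat.left_le_pair m k
    have h3 : (i : ℝ) ≤ (Nat.pair m k : ℝ) := by exact_mod_cast h1.trans h2
    show μ - 1 < ((Nat.pair m k : ℕ) : ℝ)
    linarith
  · rw [Finset.sum_image hinj, Finset.sum_product, Finset.sum_pair (by omega),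
      Finset.sum_pair (by omega), Finset.sum_pair (by omega)]
    unfold sepzC
    simp only [Nat.unpair_pair]
    rw [hμe, hτe, sepz_hat_left _ hb0 hb1.le, sepz_hat_right _ hb0 hb1.le,
      sepz_hat_left _ hc0 hc1.le, sepz_hat_right _ hc0 hc1.le]
    ring
  · rw [Finset.sum_image hinj, Finset.sum_product, Finset.sum_pair (by omega),
      Finset.sum_pair (by omega), Finset.sum_pair (by omega)]
    unfold sepzC Z2
    simp only [Nat.unpair_pair]
    rw [max_eq_left hμ, max_eq_left hτ, hμe, hτe, pathZ_eq _ _ hb0 hb1.le,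
      pathZ_eq _ _ hc0 hc1.le, pathZ_eq _ _ hc0 hc1.le,
      sepz_hat_left _ hb0 hb1.le, sepz_hat_right _ hb0 hb1.le,
      sepz_hat_left _ hc0 hc1.le, sepz_hat_right _ hc0 hc1.le]
    simp only [smul_add, smul_smul]

/-- sums of at most `n` small vectors are small -/
theorem sepz_sum_mem (n : ℕ) : ∀ {V : Set E}, V ∈ 𝓝 (0 : E) → ∃ W ∈ 𝓝 (0 : E),
    ∀ s : Finset ℕ, s.card ≤ n → ∀ f : ℕ → E, (∀ i ∈ s, f i ∈ W) → ∑ i ∈ s, f i ∈ V := by
  induction n with
  | zero =>
    intro V hV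
    refine ⟨V, hV, fun s hs f _ => ?_⟩
    have : s = ∅ := Finset.card_eq_zero.1 (Nat.le_zero.1 hs)
    rw [this, Finset.sum_empty]
    exact mem_of_mem_nhds hV
  | succ n ih =>
    intro V hV
    obtain ⟨V', hV', hVV⟩ := exists_add_mem hV
    obtain ⟨W, hW, h⟩ := ih hV'
    refine ⟨W ∩ V', inter_mem hW hV', fun s hs f hf => ?_⟩
    rcases s.eq_empty_or_nonempty with rfl | ⟨a, ha⟩
    · rw [Finset.sum_empty]
      exact mem_of_mem_nhds hV
    · rw [← Finset.add_sum_erase s f ha]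
      apply hVV _ (hf a ha).2
      apply h
      · rw [Finset.card_erase_of_mem ha]
        omega
      · intro i hi
        exact (hf i (Finset.mem_of_mem_erase hi)).1

/-- the pigeonhole step -/
theorem sepz_pigeon {d : ℕ → ℝ} (hd : ∀ i, d (i + 1) ≤ d i) {n : ℕ} {I : Finset ℕ}
    (hI : I.card < n) (D : ℕ → ℝ) :
    ∃ i < n, ∀ j ∈ I, |D j| < d i → |D j| < d (i + 1) := by
  by_contra hcon
  push Not at hcon
  choose! f hf using hcon
  have hanti : Antitone d := antitone_nat_of_succ_le hd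
  have hinj : Set.InjOn f (Finset.range n : Finset ℕ) := by
    have key : ∀ i i', i < n → i' < n → i < i' → f i ≠ f i' := by
      intro i i' hi hi' hlt heq
      have h1 := (hf i hi).2.2
      have h2 := (hf i' hi').2.1
      rw [← heq] at h2
      have h3 : d i' ≤ d (i + 1) := hanti (by omega)
      linarith
    intro i hi i' hi' heq
    rw [Finset.mem_coe, Finset.mem_range] at hi hi'
    rcases lt_trichotomy i i' with h | h | h
    · exact absurd heq (key i i' hi hi' h)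
    · exact h
    · exact absurd heq.symm (key i' i hi' hi h)
  have hle : (Finset.range n).card ≤ I.card := by
    apply Finset.card_le_card_of_injOn f _ hinj
    intro i hi
    rw [Finset.mem_coe, Finset.mem_range] at hi
    exact (hf i hi).1
  rw [Finset.card_range] at hle
  omega

/-- the core of the separation -/
theorem sepz_core {e : ℕ → E} (hb : Bornology.IsVonNBounded ℝ (range e))
    {V₁ : Set E} (hV₁ : V₁ ∈ 𝓝 (0 : E))
    (hsel : ∀ j : ℕ, ∀ y ∈ boxC e j j, e j - y ∉ V₁) {t₀ : ℝ} (ht₀ : 0 < t₀) :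
    ∃ V ∈ 𝓝 (0 : E), ∃ C : ℝ, 0 < C ∧ ∀ M : ℕ, ∀ I : Finset ℕ, I.card ≤ 8 → ∀ D : ℕ → ℝ,
      (∀ j ∉ I, D j = 0) → (∀ j, |D j| ≤ 1) → ∀ j₀ ∈ I, t₀ ≤ |D j₀| →
      (M : ℝ) + (2 * M + 1) * C ≤ j₀ → ∀ k ∈ boxC e M M, ∀ k' ∈ boxC e M M,
        ∑ j ∈ I, D j • e j + (k - k') ∉ V := by
  obtain ⟨V₂, hV₂, hV₂V₁⟩ := exists_add_mem hV₁
  obtain ⟨W, hW, hWs⟩ := sepz_sum_mem (E := E) 8 hV₂
  obtain ⟨δ, hδ, hδe⟩ := exists_delta_of_bounded hb hW
  set ρ : ℝ := min δ 1 with hρ
  have hρ0 : 0 < ρ := lt_min hδ one_pos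
  have hρ1 : ρ ≤ 1 := min_le_right _ _
  have hρδ : ρ ≤ δ := min_le_left _ _
  set d : ℕ → ℝ := fun i => t₀ * ρ ^ i with hd
  have hd0 : ∀ i, 0 < d i := fun i => by simp only [hd]; positivity
  have hdstep : ∀ i, d (i + 1) = ρ * d i := fun i => by simp only [hd]; ring
  have hdle : ∀ i, d (i + 1) ≤ d i := fun i => by
    rw [hdstep]
    calc ρ * d i ≤ 1 * d i := mul_le_mul_of_nonneg_right hρ1 (hd0 i).le
      _ = d i := one_mul _
  have hanti : Antitone d := antitone_nat_of_succ_le hdle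
  obtain ⟨V, hV, hVs⟩ := exists_smul_sub_mem hV₂ (1 / d 9)
  refine ⟨V, hV, 1 / d 9, by have := hd0 9; positivity, ?_⟩
  intro M I hI D hDI hD1 j₀ hj₀ hDj₀ hMj₀ k hk k' hk' hv
  obtain ⟨i, hi9, hi⟩ := sepz_pigeon hdle (n := 9) (I := I) (by omega) D
  set S : Finset ℕ := I.filter (fun j => d i ≤ |D j|) with hS
  have hj₀S : j₀ ∈ S := by
    rw [hS, Finset.mem_filter]
    refine ⟨hj₀, ?_⟩
    have h1 : d i ≤ d 0 := hanti (Nat.zero_le i)
    have h2 : d 0 = t₀ := by simp [hd]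
    linarith
  have hSne : S.Nonempty := ⟨j₀, hj₀S⟩
  set js : ℕ := S.max' hSne with hjs
  have hjsS : js ∈ S := S.max'_mem hSne
  have hj₀js : j₀ ≤ js := S.le_max' j₀ hj₀S
  have hjsI : js ∈ I := (Finset.mem_filter.1 hjsS).1
  have hDjs : d i ≤ |D js| := (Finset.mem_filter.1 hjsS).2
  have hDpos : 0 < |D js| := (hd0 i).trans_le hDjs
  have hDne : D js ≠ 0 := abs_pos.1 hDpos
  have hd9i : d 9 ≤ d i := hanti (by omega)
  have hinv : |(D js)⁻¹| ≤ 1 / d 9 := by
    rw [abs_inv, ← one_div]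
    exact one_div_le_one_div_of_le (hd0 9) (hd9i.trans hDjs)
  -- the small part
  set v : E := ∑ j ∈ I, D j • e j + (k - k') with hvdef
  have hv1 : (D js)⁻¹ • v ∈ V₂ := by
    have := hVs _ hinv v hv 0 (mem_of_mem_nhds hV)
    rwa [sub_zero] at this
  have hlarge : ∑ j ∈ I.filter (fun j => js < j), (-((D js)⁻¹ * D j)) • e j ∈ V₂ := by
    apply hWs
    · exact (Finset.card_filter_le _ _).trans hI
    · intro j hj
      rw [Finset.mem_filter] at hj
      apply hδe
      have h1 : |D j| < d i := by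
        by_contra hge
        push Not at hge
        have : j ≤ js := S.le_max' j (Finset.mem_filter.2 ⟨hj.1, hge⟩)
        omega
      have h2 := hi j hj.1 h1
      rw [abs_neg, abs_mul, abs_inv]
      rw [hdstep] at h2
      have h3 : |D j| ≤ ρ * |D js| :=
        h2.le.trans (mul_le_mul_of_nonneg_left hDjs hρ0.le)
      calc |D js|⁻¹ * |D j| ≤ |D js|⁻¹ * (ρ * |D js|) :=
            mul_le_mul_of_nonneg_left h3 (by positivity)
        _ = ρ := by field_simp
        _ ≤ δ := hρδ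
  -- the bracket
  have hMjs : (M : ℝ) + (2 * M + 1) * (1 / d 9) ≤ js :=
    hMj₀.trans (by exact_mod_cast hj₀js)
  have hC0 : 0 < 1 / d 9 := by have := hd0 9; positivity
  have hM0 : (0 : ℝ) ≤ M := Nat.cast_nonneg M
  have hMle : M ≤ js := by
    have : (M : ℝ) ≤ js := by nlinarith
    exact_mod_cast this
  set y₁ : E := ∑ j ∈ Finset.range js, (-((D js)⁻¹ * D j)) • e j with hy₁
  have hy₁m : y₁ ∈ boxC e js (1 / d 9) := by
    rw [mem_boxC_iff]
    refine ⟨fun j => -((D js)⁻¹ * D j), fun l => ?_, rfl⟩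
    rw [abs_neg, abs_mul]
    calc |(D js)⁻¹| * |D l| ≤ |(D js)⁻¹| * 1 :=
          mul_le_mul_of_nonneg_left (hD1 l) (abs_nonneg _)
      _ ≤ 1 / d 9 := by rw [mul_one]; exact hinv
  have hy₂m : (-(D js)⁻¹) • (k - k') ∈ boxC e js (1 / d 9 * (M + M)) := by
    have h1 : k - k' ∈ boxC e M ((M : ℝ) + M) := by
      rw [sub_eq_add_neg]
      exact boxC_add hk (boxC_neg hk')
    have h2 := boxC_smul (-(D js)⁻¹) h1
    refine boxC_mono hMle ?_ (by positivity) h2
    rw [abs_neg]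
    exact mul_le_mul_of_nonneg_right hinv (by positivity)
  have hym : y₁ + (-(D js)⁻¹) • (k - k') ∈ boxC e js js := by
    refine boxC_mono le_rfl ?_ (Nat.cast_nonneg _) (boxC_add hy₁m hy₂m)
    nlinarith
  apply hsel js _ hym
  -- decomposition
  have hsplit : ∑ j ∈ I, D j • e j = ∑ j ∈ Finset.range js, D j • e j + D js • e js +
      ∑ j ∈ I.filter (fun j => js < j), D j • e j := by
    have h1 : ∑ j ∈ I, D j • e j = ∑ j ∈ I.filter (fun j => j < js + 1), D j • e j +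
        ∑ j ∈ I.filter (fun j => ¬ j < js + 1), D j • e j :=
      (Finset.sum_filter_add_sum_filter_not I _ _).symm
    have h2 : ∑ j ∈ I.filter (fun j => j < js + 1), D j • e j =
        ∑ j ∈ Finset.range (js + 1), D j • e j := by
      apply Finset.sum_subset
      · intro j hj
        rw [Finset.mem_filter] at hj
        exact Finset.mem_range.2 hj.2
      · intro j hj hj'
        have : j ∉ I := fun h => hj' (Finset.mem_filter.2 ⟨h, Finset.mem_range.1 hj⟩)
        rw [hDI j this, zero_smul]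
    have h3 : I.filter (fun j => ¬ j < js + 1) = I.filter (fun j => js < j) := by
      apply Finset.filter_congr
      intro j _
      omega
    rw [h1, h2, h3, Finset.sum_range_succ]
  have hfinal : e js - (y₁ + (-(D js)⁻¹) • (k - k')) = (D js)⁻¹ • v +
      ∑ j ∈ I.filter (fun j => js < j), (-((D js)⁻¹ * D j)) • e j := by
    rw [hvdef, hsplit, hy₁]
    simp only [neg_smul, Finset.sum_neg_distrib, smul_add, Finset.smul_sum, smul_smul]
    rw [inv_mul_cancel₀ hDne, one_smul]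
    abel
  rw [hfinal]
  exact hV₂V₁ _ hv1 _ hlarge

theorem sep_Z2 {e : ℕ → E} (hb : Bornology.IsVonNBounded ℝ (range e))
    {V₁ : Set E} (hV₁ : V₁ ∈ 𝓝 (0 : E))
    (hsel : ∀ j : ℕ, ∀ y ∈ boxC e j j, e j - y ∉ V₁) {t₁ : ℝ} (ht₁ : 0 < t₁) :
    ∃ V ∈ 𝓝 (0 : E), ∃ L : ℕ → ℝ, Monotone L ∧ ∀ M : ℕ, ∀ a ∈ Icc t₁ 1, ∀ a' ∈ Icc t₁ 1,
      ∀ μ μ' τ τ' : ℝ, 0 ≤ μ → 0 ≤ μ' → 0 ≤ τ → 0 ≤ τ' → 2 < |τ - τ'| → L M ≤ max μ μ' →
        ∀ k ∈ boxC e M M, ∀ k' ∈ boxC e M M,
          a • Z2 e μ τ - a' • Z2 e μ' τ' + (k - k') ∉ V := by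
  obtain ⟨V, hV, C, hC, h⟩ := sepz_core hb hV₁ hsel (t₀ := t₁ / 4) (by linarith)
  refine ⟨V, hV, fun M => (M : ℝ) + (2 * M + 1) * C + 1, ?_, ?_⟩
  · intro M M' hMM
    have : (M : ℝ) ≤ M' := by exact_mod_cast hMM
    show (M : ℝ) + (2 * M + 1) * C + 1 ≤ (M' : ℝ) + (2 * M' + 1) * C + 1
    nlinarith
  · intro M a ha a' ha' μ μ' τ τ' hμ hμ' hτ hτ' hττ hL k hk k' hk'
    obtain ⟨J, hJ4, hJ0, hJμ, hJ1, hJe⟩ := sepz_expand e hμ hτ
    obtain ⟨J', hJ4', hJ0', hJμ', hJ1', hJe'⟩ := sepz_expand e hμ' hτ'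
    have ha0 : 0 < a := ht₁.trans_le ha.1
    have ha0' : 0 < a' := ht₁.trans_le ha'.1
    set D : ℕ → ℝ := fun j => a * sepzC μ τ j - a' * sepzC μ' τ' j with hD
    have hc0 : ∀ (μ τ : ℝ) j, 0 ≤ sepzC μ τ j := fun μ τ j =>
      mul_nonneg (sepz_hat_nonneg _ _) (sepz_hat_nonneg _ _)
    have hc1 : ∀ (μ τ : ℝ) j, sepzC μ τ j ≤ 1 := fun μ τ j =>
      mul_le_one₀ (sepz_hat_le_one _ _) (sepz_hat_nonneg _ _) (sepz_hat_le_one _ _)
    have hfar : ∀ (μ τ : ℝ) j, sepzC μ τ j ≠ 0 → |τ - (Nat.unpair j).2| < 1 := by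
      intro μ τ j hne
      by_contra hge
      push Not at hge
      exact hne (by unfold sepzC; rw [hat_of_far hge, mul_zero])
    have hdisj : ∀ j, sepzC μ τ j = 0 ∨ sepzC μ' τ' j = 0 := by
      intro j
      by_contra hcon
      push Not at hcon
      have h1 := hfar _ _ _ hcon.1
      have h2 := hfar _ _ _ hcon.2
      have h3 : |τ - τ'| < 2 := by
        rw [abs_lt] at *
        constructor <;> linarith
      linarith
    have hac : ∀ (a μ τ : ℝ) j, 0 < a → a ≤ 1 → 0 ≤ a * sepzC μ τ j ∧ a * sepzC μ τ j ≤ 1 := by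
      intro a μ τ j h0 h1
      exact ⟨mul_nonneg h0.le (hc0 _ _ _), mul_le_one₀ h1 (hc0 _ _ _) (hc1 _ _ _)⟩
    have hD1 : ∀ j, |D j| ≤ 1 := by
      intro j
      have h1 := hac a μ τ j ha0 ha.2
      have h2 := hac a' μ' τ' j ha0' ha'.2
      rw [hD, abs_le]
      constructor <;> linarith [h1.1, h1.2, h2.1, h2.2]
    have hDI : ∀ j ∉ J ∪ J', D j = 0 := by
      intro j hj
      rw [Finset.mem_union, not_or] at hj
      simp only [hD]
      rw [hJ0 j hj.1, hJ0' j hj.2, mul_zero, mul_zero, sub_zero]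
    have hcard : (J ∪ J').card ≤ 8 := (Finset.card_union_le _ _).trans (by omega)
    have hsum : a • Z2 e μ τ - a' • Z2 e μ' τ' = ∑ j ∈ J ∪ J', D j • e j := by
      have h1 : Z2 e μ τ = ∑ j ∈ J ∪ J', sepzC μ τ j • e j := by
        rw [hJe]
        apply Finset.sum_subset Finset.subset_union_left
        intro j _ hj
        rw [hJ0 j hj, zero_smul]
      have h2 : Z2 e μ' τ' = ∑ j ∈ J ∪ J', sepzC μ' τ' j • e j := by
        rw [hJe']
        apply Finset.sum_subset Finset.subset_union_right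
        intro j _ hj
        rw [hJ0' j hj, zero_smul]
      rw [h1, h2, Finset.smul_sum, Finset.smul_sum, ← Finset.sum_sub_distrib]
      apply Finset.sum_congr rfl
      intro j _
      simp only [hD]
      rw [sub_smul, smul_smul, smul_smul]
    have hquarter : ∀ (μ τ : ℝ) (J : Finset ℕ), J.card ≤ 4 → ∑ j ∈ J, sepzC μ τ j = 1 →
        ∃ j ∈ J, 1 / 4 ≤ sepzC μ τ j := by
      intro μ τ J hc hs
      by_contra hcon
      push Not at hcon
      have hne : J.Nonempty := by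
        rw [Finset.nonempty_iff_ne_empty]
        rintro rfl
        simp at hs
      have h1 : ∑ j ∈ J, sepzC μ τ j < ∑ _j ∈ J, (1 / 4 : ℝ) := Finset.sum_lt_sum_of_nonempty hne hcon
      rw [Finset.sum_const, nsmul_eq_mul, hs] at h1
      have h2 : (J.card : ℝ) ≤ 4 := by exact_mod_cast hc
      linarith
    obtain ⟨j₀, hj₀, hDj₀, hbig⟩ : ∃ j₀ ∈ J ∪ J', t₁ / 4 ≤ |D j₀| ∧
        (M : ℝ) + (2 * M + 1) * C ≤ j₀ := by
      rcases le_total μ' μ with hle | hle
      · rw [max_eq_left hle] at hL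
        obtain ⟨j, hj, hjq⟩ := hquarter μ τ J hJ4 hJ1
        have hz : sepzC μ' τ' j = 0 := by
          rcases hdisj j with h0 | h0
          · rw [h0] at hjq; norm_num at hjq
          · exact h0
        refine ⟨j, Finset.mem_union_left _ hj, ?_, ?_⟩
        · simp only [hD]
          rw [hz, mul_zero, sub_zero, abs_of_nonneg (hac a μ τ j ha0 ha.2).1]
          have := ha.1
          nlinarith
        · have := hJμ j hj
          linarith
      · rw [max_eq_right hle] at hL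
        obtain ⟨j, hj, hjq⟩ := hquarter μ' τ' J' hJ4' hJ1'
        have hz : sepzC μ τ j = 0 := by
          rcases hdisj j with h0 | h0
          · exact h0
          · rw [h0] at hjq; norm_num at hjq
        refine ⟨j, Finset.mem_union_right _ hj, ?_, ?_⟩
        · simp only [hD]
          rw [hz, mul_zero, zero_sub, abs_neg, abs_of_nonneg (hac a' μ' τ' j ha0' ha'.2).1]
          have := ha'.1
          nlinarith
        · have := hJμ' j hj
          linarith
    rw [hsum]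
    exact h M (J ∪ J') hcard D hDI hD1 j₀ hj₀ hDj₀ hbig k hk k' hk'

end Z2

end Pool.Agent.TOR
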