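import Pool.Agent.Lib.MP_5a68e6_TOR.Amp
import Pool.Agent.Lib.MP_5a68e6_TOR.Scale
import Pool.Agent.Lib.MP_5a68e6_TOR.SepZ

set_option autoImplicit false

namespace Pool.Agent.TOR

open Set Filter Topology TopologicalSpace Cardinal Pool.Agent.HLF

section LF1
variable {E : Type*} [AddCommGroup E] [Module ℝ E] [TopologicalSpace E]
  [IsTopologicalAddGroup E] [ContinuousSMul ℝ E]

omit [IsTopologicalAddGroup E] [ContinuousSMul ℝ E] in
theorem lf1_smul_mono {N : E → ℝ} (hN : IsFNorm N) {u v : ℝ} (h : |u| ≤ |v|) (x : E) :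
    N (u • x) ≤ N (v • x) := by
  by_cases hv : v = 0
  · have hu : u = 0 := by
      rw [hv, abs_zero] at h
      exact abs_nonpos_iff.1 h
    rw [hu, hv]
  · have h1 : u • x = (u / v) • (v • x) := by
      rw [smul_smul, div_mul_cancel₀ u hv]
    rw [h1]
    apply hN.smul_le
    rw [abs_div]
    exact div_le_one_of_le₀ h (abs_nonneg v)

omit [IsTopologicalAddGroup E] [ContinuousSMul ℝ E] in
theorem lf1_ineq {N : E → ℝ} (hN : IsFNorm N) {b : ℝ → ℝ} (hbm : Monotone b)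
    {x z y : E} {s t : ℝ} (hs : 0 < s) (hs2 : 2 * s ≤ 1) (ht0 : 0 ≤ t) (ht : t ≤ 1 / 2)
    (hy : y = (1 - t) • x + t • z)
    (hz : ∀ u, 0 ≤ u → u ≤ 1 → N (u • z) ≤ b u) :
    N (s • x) ≤ N ((s / (1 - t)) • y) + b (2 * s) := by
  have h1t0 : 0 < 1 - t := by linarith
  have hσ : s / (1 - t) ≤ 2 * s := by
    rw [div_le_iff₀ h1t0]; nlinarith
  have hσ0 : 0 < s / (1 - t) := div_pos hs h1t0
  have e0 : s / (1 - t) * (1 - t) = s := div_mul_cancel₀ s h1t0.ne'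
  have e1 : s • x = (s / (1 - t)) • y + -((s / (1 - t) * t) • z) := by
    rw [hy, smul_add, smul_smul, smul_smul, e0]
    abel
  have e2 : 0 ≤ s / (1 - t) * t := mul_nonneg hσ0.le ht0
  have e3 : s / (1 - t) * t ≤ 2 * s := by nlinarith
  calc N (s • x) = N ((s / (1 - t)) • y + -((s / (1 - t) * t) • z)) := congrArg N e1
    _ ≤ N ((s / (1 - t)) • y) + N (-((s / (1 - t) * t) • z)) := hN.add_le _ _
    _ = N ((s / (1 - t)) • y) + N ((s / (1 - t) * t) • z) := by rw [hN.neg]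
    _ ≤ N ((s / (1 - t)) • y) + b (2 * s) := by
        gcongr
        exact (hz _ e2 (e3.trans hs2)).trans (hbm e3)

omit [IsTopologicalAddGroup E] [ContinuousSMul ℝ E] in
theorem lf1_C1 {N : E → ℝ} (hN : IsFNorm N) {b : ℝ → ℝ} (hbm : Monotone b)
    {x z x' z' : E} {s t t' : ℝ} (hs : 0 < s) (hs2 : 2 * s ≤ 1) (ht0 : 0 ≤ t) (ht : t ≤ 1 / 2)
    (ht0' : 0 ≤ t') (ht' : t' ≤ 1 / 2)
    (hz : ∀ u, 0 ≤ u → u ≤ 1 → N (u • z) ≤ b u)
    (hz' : ∀ u, 0 ≤ u → u ≤ 1 → N (u • z') ≤ b u) :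
    N (s • x') + b s ≤ N ((2 * s) • x) + 3 * b (2 * s) +
      N (((1 - t') • x' + t' • z') - ((1 - t) • x + t • z)) := by
  have h1t0 : 0 < 1 - t' := by linarith
  have hσ : s / (1 - t') ≤ 2 * s := by
    rw [div_le_iff₀ h1t0]; nlinarith
  have hσ0 : 0 < s / (1 - t') := div_pos hs h1t0
  have h1 := lf1_ineq hN hbm (x := x') hs hs2 ht0' ht' rfl hz'
  set σ := s / (1 - t') with hσdef
  set δ := ((1 - t') • x' + t' • z') - ((1 - t) • x + t • z) with hδ
  have e1 : σ • ((1 - t') • x' + t' • z') = (σ * (1 - t)) • x + (σ * t) • z + σ • δ := by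
    rw [hδ]; module
  have h2 : N (σ • ((1 - t') • x' + t' • z'))
      ≤ N ((σ * (1 - t)) • x) + N ((σ * t) • z) + N (σ • δ) := by
    rw [e1]
    exact (hN.add_le _ _).trans (add_le_add_left (hN.add_le _ _) _)
  have h3 : N ((σ * (1 - t)) • x) ≤ N ((2 * s) • x) := by
    apply lf1_smul_mono hN
    rw [abs_of_nonneg (mul_nonneg hσ0.le (by linarith)), abs_of_pos (by linarith)]
    nlinarith
  have h4 : N ((σ * t) • z) ≤ b (2 * s) := by
    have e3 : σ * t ≤ 2 * s := by nlinarith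
    exact (hz _ (mul_nonneg hσ0.le ht0) (e3.trans hs2)).trans (hbm e3)
  have h5 : N (σ • δ) ≤ N δ := by
    apply hN.smul_le
    rw [abs_of_pos hσ0]
    linarith
  have h6 : b s ≤ b (2 * s) := hbm (by linarith)
  linarith

omit [Module ℝ E] [ContinuousSMul ℝ E] in
theorem lf1_nhds {V : Set E} (hV : V ∈ 𝓝 (0 : E)) :
    ∃ W ∈ 𝓝 (0 : E), ∀ v₁ ∈ W, ∀ v₂ ∈ W, ∀ v₃ ∈ W, v₁ - v₂ + v₃ ∈ V := by
  have hc : Tendsto (fun q : E × E × E => q.1 - q.2.1 + q.2.2) (𝓝 (0, 0, 0)) (𝓝 (0 : E)) := by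
    have : Continuous (fun q : E × E × E => q.1 - q.2.1 + q.2.2) := by fun_prop
    have h := this.tendsto (0, 0, 0)
    simpa using h
  have h1 := hc hV
  rw [mem_map, nhds_prod_eq, nhds_prod_eq, mem_prod_iff] at h1
  obtain ⟨W1, hW1, W2, hW2, h12⟩ := h1
  rw [mem_prod_iff] at hW2
  obtain ⟨W3, hW3, W4, hW4, h34⟩ := hW2
  refine ⟨W1 ∩ (W3 ∩ W4), inter_mem hW1 (inter_mem hW3 hW4), ?_⟩
  intro v₁ h1 v₂ h2 v₃ h3
  exact h12 (show (v₁, v₂, v₃) ∈ W1 ×ˢ W2 from ⟨h1.1, h34 ⟨h2.2.1, h3.2.2⟩⟩)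

omit [Module ℝ E] [ContinuousSMul ℝ E] in
theorem lf1_nhds_sub {V : Set E} (hV : V ∈ 𝓝 (0 : E)) (p : E) :
    ∃ O ∈ 𝓝 p, ∀ x ∈ O, ∀ y ∈ O, x - y ∈ V := by
  have hc : Tendsto (fun q : E × E => q.1 - q.2) (𝓝 (p, p)) (𝓝 (0 : E)) := by
    have : Continuous (fun q : E × E => q.1 - q.2) := by fun_prop
    have h := this.tendsto (p, p)
    simpa using h
  have h1 := hc hV
  rw [mem_map, nhds_prod_eq, mem_prod_self_iff] at h1
  obtain ⟨W, hW, h⟩ := h1
  exact ⟨W, hW, fun x hx y hy => h (show (x, y) ∈ W ×ˢ W from ⟨hx, hy⟩)⟩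

omit [ContinuousSMul ℝ E] in
theorem lf1_nhds_N {N : E → ℝ} (hN : IsFNorm N) (hNc : Continuous N)
    (p : E) {ε : ℝ} (hε : 0 < ε) : {y | N (y - p) < ε} ∈ 𝓝 p := by
  have hc : Continuous fun y => N (y - p) := hNc.comp (by fun_prop)
  have h1 := hc.continuousAt (x := p)
  have h2 : Iio ε ∈ 𝓝 (N (p - p)) := by
    rw [sub_self, hN.zero]
    exact Iio_mem_nhds hε
  exact h1.preimage_mem_nhds h2

theorem lf1_pow {a c : ℝ} (ha : 0 < a) (ha1 : a ≤ 1 / 8) {n : ℕ} (hn : (1 / 2 : ℝ) ^ n ≤ c)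
    (hc : c ≤ a) : ∃ m ≤ n, (1 / 2 : ℝ) ^ m ≤ a ∧ a ≤ 2 * (1 / 2) ^ m := by
  classical
  have hex : ∃ m : ℕ, (1 / 2 : ℝ) ^ m ≤ a := ⟨n, hn.trans hc⟩
  have h1 := Nat.find_spec hex
  have h2 : Nat.find hex ≤ n := Nat.find_min' hex (hn.trans hc)
  refine ⟨Nat.find hex, h2, h1, ?_⟩
  rcases Nat.eq_zero_or_pos (Nat.find hex) with h | h
  · rw [h, pow_zero] at h1
    linarith
  · have h3 := Nat.find_min hex (m := Nat.find hex - 1) (by omega)
    push Not at h3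
    have h4 : (1 / 2 : ℝ) ^ (Nat.find hex - 1) = 2 * (1 / 2) ^ (Nat.find hex) := by
      obtain ⟨k, hk⟩ : ∃ k, Nat.find hex = k + 1 := ⟨Nat.find hex - 1, by omega⟩
      rw [hk, Nat.add_sub_cancel, pow_succ]
      ring
    rw [← h4]
    exact h3.le

theorem exists_lf1 [MetrizableSpace E] {C : Set E} (hC : Convex ℝ C)
    {e : ℕ → E} (he : ∀ n, e n ∈ C) (hb : Bornology.IsVonNBounded ℝ (range e))
    {V₁ : Set E} (hV₁ : V₁ ∈ 𝓝 (0 : E)) (hsel : ∀ j : ℕ, ∀ y ∈ boxC e j j, e j - y ∉ V₁)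
    {U : Set (C × C)} (hU : IsEnt U) {m : ℝ} (hm : 0 < m) :
    ∃ (G : C → ℝ → C) (a : C → ℝ), Continuous (fun p : C × ℝ => G p.1 p.2) ∧
      (∀ x, 0 ≤ a x ∧ a x ≤ m) ∧ (∀ x τ, (x, G x τ) ∈ U) ∧
      (∀ x τ, (G x τ : E) - (1 - a x) • (x : E) ∈ Submodule.span ℝ (range e)) ∧
      ∀ p : C, ∃ O ∈ 𝓝 p, ∀ x x' τ τ', 0 ≤ τ → 0 ≤ τ' → G x τ ∈ O → G x' τ' ∈ O →
        |τ - τ'| ≤ 2 := by
  obtain ⟨N, hN⟩ := exists_fnorm (E := E)
  have hNc := hN.continuous
  obtain ⟨r, hr01, hrc, hr, hrU⟩ := hN.exists_radius (C := C) (P := fun S => S ×ˢ S ⊆ U)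
    (fun O O' h hO => (prod_mono h h).trans hO) (by
      intro x
      have h1 : U ∈ 𝓝 (x, x) := hU.isOpen.mem_nhds (hU.refl x)
      rw [nhds_prod_eq, mem_prod_self_iff] at h1
      exact h1)
  obtain ⟨b, hb0, hbm, hbs, hbZ⟩ := exists_modulus hb hN
  set m' := min m (1 / 2) with hm'def
  have hm'0 : 0 < m' := lt_min hm (by norm_num)
  have hm'h : m' ≤ 1 / 2 := min_le_right _ _
  have hr0 : ∀ x, 0 < r x := fun x => (hr01 x).1
  obtain ⟨t, htc, ht, htβ, htα⟩ := exists_amplitude (m := m') hN hr0 hrc hr hb0 hbm hbs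
    (α := 1 / 8) (β := 1 / 4) (by norm_num) (by norm_num) (by norm_num) hm'0 (by linarith)
  obtain ⟨ρ', hρc, hρ, hρβ, hρα⟩ := exists_amplitude (m := m') hN hr0 hrc hr hb0 hbm hbs
    (α := 1 / 256) (β := 1 / 128) (by norm_num) (by norm_num) (by norm_num) hm'0 (by linarith)
  have hsep := fun n : ℕ => sep_Z2 hb hV₁ hsel (t₁ := (1 / 2) ^ n) (by positivity)
  choose V hV L hL hsep' using hsep
  choose V' hV' hVV using fun n => lf1_nhds (hV n)
  obtain ⟨μ, hμc, hμ0, hμ⟩ := exists_scale (X := C) (e := e)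
    (q := fun x : C => (1 - t x) • (x : E)) (by fun_prop) (ρ := fun x => ρ' x / 4)
    (by fun_prop) (fun x => by have := (hρ x).1; positivity) hV' (L := L)
  have hZC : ∀ μ τ, Z2 e μ τ ∈ C := Z2_mem_convex hC he
  have hZb : ∀ μ τ u, 0 ≤ u → u ≤ 1 → N (u • Z2 e μ τ) ≤ b u := fun μ τ u h0 h1 => hbZ u μ τ h0 h1
  have ht0 : ∀ x, 0 ≤ t x := fun x => (ht x).1.le
  have hth : ∀ x, t x ≤ 1 / 2 := fun x => (ht x).2.trans hm'h
  have hGC : ∀ (x : C) (τ : ℝ), (1 - t x) • (x : E) + t x • Z2 e (μ x) τ ∈ C := fun x τ =>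
    hC x.2 (hZC _ _) (by linarith [hth x]) (ht0 x) (by ring)
  have hclose : ∀ (x : C) (τ : ℝ),
      N ((x : E) - ((1 - t x) • (x : E) + t x • Z2 e (μ x) τ)) < r x / 4 := by
    intro x τ
    have e1 : (x : E) - ((1 - t x) • (x : E) + t x • Z2 e (μ x) τ)
        = t x • (x : E) + -(t x • Z2 e (μ x) τ) := by module
    rw [e1]
    have h1 := hN.add_le (t x • (x : E)) (-(t x • Z2 e (μ x) τ))
    rw [hN.neg] at h1
    have h2 := hZb (μ x) τ (t x) (ht0 x) (by linarith [hth x])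
    have h3 := htβ x
    linarith
  refine ⟨fun x τ => ⟨(1 - t x) • (x : E) + t x • Z2 e (μ x) τ, hGC x τ⟩, t, ?_, ?_, ?_, ?_, ?_⟩
  · apply Continuous.subtype_mk
    have hZ := continuous_Z2 e
    have h1 : Continuous fun p : C × ℝ => Z2 e (μ p.1) p.2 :=
      hZ.comp ((hμc.comp continuous_fst).prodMk continuous_snd)
    fun_prop
  · exact fun x => ⟨ht0 x, (ht x).2.trans (min_le_left _ _)⟩
  · intro x τ
    apply hrU x
    have h1 : x ∈ {y : C | N ((x : E) - y) < r x} := by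
      show N ((x : E) - x) < r x
      rw [sub_self, hN.zero]
      exact hr0 x
    refine ⟨h1, ?_⟩
    show N ((x : E) - ((1 - t x) • (x : E) + t x • Z2 e (μ x) τ)) < r x
    have := hclose x τ
    have := hr0 x
    linarith
  · intro x τ
    have e1 : (1 - t x) • (x : E) + t x • Z2 e (μ x) τ - (1 - t x) • (x : E)
        = t x • Z2 e (μ x) τ := by abel
    show (1 - t x) • (x : E) + t x • Z2 e (μ x) τ - (1 - t x) • (x : E) ∈ _
    rw [e1]
    exact Submodule.smul_mem _ _ (Z2_mem_span e _ _)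
  -- the recovery
  intro p
  -- comparison
  have hcomp : ∀ (x x' : C) (τ τ' : ℝ),
      N (((1 - t x') • (x' : E) + t x' • Z2 e (μ x') τ')
        - ((1 - t x) • (x : E) + t x • Z2 e (μ x) τ)) < r x / 64 → ρ' x / 4 ≤ t x' := by
    intro x x' τ τ' hδ
    have h1 := hclose x τ
    have h2 := hclose x' τ'
    have h3 := hr x x'
    have h4 : N ((x : E) - x') ≤ r x / 4 + r x / 64 + r x' / 4 := by
      have e1 : (x : E) - x' = ((x : E) - ((1 - t x) • (x : E) + t x • Z2 e (μ x) τ))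
          + -(((1 - t x') • (x' : E) + t x' • Z2 e (μ x') τ')
            - ((1 - t x) • (x : E) + t x • Z2 e (μ x) τ))
          + -((x' : E) - ((1 - t x') • (x' : E) + t x' • Z2 e (μ x') τ')) := by abel
      rw [e1]
      have g1 := hN.add_le (((x : E) - ((1 - t x) • (x : E) + t x • Z2 e (μ x) τ))
          + -(((1 - t x') • (x' : E) + t x' • Z2 e (μ x') τ')
            - ((1 - t x) • (x : E) + t x • Z2 e (μ x) τ)))
          (-((x' : E) - ((1 - t x') • (x' : E) + t x' • Z2 e (μ x') τ')))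
      have g2 := hN.add_le ((x : E) - ((1 - t x) • (x : E) + t x • Z2 e (μ x) τ))
          (-(((1 - t x') • (x' : E) + t x' • Z2 e (μ x') τ')
            - ((1 - t x) • (x : E) + t x • Z2 e (μ x) τ)))
      rw [hN.neg] at g1 g2
      linarith
    have hρ0 := (hρ x).1
    have hρ2 := (hρ x).2
    have h5 := lf1_C1 hN hbm (x := (x : E)) (x' := (x' : E)) (s := ρ' x / 2) (by linarith)
      (by linarith) (ht0 x) (hth x) (ht0 x') (hth x') (hZb (μ x) τ) (hZb (μ x') τ')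
    have e2 : 2 * (ρ' x / 2) = ρ' x := by ring
    rw [e2] at h5
    have h6 := hρβ x
    have h7 := hN.nonneg (ρ' x • (x : E))
    have h8 := hb0 (ρ' x)
    have h9 := hr0 x
    have h10 : N ((ρ' x / 2) • (x' : E)) + b (ρ' x / 2) < 1 / 8 * r x' := by linarith
    have h11 := htα x' (ρ' x / 2) (by linarith) (by linarith) h10
    linarith
  -- amplitude at `p`
  have hrp := hr0 p
  obtain ⟨s, hs0, hsm, hsN⟩ : ∃ s : ℝ, 0 < s ∧ s ≤ m' ∧
      N ((2 * s) • (p : E)) + 2 * b (2 * s) < r p / 1000 := by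
    obtain ⟨s₁, hs₁, hbs₁⟩ := hbs (r p / 4000) (by positivity)
    have h1 := hN.smul_tendsto (p : E)
    have h2 : {t : ℝ | N (t • (p : E)) < r p / 4000} ∈ 𝓝 (0 : ℝ) :=
      h1 (Iio_mem_nhds (by positivity))
    rw [Metric.mem_nhds_iff] at h2
    obtain ⟨d, hd, hball⟩ := h2
    refine ⟨min m' (min (s₁ / 2) (d / 4)), by positivity, min_le_left _ _, ?_⟩
    set s := min m' (min (s₁ / 2) (d / 4)) with hs
    have hs0 : 0 < s := by positivity
    have g1 : s ≤ s₁ / 2 := (min_le_right _ _).trans (min_le_left _ _)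
    have g2 : s ≤ d / 4 := (min_le_right _ _).trans (min_le_right _ _)
    have g3 : b (2 * s) ≤ b s₁ := hbm (by linarith)
    have g4 : N ((2 * s) • (p : E)) < r p / 4000 := by
      apply hball
      rw [Metric.mem_ball, Real.dist_eq, sub_zero, abs_of_pos (by linarith)]
      linarith
    linarith
  have hC3 : ∀ (x : C) (τ : ℝ),
      N (((1 - t x) • (x : E) + t x • Z2 e (μ x) τ) - p) < r p / 1000 →
        3 / 4 * r p ≤ r x ∧ s / 8 ≤ ρ' x / 4 := by
    intro x τ hδ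
    have h1 := hclose x τ
    have h2 := hr p x
    have h3 : N ((p : E) - x) ≤ r p / 1000 + r x / 4 := by
      have e1 : (p : E) - x = -(((1 - t x) • (x : E) + t x • Z2 e (μ x) τ) - p)
        + -((x : E) - ((1 - t x) • (x : E) + t x • Z2 e (μ x) τ)) := by abel
      rw [e1]
      have g1 := hN.add_le (-(((1 - t x) • (x : E) + t x • Z2 e (μ x) τ) - p))
        (-((x : E) - ((1 - t x) • (x : E) + t x • Z2 e (μ x) τ)))
      rw [hN.neg, hN.neg] at g1
      linarith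
    have h4 : 3 / 4 * r p ≤ r x := by linarith
    refine ⟨h4, ?_⟩
    have h5 := lf1_ineq hN hbm (x := (x : E)) (z := Z2 e (μ x) τ) hs0 (by linarith) (ht0 x)
      (hth x) rfl (hZb (μ x) τ)
    have h1t0 : 0 < 1 - t x := by linarith [hth x]
    have hσ : s / (1 - t x) ≤ 2 * s := by
      rw [div_le_iff₀ h1t0]; nlinarith [hth x]
    have hσ0 : 0 < s / (1 - t x) := div_pos hs0 h1t0
    have e2 : (s / (1 - t x)) • ((1 - t x) • (x : E) + t x • Z2 e (μ x) τ)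
        = (s / (1 - t x)) • (p : E)
          + (s / (1 - t x)) • (((1 - t x) • (x : E) + t x • Z2 e (μ x) τ) - p) := by
      rw [← smul_add]
      congr 1
      abel
    rw [e2] at h5
    have h6 := hN.add_le ((s / (1 - t x)) • (p : E))
      ((s / (1 - t x)) • (((1 - t x) • (x : E) + t x • Z2 e (μ x) τ) - p))
    have h7 : N ((s / (1 - t x)) • (p : E)) ≤ N ((2 * s) • (p : E)) := by
      apply lf1_smul_mono hN
      rw [abs_of_pos hσ0, abs_of_pos (by linarith)]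
      exact hσ
    have h8 : N ((s / (1 - t x)) • (((1 - t x) • (x : E) + t x • Z2 e (μ x) τ) - p))
        ≤ N (((1 - t x) • (x : E) + t x • Z2 e (μ x) τ) - p) := by
      apply hN.smul_le
      rw [abs_of_pos hσ0]
      linarith
    have h9 : b s ≤ b (2 * s) := hbm (by linarith)
    have h10 := hρα x s hs0 hsm (by linarith)
    linarith
  obtain ⟨n, hn⟩ : ∃ n : ℕ, (1 / 2 : ℝ) ^ n ≤ s / 8 := by
    obtain ⟨n, hn⟩ := exists_pow_lt_of_lt_one (show 0 < s / 8 by positivity)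
      (show (1 / 2 : ℝ) < 1 by norm_num)
    exact ⟨n, hn.le⟩
  choose sm Om hOm hscale using fun k : ℕ => hμ k (p : E)
  choose O' hO' hsub using fun k : ℕ => lf1_nhds_sub (hV' k) (p : E)
  have hO : {y | N (y - p) < r p / 1000} ∩ ((⋂ k ∈ Finset.range (n + 1), Om k) ∩
      ⋂ k ∈ Finset.range (n + 1), O' k) ∈ 𝓝 (p : E) := by
    refine inter_mem (lf1_nhds_N hN hNc _ (by positivity)) (inter_mem ?_ ?_)
    · rw [Filter.biInter_finset_mem]
      exact fun k _ => hOm k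
    · rw [Filter.biInter_finset_mem]
      exact fun k _ => hO' k
  refine ⟨Subtype.val ⁻¹' _, continuous_subtype_val.continuousAt.preimage_mem_nhds hO, ?_⟩
  intro x x' τ τ' hτ hτ' hx hx'
  by_contra hcon
  push Not at hcon
  obtain ⟨hx1, hx2, hx3⟩ := hx
  obtain ⟨hx1', hx2', hx3'⟩ := hx'
  simp only [mem_iInter, Finset.mem_range] at hx2 hx3 hx2' hx3'
  set y : E := (1 - t x) • (x : E) + t x • Z2 e (μ x) τ with hy
  set y' : E := (1 - t x') • (x' : E) + t x' • Z2 e (μ x') τ' with hy'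
  have hyp : N (y - p) < r p / 1000 := hx1
  have hyp' : N (y' - p) < r p / 1000 := hx1'
  obtain ⟨hrx, hsx⟩ := hC3 x τ hyp
  obtain ⟨hrx', hsx'⟩ := hC3 x' τ' hyp'
  have hyy : N (y' - y) < r p / 500 := by
    have e1 : y' - y = (y' - p) + -(y - p) := by abel
    rw [e1]
    have g1 := hN.add_le (y' - p) (-(y - p))
    rw [hN.neg] at g1
    linarith
  have hyy' : N (y - y') < r p / 500 := by
    have e1 : y - y' = -(y' - y) := by abel
    rw [e1, hN.neg]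
    exact hyy
  -- the amplitudes
  have a1 : ρ' x / 4 ≤ t x' := hcomp x x' τ τ' (by linarith)
  have a2 : ρ' x' / 4 ≤ t x := hcomp x' x τ' τ (by linarith)
  have a3 : ρ' x / 4 ≤ t x := hcomp x x τ τ (by
    rw [sub_self, hN.zero]
    have := hr0 x
    positivity)
  have a4 : ρ' x' / 4 ≤ t x' := hcomp x' x' τ' τ' (by
    rw [sub_self, hN.zero]
    have := hr0 x'
    positivity)
  obtain ⟨k₁, hk₁, hk₁', hk₁''⟩ := lf1_pow (a := ρ' x / 4) (by linarith [(hρ x).1])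
    (by linarith [(hρ x).2]) hn hsx
  obtain ⟨k₂, hk₂, hk₂', hk₂''⟩ := lf1_pow (a := ρ' x' / 4) (by linarith [(hρ x').1])
    (by linarith [(hρ x').2]) hn hsx'
  obtain ⟨k, hk, hρ1, hρ2, hta, hta'⟩ : ∃ k ≤ n, ρ' x / 4 ≤ 2 * (1 / 2) ^ k ∧
      ρ' x' / 4 ≤ 2 * (1 / 2) ^ k ∧ (1 / 2 : ℝ) ^ k ≤ t x ∧ (1 / 2 : ℝ) ^ k ≤ t x' := by
    rcases le_total k₁ k₂ with h | h
    · have h12 : (1 / 2 : ℝ) ^ k₂ ≤ (1 / 2) ^ k₁ :=
        pow_le_pow_of_le_one (by norm_num) (by norm_num) h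
      exact ⟨k₁, hk₁, hk₁'', by linarith, by linarith, by linarith⟩
    · have h12 : (1 / 2 : ℝ) ^ k₁ ≤ (1 / 2) ^ k₂ :=
        pow_le_pow_of_le_one (by norm_num) (by norm_num) h
      exact ⟨k₂, hk₂, by linarith, hk₂'', by linarith, by linarith⟩
  obtain ⟨M, hM, κ, hκ, hqκ⟩ := hscale k x hρ1
    ⟨t x • Z2 e (μ x) τ, Submodule.smul_mem _ _ (Z2_mem_span e _ _), hx2 k (by omega)⟩
  obtain ⟨M', hM', κ', hκ', hqκ'⟩ := hscale k x' hρ2
    ⟨t x' • Z2 e (μ x') τ', Submodule.smul_mem _ _ (Z2_mem_span e _ _), hx2' k (by omega)⟩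
  have hLM : L k (max M M') ≤ max (μ x) (μ x') := by
    rcases le_total M M' with h | h
    · rw [max_eq_right h]
      exact hM'.trans (le_max_right _ _)
    · rw [max_eq_left h]
      exact hM.trans (le_max_left _ _)
  have hκ2 : κ ∈ boxC e (max M M') ((max M M' : ℕ) : ℝ) :=
    boxC_mono (le_max_left _ _) (by exact_mod_cast le_max_left M M') (by positivity) hκ
  have hκ2' : κ' ∈ boxC e (max M M') ((max M M' : ℕ) : ℝ) :=
    boxC_mono (le_max_right _ _) (by exact_mod_cast le_max_right M M') (by positivity) hκ'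
  have hfin := hsep' k (max M M') (t x) ⟨hta, by linarith [hth x]⟩ (t x') ⟨hta', by linarith [hth x']⟩
    (μ x) (μ x') τ τ' (hμ0 x) (hμ0 x') hτ hτ' hcon hLM κ hκ2 κ' hκ2'
  apply hfin
  have e1 : t x • Z2 e (μ x) τ - t x' • Z2 e (μ x') τ' + (κ - κ')
      = (y - y') - ((1 - t x) • (x : E) - sm k - κ) + ((1 - t x') • (x' : E) - sm k - κ') := by
    rw [hy, hy']
    abel
  rw [e1]
  exact hVV k _ (hsub k y (hx3 k (by omega)) y' (hx3' k (by omega))) _ hqκ _ hqκ'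

end LF1

end Pool.Agent.TOR
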