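import Pool.Agent.Lib.MP_5a68e6_TOR.Ent

set_option autoImplicit false

namespace Pool.Agent.TOR

open Set Filter Topology TopologicalSpace Cardinal

/-- the chain property -/
theorem lim_chain {X : Type*} {F : ℕ → Set (X × X)}
    (hcomp : ∀ n x y z, (x, y) ∈ F (n + 1) → (y, z) ∈ F (n + 1) → (x, z) ∈ F n)
    (hrefl : ∀ n x, (x, x) ∈ F n) {a : ℕ → X} (hstep : ∀ n, (a n, a (n + 1)) ∈ F n) (n k : ℕ) :
    (a (n + 1), a (n + 1 + k)) ∈ F n := by
  induction k generalizing n with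
  | zero => exact hrefl n _
  | succ k ih =>
    refine hcomp n _ _ _ (hstep (n + 1)) ?_
    have := ih (n + 1)
    rwa [show n + 1 + 1 + k = n + 1 + (k + 1) by ring] at this

/-- limits, metric form -/
theorem lim_metric {X Z : Type*} [MetricSpace X] [CompleteSpace X] [TopologicalSpace Z]
    (F : ℕ → Set (X × X)) (hF : ∀ n, IsEnt (F n))
    (hcomp : ∀ n x y z, (x, y) ∈ F (n + 1) → (y, z) ∈ F (n + 1) → (x, z) ∈ F n)
    (hdist : ∀ n x y, (x, y) ∈ F (n + 1) → dist x y < (1 / 2 : ℝ) ^ (n + 1))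
    (f : ℕ → Z → X) (hf : ∀ n, Continuous (f n)) (hstep : ∀ n z, (f n z, f (n + 1) z) ∈ F n) :
    ∃ g : Z → X, Continuous g ∧ (∀ z, Tendsto (fun n => f n z) atTop (𝓝 (g z))) ∧
      ∀ n z, ∃ x y, (f n z, x) ∈ F n ∧ (x, y) ∈ F n ∧ (y, g z) ∈ F n := by
  have hd : ∀ z n, dist (f (n + 1) z) (f (n + 1 + 1) z) ≤ 1 / 2 / 2 ^ n := by
    intro z n
    have h1 := hdist n _ _ (hstep (n + 1) z)
    refine h1.le.trans (le_of_eq ?_)
    rw [pow_succ, one_div_pow]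
    ring
  have hcauchy : ∀ z, CauchySeq fun n => f (n + 1) z := fun z =>
    cauchySeq_of_le_geometric_two (hd z)
  choose g hg using fun z => cauchySeq_tendsto_of_complete (hcauchy z)
  have hg' : ∀ z, Tendsto (fun n => f n z) atTop (𝓝 (g z)) := fun z =>
    (tendsto_add_atTop_iff_nat 1).1 (hg z)
  refine ⟨g, ?_, hg', fun n z => ?_⟩
  · have hun : TendstoUniformly (fun n z => f (n + 1) z) g atTop := by
      rw [Metric.tendstoUniformly_iff]
      intro ε hε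
      obtain ⟨N, hN⟩ := exists_pow_lt_of_lt_one hε (show (1 / 2 : ℝ) < 1 by norm_num)
      filter_upwards [eventually_ge_atTop N] with n hn z
      have h1 := dist_le_of_le_geometric_two_of_tendsto (hd z) (hg z) n
      rw [dist_comm]
      refine h1.trans_lt ?_
      have h2 : (1 : ℝ) / 2 ^ n ≤ (1 / 2 : ℝ) ^ N := by
        rw [← one_div_pow]
        exact pow_le_pow_of_le_one (by norm_num) (by norm_num) hn
      linarith
    exact hun.continuous (Eventually.of_forall fun n => hf (n + 1)).frequently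
  · have h1 : Tendsto (fun k => (f (n + 1 + k) z, g z)) atTop (𝓝 (g z, g z)) :=
      (((tendsto_add_atTop_iff_nat (f := fun k => f k z) (n + 1)).2 (hg' z)).congr fun k => by
        rw [add_comm]).prodMk_nhds tendsto_const_nhds
    have h2 := h1.eventually ((hF n).isOpen.mem_nhds ((hF n).refl (g z)))
    obtain ⟨k, hk⟩ := h2.exists
    exact ⟨f (n + 1) z, f (n + 1 + k) z, hstep n z,
      lim_chain hcomp (fun n x => (hF n).refl x) (a := fun n => f n z) (fun n => hstep n z) n k,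
      hk⟩

/-- gauge for convergence: in a completely metrizable space. -/
theorem exists_limit {X Z : Type*} [TopologicalSpace X] [IsCompletelyMetrizableSpace X]
    [TopologicalSpace Z] :
    ∃ G : ℕ → Set (X × X), (∀ n, IsEnt (G n)) ∧
      ∀ (f : ℕ → Z → X) (F : ℕ → Set (X × X)), (∀ n, Continuous (f n)) → (∀ n, IsEnt (F n)) →
        (∀ n, F (n + 1) ⊆ G (n + 1)) →
        (∀ n x y z, (x, y) ∈ F (n + 1) → (y, z) ∈ F (n + 1) → (x, z) ∈ F n) →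
        (∀ n z, (f n z, f (n + 1) z) ∈ F n) →
        ∃ g : Z → X, Continuous g ∧ (∀ z, Tendsto (fun n => f n z) atTop (𝓝 (g z))) ∧
          ∀ n z, ∃ x y, (f n z, x) ∈ F n ∧ (x, y) ∈ F n ∧ (y, g z) ∈ F n := by
  let _ := upgradeIsCompletelyMetrizable X
  refine ⟨fun n => {p : X × X | dist p.1 p.2 < (1 / 2 : ℝ) ^ n},
    fun n => isEnt_dist (by positivity), fun f F hf hF hG hcomp hstep => ?_⟩
  exact lim_metric F hF hcomp (fun n x y h => hG n h) f hf hstep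

theorem iterate1 {X Z S : Type} [TopologicalSpace X] [IsCompletelyMetrizableSpace X]
    [TopologicalSpace Z] (f : S → Z → X) (hf : ∀ σ, Continuous (f σ)) (E : S → Set (X × X))
    (hE : ∀ σ, IsEnt (E σ)) (R : ℕ → S → S → Prop)
    (step : ∀ n σ (F : Set (X × X)), IsEnt F → ∃ σ', R n σ σ' ∧ ∀ z, (f σ z, f σ' z) ∈ F)
    (σ₀ : S) :
    ∃ (σ : ℕ → S) (g : Z → X), σ 0 = σ₀ ∧ (∀ n, R n (σ n) (σ (n + 1))) ∧ Continuous g ∧
      (∀ z, Tendsto (fun n => f (σ n) z) atTop (𝓝 (g z))) ∧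
      (∀ n z, (f (σ n) z, g z) ∈ E (σ n)) := by
  obtain ⟨G, hG, hlim⟩ := exists_limit (X := X) (Z := Z)
  -- a good entourage for the state `τ`, inside `H`
  have hgood : ∀ (n : ℕ) (τ : S) (H : Set (X × X)), IsEnt H → ∃ F : Set (X × X), IsEnt F ∧
      F ⊆ G n ∧ (∀ x y z, (x, y) ∈ F → (y, z) ∈ F → (x, z) ∈ H) ∧
      ∀ x y z w, (x, y) ∈ F → (y, z) ∈ F → (z, w) ∈ F → (x, w) ∈ E τ := by
    intro n τ H hH
    obtain ⟨A, hA, hA'⟩ := hH.exists_half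
    obtain ⟨B, hB, hB'⟩ := (hE τ).exists_third
    refine ⟨(A ∩ B) ∩ G n, (hA.inter hB).inter (hG n), inter_subset_right, ?_, ?_⟩
    · intro x y z h1 h2
      exact hA' x y z h1.1.1 h2.1.1
    · intro x y z w h1 h2 h3
      exact hB' x y z w h1.1.2 h2.1.2 h3.1.2
  choose! Fc hFc1 hFc2 hFc3 hFc4 using hgood
  choose! st hst1 hst2 using step
  let T := {p : S × Set (X × X) // IsEnt p.2}
  let next : ℕ → T → T := fun n p =>
    ⟨(st n p.1.1 p.1.2, Fc (n + 1) (st n p.1.1 p.1.2) p.1.2), hFc1 _ _ _ p.2⟩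
  let s : ℕ → T := fun n => Nat.rec ⟨(σ₀, Fc 0 σ₀ Set.univ), hFc1 _ _ _ IsEnt.univ⟩ next n
  have hs : ∀ n, s (n + 1) = next n (s n) := fun n => rfl
  have hthird : ∀ n x y z w, (x, y) ∈ (s n).1.2 → (y, z) ∈ (s n).1.2 → (z, w) ∈ (s n).1.2 →
      (x, w) ∈ E (s n).1.1 := by
    intro n
    cases n with
    | zero => exact hFc4 0 σ₀ Set.univ IsEnt.univ
    | succ n => exact hFc4 (n + 1) _ _ (s n).2
  obtain ⟨g, hg1, hg2, hg3⟩ := hlim (fun n => f (s n).1.1) (fun n => (s n).1.2)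
    (fun n => hf _) (fun n => (s n).2) (fun n => hFc2 (n + 1) _ _ (s n).2)
    (fun n => hFc3 (n + 1) _ _ (s n).2) (fun n z => hst2 n _ _ (s n).2 z)
  refine ⟨fun n => (s n).1.1, g, rfl, fun n => hst1 n _ _ (s n).2, hg1, hg2, fun n z => ?_⟩
  obtain ⟨x, y, h1, h2, h3⟩ := hg3 n z
  exact hthird n _ _ _ _ h1 h2 h3

theorem iterate2 {X Z S : Type} [TopologicalSpace X] [IsCompletelyMetrizableSpace X]
    [TopologicalSpace Z] (f : S → Z → X) (hf : ∀ σ, Continuous (f σ))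
    (Ready : S → Set (X × X) → Prop) (R : ℕ → S → S → Set (X × X) → Prop)
    (step : ∀ n σ (F : Set (X × X)), IsEnt F → Ready σ F →
      ∃ E, IsEnt E ∧ ∀ F', IsEnt F' → ∃ σ', R n σ σ' E ∧ (∀ z, (f σ z, f σ' z) ∈ F) ∧ Ready σ' F')
    (σ₀ : S) (h₀ : Ready σ₀ Set.univ) :
    ∃ (σ : ℕ → S) (E : ℕ → Set (X × X)) (g : Z → X), σ 0 = σ₀ ∧ (∀ n, IsEnt (E n)) ∧
      (∀ n, R n (σ n) (σ (n + 1)) (E n)) ∧ Continuous g ∧
      (∀ z, Tendsto (fun n => f (σ n) z) atTop (𝓝 (g z))) ∧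
      (∀ n z, (f (σ (n + 1)) z, g z) ∈ E n) := by
  obtain ⟨G, hG, hlim⟩ := exists_limit (X := X) (Z := Z)
  let T := {p : S × Set (X × X) // IsEnt p.2 ∧ Ready p.1 p.2}
  have hstep : ∀ (n : ℕ) (p : T), ∃ (q : T) (E : Set (X × X)), IsEnt E ∧ R n p.1.1 q.1.1 E ∧
      (∀ z, (f p.1.1 z, f q.1.1 z) ∈ p.1.2) ∧ q.1.2 ⊆ G (n + 1) ∧
      (∀ x y z, (x, y) ∈ q.1.2 → (y, z) ∈ q.1.2 → (x, z) ∈ p.1.2) ∧
      ∀ x y z w, (x, y) ∈ q.1.2 → (y, z) ∈ q.1.2 → (z, w) ∈ q.1.2 → (x, w) ∈ E := by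
    rintro n ⟨⟨σ, F⟩, hF, hR⟩
    obtain ⟨E, hE, hE'⟩ := step n σ F hF hR
    obtain ⟨A, hA, hA'⟩ := hF.exists_half
    obtain ⟨B, hB, hB'⟩ := hE.exists_third
    have hF' : IsEnt ((A ∩ B) ∩ G (n + 1)) := (hA.inter hB).inter (hG (n + 1))
    obtain ⟨σ', h1, h2, h3⟩ := hE' _ hF'
    refine ⟨⟨(σ', (A ∩ B) ∩ G (n + 1)), hF', h3⟩, E, hE, h1, h2, inter_subset_right, ?_, ?_⟩
    · intro x y z h1 h2
      exact hA' x y z h1.1.1 h2.1.1
    · intro x y z w h1 h2 h3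
      exact hB' x y z w h1.1.2 h2.1.2 h3.1.2
  choose next En h1 h2 h3 h4 h5 h6 using hstep
  let s : ℕ → T := fun n => Nat.rec ⟨(σ₀, Set.univ), IsEnt.univ, h₀⟩ next n
  obtain ⟨g, hg1, hg2, hg3⟩ := hlim (fun n => f (s n).1.1) (fun n => (s n).1.2)
    (fun n => hf _) (fun n => (s n).2.1) (fun n => h4 n (s n))
    (fun n => h5 n (s n)) (fun n z => h3 n (s n) z)
  refine ⟨fun n => (s n).1.1, fun n => En n (s n), g, rfl, fun n => h1 n (s n),
    fun n => h2 n (s n), hg1, hg2, fun n z => ?_⟩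
  obtain ⟨x, y, h1, h2, h3⟩ := hg3 (n + 1) z
  exact h6 n (s n) _ _ _ _ h1 h2 h3

end Pool.Agent.TOR
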