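import Pool.Agent.Lib.MP_5a68e6_TOR.LF1
import Pool.Agent.Lib.MP_5a68e6_TOR.Lim

set_option autoImplicit false

namespace Pool.Agent.TOR

open Set Filter Topology TopologicalSpace Cardinal Pool.Agent.HLF

section lfinf
variable {E : Type} [AddCommGroup E] [Module ℝ E] [TopologicalSpace E] {C : Set E}

/-- states of the iteration -/
def lfinf_State (C : Set E) : Type :=
  {s : (C × (ℕ → ℝ) → C) × Set (C × C) // Continuous s.1 ∧ IsEnt s.2}

/-- the relation between consecutive states -/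
def lfinf_R (e : ℕ → E) (n : ℕ) (σ σ' : lfinf_State C) : Prop :=
  (∃ a : C × (ℕ → ℝ) → ℝ, (∀ z, 0 ≤ a z ∧ a z ≤ (1 / 2 : ℝ) ^ (n + 2)) ∧
      ∀ z, (σ'.1.1 z : E) - (1 - a z) • (σ.1.1 z : E) ∈ Submodule.span ℝ (range e)) ∧
    ∀ z z' : C × (ℕ → ℝ), (∀ j, 0 ≤ z.2 j) → (∀ j, 0 ≤ z'.2 j) → ∀ p₁ p₂ : C,
      (σ'.1.1 z, p₁) ∈ σ'.1.2 → (p₁, p₂) ∈ σ'.1.2 → (p₂, σ'.1.1 z') ∈ σ'.1.2 →
        |z.2 n - z'.2 n| ≤ 2

theorem lfinf_step [IsTopologicalAddGroup E] [ContinuousSMul ℝ E] [MetrizableSpace E]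
    (hC : Convex ℝ C)
    {e : ℕ → E} (he : ∀ n, e n ∈ C) (hb : Bornology.IsVonNBounded ℝ (range e))
    {V₁ : Set E} (hV₁ : V₁ ∈ 𝓝 (0 : E)) (hsel : ∀ j : ℕ, ∀ y ∈ boxC e j j, e j - y ∉ V₁)
    (n : ℕ) (σ : lfinf_State C) (F : Set (C × C)) (hF : IsEnt F) :
    ∃ σ' : lfinf_State C, lfinf_R e n σ σ' ∧ ∀ z, (σ.1.1 z, σ'.1.1 z) ∈ F := by
  obtain ⟨G, a, hG, ha, hGF, hspan, hrec⟩ := exists_lf1 hC he hb hV₁ hsel hF
    (m := (1 / 2 : ℝ) ^ (n + 2)) (by positivity)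
  obtain ⟨⟨f, E₀⟩, hf, hE₀⟩ := σ
  simp only at hf hE₀
  have hf' : Continuous (fun z : C × (ℕ → ℝ) => G (f z) (z.2 n)) :=
    hG.comp (hf.prodMk ((continuous_apply n).comp continuous_snd))
  obtain ⟨D, hD, hDsub⟩ := exists_ent_of_local (X := C)
    (D₀ := {pq | ∀ z z' : C × (ℕ → ℝ), (∀ j, 0 ≤ z.2 j) → (∀ j, 0 ≤ z'.2 j) →
      G (f z) (z.2 n) = pq.1 → G (f z') (z'.2 n) = pq.2 → |z.2 n - z'.2 n| ≤ 2}) (by
    intro p
    obtain ⟨O, hO, hO'⟩ := hrec p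
    refine ⟨O, hO, ?_⟩
    rintro ⟨u, v⟩ ⟨hu, hv⟩ z z' hz hz' h1 h2
    simp only at h1 h2 hu hv
    subst h1 h2
    exact hO' _ _ _ _ (hz n) (hz' n) hu hv)
  obtain ⟨V, hV, hV3⟩ := hD.exists_third
  refine ⟨⟨(fun z => G (f z) (z.2 n), V), hf', hV⟩, ⟨⟨fun z => a (f z), fun z => ha _,
    fun z => hspan _ _⟩, ?_⟩, fun z => hGF _ _⟩
  intro z z' hz hz' p₁ p₂ h1 h2 h3
  exact hDsub (hV3 _ _ _ _ h1 h2 h3) z z' hz hz' rfl rfl

end lfinf

theorem exists_lfinf {E : Type} [AddCommGroup E] [Module ℝ E] [TopologicalSpace E]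
    [IsTopologicalAddGroup E] [ContinuousSMul ℝ E] [MetrizableSpace E] {C : Set E}
    (hC : Convex ℝ C) [IsCompletelyMetrizableSpace C]
    {e : ℕ → E} (he : ∀ n, e n ∈ C) (hb : Bornology.IsVonNBounded ℝ (range e))
    {V₁ : Set E} (hV₁ : V₁ ∈ 𝓝 (0 : E)) (hsel : ∀ j : ℕ, ∀ y ∈ boxC e j j, e j - y ∉ V₁)
    {U : Set (C × C)} (hU : IsEnt U) :
    ∃ (G : C → (ℕ → ℝ) → C) (A : C → (ℕ → ℝ) → ℝ),
      Continuous (fun p : C × (ℕ → ℝ) => G p.1 p.2) ∧ (∀ x τ, 1 / 2 ≤ A x τ ∧ A x τ ≤ 1) ∧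
      (∀ x τ, (x, G x τ) ∈ U) ∧
      (∀ x τ, (G x τ : E) - A x τ • (x : E) ∈ closure (Submodule.span ℝ (range e) : Set E)) ∧
      ∀ (l : ℕ) (p : C), ∃ O ∈ 𝓝 p, ∀ x x' τ τ', (∀ j, 0 ≤ τ j) → (∀ j, 0 ≤ τ' j) →
        G x τ ∈ O → G x' τ' ∈ O → |τ l - τ' l| ≤ 2 := by
  obtain ⟨σ, g, h0, hR, hg, hlim, hclose⟩ := iterate1 (X := C) (Z := C × (ℕ → ℝ))
    (S := lfinf_State C) (fun σ => σ.1.1) (fun σ => σ.2.1) (fun σ => σ.1.2) (fun σ => σ.2.2)
    (lfinf_R e) (lfinf_step hC he hb hV₁ hsel)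
    ⟨(fun z => z.1, U), continuous_fst, hU⟩
  choose a ha hspan using fun n => (hR n).1
  -- the partial products
  have hA1 : ∀ n z, (1 / 2 : ℝ) + (1 / 2) ^ (n + 1) ≤ ∏ j ∈ Finset.range n, (1 - a j z) ∧
      ∏ j ∈ Finset.range n, (1 - a j z) ≤ 1 := by
    intro n z
    induction n with
    | zero => norm_num
    | succ n ih =>
      rw [Finset.prod_range_succ]
      obtain ⟨h1, h2⟩ := ih
      obtain ⟨h3, h4⟩ := ha n z
      have h5 : (0 : ℝ) < (1 / 2) ^ (n + 1) := by positivity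
      have h6 : (1 / 2 : ℝ) ^ (n + 1 + 1) = (1 / 2) * (1 / 2) ^ (n + 1) := by ring
      have h7 : (1 / 2 : ℝ) ^ (n + 2) = (1 / 2) * (1 / 2) ^ (n + 1) := by ring
      rw [h7] at h4
      constructor
      · rw [h6]
        nlinarith
      · nlinarith
  have hanti : ∀ z, Antitone fun n => ∏ j ∈ Finset.range n, (1 - a j z) := by
    intro z
    refine antitone_nat_of_succ_le fun n => ?_
    rw [Finset.prod_range_succ]
    have h1 := (hA1 n z).1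
    have h5 : (0 : ℝ) < (1 / 2) ^ (n + 1) := by positivity
    nlinarith [(ha n z).1]
  have hbdd : ∀ z, BddBelow (range fun n => ∏ j ∈ Finset.range n, (1 - a j z)) := by
    intro z
    refine ⟨1 / 2, ?_⟩
    rintro _ ⟨n, rfl⟩
    have h5 : (0 : ℝ) < (1 / 2) ^ (n + 1) := by positivity
    have := (hA1 n z).1
    simp only
    linarith
  have hlimA : ∀ z, Tendsto (fun n => ∏ j ∈ Finset.range n, (1 - a j z)) atTop
      (𝓝 (⨅ n, ∏ j ∈ Finset.range n, (1 - a j z))) := fun z =>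
    tendsto_atTop_ciInf (hanti z) (hbdd z)
  have hfn : ∀ n z, ((σ n).1.1 z : E) - (∏ j ∈ Finset.range n, (1 - a j z)) • (z.1 : E) ∈
      Submodule.span ℝ (range e) := by
    intro n z
    induction n with
    | zero =>
      rw [h0]
      simp
    | succ n ih =>
      have h1 := hspan n z
      have h2 := Submodule.smul_mem (Submodule.span ℝ (range e)) (1 - a n z) ih
      have h3 := Submodule.add_mem _ h1 h2
      rw [Finset.prod_range_succ]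
      convert h3 using 1
      rw [smul_sub, smul_smul]
      rw [mul_comm (∏ j ∈ Finset.range n, (1 - a j z)) (1 - a n z)]
      abel
  refine ⟨fun x τ => g (x, τ), fun x τ => ⨅ n, ∏ j ∈ Finset.range n, (1 - a j (x, τ)), hg, ?_, ?_,
    ?_, ?_⟩
  · intro x τ
    constructor
    · refine le_ciInf fun n => ?_
      have h5 : (0 : ℝ) < (1 / 2) ^ (n + 1) := by positivity
      have := (hA1 n (x, τ)).1
      linarith
    · have := ciInf_le (hbdd (x, τ)) 0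
      simpa using this
  · intro x τ
    have := hclose 0 (x, τ)
    rw [h0] at this
    exact this
  · intro x τ
    have h1 : Tendsto (fun n => ((σ n).1.1 (x, τ) : E)) atTop (𝓝 (g (x, τ) : E)) :=
      (continuous_subtype_val.tendsto _).comp (hlim (x, τ))
    have h2 := (hlimA (x, τ)).smul_const (x : E)
    refine mem_closure_of_tendsto (h1.sub h2) (Eventually.of_forall fun n => ?_)
    exact hfn n (x, τ)
  · intro l p
    obtain ⟨V, hV, hV2⟩ := (σ (l + 1)).2.2.exists_half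
    refine ⟨{y | (p, y) ∈ V}, hV.mem_nhds p, ?_⟩
    intro x x' τ τ' hτ hτ' h1 h2
    have h3 : (g (x, τ), g (x', τ')) ∈ (σ (l + 1)).1.2 := hV2 _ p _ (hV.symm _ _ h1) h2
    exact (hR l).2 (x, τ) (x', τ') hτ hτ' _ _ (hclose (l + 1) (x, τ)) h3
      ((σ (l + 1)).2.2.symm _ _ (hclose (l + 1) (x', τ')))

end Pool.Agent.TOR
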