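import Pool.Agent.Lib.MP_5a68e6_TOR.Ent

set_option autoImplicit false

namespace Pool.Agent.TOR

open Set Filter Topology TopologicalSpace Cardinal

/-! ### locally finite sums -/

/-- the sum of the terms with index below `b` -/
private noncomputable def lev_S {X : Type*} (F : ℕ → X → ℝ → ℝ) (x : X) (b : ℝ) : ℝ :=
  ∑ j ∈ Finset.range ⌈b⌉₊, F j x b

private theorem lev_S_eq {X : Type*} {F : ℕ → X → ℝ → ℝ}
    (hF : ∀ (j : ℕ) x b, b ≤ (j : ℝ) → F j x b = 0) (x : X) (b : ℝ) (m : ℕ) (hb : b ≤ (m : ℝ)) :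
    lev_S F x b = ∑ j ∈ Finset.range m, F j x b := by
  unfold lev_S
  apply Finset.sum_subset
  · intro j hj
    rw [Finset.mem_range] at hj ⊢
    exact lt_of_lt_of_le hj (Nat.ceil_le.2 hb)
  · intro j _ hj
    rw [Finset.mem_range, not_lt] at hj
    exact hF j x b (Nat.ceil_le.1 hj)

private theorem lev_S_cont {X : Type*} [TopologicalSpace X] {F : ℕ → X → ℝ → ℝ}
    (hF : ∀ (j : ℕ) x b, b ≤ (j : ℝ) → F j x b = 0)
    (hc : ∀ j, Continuous fun p : X × ℝ => F j p.1 p.2) :
    Continuous fun p : X × ℝ => lev_S F p.1 p.2 := by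
  rw [continuous_iff_continuousAt]
  rintro ⟨x0, b0⟩
  obtain ⟨m, hm⟩ := exists_nat_gt b0
  have h1 : ContinuousAt (fun p : X × ℝ => ∑ j ∈ Finset.range m, F j p.1 p.2) (x0, b0) :=
    (continuous_finsetSum _ fun j _ => hc j).continuousAt
  refine h1.congr ?_
  have h2 : ∀ᶠ p : X × ℝ in 𝓝 (x0, b0), p.2 < (m : ℝ) :=
    (continuous_snd.continuousAt (x := (x0, b0))).eventually (gt_mem_nhds hm)
  filter_upwards [h2] with p hp
  exact (lev_S_eq hF p.1 p.2 m hp.le).symm

/-! ### clamps -/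

private theorem lev_cl_nonneg (t : ℝ) : 0 ≤ cl t := le_min zero_le_one (le_max_left _ _)

private theorem lev_cl_le_one (t : ℝ) : cl t ≤ 1 := min_le_left _ _

private theorem lev_cl_zero (t : ℝ) (ht : t ≤ 0) : cl t = 0 := by
  unfold cl
  rw [max_eq_left ht]
  exact min_eq_right zero_le_one

private theorem lev_cl_one (t : ℝ) (ht : 1 ≤ t) : cl t = 1 := by
  unfold cl
  exact min_eq_left (ht.trans (le_max_right _ _))

private theorem lev_cl_mid (t : ℝ) (h0 : 0 ≤ t) (h1 : t ≤ 1) : cl t = t := by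
  unfold cl
  rw [max_eq_right h0, min_eq_right h1]

private theorem lev_cl_cont : Continuous cl := by
  unfold cl
  fun_prop

private theorem lev_min_succ (b : ℝ) (m : ℕ) (μ : ℝ) (h0 : 0 ≤ μ) (h1 : μ ≤ 1) :
    min (m : ℝ) b + min μ (cl (b - m)) = min ((m : ℝ) + μ) b := by
  rcases le_total b m with h | h
  · rw [min_eq_right h, lev_cl_zero _ (by linarith), min_eq_right h0, add_zero,
      min_eq_right (by linarith)]
  · rw [min_eq_left h]
    rcases le_total b ((m : ℝ) + 1) with h2 | h2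
    · rw [lev_cl_mid _ (by linarith) (by linarith)]
      rcases le_total μ (b - m) with h3 | h3
      · rw [min_eq_left h3, min_eq_left (by linarith)]
      · rw [min_eq_right h3, min_eq_right (by linarith)]
        ring
    · rw [lev_cl_one _ (by linarith), min_eq_left h1, min_eq_left (by linarith)]

private theorem lev_sum_cl (b : ℝ) (hb : 0 ≤ b) (m : ℕ) :
    ∑ j ∈ Finset.range m, cl (b - j) = min (m : ℝ) b := by
  induction m with
  | zero => simp [hb]
  | succ m ih =>
    rw [Finset.sum_range_succ, ih]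
    have h1 : cl (b - m) = min 1 (cl (b - m)) := (min_eq_right (lev_cl_le_one _)).symm
    rw [h1, lev_min_succ b m 1 zero_le_one le_rfl]
    push_cast
    rfl

section
variable {X Y : Type*} [MetricSpace X] [TopologicalSpace Y]

/-! ### neighbourhoods -/

private theorem lev_nbhd {c : X → X → ℝ → X} (hc : IsComb c) {g : Y → X}
    {O : Set X} (hO : IsOpen O) (hgO : ∀ y, g y ∈ O) {e : X → X} (he : ContinuousOn e O)
    (heg : ∀ y, e (g y) = g y) {W : Set (X × X)} (hW : IsOpen W) (hWg : ∀ y, (g y, g y) ∈ W) :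
    ∃ N : Set X, IsOpen N ∧ (∀ y, g y ∈ N) ∧ N ⊆ O ∧ ∀ x ∈ N, ∀ t, (x, c x (e x) t) ∈ W := by
  refine ⟨interior {x | x ∈ O ∧ ∀ t, (x, c x (e x) t) ∈ W}, isOpen_interior, ?_, ?_, ?_⟩
  · intro y
    rw [mem_interior_iff_mem_nhds]
    have h1 : ∀ᶠ x in 𝓝 (g y), ∀ t ∈ Icc (0 : ℝ) 1, (x, c x (e x) t) ∈ W := by
      apply isCompact_Icc.eventually_forall_of_forall_eventually
        (P := fun x t => (x, c x (e x) t) ∈ W)
      intro t _
      have hea : ContinuousAt e (g y) := he.continuousAt (hO.mem_nhds (hgO y))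
      have h2 : ContinuousAt (fun z : X × ℝ => (z.1, c z.1 (e z.1) z.2)) (g y, t) := by
        apply ContinuousAt.prodMk continuousAt_fst
        have h3 : ContinuousAt (fun z : X × ℝ => (z.1, e z.1, z.2)) (g y, t) := by
          apply ContinuousAt.prodMk continuousAt_fst
          apply ContinuousAt.prodMk _ continuousAt_snd
          exact ContinuousAt.comp (f := fun z : X × ℝ => z.1) hea continuousAt_fst
        exact ContinuousAt.comp (f := fun z : X × ℝ => (z.1, e z.1, z.2))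
          (g := fun p : X × X × ℝ => c p.1 p.2.1 p.2.2) hc.cont.continuousAt h3
      apply h2.eventually
      apply hW.mem_nhds
      simp only [heg, hc.diag]
      exact hWg y
    filter_upwards [h1, hO.mem_nhds (hgO y)] with x hx hxO
    refine ⟨hxO, fun t => ?_⟩
    rcases le_total t 0 with h | h
    · rw [hc.of_nonpos _ _ _ h, ← hc.of_nonpos x (e x) 0 le_rfl]
      have := hx 0 ⟨le_rfl, zero_le_one⟩
      rwa [hc.of_nonpos x (e x) 0 le_rfl] at this ⊢
    · rcases le_total t 1 with h' | h'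
      · exact hx t ⟨h, h'⟩
      · rw [hc.of_one_le _ _ _ h']
        have := hx 1 ⟨zero_le_one, le_rfl⟩
        rwa [hc.of_one_le x (e x) 1 le_rfl] at this
  · intro x hx
    exact (interior_subset hx).1
  · intro x hx
    exact (interior_subset hx).2

/-- thresholds -/
private theorem lev_thr {Ω : X → ℝ → X}
    (hlim : ∀ (n : ℕ) x s, (n : ℝ) ≤ s → dist x (Ω x s) < (1 / 2) ^ n)
    {T : Set (X × X)} (hT : IsEnt T) :
    ∃ S : X → ℝ, Continuous S ∧ (∀ x, 1 ≤ S x) ∧ ∀ x s, S x ≤ s → (x, Ω x s) ∈ T := by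
  obtain ⟨r, hr, hrl, hrT⟩ := hT.exists_radius
  have hrc : Continuous r := by
    have : LipschitzWith 1 r := by
      apply LipschitzWith.of_dist_le_mul
      intro x y
      rw [Real.dist_eq, NNReal.coe_one, one_mul, abs_le]
      have h1 := hrl x y
      have h2 := hrl y x
      rw [dist_comm y x] at h2
      constructor <;> linarith
    exact this.continuous
  refine ⟨fun x => 1 / r x + 1, ?_, ?_, ?_⟩
  · exact (continuous_const.div hrc fun x => (hr x).1.ne').add continuous_const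
  · intro x
    have := one_div_pos.2 (hr x).1
    linarith
  · intro x s hs
    apply hrT
    have hrx := (hr x).1
    have h1 : 1 ≤ 1 / r x := by
      rw [le_div_iff₀ hrx, one_mul]
      exact (hr x).2
    have hs0 : 0 ≤ s := by linarith
    have h2 := Nat.floor_le hs0
    have h3 := Nat.lt_floor_add_one s
    set n := ⌊s⌋₊ with hn
    have h4 := hlim n x s h2
    refine h4.trans_le ?_
    have h5 : 1 / r x ≤ (n : ℝ) := by linarith
    have h6 : (n : ℝ) ≤ 2 ^ n := by
      exact_mod_cast (Nat.lt_two_pow_self (n := n)).le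
    have h7 : 1 / r x ≤ 2 ^ n := h5.trans h6
    rw [one_div, inv_pow]
    rw [one_div] at h7
    exact inv_le_of_inv_le₀ hrx h7

/-- a bounded part of the push-off is away from the range -/
private theorem lev_claim {g : Y → X} {Ω : X → ℝ → X}
    (hsep : ∀ n : ℕ, ∃ E, IsEnt E ∧ ∀ y x s, s ≤ (n : ℝ) → (g y, Ω x s) ∉ E)
    (hlim : ∀ (n : ℕ) x s, (n : ℝ) ≤ s → dist x (Ω x s) < (1 / 2) ^ n)
    {S : X → ℝ} (hS : Continuous S) (y : Y) :
    g y ∉ closure {z | ∃ x s, s ≤ S x ∧ z = Ω x s} := by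
  intro hcl
  obtain ⟨m, hm⟩ := exists_nat_gt (S (g y))
  have h1 : ∀ᶠ x in 𝓝 (g y), S x < (m : ℝ) := hS.continuousAt.eventually (gt_mem_nhds hm)
  obtain ⟨δ, hδ, hball⟩ := Metric.eventually_nhds_iff.1 h1
  obtain ⟨k, hk⟩ := exists_pow_lt_of_lt_one (half_pos hδ) (by norm_num : (1 / 2 : ℝ) < 1)
  set m' := max m k with hm'
  have hm1 : (m : ℝ) ≤ (m' : ℝ) := by exact_mod_cast le_max_left m k
  have hpow : (1 / 2 : ℝ) ^ m' < δ / 2 :=
    lt_of_le_of_lt (pow_le_pow_of_le_one (by norm_num) (by norm_num) (le_max_right m k)) hk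
  obtain ⟨E, hE, hEs⟩ := hsep m'
  have h2 : {z | (g y, z) ∈ E} ∩ Metric.ball (g y) (δ / 2) ∈ 𝓝 (g y) :=
    inter_mem (hE.mem_nhds (g y)) (Metric.ball_mem_nhds _ (half_pos hδ))
  obtain ⟨z, ⟨hz1, hz2⟩, x, s, hs, rfl⟩ := mem_closure_iff_nhds.1 hcl _ h2
  have h3 : (m' : ℝ) < s := by
    by_contra hcon
    rw [not_lt] at hcon
    exact hEs y x s hcon hz1
  have h4 := hlim m' x s h3.le
  have h5 : dist x (g y) < δ := by
    have := dist_triangle x (Ω x s) (g y)
    have h6 : dist (Ω x s) (g y) < δ / 2 := hz2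
    linarith
  have h7 := hball h5
  linarith

/-- entourage of two nested open sets -/
private theorem lev_ent {N N' : Set X} (hN : IsOpen N) (hNN : closure N' ⊆ N) :
    IsEnt ((N ×ˢ N) ∪ ((closure N')ᶜ ×ˢ (closure N')ᶜ)) where
  isOpen := (hN.prod hN).union (isClosed_closure.isOpen_compl.prod isClosed_closure.isOpen_compl)
  refl x := by
    by_cases h : x ∈ N
    · exact Or.inl ⟨h, h⟩
    · exact Or.inr ⟨fun h' => h (hNN h'), fun h' => h (hNN h')⟩
  symm x y h := by
    rcases h with ⟨h1, h2⟩ | ⟨h1, h2⟩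
    · exact Or.inl ⟨h2, h1⟩
    · exact Or.inr ⟨h2, h1⟩

/-- state of the recursion -/
private structure LevSt (c : X → X → ℝ → X) (g : Y → X) (Ω : X → ℝ → X) (e : X → X)
    (P : Set (X × X)) (p : Set X × Set X × (X → ℝ)) : Prop where
  o1 : IsOpen p.1
  o2 : IsOpen p.2.1
  gm : ∀ y, g y ∈ p.2.1
  clo : closure p.2.1 ⊆ p.1
  cm : ∀ x ∈ p.2.1, ∀ t, c x (e x) t ∈ p.1
  ct : Continuous p.2.2
  one : ∀ x, 1 ≤ p.2.2 x
  up : ∀ x s, p.2.2 x ≤ s → x ∈ p.2.1 → Ω x s ∈ p.1
  dn : ∀ x s, p.2.2 x ≤ s → x ∉ p.1 → Ω x s ∉ p.2.1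
  ps : ∀ x s, p.2.2 x ≤ s → (x, Ω x s) ∈ P

private theorem lev_step {c : X → X → ℝ → X} (hc : IsComb c) {g : Y → X} (hg : IsClosed (range g))
    {Ω : X → ℝ → X}
    (hlim : ∀ (n : ℕ) x s, (n : ℝ) ≤ s → dist x (Ω x s) < (1 / 2) ^ n)
    {O : Set X} (hO : IsOpen O) (hgO : ∀ y, g y ∈ O) {e : X → X} (he : ContinuousOn e O)
    (heg : ∀ y, e (g y) = g y) {P : Set (X × X)} (hP : IsEnt P) (N : Set X) (hN : IsOpen N)
    (hgN : ∀ y, g y ∈ N) (D : Set X) (hD : ∀ y, g y ∉ closure D) (S : X → ℝ)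
    (hS : Continuous S) : ∃ q, LevSt c g Ω e P q ∧ q.1 = N ∧ (∀ x, S x + 1 ≤ q.2.2 x) ∧
      ∀ z ∈ D, z ∉ q.2.1 := by
  obtain ⟨N1, hN1, hgN1, -, hN1c⟩ := lev_nbhd hc hO hgO he heg
    (W := (univ : Set X) ×ˢ N) (isOpen_univ.prod hN) (fun y => ⟨mem_univ _, hgN y⟩)
  obtain ⟨N', hN', hgN', hcl⟩ := normal_exists_closure_subset hg
    ((hN.inter hN1).inter (isClosed_closure (s := D)).isOpen_compl)
    (by rintro _ ⟨y, rfl⟩; exact ⟨⟨hgN y, hgN1 y⟩, hD y⟩)
  have hclN : closure N' ⊆ N := fun x hx => (hcl hx).1.1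
  obtain ⟨S1, hS1, hS11, hS1T⟩ := lev_thr hlim ((lev_ent hN hclN).inter hP)
  refine ⟨(N, N', fun x => max (S1 x) (S x + 1)), ⟨hN, hN', fun y => hgN' ⟨y, rfl⟩, hclN, ?_,
    hS1.max (hS.add continuous_const), fun x => (hS11 x).trans (le_max_left _ _), ?_, ?_, ?_⟩,
    rfl, fun x => le_max_right _ _, ?_⟩
  · intro x hx t
    exact (hN1c x (hcl (subset_closure hx)).1.2 t).2
  · intro x s hs hx
    rcases (hS1T x s ((le_max_left _ _).trans hs)).1 with h | h
    · exact h.2
    · exact absurd (subset_closure hx) h.1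
  · intro x s hs hx hx'
    rcases (hS1T x s ((le_max_left _ _).trans hs)).1 with h | h
    · exact hx h.1
    · exact h.2 (subset_closure hx')
  · intro x s hs
    exact (hS1T x s ((le_max_left _ _).trans hs)).2
  · intro z hz hz'
    exact (hcl (subset_closure hz')).2 (subset_closure hz)

/-- the two sequences -/
private theorem lev_seq {c : X → X → ℝ → X} (hc : IsComb c) {g : Y → X} (hg : IsClosed (range g))
    {Ω : X → ℝ → X}
    (hsep : ∀ n : ℕ, ∃ E, IsEnt E ∧ ∀ y x s, s ≤ (n : ℝ) → (g y, Ω x s) ∉ E)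
    (hlim : ∀ (n : ℕ) x s, (n : ℝ) ≤ s → dist x (Ω x s) < (1 / 2) ^ n)
    {O : Set X} (hO : IsOpen O) (hgO : ∀ y, g y ∈ O) {e : X → X} (he : ContinuousOn e O)
    (heg : ∀ y, e (g y) = g y) {P : Set (X × X)} (hP : IsEnt P) :
    ∃ (N : ℕ → Set X) (S : ℕ → X → ℝ), (∀ j, IsOpen (N j)) ∧ (∀ j y, g y ∈ N j) ∧
      (∀ j, closure (N (j + 1)) ⊆ N j) ∧ (∀ j, ∀ x ∈ N (j + 1), ∀ t, c x (e x) t ∈ N j) ∧
      (∀ x ∈ N 0, x ∈ O ∧ ∀ t, (x, c x (e x) t) ∈ P) ∧ (∀ j, Continuous (S j)) ∧
      (∀ (j : ℕ) x, (j : ℝ) ≤ S j x) ∧ (∀ j x, S j x ≤ S (j + 1) x) ∧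
      (∀ j x s, S j x ≤ s → x ∈ N (j + 1) → Ω x s ∈ N j) ∧
      (∀ j x s, S j x ≤ s → x ∉ N j → Ω x s ∉ N (j + 1)) ∧
      (∀ j x s, S j x ≤ s → (x, Ω x s) ∈ P) ∧
      (∀ j x s, s ≤ S j x → Ω x s ∉ N (j + 2)) := by
  obtain ⟨N0, hN0, hgN0, hN0O, hN0P⟩ := lev_nbhd hc hO hgO he heg hP.isOpen
    (fun y => hP.refl (g y))
  obtain ⟨p0, hp0, hp0N, -, -⟩ := lev_step hc hg hlim hO hgO he heg hP N0 hN0 hgN0 ∅
    (by simp) (fun _ => 0) continuous_const
  have hstep : ∀ p : Set X × Set X × (X → ℝ), LevSt c g Ω e P p → ∃ q, LevSt c g Ω e P q ∧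
      q.1 = p.2.1 ∧ (∀ x, p.2.2 x + 1 ≤ q.2.2 x) ∧
      ∀ z ∈ {z | ∃ x s, s ≤ p.2.2 x ∧ z = Ω x s}, z ∉ q.2.1 := by
    intro p hp
    exact lev_step hc hg hlim hO hgO he heg hP p.2.1 hp.o2 hp.gm _
      (fun y => lev_claim hsep hlim hp.ct y) p.2.2 hp.ct
  choose! nx hnx using hstep
  set f : ℕ → Set X × Set X × (X → ℝ) := fun n => nx^[n] p0 with hf
  have hfs : ∀ n, f (n + 1) = nx (f n) := fun n => Function.iterate_succ_apply' nx n p0
  have hst : ∀ n, LevSt c g Ω e P (f n) := by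
    intro n
    induction n with
    | zero => exact hp0
    | succ n ih => rw [hfs]; exact (hnx _ ih).1
  have hN : ∀ n, (f (n + 1)).1 = (f n).2.1 := fun n => by rw [hfs]; exact (hnx _ (hst n)).2.1
  have hSS : ∀ n x, (f n).2.2 x + 1 ≤ (f (n + 1)).2.2 x := fun n x => by
    rw [hfs]; exact (hnx _ (hst n)).2.2.1 x
  have hDD : ∀ n x s, s ≤ (f n).2.2 x → Ω x s ∉ (f (n + 1)).2.1 := fun n x s hs => by
    rw [hfs]; exact (hnx _ (hst n)).2.2.2 _ ⟨x, s, hs, rfl⟩
  refine ⟨fun n => (f n).1, fun n => (f n).2.2, fun j => (hst j).o1, ?_, ?_, ?_, ?_,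
    fun j => (hst j).ct, ?_, ?_, ?_, ?_, fun j x s hs => (hst j).ps x s hs, ?_⟩
  · intro j y
    exact (hst j).clo (subset_closure ((hst j).gm y))
  · intro j
    show closure (f (j + 1)).1 ⊆ (f j).1
    rw [hN]
    exact (hst j).clo
  · intro j x hx t
    have hx' : x ∈ (f (j + 1)).1 := hx
    rw [hN] at hx'
    exact (hst j).cm x hx' t
  · intro x hx
    have hx' : x ∈ p0.1 := hx
    rw [hp0N] at hx'
    exact ⟨hN0O hx', hN0P x hx'⟩
  · intro j x
    induction j with
    | zero =>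
      have := (hst 0).one x
      simp only [Nat.cast_zero]
      linarith
    | succ j ih =>
      have := hSS j x
      push_cast
      linarith
  · intro j x
    have := hSS j x
    show (f j).2.2 x ≤ (f (j + 1)).2.2 x
    linarith
  · intro j x s hs hx
    have hx' : x ∈ (f (j + 1)).1 := hx
    rw [hN] at hx'
    exact (hst j).up x s hs hx'
  · intro j x s hs hx hx2
    have hx' : Ω x s ∈ (f (j + 1)).1 := hx2
    rw [hN] at hx'
    exact (hst j).dn x s hs hx hx'
  · intro j x s hs hx2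
    have hx' : Ω x s ∈ (f (j + 1 + 1)).1 := hx2
    rw [hN] at hx'
    exact hDD j x s hs hx'

end

theorem exists_levels {X Y : Type*} [MetricSpace X] [TopologicalSpace Y]
    {c : X → X → ℝ → X} (hc : IsComb c) {g : Y → X} (hg : IsClosedEmbedding g)
    {Ω : X → ℝ → X} (hΩ : Continuous fun p : X × ℝ => Ω p.1 p.2)
    (hsep : ∀ n : ℕ, ∃ E, IsEnt E ∧ ∀ y x s, s ≤ (n : ℝ) → (g y, Ω x s) ∉ E)
    (hlim : ∀ (n : ℕ) x s, (n : ℝ) ≤ s → dist x (Ω x s) < (1 / 2) ^ n)
    {O : Set X} (hO : IsOpen O) (hgO : ∀ y, g y ∈ O) {e : X → X} (he : ContinuousOn e O)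
    (heg : ∀ y, e (g y) = g y) {P : Set (X × X)} (hP : IsEnt P) :
    ∃ (M : X → ℝ → ℝ) (Ω' : X → ℝ → X),
      Continuous (fun p : X × ℝ => M p.1 p.2) ∧ Continuous (fun p : X × ℝ => Ω' p.1 p.2) ∧
      (∀ x b, 0 ≤ b → 0 ≤ M x b ∧ M x b ≤ b) ∧
      (∀ x b b', 0 ≤ b → b ≤ b' → M x b = min (M x b') b) ∧
      (∀ y b, 0 ≤ b → M (g y) b = b) ∧
      (∀ x b, 0 ≤ b → 0 < M x b → x ∈ O) ∧
      (∀ x l b, 0 ≤ l → 0 ≤ b → |M (Ω' x l) b - min (M x b) l| ≤ 3) ∧
      (∀ x l, 0 ≤ l → (x, Ω' x l) ∈ P) ∧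
      (∀ x b t, 0 ≤ b → 0 < M x b → (x, c x (e x) t) ∈ P ∧ M x b - 2 ≤ M (c x (e x) t) b) ∧
      (∀ P' : Set (X × X), IsEnt P' → ∃ S : X → ℝ, Continuous S ∧
        ∀ x l, S x ≤ l → (x, Ω' x l) ∈ P') := by
  obtain ⟨N, S, hNo, hgN, hNcl, hNc, hN0, hSc, hSj, hSm, hup, hdn, hPs, hav⟩ :=
    lev_seq hc hg.isClosed_range hsep hlim hO hgO he heg hP
  have hNsub : ∀ i j, i ≤ j → N j ⊆ N i := by
    intro i j hij
    induction j, hij using Nat.le_induction with
    | base => exact subset_rfl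
    | succ j _ ih => exact (subset_closure.trans (hNcl j)).trans ih
  -- Urysohn functions
  have hur : ∀ j, ∃ f : C(X, ℝ), EqOn f 0 (N j)ᶜ ∧ EqOn f 1 (closure (N (j + 1))) ∧
      ∀ x, f x ∈ Icc (0 : ℝ) 1 := by
    intro j
    apply exists_continuous_zero_one_of_isClosed (hNo j).isClosed_compl isClosed_closure
    rw [disjoint_compl_left_iff_subset]
    exact hNcl j
  choose lam hlam0 hlam1 hlamI using hur
  have hl1 : ∀ m x, x ∈ N m → ∀ j < m, lam j x = 1 := by
    intro m x hx j hj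
    exact hlam1 j (subset_closure (hNsub (j + 1) m hj hx))
  have hl0 : ∀ m x, x ∉ N m → ∀ j, m ≤ j → lam j x = 0 := by
    intro m x hx j hj
    exact hlam0 j (fun h => hx (hNsub m j hj h))
  -- the function M
  set F : ℕ → X → ℝ → ℝ := fun j x b => min (lam j x) (cl (b - j)) with hF
  have hF0 : ∀ (j : ℕ) x b, b ≤ (j : ℝ) → F j x b = 0 := by
    intro j x b hb
    simp only [hF]
    rw [lev_cl_zero _ (by linarith), min_eq_right (hlamI j x).1]
  have hFc : ∀ j, Continuous fun p : X × ℝ => F j p.1 p.2 := by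
    intro j
    simp only [hF]
    exact ((lam j).continuous.comp continuous_fst).min
      (lev_cl_cont.comp (continuous_snd.sub continuous_const))
  have hFnn : ∀ j x b, 0 ≤ F j x b := fun j x b => le_min (hlamI j x).1 (lev_cl_nonneg _)
  have hFle : ∀ (j : ℕ) x b, F j x b ≤ cl (b - j) := fun j x b => min_le_right _ _
  have hM0 : ∀ x b, 0 ≤ lev_S F x b := fun x b => Finset.sum_nonneg fun j _ => hFnn j x b
  have hMle : ∀ x b, 0 ≤ b → lev_S F x b ≤ b := by
    intro x b hb
    obtain ⟨m, hm⟩ := exists_nat_ge b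
    rw [lev_S_eq hF0 x b m hm]
    calc _ ≤ ∑ j ∈ Finset.range m, cl (b - j) := Finset.sum_le_sum fun j _ => hFle j x b
      _ = min (m : ℝ) b := lev_sum_cl b hb m
      _ ≤ b := min_le_right _ _
  have F1 : ∀ m x b, 0 ≤ b → x ∈ N m → min (m : ℝ) b ≤ lev_S F x b := by
    intro m x b hb hx
    obtain ⟨m0, hm0⟩ := exists_nat_ge b
    have h1 : b ≤ ((max m m0 : ℕ) : ℝ) := hm0.trans (by exact_mod_cast le_max_right m m0)
    rw [lev_S_eq hF0 x b (max m m0) h1, ← lev_sum_cl b hb m]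
    have h2 : ∑ j ∈ Finset.range m, cl (b - j) = ∑ j ∈ Finset.range m, F j x b := by
      refine Finset.sum_congr rfl fun j hj => ?_
      simp only [hF]
      rw [hl1 m x hx j (Finset.mem_range.1 hj), min_eq_right (lev_cl_le_one _)]
    rw [h2]
    refine Finset.sum_le_sum_of_subset_of_nonneg ?_ fun j _ _ => hFnn j x b
    intro j hj
    rw [Finset.mem_range] at hj ⊢
    exact lt_of_lt_of_le hj (le_max_left _ _)
  have hform : ∀ m x b, 0 ≤ b → x ∉ N m → lev_S F x b = ∑ j ∈ Finset.range m, F j x b := by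
    intro m x b hb hx
    obtain ⟨m0, hm0⟩ := exists_nat_ge b
    have h1 : b ≤ ((max m m0 : ℕ) : ℝ) := hm0.trans (by exact_mod_cast le_max_right m m0)
    rw [lev_S_eq hF0 x b (max m m0) h1]
    symm
    apply Finset.sum_subset
    · intro j hj
      rw [Finset.mem_range] at hj ⊢
      exact lt_of_lt_of_le hj (le_max_left _ _)
    · intro j _ hj
      rw [Finset.mem_range, not_lt] at hj
      simp only [hF]
      rw [hl0 m x hx j hj, min_eq_left (lev_cl_nonneg _)]
  have F2 : ∀ m x b, 0 ≤ b → x ∉ N m → lev_S F x b ≤ min (m : ℝ) b := by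
    intro m x b hb hx
    rw [hform m x b hb hx, ← lev_sum_cl b hb m]
    exact Finset.sum_le_sum fun j _ => hFle j x b
  -- the formula for M
  have hμ : ∀ x, (∀ b, 0 ≤ b → lev_S F x b = b) ∨ ∃ μ : ℝ, 0 ≤ μ ∧
      ∀ b, 0 ≤ b → lev_S F x b = min μ b := by
    intro x
    by_cases hx : ∀ m, x ∈ N m
    · left
      intro b hb
      obtain ⟨m0, hm0⟩ := exists_nat_ge b
      have := F1 m0 x b hb (hx m0)
      rw [min_eq_right hm0] at this
      exact le_antisymm (hMle x b hb) this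
    · right
      push Not at hx
      classical
      set m := Nat.find hx with hm
      have hxm : x ∉ N m := Nat.find_spec hx
      rcases Nat.eq_zero_or_pos m with h0 | h0
      · refine ⟨0, le_rfl, fun b hb => ?_⟩
        rw [min_eq_left hb, hform m x b hb hxm, h0]
        simp
      · obtain ⟨k, hk⟩ : ∃ k, m = k + 1 := ⟨m - 1, by omega⟩
        have hxk : x ∈ N k := by
          by_contra hcon
          exact Nat.find_min hx (by omega : k < Nat.find hx) hcon
        refine ⟨(k : ℝ) + lam k x, by have := (hlamI k x).1; positivity, fun b hb => ?_⟩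
        rw [hform m x b hb hxm, hk, Finset.sum_range_succ]
        have h2 : ∑ j ∈ Finset.range k, F j x b = min (k : ℝ) b := by
          rw [← lev_sum_cl b hb k]
          refine Finset.sum_congr rfl fun j hj => ?_
          simp only [hF]
          rw [hl1 k x hxk j (Finset.mem_range.1 hj), min_eq_right (lev_cl_le_one _)]
        rw [h2]
        exact lev_min_succ b k (lam k x) (hlamI k x).1 (hlamI k x).2
  -- the times
  set G : ℕ → X → ℝ → ℝ := fun j x l => cl (l - j) * (S (j + 1) x - S j x) with hG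
  have hG0 : ∀ (j : ℕ) x b, b ≤ (j : ℝ) → G j x b = 0 := by
    intro j x b hb
    simp only [hG]
    rw [lev_cl_zero _ (by linarith), zero_mul]
  have hGc : ∀ j, Continuous fun p : X × ℝ => G j p.1 p.2 := by
    intro j
    simp only [hG]
    exact (lev_cl_cont.comp (continuous_snd.sub continuous_const)).mul
      (((hSc (j + 1)).comp continuous_fst).sub ((hSc j).comp continuous_fst))
  set τ : X → ℝ → ℝ := fun x l => S 0 x + lev_S G x l with hτ
  have hτc : Continuous fun p : X × ℝ => τ p.1 p.2 :=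
    ((hSc 0).comp continuous_fst).add (lev_S_cont hG0 hGc)
  have hτb : ∀ x l, 0 ≤ l → S ⌊l⌋₊ x ≤ τ x l ∧ τ x l ≤ S (⌊l⌋₊ + 1) x := by
    intro x l hl
    have h1 := Nat.floor_le hl
    have h2 := Nat.lt_floor_add_one l
    set j := ⌊l⌋₊ with hj
    have h3 : l ≤ ((j + 1 : ℕ) : ℝ) := by push_cast; exact h2.le
    have h4 : ∀ i : ℕ, i ≤ j → ∑ i' ∈ Finset.range i, G i' x l = S i x - S 0 x := by
      intro i
      induction i with
      | zero => intro _; simp
      | succ i ih =>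
        intro hi
        rw [Finset.sum_range_succ, ih (by omega)]
        simp only [hG]
        rw [lev_cl_one]
        · ring
        · have : ((i + 1 : ℕ) : ℝ) ≤ (j : ℝ) := by exact_mod_cast hi
          push_cast at this
          linarith
    have h5 : τ x l = S j x + cl (l - j) * (S (j + 1) x - S j x) := by
      simp only [hτ]
      rw [lev_S_eq hG0 x l (j + 1) h3, Finset.sum_range_succ, h4 j le_rfl]
      simp only [hG]
      ring
    have h6 := hSm j x
    have h7 := lev_cl_nonneg (l - j)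
    have h8 := lev_cl_le_one (l - j)
    rw [h5]
    constructor <;> nlinarith
  refine ⟨lev_S F, fun x l => Ω x (τ x l), lev_S_cont hF0 hFc, ?_, ?_, ?_, ?_, ?_, ?_, ?_, ?_, ?_⟩
  · exact hΩ.comp (continuous_fst.prodMk hτc)
  · intro x b hb
    exact ⟨hM0 x b, hMle x b hb⟩
  · intro x b b' hb hbb
    rcases hμ x with h | ⟨μ, hμ0, h⟩
    · rw [h b hb, h b' (hb.trans hbb), min_eq_right hbb]
    · rw [h b hb, h b' (hb.trans hbb), min_assoc, min_eq_right hbb]
  · intro y b hb
    obtain ⟨m0, hm0⟩ := exists_nat_ge b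
    have := F1 m0 (g y) b hb (hgN m0 y)
    rw [min_eq_right hm0] at this
    exact le_antisymm (hMle (g y) b hb) this
  · intro x b hb hpos
    by_contra hcon
    have h1 : x ∉ N 0 := fun h => hcon (hN0 x h).1
    have h2 := F2 0 x b hb h1
    rw [Nat.cast_zero, min_eq_left hb] at h2
    linarith
  · intro x l b hl hb
    obtain ⟨ht1, ht2⟩ := hτb x l hl
    have h1 := Nat.floor_le hl
    have h2 := Nat.lt_floor_add_one l
    set j := ⌊l⌋₊ with hj
    set z := Ω x (τ x l) with hz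
    have hSmono : ∀ i, i ≤ j → S i x ≤ τ x l := by
      intro i hi
      exact (monotone_nat_of_le_succ (f := fun k => S k x) (fun k => hSm k x) hi).trans ht1
    have hzup : ∀ i, i ≤ j → x ∈ N (i + 1) → z ∈ N i := fun i hi hx =>
      hup i x _ (hSmono i hi) hx
    have hzdn : ∀ i, i ≤ j → x ∉ N i → z ∉ N (i + 1) := fun i hi hx =>
      hdn i x _ (hSmono i hi) hx
    have hz3 : z ∉ N (j + 3) := hav (j + 1) x _ ht2
    have hMx := hMle x b hb
    have hMz := hMle z b hb
    have hMx0 := hM0 x b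
    have hMz0 := hM0 z b
    rw [abs_le]
    constructor
    · -- lower bound
      by_contra hcon
      rw [not_le] at hcon
      have g1 := min_le_left (lev_S F x b) l
      have g2 := min_le_right (lev_S F x b) l
      have f1 := Nat.floor_le hMz0
      have f2 := Nat.lt_floor_add_one (lev_S F z b)
      set m := ⌊lev_S F z b⌋₊ + 1 with hm
      have hmc : (m : ℝ) = (⌊lev_S F z b⌋₊ : ℝ) + 1 := by rw [hm]; push_cast; ring
      have hzm : z ∉ N m := by
        intro h
        have := F1 m z b hb h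
        have : lev_S F z b < min (m : ℝ) b := lt_min (by linarith) (by linarith)
        linarith
      have hmj : m ≤ j := by
        have : (m : ℝ) < (j : ℝ) := by linarith
        exact_mod_cast this.le
      have hxm : x ∉ N (m + 1) := fun h => hzm (hzup m hmj h)
      have h5 := (F2 (m + 1) x b hb hxm).trans (min_le_left _ _)
      push_cast at h5
      linarith
    · -- upper bound
      by_contra hcon
      rw [not_le] at hcon
      have g3 := (F2 (j + 3) z b hb hz3).trans (min_le_left _ _)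
      push_cast at g3
      rcases le_total l (lev_S F x b) with h | h
      · rw [min_eq_right h] at hcon
        linarith
      · rw [min_eq_left h] at hcon
        have f1 := Nat.floor_le hMx0
        have f2 := Nat.lt_floor_add_one (lev_S F x b)
        set m := ⌊lev_S F x b⌋₊ + 1 with hm
        have hmc : (m : ℝ) = (⌊lev_S F x b⌋₊ : ℝ) + 1 := by rw [hm]; push_cast; ring
        have hxm : x ∉ N m := by
          intro h'
          have h3 := F1 m x b hb h'
          have h4 : lev_S F x b < min (m : ℝ) b := lt_min (by linarith) (by linarith)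
          linarith
        rcases le_or_gt m j with hmj | hmj
        · have h5 := (F2 (m + 1) z b hb (hzdn m hmj hxm)).trans (min_le_left _ _)
          push_cast at h5
          linarith
        · have h6 : ((j + 1 : ℕ) : ℝ) ≤ (m : ℝ) := by exact_mod_cast hmj
          push_cast at h6
          linarith
  · intro x l hl
    exact hPs _ x _ (hτb x l hl).1
  · intro x b t hb hpos
    have hx0 : x ∈ N 0 := by
      by_contra hcon
      have h2 := F2 0 x b hb hcon
      rw [Nat.cast_zero, min_eq_left hb] at h2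
      linarith
    refine ⟨(hN0 x hx0).2 t, ?_⟩
    by_contra hcon
    rw [not_le] at hcon
    set z := c x (e x) t with hz
    have hMz0 := hM0 z b
    have hMx := hMle x b hb
    have f1 := Nat.floor_le hMz0
    have f2 := Nat.lt_floor_add_one (lev_S F z b)
    set m := ⌊lev_S F z b⌋₊ + 1 with hm
    have hmc : (m : ℝ) = (⌊lev_S F z b⌋₊ : ℝ) + 1 := by rw [hm]; push_cast; ring
    have hzm : z ∉ N m := by
      intro h
      have h3 := F1 m z b hb h
      have h4 : lev_S F z b < min (m : ℝ) b := lt_min (by linarith) (by linarith)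
      linarith
    have hxm : x ∉ N (m + 1) := fun h => hzm (hNc m x h t)
    have h5 := (F2 (m + 1) x b hb hxm).trans (min_le_left _ _)
    push_cast at h5
    linarith
  · intro P' hP'
    obtain ⟨S', hS'c, hS'1, hS'⟩ := lev_thr hlim hP'
    refine ⟨fun x => S' x + 1, hS'c.add continuous_const, fun x l hl => hS' x _ ?_⟩
    have hl' : S' x + 1 ≤ l := hl
    have h0 := hS'1 x
    have hl0 : 0 ≤ l := by linarith
    have h1 := (hτb x l hl0).1
    have h2 := Nat.lt_floor_add_one l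
    have h3 := hSj ⌊l⌋₊ x
    linarith

end Pool.Agent.TOR
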