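import Pool.Agent.Lib.MP_5a68e6_TOR.A3

set_option autoImplicit false

namespace Pool.Agent.TOR

open Set Filter Topology TopologicalSpace Cardinal

/-- Main theorem of the topological part. -/
theorem good_unique {κ : Cardinal.{0}} (hκ : ℵ₀ ≤ κ) {P Q : Type} [TopologicalSpace P]
    [TopologicalSpace Q] (hP : Good κ P) (hQ : Good κ Q) : Nonempty (P ≃ₜ Q) := by
  have hPc := hP.complete
  have hQc := hQ.complete
  let mP := upgradeIsCompletelyMetrizable P
  let mQ := upgradeIsCompletelyMetrizable Q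
  obtain ⟨c, hc⟩ := hQ.comb
  obtain ⟨cP, hcP⟩ := hP.comb
  obtain ⟨p₀⟩ := hP.nonempty
  obtain ⟨q₀⟩ := hQ.nonempty
  have hpow : ∀ n : ℕ, (0:ℝ) < (1 / 2) ^ n := fun n => by positivity
  obtain ⟨σ, E, g, -, hE, hR, hg, -, hclose⟩ := iterate2 (X := Q) (Z := P)
    (S := {φ : P → Q // Continuous φ}) (fun σ => σ.1) (fun σ => σ.2)
    (fun φ F => ∃ Us : ℕ → Set (Q × Q), EntSeq c Us ∧ Us 0 ⊆ F ∧ IsEqv (Us 20) φ.1)
    (fun n _ φ' E => (∀ x x', (x, x') ∈ E → dist x x' < (1 / 2) ^ n) ∧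
      (∀ p p' x x', (φ'.1 p, x) ∈ E → (x, x') ∈ E → (x', φ'.1 p') ∈ E →
        dist p p' < (1 / 2) ^ n) ∧ ∃ ψ : Q → P, ∀ q, dist q (φ'.1 (ψ q)) < (1 / 2) ^ n)
    (by
      rintro n ⟨φ, hφ⟩ F hF ⟨Us, hUs, h0, heqv⟩
      obtain ⟨D, hD, hall⟩ := stepI2 hκ hP hQ hc hUs heqv (isEnt_dist (X := P) (hpow n))
      obtain ⟨E₀, hE₀, hE₀'⟩ := hD.exists_third
      refine ⟨E₀ ∩ {p : Q × Q | dist p.1 p.2 < (1 / 2) ^ n}, hE₀.inter (isEnt_dist (hpow n)), ?_⟩
      intro F' hF'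
      obtain ⟨Us', hUs', hUs'0⟩ := exists_entSeq hc (hF'.inter (isEnt_dist (X := Q) (hpow n)))
      obtain ⟨φ', heq', hcl, hD'⟩ := hall (Us' 20) (hUs'.ent 20)
      refine ⟨⟨φ', heq'.1⟩, ⟨fun x x' h => h.2, ?_, ?_⟩, fun z => h0 (hcl z), Us', hUs', ?_, heq'⟩
      · intro p p' x x' h1 h2 h3
        exact hD' p p' (hE₀' _ _ _ _ h1.1 h2.1 h3.1)
      · obtain ⟨-, ψ, -, hψ, -⟩ := heq'
        refine ⟨ψ, fun q => ?_⟩
        have h1 := hUs'.mono hc (Nat.zero_le 20) (hψ q)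
        rw [hUs'0] at h1
        exact h1.2
      · rw [hUs'0]
        exact inter_subset_left)
    ⟨fun _ => q₀, continuous_const⟩
    ⟨fun _ => Set.univ, entSeq_univ c, Set.subset_univ _, continuous_const, fun _ => p₀,
      continuous_const, fun _ => Set.mem_univ _,
      HT.comb hcP continuous_id continuous_const (fun _ _ => Set.mem_univ _)⟩
  have hsmall : ∀ n p p', (g p, g p') ∈ E n → dist p p' < (1 / 2) ^ n := by
    intro n p p' h
    exact (hR n).2.1 p p' _ _ (hclose n p) h ((hE n).symm _ _ (hclose n p'))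
  have hex : ∀ ε : ℝ, 0 < ε → ∃ n : ℕ, ((1:ℝ) / 2) ^ n < ε := by
    intro ε hε
    exact exists_pow_lt_of_lt_one hε (by norm_num)
  have hinj : Function.Injective g := by
    intro p p' h
    by_contra hne
    obtain ⟨n, hn⟩ := hex (dist p p') (dist_pos.2 hne)
    have h1 : (g p, g p') ∈ E n := by
      rw [h]
      exact (hE n).refl _
    exact absurd (hsmall n p p' h1) (not_lt.2 hn.le)
  have hsurj : Function.Surjective g := by
    intro q
    choose ψ hψ using fun n => (hR n).2.2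
    have hd : ∀ n, dist (g (ψ n q)) q < 2 * (1 / 2) ^ n := by
      intro n
      have h1 := hψ n q
      have h2 := (hR n).1 _ _ (hclose n (ψ n q))
      have h3 := dist_triangle q ((σ (n + 1)).1 (ψ n q)) (g (ψ n q))
      rw [dist_comm]
      linarith
    have hlim : Tendsto (fun n => g (ψ n q)) atTop (𝓝 q) := by
      rw [tendsto_iff_dist_tendsto_zero]
      refine squeeze_zero (fun n => dist_nonneg) (fun n => (hd n).le) ?_
      have : Tendsto (fun n : ℕ => (2:ℝ) * (1 / 2) ^ n) atTop (𝓝 (2 * 0)) :=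
        (tendsto_pow_atTop_nhds_zero_of_lt_one (by norm_num) (by norm_num)).const_mul 2
      simpa using this
    have hcau : CauchySeq (fun n => ψ n q) := by
      rw [Metric.cauchySeq_iff]
      intro ε hε
      obtain ⟨n, hn⟩ := hex ε hε
      obtain ⟨δ, hδ, hball⟩ := Metric.isOpen_iff.1 (hE n).isOpen (q, q) ((hE n).refl q)
      obtain ⟨N, hN⟩ := (Metric.tendsto_atTop.1 hlim) δ hδ
      refine ⟨N, fun k hk l hl => ?_⟩
      have h1 : (g (ψ k q), g (ψ l q)) ∈ E n := by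
        apply hball
        rw [Metric.mem_ball, Prod.dist_eq]
        exact max_lt (hN k hk) (hN l hl)
      exact (hsmall n _ _ h1).trans hn
    obtain ⟨p, hp⟩ := cauchySeq_tendsto_of_complete hcau
    exact ⟨p, tendsto_nhds_unique ((hg.tendsto p).comp hp) hlim⟩
  refine ⟨⟨Equiv.ofBijective g ⟨hinj, hsurj⟩, hg, ?_⟩⟩
  rw [continuous_iff_continuousAt]
  intro q
  set e := Equiv.ofBijective g ⟨hinj, hsurj⟩ with he
  have hge : ∀ y, g (e.symm y) = y := fun y => e.apply_symm_apply y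
  show Tendsto e.symm (𝓝 q) (𝓝 (e.symm q))
  rw [Metric.tendsto_nhds]
  intro ε hε
  obtain ⟨n, hn⟩ := hex ε hε
  filter_upwards [(hE n).mem_nhds q] with y hy
  have h1 : (g (e.symm q), g (e.symm y)) ∈ E n := by
    rw [hge, hge]
    exact hy
  rw [dist_comm]
  exact (hsmall n _ _ h1).trans hn

end Pool.Agent.TOR
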