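import Pool.Agent.Lib.MP_5a68e6_TOR.SZ
import Pool.Agent.Lib.MP_5a68e6_TOR.Lev
import Pool.Agent.Lib.MP_5a68e6_TOR.Hot
import Pool.Agent.Lib.MP_5a68e6_TOR.Defs2

set_option autoImplicit false

namespace Pool.Agent.TOR

open Set Filter Topology TopologicalSpace Cardinal

/-! ### real functions -/

theorem push_cl_cont : Continuous cl := by
  unfold cl
  fun_prop

theorem push_cl_nonneg (t : ℝ) : 0 ≤ cl t := le_min zero_le_one (le_max_left _ _)

theorem push_cl_le (t : ℝ) : cl t ≤ 1 := min_le_left _ _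

theorem push_cl_of_le {t : ℝ} (h : t ≤ 0) : cl t = 0 := by
  unfold cl
  rw [max_eq_left h, min_eq_right zero_le_one]

theorem push_cl_of_ge {t : ℝ} (h : 1 ≤ t) : cl t = 1 := by
  unfold cl
  rw [max_eq_right (by linarith), min_eq_left h]

theorem push_cl_of_mem {t : ℝ} (h0 : 0 ≤ t) (h1 : t ≤ 1) : cl t = t := by
  unfold cl
  rw [max_eq_right h0, min_eq_right h1]

/-- the level function of the third coordinate -/
noncomputable def push_al (m d : ℝ) : ℝ := 4 - cl ((min m 10 - 5) / 5) - d * max (m - 10) 0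

theorem push_al_le {m d : ℝ} (hd : 0 < d) : push_al m d ≤ 4 := by
  unfold push_al
  have h1 := push_cl_nonneg ((min m 10 - 5) / 5)
  have h2 : 0 ≤ d * max (m - 10) 0 := mul_nonneg hd.le (le_max_right _ _)
  linarith

theorem push_al_nonneg {m d : ℝ} (hd : 0 < d) (hm : m ≤ 10 + 3 / d) : 0 ≤ push_al m d := by
  unfold push_al
  have h1 := push_cl_le ((min m 10 - 5) / 5)
  have h2 : d * max (m - 10) 0 ≤ 3 := by
    have h3 : max (m - 10) 0 ≤ 3 / d := max_le (by linarith) (by positivity)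
    calc d * max (m - 10) 0 ≤ d * (3 / d) := mul_le_mul_of_nonneg_left h3 hd.le
      _ = 3 := by field_simp
  linarith

theorem push_al_hi {m d : ℝ} (hm : 10 ≤ m) : push_al m d = 3 - d * (m - 10) := by
  unfold push_al
  rw [min_eq_right hm, max_eq_left (by linarith), push_cl_of_ge (by norm_num)]
  ring

theorem push_al_lo {m d : ℝ} (hm : m ≤ 10) : push_al m d = 4 - cl ((m - 5) / 5) := by
  unfold push_al
  rw [min_eq_left hm, max_eq_right (by linarith)]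
  ring

theorem push_al_lo3 {m d : ℝ} (hm : m ≤ 10) : 3 ≤ push_al m d := by
  rw [push_al_lo hm]
  linarith [push_cl_le ((m - 5) / 5)]

theorem push_al_75 {m d : ℝ} (hm : m ≤ 15 / 2) : 7 / 2 ≤ push_al m d := by
  rw [push_al_lo (by linarith)]
  have h : cl ((m - 5) / 5) ≤ 1 / 2 := by
    unfold cl
    refine (min_le_right _ _).trans (max_le (by norm_num) (by linarith))
  linarith

theorem push_al_zero {m d : ℝ} (hm : m ≤ 0) : push_al m d = 4 := by
  rw [push_al_lo (by linarith), push_cl_of_le (by linarith)]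
  ring

/-- `|d (m - 10) - d' (m' - 10)|` -/
theorem push_num {d d' m m' K : ℝ} (hd : 0 < d) (hd' : 0 < d')
    (h : |d - d'| ≤ d * d' / 10) (hm : 10 ≤ m) (hmd : m ≤ 10 + 3 / d) (hmm : |m - m'| ≤ K) :
    |d * (m - 10) - d' * (m' - 10)| ≤ (K + 3 / 10) * d' := by
  have h1 : d * (m - 10) - d' * (m' - 10) = (d - d') * (m - 10) + d' * (m - m') := by ring
  rw [h1]
  have h2 : |(d - d') * (m - 10)| ≤ 3 / 10 * d' := by
    rw [abs_mul, abs_of_nonneg (by linarith : (0:ℝ) ≤ m - 10)]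
    calc |d - d'| * (m - 10) ≤ d * d' / 10 * (3 / d) :=
          mul_le_mul h (by linarith) (by linarith) (by positivity)
      _ = 3 / 10 * d' := by field_simp
  have h3 : |d' * (m - m')| ≤ d' * K := by
    rw [abs_mul, abs_of_pos hd']
    exact mul_le_mul_of_nonneg_left hmm hd'.le
  calc |(d - d') * (m - 10) + d' * (m - m')| ≤ |(d - d') * (m - 10)| + |d' * (m - m')| :=
        abs_add_le _ _
    _ ≤ 3 / 10 * d' + d' * K := add_le_add h2 h3
    _ = (K + 3 / 10) * d' := by ring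

theorem push_B {d d' : ℝ} (hd : 0 < d) (hd' : 0 < d') (h : |d - d'| ≤ d * d' / 10) :
    |(10 + 3 / d) - (10 + 3 / d')| ≤ 3 / 10 := by
  have h1 : (10 + 3 / d) - (10 + 3 / d') = 3 * (d' - d) / (d * d') := by
    field_simp
    ring
  rw [h1, abs_div, abs_mul, abs_of_pos (mul_pos hd hd'), abs_of_pos (by norm_num : (0:ℝ) < 3),
    abs_sub_comm, div_le_iff₀ (mul_pos hd hd')]
  linarith

theorem push_B40 {d : ℝ} (hd : 0 < d) (hd1 : d ≤ 1 / 10) : 40 ≤ 10 + 3 / d := by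
  have h : 30 ≤ 3 / d := by
    rw [le_div_iff₀ hd]
    linarith
  linarith

/-! ### the modulus of continuity -/

theorem push_delta {W Yb : Type} [TopologicalSpace W] [TopologicalSpace Yb]
    [MetrizableSpace Yb] {R : Yb → ℝ → W}
    (hR : Continuous fun p : Yb × ℝ => R p.1 p.2) {V' : Set (W × W)} (hV' : IsEnt V') :
    ∃ δ : Yb → ℝ, Continuous δ ∧ (∀ y, 0 < δ y ∧ δ y ≤ 1 / 10) ∧
      ∀ y a a', a ∈ Icc (-1:ℝ) 5 → a' ∈ Icc (-1:ℝ) 5 → |a - a'| ≤ 20 * δ y →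
        (R y a, R y a') ∈ V' := by
  letI := metrizableSpaceMetric Yb
  let t : Yb → Set ℝ := fun y => {d | 0 < d ∧ d ≤ 1 / 10 ∧
    ∀ a a', a ∈ Icc (-1:ℝ) 5 → a' ∈ Icc (-1:ℝ) 5 → |a - a'| ≤ 20 * d → (R y a, R y a') ∈ V'}
  have ht : ∀ y, Convex ℝ (t y) := by
    intro y
    apply Set.OrdConnected.convex
    constructor
    intro d1 h1 d2 h2 d hd
    refine ⟨h1.1.trans_le hd.1, hd.2.trans h2.2.1, fun a a' ha ha' h => ?_⟩
    exact h2.2.2 a a' ha ha' (h.trans (by linarith [hd.2]))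
  have hloc : ∀ y₀ : Yb, ∃ d : ℝ, ∀ᶠ y in 𝓝 y₀, d ∈ t y := by
    intro y₀
    have hcont : Continuous fun q : (Yb × ℝ) × ℝ => (R q.1.1 q.2, R q.1.1 (q.2 + q.1.2)) := by
      have h1 : Continuous fun q : (Yb × ℝ) × ℝ => R q.1.1 q.2 :=
        hR.comp (by fun_prop : Continuous fun q : (Yb × ℝ) × ℝ => (q.1.1, q.2))
      have h2 : Continuous fun q : (Yb × ℝ) × ℝ => R q.1.1 (q.2 + q.1.2) :=
        hR.comp (by fun_prop : Continuous fun q : (Yb × ℝ) × ℝ => (q.1.1, q.2 + q.1.2))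
      exact h1.prodMk h2
    have hev : ∀ᶠ z : Yb × ℝ in 𝓝 (y₀, (0:ℝ)), ∀ a ∈ Icc (-1:ℝ) 5,
        (R z.1 a, R z.1 (a + z.2)) ∈ V' := by
      refine IsCompact.eventually_forall_of_forall_eventually (isCompact_Icc) ?_
      intro a _
      refine (hcont.tendsto ((y₀, (0:ℝ)), a)).eventually (hV'.isOpen.mem_nhds ?_)
      show (R y₀ a, R y₀ (a + 0)) ∈ V'
      rw [add_zero]
      exact hV'.refl _
    rw [nhds_prod_eq, eventually_prod_iff] at hev
    obtain ⟨pa, hpa, pb, hpb, hab⟩ := hev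
    obtain ⟨r, hr, hball⟩ := Metric.eventually_nhds_iff.1 hpb
    refine ⟨min (1 / 10) (r / 40), ?_⟩
    filter_upwards [hpa] with y hy
    refine ⟨by positivity, min_le_left _ _, fun a a' ha ha' h => ?_⟩
    have h1 : pb (a' - a) := by
      apply hball
      rw [Real.dist_eq, sub_zero, abs_sub_comm]
      have h2 : min (1 / 10) (r / 40) ≤ r / 40 := min_le_right _ _
      linarith
    have h3 := hab hy h1 a ha
    simp only [add_sub_cancel] at h3
    exact h3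
  obtain ⟨δ, hδ⟩ := exists_continuous_forall_mem_convex_of_local_const ht hloc
  exact ⟨δ, δ.continuous, fun y => ⟨(hδ y).1, (hδ y).2.1⟩, fun y a a' ha ha' h =>
    (hδ y).2.2 a a' ha ha' h⟩


/-! ### chains -/

section chain
variable {W : Type} {V' V : Set (W × W)}

theorem push_ch5 (hr : ∀ x, (x, x) ∈ V')
    (hVV : ∀ x₀ x₁ x₂ x₃ x₄ x₅ x₆ x₇ x₈, (x₀, x₁) ∈ V' → (x₁, x₂) ∈ V' → (x₂, x₃) ∈ V' →
      (x₃, x₄) ∈ V' → (x₄, x₅) ∈ V' → (x₅, x₆) ∈ V' → (x₆, x₇) ∈ V' → (x₇, x₈) ∈ V' →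
      (x₀, x₈) ∈ V) {x₀ x₁ x₂ x₃ x₄ x₅ : W} (h1 : (x₀, x₁) ∈ V') (h2 : (x₁, x₂) ∈ V')
    (h3 : (x₂, x₃) ∈ V') (h4 : (x₃, x₄) ∈ V') (h5 : (x₄, x₅) ∈ V') : (x₀, x₅) ∈ V :=
  hVV _ _ _ _ _ _ _ _ _ h1 h2 h3 h4 h5 (hr _) (hr _) (hr _)

end chain

/-- the data of the construction -/
structure push_Dat {X W Yb : Type} [MetricSpace X] [TopologicalSpace W] [TopologicalSpace Yb]
    (c : X → X → ℝ → X) (u : Yb → X) (R : Yb → ℝ → W) (i : X → W) (Y : Set Yb)
    (D : Set (X × X)) (Us : ℕ → Set (X × X)) (V' V : Set (W × W)) (δ : Yb → ℝ) (ν : X → Yb)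
    (g : Y → X) (e : X → X) (P : Set (X × X)) (M : X → ℝ → ℝ) (Ω : X → ℝ → X) : Prop where
  hc : IsComb c
  hRi : ∀ y a, 2 ≤ a → R y a = i (u y)
  hUs : EntSeq c Us
  hDU : D ⊆ Us 3
  hV' : IsEnt V'
  hVV : ∀ x₀ x₁ x₂ x₃ x₄ x₅ x₆ x₇ x₈, (x₀, x₁) ∈ V' → (x₁, x₂) ∈ V' → (x₂, x₃) ∈ V' →
      (x₃, x₄) ∈ V' → (x₄, x₅) ∈ V' → (x₅, x₆) ∈ V' → (x₆, x₇) ∈ V' → (x₇, x₈) ∈ V' →
      (x₀, x₈) ∈ V
  hiV : ∀ x x', (x, x') ∈ Us 0 → (i x, i x') ∈ V'
  hδ0 : ∀ y, 0 < δ y ∧ δ y ≤ 1 / 10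
  hδ : ∀ y a a', a ∈ Icc (-1:ℝ) 5 → a' ∈ Icc (-1:ℝ) 5 → |a - a'| ≤ 20 * δ y →
        (R y a, R y a') ∈ V'
  hg : ∀ y : Y, (u y, g y) ∈ Us 3
  hνg : ∀ y : Y, ν (g y) = y
  he : ∀ x (h : ν x ∈ Y), e x = g ⟨ν x, h⟩
  hPr : ∀ x, (x, x) ∈ P
  hP : ∀ x x₁ x', (x, x₁) ∈ P → (x₁, x') ∈ P →
    (∀ a ∈ Icc (-1:ℝ) 5, (R (ν x) a, R (ν x') a) ∈ V') ∧
      |δ (ν x) - δ (ν x')| ≤ δ (ν x) * δ (ν x') / 10 ∧ (i x, i x') ∈ V'
  hM0 : ∀ x b, 0 ≤ b → 0 ≤ M x b ∧ M x b ≤ b
  hMm : ∀ x b b', 0 ≤ b → b ≤ b' → M x b = min (M x b') b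
  hMg : ∀ (y : Y) b, 0 ≤ b → M (g y) b = b
  hMO : ∀ x b, 0 ≤ b → 0 < M x b → ν x ∈ Y ∧ (u (ν x), x) ∈ D
  hMΩ : ∀ x l b, 0 ≤ l → 0 ≤ b → |M (Ω x l) b - min (M x b) l| ≤ 3
  hPΩ : ∀ x l, 0 ≤ l → (x, Ω x l) ∈ P
  hMc : ∀ x b t, 0 ≤ b → 0 < M x b → (x, c x (e x) t) ∈ P ∧ M x b - 2 ≤ M (c x (e x) t) b

namespace push_Dat

variable {X W Yb : Type} [MetricSpace X] [TopologicalSpace W] [TopologicalSpace Yb]
    {c : X → X → ℝ → X} {u : Yb → X} {R : Yb → ℝ → W} {i : X → W} {Y : Set Yb}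
    {D : Set (X × X)} {Us : ℕ → Set (X × X)} {V' V : Set (W × W)} {δ : Yb → ℝ} {ν : X → Yb}
    {g : Y → X} {e : X → X} {P : Set (X × X)} {M : X → ℝ → ℝ} {Ω : X → ℝ → X}

/-- the bound -/
noncomputable def B (δ : Yb → ℝ) (ν : X → Yb) (x : X) : ℝ := 10 + 3 / δ (ν x)

/-- the level -/
noncomputable def l1 (δ : Yb → ℝ) (ν : X → Yb) (M : X → ℝ → ℝ) (x : X) : ℝ := M x (B δ ν x)

/-- the third coordinate -/
noncomputable def a (δ : Yb → ℝ) (ν : X → Yb) (M : X → ℝ → ℝ) (x : X) : ℝ :=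
  push_al (l1 δ ν M x) (δ (ν x))

/-- the map into `W` -/
noncomputable def eta (c : X → X → ℝ → X) (u : Yb → X) (R : Yb → ℝ → W) (i : X → W)
    (δ : Yb → ℝ) (ν : X → Yb) (M : X → ℝ → ℝ) (x : X) : W :=
  softR c u R i (x, ν x, a δ ν M x)

variable (h : push_Dat c u R i Y D Us V' V δ ν g e P M Ω)
include h

theorem d0 (x : X) : 0 < δ (ν x) := (h.hδ0 _).1

theorem B40 (x : X) : 40 ≤ B δ ν x := push_B40 (h.hδ0 _).1 (h.hδ0 _).2

theorem B0 (x : X) : 0 ≤ B δ ν x := by linarith [h.B40 x]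

theorem l1_nonneg (x : X) : 0 ≤ l1 δ ν M x := (h.hM0 _ _ (h.B0 x)).1

theorem l1_le (x : X) : l1 δ ν M x ≤ B δ ν x := (h.hM0 _ _ (h.B0 x)).2

theorem a_le (x : X) : a δ ν M x ≤ 4 := push_al_le (h.d0 x)

theorem a_nonneg (x : X) : 0 ≤ a δ ν M x := push_al_nonneg (h.d0 x) (h.l1_le x)

theorem a_mem (x : X) : a δ ν M x ∈ Icc (-1:ℝ) 5 :=
  ⟨by linarith [h.a_nonneg x], by linarith [h.a_le x]⟩

theorem in_O {x : X} (hx : a δ ν M x ≠ 4) : ν x ∈ Y ∧ (u (ν x), x) ∈ D := by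
  apply h.hMO x (B δ ν x) (h.B0 x)
  by_contra hlt
  apply hx
  exact push_al_zero (not_lt.1 hlt)

theorem M_lip (x : X) {b b' : ℝ} (hb : 0 ≤ b) (hb' : 0 ≤ b') : |M x b - M x b'| ≤ |b - b'| := by
  rcases le_total b b' with hbb | hbb
  · have h1 := h.hMm x b b' hb hbb
    have h2 := (h.hM0 x b' hb').2
    rw [h1, abs_sub_comm, abs_sub_comm b b', abs_of_nonneg (sub_nonneg.2 hbb)]
    rcases le_total (M x b') b with h3 | h3
    · rw [min_eq_left h3, sub_self, abs_zero]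
      linarith
    · rw [min_eq_right h3, abs_of_nonneg (by linarith)]
      linarith
  · have h1 := h.hMm x b' b hb' hbb
    have h2 := (h.hM0 x b hb).2
    rw [h1, abs_of_nonneg (sub_nonneg.2 hbb)]
    rcases le_total (M x b) b' with h3 | h3
    · rw [min_eq_left h3, sub_self, abs_zero]
      linarith
    · rw [min_eq_right h3, abs_of_nonneg (by linarith)]
      linarith

/-- `L ≤ k` does not depend on the bound -/
theorem M_le {x : X} {b b' k : ℝ} (hk : k < b) (hk0 : 0 ≤ k) (hb' : 0 ≤ b') (hM : M x b ≤ k) :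
    M x b' ≤ k := by
  rcases le_total b b' with hbb | hbb
  · have h1 := h.hMm x b b' (by linarith) hbb
    rw [h1] at hM
    rcases min_le_iff.1 hM with h2 | h2
    · exact h2
    · linarith
  · have h1 := h.hMm x b' b hb' hbb
    rw [h1]
    exact (min_le_left _ _).trans hM

theorem M_ge {x : X} {b b' k : ℝ} (hb : 0 ≤ b) (hkb' : k ≤ b') (hk0 : 0 ≤ k)
    (hM : k ≤ M x b) : k ≤ M x b' := by
  rcases le_total b b' with hbb | hbb
  · have h1 := h.hMm x b b' hb hbb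
    rw [h1] at hM
    exact hM.trans (min_le_left _ _)
  · have h1 := h.hMm x b' b (hk0.trans hkb') hbb
    rw [h1]
    exact le_min hM hkb'

theorem us_path {x y : X} {n : ℕ} (hxy : (x, y) ∈ Us (n + 1)) (s t : ℝ) :
    (c x y s, c x y t) ∈ Us n := h.hUs.path h.hc hxy s t

theorem us_symm {x y : X} {n : ℕ} (hxy : (x, y) ∈ Us n) : (y, x) ∈ Us n :=
  (h.hUs.ent n).symm _ _ hxy

theorem us_mono {x y : X} {m n : ℕ} (hmn : m ≤ n) (hxy : (x, y) ∈ Us n) : (x, y) ∈ Us m :=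
  h.hUs.mono h.hc hmn hxy

theorem vr (w : W) : (w, w) ∈ V' := h.hV'.refl w

theorem vs {w w' : W} (hw : (w, w') ∈ V') : (w', w) ∈ V' := h.hV'.symm _ _ hw

theorem eta_lo {x : X} (hx : 3 ≤ a δ ν M x) :
    eta c u R i δ ν M x = i (c (u (ν x)) x (2 * (a δ ν M x - 3))) := by
  unfold eta softR
  by_cases h3 : a δ ν M x ≤ 3
  · have h4 : a δ ν M x = 3 := le_antisymm h3 hx
    rw [if_pos h3]
    simp only
    rw [h4, h.hRi _ _ (by norm_num), h.hc.of_nonpos _ _ _ (by norm_num)]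
  · rw [if_neg h3]

theorem eta_hi {x : X} (hx : a δ ν M x ≤ 3) :
    eta c u R i δ ν M x = R (ν x) (a δ ν M x) := by
  unfold eta softR
  rw [if_pos hx]

/-- (F0) -/
theorem fact0 {x : X} (hx : 7 / 2 ≤ a δ ν M x) : eta c u R i δ ν M x = i x := by
  rw [h.eta_lo (by linarith), h.hc.of_one_le _ _ _ (by linarith)]

/-- (F) -/
theorem factF {x : X} (hx : l1 δ ν M x ≤ 22) :
    ∃ w, (eta c u R i δ ν M x, w) ∈ V' ∧ (w, i x) ∈ V' := by
  rcases le_total (a δ ν M x) 3 with ha | ha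
  · -- a ≤ 3
    have hO := h.in_O (x := x) (by linarith)
    have hm : 10 ≤ l1 δ ν M x ∨ a δ ν M x = 3 := by
      by_contra hcon
      push Not at hcon
      have := push_al_lo3 (d := δ (ν x)) hcon.1.le
      exact hcon.2 (le_antisymm ha this)
    have ha3 : |a δ ν M x - 3| ≤ 20 * δ (ν x) := by
      rcases hm with hm | hm
      · have h1 : a δ ν M x = 3 - δ (ν x) * (l1 δ ν M x - 10) := push_al_hi hm
        have h2 : 0 ≤ δ (ν x) * (l1 δ ν M x - 10) := mul_nonneg (h.d0 x).le (by linarith)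
        have h3 : δ (ν x) * (l1 δ ν M x - 10) ≤ δ (ν x) * 12 :=
          mul_le_mul_of_nonneg_left (by linarith) (h.d0 x).le
        rw [abs_le]
        constructor <;> nlinarith [h.d0 x]
      · rw [hm]
        simpa using (h.d0 x).le
    refine ⟨R (ν x) 3, ?_, ?_⟩
    · rw [h.eta_hi ha]
      exact h.hδ _ _ _ (h.a_mem x) ⟨by norm_num, by norm_num⟩ ha3
    · rw [h.hRi _ _ (by norm_num)]
      exact h.hiV _ _ (h.us_mono (by norm_num) (h.hDU hO.2))
  · by_cases ha4 : a δ ν M x = 4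
    · refine ⟨i x, ?_, h.vr _⟩
      rw [h.fact0 (by linarith)]
      exact h.vr _
    · have hO := h.in_O ha4
      refine ⟨i x, ?_, h.vr _⟩
      rw [h.eta_lo ha]
      apply h.hiV
      have h1 := h.us_path (h.hDU hO.2) (2 * (a δ ν M x - 3)) 1
      rw [h.hc.of_one_le _ _ 1 le_rfl] at h1
      exact h.us_mono (by norm_num) h1

/-- (G) with numbers -/
theorem factG' {y : Yb} {z : X} {a₀ m : ℝ} (ha₀ : a₀ ∈ Icc (-1:ℝ) 5)
    (hDY : ∀ a ∈ Icc (-1:ℝ) 5, (R y a, R (ν z) a) ∈ V')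
    (hδ : |δ y - δ (ν z)| ≤ δ y * δ (ν z) / 10) (hm : 10 ≤ m) (hmB : m ≤ 10 + 3 / δ y)
    (ha : a₀ = 3 - δ y * (m - 10)) (hz : 10 ≤ l1 δ ν M z) {K : ℝ} (hK : K ≤ 19)
    (hmz : |m - l1 δ ν M z| ≤ K) : ∃ w, (R y a₀, w) ∈ V' ∧ (w, eta c u R i δ ν M z) ∈ V' := by
  have haz : a δ ν M z = 3 - δ (ν z) * (l1 δ ν M z - 10) := push_al_hi hz
  have haz3 : a δ ν M z ≤ 3 := by
    have : 0 ≤ δ (ν z) * (l1 δ ν M z - 10) := mul_nonneg (h.d0 z).le (by linarith)
    linarith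
  refine ⟨R (ν z) a₀, hDY a₀ ha₀, ?_⟩
  rw [h.eta_hi haz3]
  apply h.hδ _ _ _ ha₀ (h.a_mem z)
  have h1 := push_num (h.hδ0 y).1 (h.d0 z) hδ hm hmB hmz
  have h2 : a₀ - a δ ν M z = -(δ y * (m - 10) - δ (ν z) * (l1 δ ν M z - 10)) := by
    rw [ha, haz]; ring
  rw [h2, abs_neg]
  refine h1.trans ?_
  have := h.d0 z
  nlinarith

/-- (H) -/
theorem factH {z z₁ z' : X} (h1 : (z, z₁) ∈ P) (h2 : (z₁, z') ∈ P)
    (hM : |M z (B δ ν z) - M z' (B δ ν z)| ≤ 6) :
    (eta c u R i δ ν M z, eta c u R i δ ν M z') ∈ V := by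
  obtain ⟨hR, hδ, hi⟩ := h.hP _ _ _ h1 h2
  have hMM : M z (B δ ν z) = l1 δ ν M z := rfl
  have hB := h.B40 z
  by_cases hm : l1 δ ν M z ≤ 16
  · have hz' : l1 δ ν M z' ≤ 22 := by
      apply h.M_le (b := B δ ν z) (by linarith) (by norm_num) (h.B0 z')
      rw [abs_le] at hM
      linarith [hM.1]
    obtain ⟨w, hw1, hw2⟩ := h.factF (x := z) (by linarith)
    obtain ⟨w', hw1', hw2'⟩ := h.factF (x := z') hz'
    exact push_ch5 h.vr h.hVV hw1 hw2 hi (h.vs hw2') (h.vs hw1')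
  · push Not at hm
    have hz1 : 10 ≤ M z' (B δ ν z) := by
      rw [abs_le] at hM
      linarith [hM.2]
    have hz' : 10 ≤ l1 δ ν M z' :=
      h.M_ge (h.B0 z) (by linarith [h.B40 z']) (by norm_num) hz1
    have hBB : |B δ ν z - B δ ν z'| ≤ 3 / 10 := push_B (h.d0 z) (h.d0 z') hδ
    have hlip := h.M_lip z' (h.B0 z) (h.B0 z')
    have hmm : |l1 δ ν M z - l1 δ ν M z'| ≤ 63 / 10 := by
      have h3 : l1 δ ν M z - l1 δ ν M z' = (M z (B δ ν z) - M z' (B δ ν z)) +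
          (M z' (B δ ν z) - M z' (B δ ν z')) := by
        unfold l1; ring
      rw [h3]
      refine (abs_add_le _ _).trans ?_
      linarith
    have ha : a δ ν M z = 3 - δ (ν z) * (l1 δ ν M z - 10) := push_al_hi (by linarith)
    have ha3 : a δ ν M z ≤ 3 := by
      have : 0 ≤ δ (ν z) * (l1 δ ν M z - 10) := mul_nonneg (h.d0 z).le (by linarith)
      linarith
    obtain ⟨w, hw1, hw2⟩ := h.factG' (h.a_mem z) hR hδ (by linarith) (h.l1_le z) ha hz'
      (by norm_num) hmm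
    rw [h.eta_hi ha3]
    exact push_ch5 h.vr h.hVV hw1 hw2 (h.vr _) (h.vr _) (h.vr _)

end push_Dat


namespace push_Dat

variable {X W Yb : Type} [MetricSpace X] [TopologicalSpace W] [TopologicalSpace Yb]
    {c : X → X → ℝ → X} {u : Yb → X} {R : Yb → ℝ → W} {i : X → W} {Y : Set Yb}
    {D : Set (X × X)} {Us : ℕ → Set (X × X)} {V' V : Set (W × W)} {δ : Yb → ℝ} {ν : X → Yb}
    {g : Y → X} {e : X → X} {P : Set (X × X)} {M : X → ℝ → ℝ} {Ω : X → ℝ → X}

/-- the level of `ω` -/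
noncomputable def lev (δ : Yb → ℝ) (y : Yb) (a : ℝ) : ℝ :=
  max 3 (10 - 14 * max (a - 3) 0) + max (3 - a) 0 / δ y

open Classical in
/-- the map from the soft cylinder -/
noncomputable def om (c : X → X → ℝ → X) (δ : Yb → ℝ) (g : Y → X) (Ω : X → ℝ → X)
    (m : X × Yb × ℝ) : X :=
  if hm : m.2.1 ∈ Y then Ω (c (g ⟨m.2.1, hm⟩) m.1 (2 * (m.2.2 - 3))) (lev δ m.2.1 m.2.2)
    else Ω m.1 3

theorem lev_hi (y : Yb) {a : ℝ} (ha : 7 / 2 ≤ a) : lev δ y a = 3 := by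
  unfold lev
  rw [max_eq_left (by linarith : (0:ℝ) ≤ a - 3), max_eq_left (by linarith),
    max_eq_right (by linarith : 3 - a ≤ 0), zero_div, add_zero]

theorem lev_lo (y : Yb) {a : ℝ} (ha : a ≤ 3) : lev δ y a = 10 + (3 - a) / δ y := by
  unfold lev
  rw [max_eq_right (by linarith : a - 3 ≤ 0), max_eq_left (by linarith : (0:ℝ) ≤ 3 - a)]
  norm_num

theorem lev_mid (y : Yb) {a : ℝ} (ha : 3 ≤ a) : 3 ≤ lev δ y a ∧ lev δ y a ≤ 10 := by
  unfold lev
  rw [max_eq_left (by linarith : (0:ℝ) ≤ a - 3), max_eq_right (by linarith : 3 - a ≤ 0),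
    zero_div, add_zero]
  exact ⟨le_max_left _ _, max_le (by norm_num) (by linarith)⟩

theorem lev_nonneg (hδ : ∀ y, 0 < δ y) (y : Yb) (a : ℝ) : 3 ≤ lev δ y a := by
  unfold lev
  have h1 : (3:ℝ) ≤ max 3 (10 - 14 * max (a - 3) 0) := le_max_left _ _
  have h2 : 0 ≤ max (3 - a) 0 / δ y := div_nonneg (le_max_right _ _) (hδ y).le
  linarith

variable (h : push_Dat c u R i Y D Us V' V δ ν g e P M Ω)
include h

theorem om_hi {x : X} {y : Yb} {a : ℝ} (ha : 7 / 2 ≤ a) : om c δ g Ω (x, y, a) = Ω x 3 := by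
  unfold om
  split_ifs with hm
  · simp only
    rw [lev_hi _ ha, h.hc.of_one_le _ _ _ (by linarith)]
  · rfl

theorem om_lo {x : X} {y : Yb} {a : ℝ} (hy : y ∈ Y) (ha : a ≤ 3) :
    om c δ g Ω (x, y, a) = Ω (g ⟨y, hy⟩) (10 + (3 - a) / δ y) := by
  unfold om
  rw [dif_pos hy]
  simp only
  rw [lev_lo _ ha, h.hc.of_nonpos _ _ _ (by linarith)]

/-- section 4: `ω` does not change `softR` -/
theorem om_close {m : X × Yb × ℝ} (hm : m ∈ Soft u Y D) :
    (softR c u R i m, eta c u R i δ ν M (om c δ g Ω m)) ∈ V := by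
  obtain ⟨x, y, a₀⟩ := m
  obtain ⟨ha0, hm⟩ := hm
  simp only at ha0 hm
  by_cases h72 : 7 / 2 ≤ a₀
  · -- the top
    rw [h.om_hi h72]
    have hs : softR c u R i (x, y, a₀) = i x := by
      unfold softR
      rw [if_neg (by simp only; linarith)]
      simp only
      rw [h.hc.of_one_le _ _ _ (by linarith)]
    rw [hs]
    have hP := h.hPΩ x 3 (by norm_num)
    have hl := h.hMΩ x 3 (B δ ν (Ω x 3)) (by norm_num) (h.B0 _)
    have hl6 : l1 δ ν M (Ω x 3) ≤ 6 := by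
      rw [abs_le] at hl
      have := min_le_right (M x (B δ ν (Ω x 3))) (3:ℝ)
      unfold l1
      linarith [hl.2]
    have ha : 7 / 2 ≤ push_Dat.a δ ν M (Ω x 3) := push_al_75 (by linarith)
    rw [h.fact0 ha]
    exact push_ch5 h.vr h.hVV (h.hP _ _ _ hP (h.hPr _)).2.2 (h.vr _) (h.vr _) (h.vr _) (h.vr _)
  push Not at h72
  have hyD : y ∈ Y ∧ (u y, x) ∈ D := by
    rcases hm with hm | hm
    · linarith
    · exact hm
  obtain ⟨hy, hD⟩ := hyD
  by_cases h3 : a₀ ≤ 3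
  · -- the bottom
    rw [h.om_lo hy h3]
    have hs : softR c u R i (x, y, a₀) = R y a₀ := by
      unfold softR
      rw [if_pos (by simpa using h3)]
    rw [hs]
    have hdy := (h.hδ0 y).1
    set l := 10 + (3 - a₀) / δ y with hl
    have hl0 : 0 ≤ (3 - a₀) / δ y := div_nonneg (by linarith) hdy.le
    have hl10 : 10 ≤ l := by linarith
    have hlB : l ≤ 10 + 3 / δ y := by
      rw [hl]
      have : (3 - a₀) / δ y ≤ 3 / δ y := div_le_div_of_nonneg_right (by linarith) hdy.le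
      linarith
    have hal : a₀ = 3 - δ y * (l - 10) := by
      rw [hl]
      field_simp
      ring
    set x' := Ω (g ⟨y, hy⟩) l with hx'
    obtain ⟨hR, hδ, hi⟩ := h.hP _ _ _ (h.hPΩ (g ⟨y, hy⟩) l (by linarith)) (h.hPr _)
    rw [h.hνg, ← hx'] at hR hδ
    rw [← hx'] at hi
    have hMx := h.hMΩ (g ⟨y, hy⟩) l (B δ ν x') (by linarith) (h.B0 _)
    rw [← hx', h.hMg _ _ (h.B0 _)] at hMx
    have hMx' : |l1 δ ν M x' - min (B δ ν x') l| ≤ 3 := hMx
    have ha₀ : a₀ ∈ Icc (-1:ℝ) 5 := ⟨by linarith, by linarith⟩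
    by_cases h13 : l1 δ ν M x' ≤ 13
    · obtain ⟨w, hw1, hw2⟩ := h.factF (x := x') (by linarith)
      have hl16 : l ≤ 16 := by
        rw [abs_le] at hMx'
        have h1 : min (B δ ν x') l ≤ 16 := by linarith [hMx'.1]
        rcases min_le_iff.1 h1 with h2 | h2
        · linarith [h.B40 x']
        · exact h2
      have h20 : |a₀ - 3| ≤ 20 * δ y := by
        rw [hal, abs_le]
        have h1 : 0 ≤ δ y * (l - 10) := mul_nonneg hdy.le (by linarith)
        have h2 : δ y * (l - 10) ≤ δ y * 6 := mul_le_mul_of_nonneg_left (by linarith) hdy.le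
        constructor <;> linarith
      have s1 : (R y a₀, R y 3) ∈ V' := h.hδ _ _ _ ha₀ ⟨by norm_num, by norm_num⟩ h20
      have s2 : (R y 3, i (g ⟨y, hy⟩)) ∈ V' := by
        rw [h.hRi _ _ (by norm_num)]
        exact h.hiV _ _ (h.us_mono (by norm_num) (h.hg ⟨y, hy⟩))
      exact push_ch5 h.vr h.hVV s1 s2 hi (h.vs hw2) (h.vs hw1)
    · push Not at h13
      have hBB : |(10 + 3 / δ y) - B δ ν x'| ≤ 3 / 10 := push_B hdy (h.d0 x') hδ
      have hK : |l - l1 δ ν M x'| ≤ 33 / 10 := by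
        rw [abs_le] at hMx' hBB ⊢
        rcases le_total l (B δ ν x') with h1 | h1
        · rw [min_eq_right h1] at hMx'
          constructor <;> linarith [hMx'.1, hMx'.2]
        · rw [min_eq_left h1] at hMx'
          constructor <;> linarith [hMx'.1, hMx'.2, hBB.1, hBB.2]
      obtain ⟨w, hw1, hw2⟩ := h.factG' ha₀ hR hδ hl10 hlB hal (by linarith) (by norm_num) hK
      exact push_ch5 h.vr h.hVV hw1 hw2 (h.vr _) (h.vr _) (h.vr _)
  · -- the middle
    push Not at h3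
    have hs : softR c u R i (x, y, a₀) = i (c (u y) x (2 * (a₀ - 3))) := by
      unfold softR
      rw [if_neg (by simp only; linarith)]
    rw [hs]
    have ho : om c δ g Ω (x, y, a₀) =
        Ω (c (g ⟨y, hy⟩) x (2 * (a₀ - 3))) (lev δ y a₀) := by
      unfold om
      rw [dif_pos hy]
    rw [ho]
    obtain ⟨hl3, hl10⟩ := lev_mid (δ := δ) y h3.le
    set l := lev δ y a₀
    set t := 2 * (a₀ - 3)
    set x₂ := c (g ⟨y, hy⟩) x t with hx₂
    have hMx := h.hMΩ x₂ l (B δ ν (Ω x₂ l)) (by linarith) (h.B0 _)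
    have hl13 : l1 δ ν M (Ω x₂ l) ≤ 13 := by
      rw [abs_le] at hMx
      have := min_le_right (M x₂ (B δ ν (Ω x₂ l))) l
      unfold l1
      linarith [hMx.2]
    obtain ⟨w, hw1, hw2⟩ := h.factF (x := Ω x₂ l) (by linarith)
    have hi := (h.hP _ _ _ (h.hPΩ x₂ l (by linarith)) (h.hPr _)).2.2
    have hgu : (g ⟨y, hy⟩, u y) ∈ Us 3 := h.us_symm (h.hg ⟨y, hy⟩)
    have hux : (u y, x) ∈ Us 3 := h.hDU hD
    have h1 : (g ⟨y, hy⟩, x₂) ∈ Us 2 := by
      have := h.hUs.nest 2 _ _ _ hgu hux 0 t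
      rwa [h.hc.of_nonpos _ _ 0 le_rfl] at this
    have h2 : (x₂, u y) ∈ Us 1 :=
      h.hUs.comp h.hc (h.us_symm h1) (h.us_mono (by norm_num) hgu)
    have h3' : (u y, c (u y) x t) ∈ Us 1 := by
      have := h.us_path (n := 2) hux 0 t
      rw [h.hc.of_nonpos _ _ 0 le_rfl] at this
      exact h.us_mono (by norm_num) this
    have h4 : (x₂, c (u y) x t) ∈ Us 0 := h.hUs.comp h.hc h2 h3'
    exact push_ch5 h.vr h.hVV (h.vs (h.hiV _ _ h4)) hi (h.vs hw2) (h.vs hw1) (h.vr _)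

end push_Dat


namespace push_Dat

variable {X W Yb : Type} [MetricSpace X] [TopologicalSpace W] [TopologicalSpace Yb]
    {c : X → X → ℝ → X} {u : Yb → X} {R : Yb → ℝ → W} {i : X → W} {Y : Set Yb}
    {D : Set (X × X)} {Us : ℕ → Set (X × X)} {V' V : Set (W × W)} {δ : Yb → ℝ} {ν : X → Yb}
    {g : Y → X} {e : X → X} {P : Set (X × X)} {M : X → ℝ → ℝ} {Ω : X → ℝ → X}

/-- the parameter of the combing -/
noncomputable def mu (δ : Yb → ℝ) (ν : X → Yb) (M : X → ℝ → ℝ) (x : X) : ℝ :=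
  1 - cl (2 * (a δ ν M x - 3))

variable (h : push_Dat c u R i Y D Us V' V δ ν g e P M Ω)
include h

theorem cont_B (hν : Continuous ν) (hδ : Continuous δ) : Continuous (B δ ν : X → ℝ) := by
  unfold B
  have h1 : Continuous fun x => δ (ν x) := hδ.comp hν
  exact continuous_const.add (continuous_const.div h1 fun x => (h.d0 x).ne')

theorem cont_l1 (hν : Continuous ν) (hδ : Continuous δ)
    (hM : Continuous fun p : X × ℝ => M p.1 p.2) : Continuous (l1 δ ν M) := by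
  unfold l1
  exact hM.comp (continuous_id.prodMk (h.cont_B hν hδ))

theorem cont_a (hν : Continuous ν) (hδ : Continuous δ)
    (hM : Continuous fun p : X × ℝ => M p.1 p.2) : Continuous (a δ ν M) := by
  unfold a push_al
  have h1 : Continuous fun x => δ (ν x) := hδ.comp hν
  have h2 := h.cont_l1 hν hδ hM
  have h3 : Continuous fun x => cl ((min (l1 δ ν M x) 10 - 5) / 5) :=
    push_cl_cont.comp (by fun_prop)
  fun_prop

omit h in
theorem cont_lev (hδ0 : ∀ y, 0 < δ y) (hδ : Continuous δ) :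
    Continuous fun q : Yb × ℝ => lev δ q.1 q.2 := by
  unfold lev
  have h1 : Continuous fun q : Yb × ℝ => δ q.1 := hδ.comp continuous_fst
  have h2 : Continuous fun q : Yb × ℝ => max (3 - q.2) 0 / δ q.1 :=
    (by fun_prop : Continuous fun q : Yb × ℝ => max (3 - q.2) 0).div h1 fun q => (hδ0 _).ne'
  exact (by fun_prop : Continuous fun q : Yb × ℝ => max 3 (10 - 14 * max (q.2 - 3) 0)).add h2

theorem cont_mu (hν : Continuous ν) (hδ : Continuous δ)
    (hM : Continuous fun p : X × ℝ => M p.1 p.2) : Continuous (mu δ ν M) := by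
  unfold mu
  have h1 := h.cont_a hν hδ hM
  exact continuous_const.sub (push_cl_cont.comp (by fun_prop))

theorem mu_mem (x : X) : 0 ≤ mu δ ν M x ∧ mu δ ν M x ≤ 1 := by
  unfold mu
  have h1 := push_cl_nonneg (2 * (a δ ν M x - 3))
  have h2 := push_cl_le (2 * (a δ ν M x - 3))
  constructor <;> linarith

theorem mu_zero {x : X} (hx : 7 / 2 ≤ a δ ν M x) : mu δ ν M x = 0 := by
  unfold mu
  rw [push_cl_of_ge (by linarith), sub_self]

theorem om_chi (x : X) : om c δ g Ω (x, ν x, a δ ν M x) =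
    Ω (c x (e x) (mu δ ν M x)) (lev δ (ν x) (a δ ν M x)) := by
  by_cases hy : ν x ∈ Y
  · unfold om
    rw [dif_pos hy]
    simp only
    have hcc : c (g ⟨ν x, hy⟩) x (2 * (a δ ν M x - 3)) = c x (e x) (mu δ ν M x) := by
      rw [h.he x hy, h.hc.symm]
      unfold mu
      set s := 2 * (a δ ν M x - 3)
      rcases le_total s 0 with hs | hs
      · rw [push_cl_of_le hs, h.hc.of_one_le _ _ (1 - s) (by linarith),
          h.hc.of_one_le _ _ (1 - 0) (by norm_num)]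
      · rcases le_total 1 s with hs1 | hs1
        · rw [push_cl_of_ge hs1, h.hc.of_nonpos _ _ (1 - s) (by linarith),
            h.hc.of_nonpos _ _ (1 - 1) (by norm_num)]
        · rw [push_cl_of_mem hs hs1]
    rw [hcc]
  · have ha : a δ ν M x = 4 := by
      by_contra hne
      exact hy (h.in_O hne).1
    have hm0 : mu δ ν M x = 0 := h.mu_zero (by rw [ha]; norm_num)
    rw [h.om_hi (by rw [ha]; norm_num), hm0, h.hc.of_nonpos _ _ 0 le_rfl,
      lev_hi _ (by rw [ha]; norm_num)]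

theorem in_soft (x : X) : (x, ν x, a δ ν M x) ∈ Soft u Y D := by
  refine ⟨h.a_nonneg x, ?_⟩
  by_cases h72 : 7 / 2 < a δ ν M x
  · exact Or.inl h72
  · exact Or.inr (h.in_O (by intro h4; apply h72; rw [h4]; norm_num))

theorem cont_om (hYo : IsOpen Y) (hδ : Continuous δ) (hg : Continuous g)
    (hΩ : Continuous fun p : X × ℝ => Ω p.1 p.2) :
    ContinuousOn (om c δ g Ω) (Soft u Y D) := by
  have hlev := cont_lev (fun y => (h.hδ0 y).1) hδ
  rintro ⟨x, y, a₀⟩ hm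
  apply ContinuousAt.continuousWithinAt
  by_cases hy : y ∈ Y
  · have ho : IsOpen {m : X × Yb × ℝ | m.2.1 ∈ Y} := hYo.preimage (by fun_prop)
    refine ContinuousOn.continuousAt ?_ (ho.mem_nhds hy)
    rw [continuousOn_iff_continuous_domRestrict]
    have hfun : ({m : X × Yb × ℝ | m.2.1 ∈ Y}.domRestrict (om c δ g Ω)) =
        fun m => Ω (c (g ⟨m.1.2.1, m.2⟩) m.1.1 (2 * (m.1.2.2 - 3))) (lev δ m.1.2.1 m.1.2.2) := by
      funext m
      have : m.1.2.1 ∈ Y := m.2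
      show om c δ g Ω m.1 = _
      unfold om
      rw [dif_pos this]
    rw [hfun]
    have h1 : Continuous fun m : {m : X × Yb × ℝ | m.2.1 ∈ Y} => g ⟨m.1.2.1, m.2⟩ :=
      hg.comp (by fun_prop)
    have h2 : Continuous fun m : {m : X × Yb × ℝ | m.2.1 ∈ Y} =>
        c (g ⟨m.1.2.1, m.2⟩) m.1.1 (2 * (m.1.2.2 - 3)) :=
      h.hc.cont.comp (h1.prodMk ((by fun_prop : Continuous
        fun m : {m : X × Yb × ℝ | m.2.1 ∈ Y} => m.1.1).prodMk (by fun_prop)))
    have h3 : Continuous fun m : {m : X × Yb × ℝ | m.2.1 ∈ Y} => lev δ m.1.2.1 m.1.2.2 :=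
      hlev.comp (by fun_prop : Continuous
        fun m : {m : X × Yb × ℝ | m.2.1 ∈ Y} => (m.1.2.1, m.1.2.2))
    exact hΩ.comp (h2.prodMk h3)
  · have h72 : 7 / 2 < a₀ := by
      rcases hm.2 with h1 | h1
      · exact h1
      · exact absurd h1.1 hy
    have ho : IsOpen {m : X × Yb × ℝ | 7 / 2 < m.2.2} :=
      isOpen_lt continuous_const (by fun_prop)
    have hev : (fun m : X × Yb × ℝ => Ω m.1 3) =ᶠ[𝓝 (x, y, a₀)] om c δ g Ω := by
      filter_upwards [ho.mem_nhds (show (x, y, a₀) ∈ {m : X × Yb × ℝ | 7 / 2 < m.2.2} from h72)]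
        with m hm'
      obtain ⟨x', y', a'⟩ := m
      exact (h.om_hi (le_of_lt hm')).symm
    refine ContinuousAt.congr ?_ hev
    exact (hΩ.comp (by fun_prop : Continuous fun m : X × Yb × ℝ => (m.1, (3:ℝ)))).continuousAt

/-- path 1 -/
theorem path1 (hν : Continuous ν) (hδ : Continuous δ)
    (hM : Continuous fun p : X × ℝ => M p.1 p.2) (hΩ : Continuous fun p : X × ℝ => Ω p.1 p.2)
    (hlast : ∀ ε : ℝ, 0 < ε → ∃ S : X → ℝ, Continuous S ∧ ∀ x l, S x ≤ l → dist x (Ω x l) < ε) :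
    HT (fun x x' => (eta c u R i δ ν M x, eta c u R i δ ν M x') ∈ V) id
      (fun x => Ω x (l1 δ ν M x)) := by
  have hl1 := h.cont_l1 hν hδ hM
  refine HT.of_Icc (H := fun x t => if t ≤ 0 then x else Ω x (l1 δ ν M x + 1 / t - 1)) ?_ ?_ ?_ ?_
  · rintro ⟨x₀, t₀⟩ ⟨-, ht0, ht1⟩
    simp only at ht0 ht1
    rcases ht0.eq_or_lt with ht | ht
    · subst ht
      apply ContinuousAt.continuousWithinAt
      rw [Metric.continuousAt_iff']
      intro ε hε
      obtain ⟨S, hS, hSd⟩ := hlast (ε / 2) (by positivity)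
      have h1 : ∀ᶠ q : X × ℝ in 𝓝 (x₀, (0:ℝ)), S q.1 < S x₀ + 1 :=
        ((hS.comp continuous_fst).tendsto (x₀, (0:ℝ))).eventually
          (gt_mem_nhds (lt_add_one (S x₀)))
      have h2 : ∀ᶠ q : X × ℝ in 𝓝 (x₀, (0:ℝ)), dist q.1 x₀ < ε / 2 :=
        ((continuous_fst.dist continuous_const).tendsto (x₀, (0:ℝ))).eventually
          (gt_mem_nhds (by simpa using (by positivity : 0 < ε / 2)))
      have h3 : ∀ᶠ q : X × ℝ in 𝓝 (x₀, (0:ℝ)), q.2 < 1 / (|S x₀| + 2) :=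
        (continuous_snd.tendsto (x₀, (0:ℝ))).eventually
          (gt_mem_nhds (by show (0:ℝ) < _; positivity))
      filter_upwards [h1, h2, h3] with q hq1 hq2 hq3
      obtain ⟨x, t⟩ := q
      simp only at hq1 hq2 hq3 ⊢
      rw [if_pos (le_refl (0:ℝ))]
      split_ifs with hts
      · linarith
      · push Not at hts
        have h4 : |S x₀| + 2 < 1 / t := by
          rw [lt_div_iff₀ hts]
          have h5 : 0 < |S x₀| + 2 := by positivity
          rw [lt_div_iff₀ h5] at hq3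
          linarith
        have h5 : S x ≤ l1 δ ν M x + 1 / t - 1 := by
          have h6 := le_abs_self (S x₀)
          have h7 := h.l1_nonneg x
          linarith
        have h6 := hSd x _ h5
        have h7 := dist_triangle (Ω x (l1 δ ν M x + 1 / t - 1)) x x₀
        rw [dist_comm (Ω x (l1 δ ν M x + 1 / t - 1)) x] at h7
        linarith
    · apply ContinuousAt.continuousWithinAt
      have hev : (fun q : X × ℝ => Ω q.1 (l1 δ ν M q.1 + 1 / q.2 - 1)) =ᶠ[𝓝 (x₀, t₀)]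
          (fun q : X × ℝ => if q.2 ≤ 0 then q.1 else Ω q.1 (l1 δ ν M q.1 + 1 / q.2 - 1)) := by
        filter_upwards [(continuous_snd.tendsto (x₀, t₀)).eventually (lt_mem_nhds ht)] with q hq
        rw [if_neg (not_le.2 hq)]
      refine ContinuousAt.congr ?_ hev
      have h1 : ContinuousAt (fun q : X × ℝ => l1 δ ν M q.1 + 1 / q.2 - 1) (x₀, t₀) := by
        have h2 : ContinuousAt (fun q : X × ℝ => l1 δ ν M q.1) (x₀, t₀) :=
          (hl1.comp continuous_fst).continuousAt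
        have h3 : ContinuousAt (fun q : X × ℝ => 1 / q.2) (x₀, t₀) :=
          continuousAt_const.div continuousAt_snd ht.ne'
        exact (h2.add h3).sub continuousAt_const
      exact ContinuousAt.comp (g := fun p : X × ℝ => Ω p.1 p.2)
        (f := fun q : X × ℝ => (q.1, l1 δ ν M q.1 + 1 / q.2 - 1)) hΩ.continuousAt
        (continuousAt_fst.prodMk h1)
  · intro x
    simp
  · intro x
    simp
  · rintro x t ⟨ht0, ht1⟩
    split_ifs with hts
    · exact push_ch5 h.vr h.hVV (h.vr _) (h.vr _) (h.vr _) (h.vr _) (h.vr _)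
    · push Not at hts
      have h1 : 1 ≤ 1 / t := by
        rw [le_div_iff₀ hts]
        linarith
      have h0 := h.l1_nonneg x
      set l := l1 δ ν M x + 1 / t - 1 with hl
      have hll : l1 δ ν M x ≤ l := by linarith
      apply h.factH (h.hPΩ x l (by linarith)) (h.hPr _)
      have h2 := h.hMΩ x l (B δ ν x) (by linarith) (h.B0 x)
      have h3 : M x (B δ ν x) = l1 δ ν M x := rfl
      rw [h3, min_eq_left hll] at h2
      rw [h3, abs_sub_comm]
      linarith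

/-- the partial combing -/
theorem cont_K (hu : Continuous u) (hν : Continuous ν) (hδ : Continuous δ)
    (hM : Continuous fun p : X × ℝ => M p.1 p.2) (hYo : IsOpen Y) (hD : IsOpen D)
    (he : ContinuousOn e {x | ν x ∈ Y ∧ (u (ν x), x) ∈ D}) :
    Continuous fun q : X × ℝ => c q.1 (e q.1) (mu δ ν M q.1 * q.2) := by
  have hmu := h.cont_mu hν hδ hM
  have ha := h.cont_a hν hδ hM
  have hO : IsOpen {x | ν x ∈ Y ∧ (u (ν x), x) ∈ D} :=
    (hYo.preimage hν).inter (hD.preimage ((hu.comp hν).prodMk continuous_id))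
  rw [continuous_iff_continuousAt]
  rintro ⟨x₀, t₀⟩
  by_cases hx : x₀ ∈ {x | ν x ∈ Y ∧ (u (ν x), x) ∈ D}
  · have h1 : ContinuousAt e x₀ := he.continuousAt (hO.mem_nhds hx)
    have h2 : ContinuousAt (fun q : X × ℝ => e q.1) (x₀, t₀) :=
      ContinuousAt.comp (g := e) (f := Prod.fst) h1 continuousAt_fst
    have h3 : ContinuousAt (fun q : X × ℝ => mu δ ν M q.1 * q.2) (x₀, t₀) :=
      ((hmu.comp continuous_fst).mul continuous_snd).continuousAt
    exact ContinuousAt.comp (g := fun p : X × X × ℝ => c p.1 p.2.1 p.2.2)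
      (f := fun q : X × ℝ => (q.1, e q.1, mu δ ν M q.1 * q.2)) h.hc.cont.continuousAt
      (continuousAt_fst.prodMk (h2.prodMk h3))
  · have h4 : a δ ν M x₀ = 4 := by
      by_contra hne
      exact hx (h.in_O hne)
    have hev : (fun q : X × ℝ => q.1) =ᶠ[𝓝 (x₀, t₀)]
        (fun q : X × ℝ => c q.1 (e q.1) (mu δ ν M q.1 * q.2)) := by
      have h5 : ∀ᶠ q : X × ℝ in 𝓝 (x₀, t₀), 7 / 2 < a δ ν M q.1 :=
        ((ha.comp continuous_fst).tendsto (x₀, t₀)).eventually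
          (lt_mem_nhds (by show (7 / 2 : ℝ) < a δ ν M x₀; rw [h4]; norm_num))
      filter_upwards [h5] with q hq
      rw [h.mu_zero hq.le, zero_mul, h.hc.of_nonpos _ _ 0 le_rfl]
    exact continuousAt_fst.congr hev

/-- the points of the partial combing -/
theorem K_facts (x : X) (t : ℝ) : (x, c x (e x) (mu δ ν M x * t)) ∈ P ∧
    l1 δ ν M x - 2 ≤ M (c x (e x) (mu δ ν M x * t)) (B δ ν x) := by
  rcases (h.l1_nonneg x).eq_or_lt with h0 | h0
  · have h4 : a δ ν M x = 4 := push_al_zero h0.symm.le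
    rw [h.mu_zero (by rw [h4]; norm_num), zero_mul, h.hc.of_nonpos _ _ 0 le_rfl]
    refine ⟨h.hPr x, ?_⟩
    rw [← h0]
    have := (h.hM0 x _ (h.B0 x)).1
    linarith
  · exact h.hMc x (B δ ν x) _ (h.B0 x) h0

/-- path 2 -/
theorem path2 (hu : Continuous u) (hν : Continuous ν) (hδ : Continuous δ)
    (hM : Continuous fun p : X × ℝ => M p.1 p.2) (hΩ : Continuous fun p : X × ℝ => Ω p.1 p.2)
    (hYo : IsOpen Y) (hD : IsOpen D) (he : ContinuousOn e {x | ν x ∈ Y ∧ (u (ν x), x) ∈ D}) :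
    HT (fun x x' => (eta c u R i δ ν M x, eta c u R i δ ν M x') ∈ V)
      (fun x => Ω x (l1 δ ν M x)) (fun x => Ω (c x (e x) (mu δ ν M x)) (l1 δ ν M x)) := by
  have hK := h.cont_K hu hν hδ hM hYo hD he
  have hl1 := h.cont_l1 hν hδ hM
  refine HT.of_Icc (H := fun x t => Ω (c x (e x) (mu δ ν M x * t)) (l1 δ ν M x)) ?_ ?_ ?_ ?_
  · exact (hΩ.comp (hK.prodMk (hl1.comp continuous_fst))).continuousOn
  · intro x
    simp only [mul_zero]
    rw [h.hc.of_nonpos _ _ 0 le_rfl]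
  · intro x
    simp only [mul_one]
  · rintro x t -
    obtain ⟨hP, hM2⟩ := h.K_facts x t
    set z := c x (e x) (mu δ ν M x * t)
    apply h.factH hP (h.hPΩ z (l1 δ ν M x) (h.l1_nonneg x))
    have h2 := h.hMΩ z (l1 δ ν M x) (B δ ν x) (h.l1_nonneg x) (h.B0 x)
    have h3 : M x (B δ ν x) = l1 δ ν M x := rfl
    rw [h3]
    have h4 : min (M z (B δ ν x)) (l1 δ ν M x) ≤ l1 δ ν M x := min_le_right _ _
    have h5 : l1 δ ν M x - 2 ≤ min (M z (B δ ν x)) (l1 δ ν M x) := le_min hM2 (by linarith)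
    rw [abs_le] at h2 ⊢
    constructor <;> linarith [h2.1, h2.2]

/-- path 3 -/
theorem path3 (hu : Continuous u) (hν : Continuous ν) (hδ : Continuous δ)
    (hM : Continuous fun p : X × ℝ => M p.1 p.2) (hΩ : Continuous fun p : X × ℝ => Ω p.1 p.2)
    (hYo : IsOpen Y) (hD : IsOpen D) (he : ContinuousOn e {x | ν x ∈ Y ∧ (u (ν x), x) ∈ D}) :
    HT (fun x x' => (eta c u R i δ ν M x, eta c u R i δ ν M x') ∈ V)
      (fun x => Ω (c x (e x) (mu δ ν M x)) (l1 δ ν M x))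
      (fun x => Ω (c x (e x) (mu δ ν M x)) (lev δ (ν x) (a δ ν M x))) := by
  have hK := h.cont_K hu hν hδ hM hYo hD he
  have hl1 := h.cont_l1 hν hδ hM
  have ha := h.cont_a hν hδ hM
  have hlev : Continuous fun x => lev δ (ν x) (a δ ν M x) :=
    (cont_lev (fun y => (h.hδ0 y).1) hδ).comp (hν.prodMk ha)
  refine HT.of_Icc (H := fun x t => Ω (c x (e x) (mu δ ν M x * 1))
    ((1 - t) * l1 δ ν M x + t * lev δ (ν x) (a δ ν M x))) ?_ ?_ ?_ ?_
  · have h1 : Continuous fun q : X × ℝ => c q.1 (e q.1) (mu δ ν M q.1 * 1) :=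
      hK.comp (continuous_fst.prodMk continuous_const)
    have h2 : Continuous fun q : X × ℝ =>
        (1 - q.2) * l1 δ ν M q.1 + q.2 * lev δ (ν q.1) (a δ ν M q.1) := by
      have h3 : Continuous fun q : X × ℝ => l1 δ ν M q.1 := hl1.comp continuous_fst
      have h4 : Continuous fun q : X × ℝ => lev δ (ν q.1) (a δ ν M q.1) :=
        hlev.comp continuous_fst
      fun_prop
    exact (hΩ.comp (h1.prodMk h2)).continuousOn
  · intro x
    simp
  · intro x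
    simp
  · rintro x t ⟨ht0, ht1⟩
    obtain ⟨hP, hM2⟩ := h.K_facts x 1
    set z := c x (e x) (mu δ ν M x * 1)
    have hl0 := h.l1_nonneg x
    have hlv := lev_nonneg (δ := δ) (fun y => (h.hδ0 y).1) (ν x) (a δ ν M x)
    have hpos : 0 ≤ (1 - t) * l1 δ ν M x + t * lev δ (ν x) (a δ ν M x) :=
      add_nonneg (mul_nonneg (by linarith) hl0) (mul_nonneg ht0 (by linarith))
    rcases le_total 10 (l1 δ ν M x) with h10 | h10
    · have haa : a δ ν M x = 3 - δ (ν x) * (l1 δ ν M x - 10) := push_al_hi h10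
      have hd := h.d0 x
      have h1 : 0 ≤ δ (ν x) * (l1 δ ν M x - 10) := mul_nonneg hd.le (by linarith)
      have hle : lev δ (ν x) (a δ ν M x) = l1 δ ν M x := by
        rw [lev_lo _ (by linarith), haa]
        field_simp
        ring
      rw [hle]
      have h2 : (1 - t) * l1 δ ν M x + t * l1 δ ν M x = l1 δ ν M x := by ring
      rw [h2]
      apply h.factH hP (h.hPΩ z (l1 δ ν M x) hl0)
      have h2 := h.hMΩ z (l1 δ ν M x) (B δ ν x) (h.l1_nonneg x) (h.B0 x)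
      have h3 : M x (B δ ν x) = l1 δ ν M x := rfl
      rw [h3]
      have h4 : min (M z (B δ ν x)) (l1 δ ν M x) ≤ l1 δ ν M x := min_le_right _ _
      have h5 : l1 δ ν M x - 2 ≤ min (M z (B δ ν x)) (l1 δ ν M x) := le_min hM2 (by linarith)
      rw [abs_le] at h2 ⊢
      constructor <;> linarith [h2.1, h2.2]
    · have ha3 : 3 ≤ a δ ν M x := push_al_lo3 h10
      obtain ⟨-, hlv2⟩ := lev_mid (δ := δ) (ν x) ha3
      set l := (1 - t) * l1 δ ν M x + t * lev δ (ν x) (a δ ν M x) with hl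
      have hl10 : l ≤ 10 := by
        have h1 : (1 - t) * l1 δ ν M x ≤ (1 - t) * 10 :=
          mul_le_mul_of_nonneg_left h10 (by linarith)
        have h2 : t * lev δ (ν x) (a δ ν M x) ≤ t * 10 := mul_le_mul_of_nonneg_left hlv2 ht0
        linarith
      have hMx := h.hMΩ z l (B δ ν (Ω z l)) hpos (h.B0 _)
      have hl13 : l1 δ ν M (Ω z l) ≤ 13 := by
        rw [abs_le] at hMx
        have := min_le_right (M z (B δ ν (Ω z l))) l
        unfold l1
        linarith [hMx.2]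
      obtain ⟨w, hw1, hw2⟩ := h.factF (x := x) (by linarith)
      obtain ⟨w', hw1', hw2'⟩ := h.factF (x := Ω z l) (by linarith)
      have hi := (h.hP _ _ _ hP (h.hPΩ z l hpos)).2.2
      exact push_ch5 h.vr h.hVV hw1 hw2 hi (h.vs hw2') (h.vs hw1')

end push_Dat


theorem push_core {κ : Cardinal.{0}} (hκ : ℵ₀ ≤ κ) {X W Yb : Type} [MetricSpace X]
    [TopologicalSpace W] [MetrizableSpace W] [TopologicalSpace Yb] [IsCompletelyMetrizableSpace Yb]
    (hX : Good κ X) {c : X → X → ℝ → X} (hc : IsComb c) (hY : DensLE κ Yb) (hYae : IsAE Yb)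
    {u : Yb → X} (hu : Continuous u) {R : Yb → ℝ → W}
    (hR : Continuous fun p : Yb × ℝ => R p.1 p.2) {i : X → W} (hi : Continuous i)
    (hRi : ∀ y a, 2 ≤ a → R y a = i (u y)) {Y : Set Yb} (hYo : IsOpen Y)
    {D : Set (X × X)} (hD : IsOpen D) (hDr : ∀ x, (x, x) ∈ D)
    {Us : ℕ → Set (X × X)} (hUs : EntSeq c Us) (hDU : D ⊆ Us 3)
    {V : Set (W × W)} {V' : Set (W × W)} (hV' : IsEnt V')
    (hVV : ∀ x₀ x₁ x₂ x₃ x₄ x₅ x₆ x₇ x₈, (x₀, x₁) ∈ V' → (x₁, x₂) ∈ V' → (x₂, x₃) ∈ V' →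
      (x₃, x₄) ∈ V' → (x₄, x₅) ∈ V' → (x₅, x₆) ∈ V' → (x₆, x₇) ∈ V' → (x₇, x₈) ∈ V' →
      (x₀, x₈) ∈ V)
    (hiV : ∀ x x', (x, x') ∈ Us 0 → (i x, i x') ∈ V') :
    ∃ (ν : X → Yb) (a : X → ℝ) (ω : X × Yb × ℝ → X), Continuous ν ∧ Continuous a ∧
      (∀ x, a x ≤ 4) ∧ (∀ x, (x, ν x, a x) ∈ Soft u Y D) ∧ ContinuousOn ω (Soft u Y D) ∧
      (∀ m ∈ Soft u Y D, (softR c u R i m, softR c u R i (ω m, ν (ω m), a (ω m))) ∈ V) ∧
      HT (fun x x' => (softR c u R i (x, ν x, a x), softR c u R i (x', ν x', a x')) ∈ V) id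
        (fun x => ω (x, ν x, a x)) := by
  classical
  haveI : IsCompletelyMetrizableSpace Y := completelyMetrizable_open hYo
  obtain ⟨δ, hδc, hδ0, hδ⟩ := push_delta hR hV'
  -- the closed embedding
  have hD' : IsEnt (D ∩ Prod.swap ⁻¹' D) :=
    ⟨hD.inter (hD.preimage continuous_swap), fun x => ⟨hDr x, hDr x⟩, fun x y hxy =>
      ⟨hxy.2, hxy.1⟩⟩
  obtain ⟨g, Ω₀, hg, hgu, hΩ₀, hlim, hsep⟩ := exists_sz hκ hX (hY.open hYo)
    (hu.comp continuous_subtype_val) hD' (G := fun n => {p : X × X | dist p.1 p.2 < (1 / 2) ^ n})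
    (fun n => isEnt_dist (by positivity))
  -- the extension `ν`
  obtain ⟨ν, hν, hνA⟩ := hYae X (range g) hg.isClosed_range
    (fun a => (hg.isEmbedding.toHomeomorph.symm a).1)
    (continuous_subtype_val.comp hg.isEmbedding.toHomeomorph.symm.continuous)
  have hνg : ∀ y : Y, ν (g y) = y := by
    intro y
    have h1 := hνA ⟨g y, mem_range_self y⟩
    have h2 : hg.isEmbedding.toHomeomorph.symm ⟨g y, mem_range_self y⟩ = y := by
      rw [Homeomorph.symm_apply_eq]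
      rfl
    rw [h2] at h1
    exact h1
  -- the set `O`
  set O : Set X := {x | ν x ∈ Y ∧ (u (ν x), x) ∈ D} with hOdef
  have hO : IsOpen O :=
    (hYo.preimage hν).inter (hD.preimage ((hu.comp hν).prodMk continuous_id))
  have hgO : ∀ y, g y ∈ O := by
    intro y
    refine ⟨?_, ?_⟩
    · rw [hνg]
      exact y.2
    · rw [hνg]
      exact (hgu y).1
  let e : X → X := fun x => if hx : ν x ∈ Y then g ⟨ν x, hx⟩ else x
  have hex : ∀ x (hx : ν x ∈ Y), e x = g ⟨ν x, hx⟩ := fun x hx => dif_pos hx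
  have heg : ∀ y, e (g y) = g y := by
    intro y
    have h1 : ν (g y) ∈ Y := by
      rw [hνg]
      exact y.2
    rw [hex _ h1]
    congr 1
    exact Subtype.ext (hνg y)
  have he : ContinuousOn e O := by
    rw [continuousOn_iff_continuous_domRestrict]
    have hfun : O.domRestrict e = fun x => g ⟨ν x.1, x.2.1⟩ := by
      funext x
      exact hex x.1 x.2.1
    rw [hfun]
    exact hg.continuous.comp ((hν.comp continuous_subtype_val).subtype_mk _)
  -- the entourage `P`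
  have hE1 : IsEnt {p : Yb × Yb | ∀ a ∈ Icc (-1:ℝ) 5, (R p.1 a, R p.2 a) ∈ V'} :=
    hV'.comap_compact hR isCompact_Icc
  have hE2 : IsEnt {p : Yb × Yb | |δ p.1 - δ p.2| < δ p.1 * δ p.2 / 10} := by
    refine ⟨isOpen_lt (by fun_prop) (by fun_prop), fun y => ?_, fun y y' hyy => ?_⟩
    · show |δ y - δ y| < δ y * δ y / 10
      rw [sub_self, abs_zero]
      have := (hδ0 y).1
      positivity
    · show |δ y' - δ y| < δ y' * δ y / 10
      rw [abs_sub_comm, mul_comm]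
      exact hyy
  have hP₀ : IsEnt ({p : X × X | (ν p.1, ν p.2) ∈
      ({p : Yb × Yb | ∀ a ∈ Icc (-1:ℝ) 5, (R p.1 a, R p.2 a) ∈ V'} ∩
        {p : Yb × Yb | |δ p.1 - δ p.2| < δ p.1 * δ p.2 / 10})} ∩
      {p : X × X | (i p.1, i p.2) ∈ V'}) := ((hE1.inter hE2).comap hν).inter (hV'.comap hi)
  obtain ⟨P, hP, hPP⟩ := hP₀.exists_half
  obtain ⟨M, Ω, hM, hΩ, hM0, hMm, hMg, hMO, hMΩ, hPΩ, hMc, hlast⟩ :=
    exists_levels hc hg hΩ₀ hsep hlim hO hgO he heg hP
  have h : push_Dat c u R i Y D Us V' V δ ν g e P M Ω :=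
    { hc := hc
      hRi := hRi
      hUs := hUs
      hDU := hDU
      hV' := hV'
      hVV := hVV
      hiV := hiV
      hδ0 := hδ0
      hδ := hδ
      hg := fun y => hDU (hgu y).1
      hνg := hνg
      he := hex
      hPr := hP.refl
      hP := fun x x₁ x' h1 h2 => by
        have h3 := hPP _ _ _ h1 h2
        exact ⟨h3.1.1, le_of_lt h3.1.2, h3.2⟩
      hM0 := hM0
      hMm := hMm
      hMg := hMg
      hMO := hMO
      hMΩ := hMΩ
      hPΩ := hPΩ
      hMc := hMc }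
  refine ⟨ν, push_Dat.a δ ν M, push_Dat.om c δ g Ω, hν, h.cont_a hν hδc hM, h.a_le, h.in_soft,
    h.cont_om hYo hδc hg.continuous hΩ, fun m hm => h.om_close hm, ?_⟩
  have h1 := h.path1 hν hδc hM hΩ (fun ε hε => hlast _ (isEnt_dist hε))
  have h2 := h.path2 hu hν hδc hM hΩ hYo hD he
  have h3 := h.path3 hu hν hδc hM hΩ hYo hD he
  have h4 := (h1.trans h2).trans h3
  have h5 : (fun x => push_Dat.om c δ g Ω (x, ν x, push_Dat.a δ ν M x)) =
      fun x => Ω (c x (e x) (push_Dat.mu δ ν M x))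
        (push_Dat.lev δ (ν x) (push_Dat.a δ ν M x)) := by
    funext x
    exact h.om_chi x
  rw [h5]
  exact h4

theorem exists_push {κ : Cardinal.{0}} (hκ : ℵ₀ ≤ κ) {X W Yb : Type} [TopologicalSpace X]
    [TopologicalSpace W] [MetrizableSpace W] [TopologicalSpace Yb] [IsCompletelyMetrizableSpace Yb]
    (hX : Good κ X) {c : X → X → ℝ → X} (hc : IsComb c) (hY : DensLE κ Yb) (hYae : IsAE Yb)
    {u : Yb → X} (hu : Continuous u) {R : Yb → ℝ → W}
    (hR : Continuous fun p : Yb × ℝ => R p.1 p.2) {i : X → W} (hi : Continuous i)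
    (hRi : ∀ y a, 2 ≤ a → R y a = i (u y)) {Y : Set Yb} (hYo : IsOpen Y)
    {D : Set (X × X)} (hD : IsOpen D) (hDr : ∀ x, (x, x) ∈ D)
    {Us : ℕ → Set (X × X)} (hUs : EntSeq c Us) (hDU : D ⊆ Us 3)
    {V : Set (W × W)} (hV : IsEnt V) {V' : Set (W × W)} (hV' : IsEnt V')
    (hVV : ∀ x₀ x₁ x₂ x₃ x₄ x₅ x₆ x₇ x₈, (x₀, x₁) ∈ V' → (x₁, x₂) ∈ V' → (x₂, x₃) ∈ V' →
      (x₃, x₄) ∈ V' → (x₄, x₅) ∈ V' → (x₅, x₆) ∈ V' → (x₆, x₇) ∈ V' → (x₇, x₈) ∈ V' →
      (x₀, x₈) ∈ V)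
    (hiV : ∀ x x', (x, x') ∈ Us 0 → (i x, i x') ∈ V') :
    ∃ (ν : X → Yb) (a : X → ℝ) (ω : X × Yb × ℝ → X), Continuous ν ∧ Continuous a ∧
      (∀ x, a x ≤ 4) ∧ (∀ x, (x, ν x, a x) ∈ Soft u Y D) ∧ ContinuousOn ω (Soft u Y D) ∧
      (∀ m ∈ Soft u Y D, (softR c u R i m, softR c u R i (ω m, ν (ω m), a (ω m))) ∈ V) ∧
      HT (fun x x' => (softR c u R i (x, ν x, a x), softR c u R i (x', ν x', a x')) ∈ V) id
        (fun x => ω (x, ν x, a x)) := by
  haveI := hX.complete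
  letI := metrizableSpaceMetric X
  exact push_core hκ hX hc hY hYae hu hR hi hRi hYo hD hDr hUs hDU hV' hVV hiV

end Pool.Agent.TOR
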