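import Pool.Agent.Lib.MP_5a68e6_TOR.Lim
import Pool.Agent.Lib.MP_5a68e6_TOR.Dens

set_option autoImplicit false

namespace Pool.Agent.TOR

open Set Filter Topology TopologicalSpace Cardinal

/-- one step: a `W`-map near `v` whose image is far from the image of a map near the identity -/
theorem sz_step {κ : Cardinal.{0}} (hκ : ℵ₀ ≤ κ) {X : Type} [TopologicalSpace X]
    (hX : Good κ X) {Y : Type} [TopologicalSpace Y] [IsCompletelyMetrizableSpace Y]
    (hY : DensLE κ Y) {v : Y → X} (hv : Continuous v) {F T : Set (X × X)} (hF : IsEnt F)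
    (hT : IsEnt T) {W : Set (Y × Y)} (hW : IsEnt W) :
    ∃ (g : Y → X) (w : X → X) (D : Set (X × X)), Continuous g ∧ Continuous w ∧ IsEnt D ∧
      (∀ y, (v y, g y) ∈ F) ∧ (∀ x, (x, w x) ∈ T) ∧
      (∀ y y', (g y, g y') ∈ D → (y, y') ∈ W) ∧ ∀ x y, (g y, w x) ∉ D := by
  have := hX.complete
  set V : Set ((Y ⊕ X) × (Y ⊕ X)) :=
    Prod.map Sum.inl Sum.inl '' W ∪ Prod.map Sum.inr Sum.inr '' (univ : Set (X × X)) with hV
  have hVe : IsEnt V := by
    refine ⟨?_, ?_, ?_⟩
    · refine IsOpen.union ?_ ?_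
      · exact (IsOpenEmbedding.inl.prodMap IsOpenEmbedding.inl).isOpenMap _ hW.isOpen
      · exact (IsOpenEmbedding.inr.prodMap IsOpenEmbedding.inr).isOpenMap _ isOpen_univ
    · rintro (y | x)
      · exact Or.inl ⟨(y, y), hW.refl y, rfl⟩
      · exact Or.inr ⟨(x, x), mem_univ _, rfl⟩
    · rintro a b (⟨⟨y, y'⟩, h, he⟩ | ⟨⟨x, x'⟩, h, he⟩)
      · rw [Prod.map_apply, Prod.mk.injEq] at he
        exact Or.inl ⟨(y', y), hW.symm _ _ h, by rw [Prod.map_apply, he.1, he.2]⟩
      · rw [Prod.map_apply, Prod.mk.injEq] at he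
        exact Or.inr ⟨(x', x), mem_univ _, by rw [Prod.map_apply, he.1, he.2]⟩
  obtain ⟨H, hH1, hH2, hH3⟩ := hX.su (Y ⊕ X) (DensLE.sum hκ hY hX.dens) (Sum.elim v id)
    (hv.sumElim continuous_id) (F ∩ T) (hF.inter hT) V hVe
  obtain ⟨D, hD, hD0⟩ := exists_ent_of_local
    (D₀ := {p : X × X | ∀ a a', H a = p.1 → H a' = p.2 → (a, a') ∈ V}) (fun x => by
      obtain ⟨O, hO, h⟩ := hH3 x
      refine ⟨O, hO, ?_⟩
      rintro ⟨p, q⟩ ⟨hp, hq⟩ a a' ha ha'
      exact h a a' (by rw [ha]; exact hp) (by rw [ha']; exact hq))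
  refine ⟨fun y => H (Sum.inl y), fun x => H (Sum.inr x), D, hH1.comp continuous_inl,
    hH1.comp continuous_inr, hD, fun y => (hH2 (Sum.inl y)).1, fun x => (hH2 (Sum.inr x)).2,
    ?_, ?_⟩
  · intro y y' h
    rcases hD0 h (Sum.inl y) (Sum.inl y') rfl rfl with ⟨⟨a, b⟩, hab, he⟩ | ⟨⟨a, b⟩, -, he⟩
    · rw [Prod.map_apply, Prod.mk.injEq] at he
      rw [← Sum.inl_injective he.1, ← Sum.inl_injective he.2]
      exact hab
    · rw [Prod.map_apply, Prod.mk.injEq] at he
      exact absurd he.1 (by simp)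
  · intro x y h
    rcases hD0 h (Sum.inl y) (Sum.inr x) rfl rfl with ⟨⟨a, b⟩, hab, he⟩ | ⟨⟨a, b⟩, -, he⟩
    · rw [Prod.map_apply, Prod.mk.injEq] at he
      exact absurd he.2 (by simp)
    · rw [Prod.map_apply, Prod.mk.injEq] at he
      exact absurd he.1 (by simp)

/-- finite intersections -/
def sz_inf {X : Type} (G : ℕ → Set (X × X)) : ℕ → Set (X × X)
  | 0 => G 0
  | n + 1 => sz_inf G n ∩ G (n + 1)

theorem sz_inf_ent {X : Type} [TopologicalSpace X] {G : ℕ → Set (X × X)} (hG : ∀ n, IsEnt (G n))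
    (n : ℕ) : IsEnt (sz_inf G n) := by
  induction n with
  | zero => exact hG 0
  | succ n ih => exact ih.inter (hG (n + 1))

theorem sz_inf_sub {X : Type} {G : ℕ → Set (X × X)} {k n : ℕ} (h : k ≤ n) :
    sz_inf G n ⊆ G k := by
  induction n with
  | zero =>
    have : k = 0 := by omega
    rw [this]
    exact Subset.rfl
  | succ n ih =>
    rcases Nat.lt_or_ge k (n + 1) with h1 | h1
    · exact inter_subset_left.trans (ih (by omega))
    · have : k = n + 1 := by omega
      rw [this]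
      exact inter_subset_right

/-- the states of the iteration -/
structure SzState (X Y : Type) [TopologicalSpace X] [TopologicalSpace Y] where
  g : Y → X
  w : X → X
  D : Set (X × X)
  E : Set (X × X)
  hg : Continuous g
  hw : Continuous w
  hE : IsEnt E
  third : ∀ x y z v, (x, y) ∈ E → (y, z) ∈ E → (z, v) ∈ E → (x, v) ∈ D

/-- one block of the push-off -/
noncomputable def sz_block {X : Type} (c : X → X → ℝ → X) (w : ℕ → X → X) (n : ℕ) (p : X × ℝ) :
    X :=
  if p.2 ≤ n + 1 / 2 then c (w n p.1) (w (n + 1) (w n p.1)) (2 * (p.2 - n))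
  else w (n + 1) (c (w n p.1) p.1 (2 * (p.2 - n) - 1))

section block
variable {X : Type} [TopologicalSpace X] {c : X → X → ℝ → X} {w : ℕ → X → X}

theorem sz_block_cont (hc : IsComb c) (hw : ∀ n, Continuous (w n)) (n : ℕ) :
    Continuous (sz_block c w n) := by
  unfold sz_block
  refine Continuous.if_le ?_ ?_ continuous_snd continuous_const ?_
  · have h1 : Continuous fun p : X × ℝ => w n p.1 := (hw n).comp continuous_fst
    have h2 : Continuous fun p : X × ℝ => w (n + 1) (w n p.1) := (hw (n + 1)).comp h1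
    have h3 : Continuous fun p : X × ℝ => 2 * (p.2 - n) := by fun_prop
    exact hc.cont.comp (h1.prodMk (h2.prodMk h3))
  · have h1 : Continuous fun p : X × ℝ => w n p.1 := (hw n).comp continuous_fst
    have h3 : Continuous fun p : X × ℝ => 2 * (p.2 - n) - 1 := by fun_prop
    exact (hw (n + 1)).comp (hc.cont.comp (h1.prodMk (continuous_fst.prodMk h3)))
  · rintro ⟨x, s⟩ hs
    have hs' : s = n + 1 / 2 := hs
    show c (w n x) (w (n + 1) (w n x)) (2 * (s - n)) = w (n + 1) (c (w n x) x (2 * (s - n) - 1))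
    rw [hc.of_one_le _ _ _ (by rw [hs']; linarith), hc.of_nonpos _ _ _ (by rw [hs']; linarith)]

theorem sz_block_left (hc : IsComb c) (n : ℕ) (x : X) {s : ℝ} (hs : s ≤ n) :
    sz_block c w n (x, s) = w n x := by
  unfold sz_block
  rw [if_pos (by show s ≤ n + 1 / 2; linarith)]
  exact hc.of_nonpos _ _ _ (by show 2 * (s - n) ≤ 0; linarith)

theorem sz_block_right (hc : IsComb c) (n : ℕ) (x : X) {s : ℝ} (hs : (n : ℝ) + 1 ≤ s) :
    sz_block c w n (x, s) = w (n + 1) x := by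
  unfold sz_block
  rw [if_neg (by show ¬ (s ≤ n + 1 / 2); linarith)]
  show w (n + 1) (c (w n x) x (2 * (s - n) - 1)) = w (n + 1) x
  rw [hc.of_one_le _ _ _ (by linarith)]

/-- the push-off -/
noncomputable def sz_om (c : X → X → ℝ → X) (w : ℕ → X → X) (p : X × ℝ) : X :=
  sz_block c w ⌊p.2⌋₊ p

theorem sz_om_cont (hc : IsComb c) (hw : ∀ n, Continuous (w n)) : Continuous (sz_om c w) := by
  have hlf : LocallyFinite fun n : ℕ => {p : X × ℝ | (n = 0 ∨ (n : ℝ) ≤ p.2) ∧ p.2 ≤ n + 1} := by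
    rintro ⟨x, s⟩
    refine ⟨{p : X × ℝ | p.2 < s + 1}, (isOpen_lt continuous_snd continuous_const).mem_nhds
      (by show s < s + 1; linarith), ?_⟩
    refine Set.Finite.subset (Set.finite_Iic (⌈|s| + 1⌉₊)) ?_
    rintro n ⟨⟨y, t⟩, ⟨h1, -⟩, h2⟩
    have h2' : t < s + 1 := h2
    rw [mem_Iic]
    rcases h1 with h1 | h1
    · rw [h1]
      exact Nat.zero_le _
    · have h1' : (n : ℝ) ≤ t := h1
      have h3 : (n : ℝ) ≤ |s| + 1 := by
        have := le_abs_self s
        linarith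
      exact_mod_cast h3.trans (Nat.le_ceil _)
  refine hlf.continuous ?_ ?_ ?_
  · rw [eq_univ_iff_forall]
    rintro ⟨x, s⟩
    rw [mem_iUnion]
    refine ⟨⌊s⌋₊, ?_, ?_⟩
    · rcases le_or_gt 0 s with h | h
      · exact Or.inr (Nat.floor_le h)
      · exact Or.inl (Nat.floor_of_nonpos h.le)
    · exact (Nat.lt_floor_add_one s).le
  · intro n
    refine IsClosed.inter ?_ (isClosed_le continuous_snd continuous_const)
    by_cases h : n = 0
    · simp only [h, true_or]
      exact isClosed_univ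
    · simp only [h, false_or]
      exact isClosed_le continuous_const continuous_snd
  · intro n
    refine (sz_block_cont hc hw n).continuousOn.congr ?_
    rintro ⟨x, s⟩ ⟨h1, h2⟩
    have h2' : s ≤ n + 1 := h2
    show sz_block c w ⌊s⌋₊ (x, s) = sz_block c w n (x, s)
    rcases h2'.lt_or_eq with h3 | h3
    · have h4 : ⌊s⌋₊ = n := by
        rcases h1 with h1 | h1
        · rw [h1]
          rw [h1] at h3
          rw [Nat.floor_eq_zero]
          simpa using h3
        · have h1' : (n : ℝ) ≤ s := h1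
          rw [Nat.floor_eq_iff ((Nat.cast_nonneg n).trans h1')]
          exact ⟨h1', h3⟩
      rw [h4]
    · have h4 : ⌊s⌋₊ = n + 1 := by
        rw [h3]
        exact_mod_cast Nat.floor_natCast (n + 1)
      rw [h4, sz_block_right hc n x h3.ge, sz_block_left hc (n + 1) x (by rw [h3]; push_cast; rfl)]

end block

/-- a closed embedding -/
theorem sz_emb {X Y : Type} [TopologicalSpace X] [MetrizableSpace X] [MetricSpace Y]
    [CompleteSpace Y] {g : Y → X} (hg : Continuous g) (E : ℕ → Set (X × X))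
    (hE : ∀ n, IsEnt (E n)) (h : ∀ n y y', (g y, g y') ∈ E n → dist y y' < (1 / 2 : ℝ) ^ n) :
    IsClosedEmbedding g := by
  refine IsClosedEmbedding.of_continuous_injective_isClosedMap hg ?_ ?_
  · intro y y' he
    have h1 : ∀ n, dist y y' < (1 / 2 : ℝ) ^ n := fun n => h n y y' (by
      rw [he]
      exact (hE n).refl _)
    by_contra hne
    obtain ⟨n, hn⟩ := exists_pow_lt_of_lt_one (dist_pos.2 hne) (show (1 / 2 : ℝ) < 1 by norm_num)
    exact absurd (h1 n) (not_lt.2 hn.le)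
  · intro C hC
    refine IsSeqClosed.isClosed ?_
    intro a x ha hax
    choose y hyC hy using ha
    have hcau : CauchySeq y := by
      rw [Metric.cauchySeq_iff]
      intro ε hε
      obtain ⟨n, hn⟩ := exists_pow_lt_of_lt_one hε (show (1 / 2 : ℝ) < 1 by norm_num)
      have h1 : Tendsto (fun p : ℕ × ℕ => (a p.1, a p.2)) (atTop ×ˢ atTop) (𝓝 (x, x)) :=
        (hax.comp tendsto_fst).prodMk_nhds (hax.comp tendsto_snd)
      have h2 := h1.eventually ((hE n).isOpen.mem_nhds ((hE n).refl x))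
      rw [prod_atTop_atTop_eq, eventually_atTop] at h2
      obtain ⟨⟨N1, N2⟩, hN⟩ := h2
      refine ⟨max N1 N2, fun m hm k hk => ?_⟩
      have h3 : (a m, a k) ∈ E n :=
        hN (m, k) ⟨(le_max_left _ _).trans hm, (le_max_right _ _).trans hk⟩
      rw [← hy m, ← hy k] at h3
      exact (h n _ _ h3).trans hn
    obtain ⟨y0, hy0⟩ := cauchySeq_tendsto_of_complete hcau
    have h4 : y0 ∈ C := hC.mem_of_tendsto hy0 (Eventually.of_forall hyC)
    have h5 : Tendsto (fun k => g (y k)) atTop (𝓝 (g y0)) := (hg.tendsto y0).comp hy0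
    have h6 : (fun k => g (y k)) = a := funext hy
    rw [h6] at h5
    exact ⟨y0, h4, tendsto_nhds_unique h5 hax⟩

theorem exists_sz {κ : Cardinal.{0}} (hκ : ℵ₀ ≤ κ) {X : Type} [TopologicalSpace X]
    (hX : Good κ X) {Y : Type} [TopologicalSpace Y] [IsCompletelyMetrizableSpace Y]
    (hY : DensLE κ Y) {u : Y → X} (hu : Continuous u) {U : Set (X × X)} (hU : IsEnt U)
    {G : ℕ → Set (X × X)} (hG : ∀ n, IsEnt (G n)) :
    ∃ (g : Y → X) (Ω : X → ℝ → X), IsClosedEmbedding g ∧ (∀ y, (u y, g y) ∈ U) ∧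
      Continuous (fun p : X × ℝ => Ω p.1 p.2) ∧
      (∀ (n : ℕ) x s, (n : ℝ) ≤ s → (x, Ω x s) ∈ G n) ∧
      ∀ n : ℕ, ∃ E, IsEnt E ∧ ∀ y x s, s ≤ (n : ℝ) → (g y, Ω x s) ∉ E := by
  have := hX.complete
  let _ := upgradeIsCompletelyMetrizable Y
  obtain ⟨c, hc⟩ := hX.comb
  choose K hK1 hK2 using fun n => (sz_inf_ent hG n).exists_half
  have hG2 : ∀ n, IsEnt (sz_inf K n) := sz_inf_ent hK1
  obtain ⟨σ, g, hσ0, hR, hg1, -, hg3⟩ := iterate1 (X := X) (Z := Y) (S := SzState X Y)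
    (fun σ => σ.g) (fun σ => σ.hg) (fun σ => σ.E) (fun σ => σ.hE)
    (fun n σ σ' => (∀ y y', (σ'.g y, σ'.g y') ∈ σ'.D → dist y y' < (1 / 2 : ℝ) ^ n) ∧
      (∀ x y, (σ'.g y, σ'.w x) ∉ σ'.D) ∧
      ∀ x t, (x, c x (σ'.w x) t) ∈ σ.E ∩ sz_inf K n)
    (by
      intro n σ F hF
      obtain ⟨T, hT, hT2⟩ := (σ.hE.inter (hG2 n)).exists_nest hc
      obtain ⟨g', w', D, h1, h2, h3, h4, h5, h6, h7⟩ := sz_step hκ hX hY σ.hg hF hT
        (isEnt_dist (X := Y) (ε := (1 / 2 : ℝ) ^ n) (by positivity))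
      obtain ⟨E, hE, hE2⟩ := h3.exists_third
      refine ⟨⟨g', w', D, E, h1, h2, hE, hE2⟩, ⟨fun y y' h => h6 y y' h, h7, ?_⟩, h4⟩
      intro x t
      have h8 := hT2 x (w' x) (w' x) (h5 x) (hT.refl _) 0 t
      rw [hc.of_nonpos _ _ 0 le_rfl] at h8
      exact h8)
    ⟨u, id, univ, U, hu, continuous_id, hU, fun _ _ _ _ _ _ _ => mem_univ _⟩
  set w : ℕ → X → X := fun n => (σ (n + 1)).w with hwdef
  set E : ℕ → Set (X × X) := fun n => (σ (n + 1)).E with hEdef
  have hw : ∀ n, Continuous (w n) := fun n => (σ (n + 1)).hw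
  have hE : ∀ n, IsEnt (E n) := fun n => (σ (n + 1)).hE
  have hsep : ∀ n x y z, (g y, z) ∈ E n → (z, w n x) ∉ E n := by
    intro n x y z h1 h2
    exact (hR n).2.1 x y ((σ (n + 1)).third _ _ _ _ (hg3 (n + 1) y) h1 h2)
  have hwE : ∀ n z t, (z, c z (w (n + 1) z) t) ∈ E n := fun n z t => ((hR (n + 1)).2.2 z t).1
  have hwK : ∀ n z t, (z, c z (w n z) t) ∈ sz_inf K n := fun n z t => ((hR n).2.2 z t).2
  refine ⟨g, fun x s => sz_om c w (x, s), ?_, ?_, ?_, ?_, ?_⟩
  · refine sz_emb hg1 E hE ?_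
    intro n y y' h
    refine (hR n).1 y y' ((σ (n + 1)).third _ _ _ _ (hg3 (n + 1) y) h ?_)
    exact (hE n).symm _ _ (hg3 (n + 1) y')
  · intro y
    have := hg3 0 y
    rw [hσ0] at this
    exact this
  · exact sz_om_cont hc hw
  · intro n x s hs
    have hm : n ≤ ⌊s⌋₊ := Nat.le_floor hs
    set m := ⌊s⌋₊ with hmdef
    refine sz_inf_sub hm ?_
    show (x, sz_block c w m (x, s)) ∈ sz_inf G m
    unfold sz_block
    split_ifs with h
    · refine hK2 m x (w m x) _ ?_ ?_
      · have := hwK m x 1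
        rw [hc.of_one_le _ _ 1 le_rfl] at this
        exact sz_inf_sub le_rfl this
      · exact sz_inf_sub (Nat.le_succ m) (hwK (m + 1) (w m x) _)
    · refine hK2 m x (c (w m x) x (2 * (s - m) - 1)) _ ?_ ?_
      · have := hwK m x (1 - (2 * (s - m) - 1))
        rw [← hc.symm] at this
        exact sz_inf_sub le_rfl this
      · have := hwK (m + 1) (c (w m x) x (2 * (s - m) - 1)) 1
        rw [hc.of_one_le _ _ 1 le_rfl] at this
        exact sz_inf_sub (Nat.le_succ m) this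
  · intro n
    refine ⟨sz_inf E (n + 1), sz_inf_ent hE _, ?_⟩
    intro y x s hs hmem
    have hm : ⌊s⌋₊ ≤ n := by
      have := Nat.floor_le_floor hs
      rwa [Nat.floor_natCast] at this
    set m := ⌊s⌋₊ with hmdef
    have hmem' : (g y, sz_block c w m (x, s)) ∈ sz_inf E (n + 1) := hmem
    unfold sz_block at hmem'
    split_ifs at hmem' with h
    · refine hsep m x y _ (sz_inf_sub (by omega) hmem') ?_
      exact (hE m).symm _ _ (hwE m (w m x) _)
    · exact hsep (m + 1) _ y _ (sz_inf_sub (by omega) hmem') ((hE (m + 1)).refl _)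

end Pool.Agent.TOR
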