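import Pool.Agent.Lib.MP_5a68e6_TOR.SwG
import Pool.Agent.Lib.MP_5a68e6_TOR.Hot

set_option autoImplicit false

namespace Pool.Agent.TOR

open Set Filter Topology TopologicalSpace Cardinal

/-! ### the clamp -/

theorem swa_cl_nonneg (t : ℝ) : 0 ≤ cl t := le_min zero_le_one (le_max_left _ _)

theorem swa_cl_le (t : ℝ) : cl t ≤ 1 := min_le_left _ _

theorem swa_cl_of_mem {t : ℝ} (h0 : 0 ≤ t) (h1 : t ≤ 1) : cl t = t := by
  unfold cl
  rw [max_eq_right h0, min_eq_right h1]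

theorem swa_cl_zero {t : ℝ} (h : t ≤ 0) : cl t = 0 := by
  unfold cl
  rw [max_eq_left h]
  exact min_eq_right zero_le_one

theorem swa_cl_one {t : ℝ} (h : 1 ≤ t) : cl t = 1 := by
  unfold cl
  rw [max_eq_right (by linarith)]
  exact min_eq_left h

theorem swa_cl_mono {a b : ℝ} (h : a ≤ b) : cl a ≤ cl b :=
  min_le_min_left _ (max_le_max_left _ h)

theorem swa_cl_cont : Continuous cl := by
  unfold cl
  exact continuous_const.min (continuous_const.max continuous_id)

/-- moving `k` towards `cl k` does not change the clamp -/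
theorem swa_cl_conv (k : ℝ) {t : ℝ} (h1 : t ≤ 1) :
    cl ((1 - t) * k + t * cl k) = cl k := by
  rcases le_total k 0 with hk | hk
  · rw [swa_cl_zero hk]
    apply swa_cl_zero
    nlinarith
  · rcases le_total 1 k with hk1 | hk1
    · rw [swa_cl_one hk1]
      apply swa_cl_one
      nlinarith
    · rw [swa_cl_of_mem hk hk1]
      have : (1 - t) * k + t * k = k := by ring
      rw [this, swa_cl_of_mem hk hk1]

/-- the clamp of a convex combination is between -/
theorem swa_between (k S : ℝ) {t : ℝ} (h0 : 0 ≤ t) (h1 : t ≤ 1) (hS0 : 0 ≤ S) (hS1 : S ≤ 1) :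
    (cl k ≤ cl ((1 - t) * k + t * S) ∧ cl ((1 - t) * k + t * S) ≤ S) ∨
      (S ≤ cl ((1 - t) * k + t * S) ∧ cl ((1 - t) * k + t * S) ≤ cl k) := by
  have hS : cl S = S := swa_cl_of_mem hS0 hS1
  rcases le_total k S with hk | hk
  · left
    refine ⟨swa_cl_mono (by nlinarith), ?_⟩
    calc cl ((1 - t) * k + t * S) ≤ cl S := swa_cl_mono (by nlinarith)
      _ = S := hS
  · right
    refine ⟨?_, swa_cl_mono (by nlinarith)⟩
    calc S = cl S := hS.symm
      _ ≤ cl ((1 - t) * k + t * S) := swa_cl_mono (by nlinarith)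

/-- the identity (K) -/
theorem swa_K {κ ρ cc K : ℝ}
    (hK : (κ ≤ K ∧ K ≤ min cc (max κ (1 - ρ))) ∨ (min cc (max κ (1 - ρ)) ≤ K ∧ K ≤ κ)) :
    min cc (max K (1 - ρ)) = min cc (max κ (1 - ρ)) := by
  rcases hK with ⟨h1, h2⟩ | ⟨h1, h2⟩
  · have h3 : max K (1 - ρ) = max κ (1 - ρ) :=
      le_antisymm (max_le (h2.trans (min_le_right _ _)) (le_max_right _ _))
        (max_le_max_right _ h1)
    rw [h3]
  · refine le_antisymm (min_le_min_left _ (max_le_max_right _ h2)) ?_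
    exact le_min (min_le_left _ _) (h1.trans (le_max_left _ _))

/-! ### blocks and combings -/

section
variable {W : Type}

theorem swa_blk (y : Yb W) : 3 * (blk y : ℝ) ≤ max y.1 0 ∧ max y.1 0 < 3 * (blk y : ℝ) + 3 := by
  have h0 : (0:ℝ) ≤ max y.1 0 / 3 := by
    have := le_max_right y.1 0
    positivity
  have h1 := Nat.floor_le h0
  have h2 := Nat.lt_floor_add_one (max y.1 0 / 3)
  unfold blk
  constructor <;> linarith

theorem swa_rho_nonneg (s : ℝ) (n : ℕ) : 0 ≤ rho s n := swa_cl_nonneg _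
theorem swa_rho_le (s : ℝ) (n : ℕ) : rho s n ≤ 1 := swa_cl_le _
theorem swa_theta_nonneg (s : ℝ) (n : ℕ) : 0 ≤ theta s n := swa_cl_nonneg _
theorem swa_theta_le (s : ℝ) (n : ℕ) : theta s n ≤ 1 := swa_cl_le _
theorem swa_kap_nonneg (y : Yb W) (n : ℕ) : 0 ≤ kap y n := swa_cl_nonneg _
theorem swa_kap_le (y : Yb W) (n : ℕ) : kap y n ≤ 1 := swa_cl_le _
theorem swa_kapE_nonneg (y : Yb W) (n : ℕ) : 0 ≤ kapE y n :=
  (swa_kap_nonneg y n).trans (le_max_left _ _)
theorem swa_kapE_le (y : Yb W) (n : ℕ) : kapE y n ≤ 1 :=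
  max_le (swa_kap_le y n) (by linarith [swa_rho_nonneg y.1 n])
theorem swa_ccc_nonneg (y : Yb W) (n : ℕ) {a : ℝ} (ha : 0 ≤ a) : 0 ≤ ccc y n a :=
  add_nonneg (mul_nonneg (swa_kap_nonneg y n) (swa_rho_nonneg y.1 n)) ha
theorem swa_kapS_nonneg (y : Yb W) (n : ℕ) {a : ℝ} (ha : 0 ≤ a) : 0 ≤ kapS y n a :=
  le_min (swa_ccc_nonneg y n ha) (swa_kapE_nonneg y n)
theorem swa_kapS_le (y : Yb W) (n : ℕ) (a : ℝ) : kapS y n a ≤ 1 :=
  (min_le_right _ _).trans (swa_kapE_le y n)

/-- if `s ≥ 3 n + 2` then `ρ = 1` and `κ^S = κ` -/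
theorem swa_rho_one {s : ℝ} {n : ℕ} (hs : 3 * (n:ℝ) + 2 ≤ s) : rho s n = 1 :=
  swa_cl_one (by linarith)

theorem swa_kapE_eq {y : Yb W} {n : ℕ} (hr : rho y.1 n = 1) : kapE y n = kap y n := by
  unfold kapE
  rw [hr, sub_self, max_eq_left (swa_kap_nonneg y n)]

theorem swa_kapS_eq {y : Yb W} {n : ℕ} (hr : rho y.1 n = 1) {a : ℝ} (ha : 0 ≤ a) :
    kapS y n a = kap y n := by
  unfold kapS
  rw [swa_kapE_eq hr]
  apply min_eq_right
  unfold ccc
  rw [hr]
  linarith

variable [TopologicalSpace W] {c : W → W → ℝ → W}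

theorem swa_c_cl (hc : IsComb c) (x y : W) (τ : ℝ) : c x y τ = c x y (cl τ) := by
  rcases le_total τ 0 with h | h
  · rw [hc.of_nonpos x y τ h, swa_cl_zero h, hc.of_nonpos x y 0 le_rfl]
  · rcases le_total 1 τ with h1 | h1
    · rw [hc.of_one_le x y τ h1, swa_cl_one h1, hc.of_one_le x y 1 le_rfl]
    · rw [swa_cl_of_mem h h1]

theorem swa_tri (hc : IsComb c) (q v : W) {θ : ℝ} (h0 : 0 ≤ θ) (h1 : θ ≤ 1) (τ : ℝ) :
    c v (c q v θ) τ = c q v (1 - (1 - θ) * cl τ) := by
  have e0 := swa_cl_nonneg τ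
  have e1 := swa_cl_le τ
  rw [swa_c_cl hc, hc.symm q v θ, hc.assoc v q (1 - θ) (cl τ) (by linarith) (by linarith) e0 e1,
    hc.symm v q ((1 - θ) * cl τ)]

theorem swa_tri' (hc : IsComb c) (q v : W) {θ : ℝ} (h0 : 0 ≤ θ) (h1 : θ ≤ 1) (τ : ℝ) :
    c q (c v (c q v θ) τ) θ = c q v ((1 - (1 - θ) * cl τ) * θ) := by
  have e0 := swa_cl_nonneg τ
  have e1 := swa_cl_le τ
  have e2 : 0 ≤ (1 - θ) * cl τ := mul_nonneg (by linarith) e0
  have e3 : (1 - θ) * cl τ ≤ 1 := by nlinarith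
  rw [swa_tri hc q v h0 h1, hc.assoc q v _ θ (by linarith) (by linarith) h0 h1]

end

/-! ### the new point -/

section
variable {W : Type} (c : W → W → ℝ → W) (h : W → ℝ → W) (n : ℕ) (y : Yb W) (a τ : ℝ)

theorem swa_f2 {m : ℕ} (hm : m ≤ n) : (st1 c h n (y, a) τ).1.2.1 m = y.2.1 m := by
  change st1w c h n y a τ m = _
  unfold st1w
  rw [if_pos hm]

theorem swa_f3 : (st1 c h n (y, a) τ).1.2.1 (n + 1) = c (y.2.1 (n + 1)) (vOne c h y n a) τ := by
  change st1w c h n y a τ (n + 1) = _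
  unfold st1w
  rw [if_neg (by omega), if_pos rfl]

theorem swa_f4 : kap (st1 c h n (y, a) τ).1 n =
    cl ((1 - cl τ) * y.2.2 n + cl τ * kapS y n a) := by
  change cl (st1k n y a τ n) = _
  unfold st1k
  rw [if_neg (lt_irrefl n), if_pos rfl]

theorem swa_f5 : (st1 c h n (y, a) τ).2 =
    a + (kap y n - kap (st1 c h n (y, a) τ).1 n) * rho y.1 n := rfl

theorem swa_f6 {m : ℕ} (hm : m < n) : kap (st1 c h n (y, a) τ).1 m = kap y m := by
  change cl (st1k n y a τ m) = cl _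
  unfold st1k
  rw [if_pos hm]
  exact swa_cl_conv _ (swa_cl_le τ)

theorem swa_f7 {a : ℝ} (ha : 0 ≤ a) :
    (kap y n ≤ kap (st1 c h n (y, a) τ).1 n ∧ kap (st1 c h n (y, a) τ).1 n ≤ kapS y n a) ∨
      (kapS y n a ≤ kap (st1 c h n (y, a) τ).1 n ∧ kap (st1 c h n (y, a) τ).1 n ≤ kap y n) := by
  rw [swa_f4]
  exact swa_between _ _ (swa_cl_nonneg τ) (swa_cl_le τ) (swa_kapS_nonneg y n ha)
    (swa_kapS_le y n a)

theorem swa_ccc : ccc (st1 c h n (y, a) τ).1 n (st1 c h n (y, a) τ).2 = ccc y n a := by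
  rw [swa_f5]
  unfold ccc
  have : (st1 c h n (y, a) τ).1.1 = y.1 := rfl
  rw [this]
  ring

theorem swa_kapS {a : ℝ} (ha : 0 ≤ a) :
    kapS (st1 c h n (y, a) τ).1 n (st1 c h n (y, a) τ).2 = kapS y n a := by
  have h1 : (st1 c h n (y, a) τ).1.1 = y.1 := rfl
  have h2 := swa_f7 c h n y τ ha
  unfold kapS at h2 ⊢
  rw [swa_ccc]
  unfold kapE at h2 ⊢
  rw [h1]
  exact swa_K h2

theorem swa_aOne {a : ℝ} (ha : 0 ≤ a) :
    aOne (st1 c h n (y, a) τ).1 n (st1 c h n (y, a) τ).2 = aOne y n a := by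
  unfold aOne
  rw [swa_ccc, swa_kapS c h n y τ ha]

theorem swa_nonneg {a : ℝ} (ha : 0 ≤ a) : 0 ≤ (st1 c h n (y, a) τ).2 := by
  have r0 := swa_rho_nonneg y.1 n
  have r1 := swa_rho_le y.1 n
  have k0 := swa_kap_nonneg (st1 c h n (y, a) τ).1 n
  rw [swa_f5]
  rcases swa_f7 c h n y τ ha with ⟨_, h2⟩ | ⟨_, h2⟩
  · have h3 : kapS y n a ≤ kap y n * rho y.1 n + a := min_le_left _ _
    nlinarith
  · have := mul_nonneg (sub_nonneg.2 h2) r0
    linarith

/-- if `ρ = 1` then `κ` does not change -/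
theorem swa_kap_one {a : ℝ} (ha : 0 ≤ a) (hr : rho y.1 n = 1) :
    kap (st1 c h n (y, a) τ).1 n = kap y n := by
  have h1 := swa_f7 c h n y τ ha
  rw [swa_kapS_eq hr ha] at h1
  rcases h1 with ⟨h1, h2⟩ | ⟨h1, h2⟩
  · exact le_antisymm h2 h1
  · exact le_antisymm h2 h1

end

section
variable {W : Type} [TopologicalSpace W] {c : W → W → ℝ → W} (hc : IsComb c) (h : W → ℝ → W)
  (n : ℕ) (y : Yb W) (τ : ℝ)
include hc

/-- the key alternative: either `vOne` does not change or it moves along the segment -/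
theorem swa_vOne {a : ℝ} (ha : 0 ≤ a) :
    (theta y.1 n = 0 ∧ vOne c h (st1 c h n (y, a) τ).1 n (st1 c h n (y, a) τ).2 = vOne c h y n a)
    ∨ (0 < theta y.1 n ∧ 3 * (n:ℝ) + 2 ≤ y.1 ∧
      vOne c h y n a = c (h (y.2.1 n) (kap y n)) (y.2.1 (n + 1)) (theta y.1 n) ∧
      ∃ s', vOne c h (st1 c h n (y, a) τ).1 n (st1 c h n (y, a) τ).2 =
        c (h (y.2.1 n) (kap y n)) (y.2.1 (n + 1)) s') := by
  have h1 : (st1 c h n (y, a) τ).1.1 = y.1 := rfl
  have hv : vOne c h (st1 c h n (y, a) τ).1 n (st1 c h n (y, a) τ).2 =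
      c (h (y.2.1 n) (kapS y n a)) (c (y.2.1 (n + 1)) (vOne c h y n a) τ) (theta y.1 n) := by
    change c (h ((st1 c h n (y, a) τ).1.2.1 n) (kapS (st1 c h n (y, a) τ).1 n
      (st1 c h n (y, a) τ).2)) ((st1 c h n (y, a) τ).1.2.1 (n + 1))
      (theta (st1 c h n (y, a) τ).1.1 n) = _
    rw [swa_kapS c h n y τ ha, swa_f2 c h n y a τ le_rfl, swa_f3, h1]
  rcases (swa_theta_nonneg y.1 n).eq_or_lt with h0 | h0
  · left
    refine ⟨h0.symm, ?_⟩
    rw [hv, ← h0, hc.of_nonpos _ _ 0 le_rfl]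
    unfold vOne
    rw [← h0, hc.of_nonpos _ _ 0 le_rfl]
  · right
    have hs : 3 * (n:ℝ) + 2 ≤ y.1 := by
      by_contra hcon
      have : theta y.1 n = 0 := swa_cl_zero (by linarith [not_le.1 hcon])
      linarith
    have hk : kapS y n a = kap y n := swa_kapS_eq (swa_rho_one hs) ha
    have hv0 : vOne c h y n a = c (h (y.2.1 n) (kap y n)) (y.2.1 (n + 1)) (theta y.1 n) := by
      unfold vOne
      rw [hk]
    refine ⟨h0, hs, hv0, (1 - (1 - theta y.1 n) * cl τ) * theta y.1 n, ?_⟩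
    rw [hv, hk, hv0, swa_tri' hc _ _ h0.le (swa_theta_le y.1 n)]

/-- the tie condition is preserved -/
theorem swa_YY {D : Set (W × W)} (hstar : ∀ p q t, (p, q) ∈ D → (p, c p q t) ∈ D)
    {a : ℝ} (ha : 0 ≤ a) (hn : n = blk y) (hy : y ∈ YY h D) :
    (st1 c h n (y, a) τ).1 ∈ YY h D := by
  intro m hm1 hm2
  have h1 : (st1 c h n (y, a) τ).1.1 = y.1 := rfl
  rw [h1] at hm1 hm2
  obtain ⟨b1, b2⟩ := swa_blk y
  rw [← hn] at b1 b2
  have hpos : 0 ≤ y.1 := by
    have : (0:ℝ) ≤ m := Nat.cast_nonneg m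
    linarith
  rw [max_eq_left hpos] at b1 b2
  have hmn : m ≤ n := by
    have : (m:ℝ) < (n:ℝ) + 1 := by linarith
    exact_mod_cast Nat.lt_succ_iff.1 (by exact_mod_cast this)
  have hnm : n ≤ m + 1 := by
    have : (n:ℝ) ≤ (m:ℝ) + 1 := by linarith
    exact_mod_cast this
  rcases hmn.lt_or_eq with hlt | rfl
  · have : m + 1 ≤ n := hlt
    rw [swa_f2 c h n y a τ hmn, swa_f6 c h n y a τ hlt, swa_f2 c h n y a τ this]
    exact hy m hm1 hm2
  · have hr := swa_rho_one hm1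
    have hmem := hy m hm1 hm2
    have hk : kapS y m a = kap y m := swa_kapS_eq hr ha
    rw [swa_f2 c h m y a τ le_rfl, swa_f3, swa_kap_one c h m y τ ha hr]
    unfold vOne
    rw [hk, swa_tri hc _ _ (swa_theta_nonneg y.1 m) (swa_theta_le y.1 m)]
    exact hstar _ _ _ hmem

end

section
variable {X W : Type} [TopologicalSpace X] [TopologicalSpace W] {c : W → W → ℝ → W}
  (hc : IsComb c) {i : X → W} {r : W → X} {h : W → ℝ → W} (hs : IsStrong i r h)
include hc hs

/-- the invariant -/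
theorem swa_inv {D V₁ : Set (W × W)} {D₁ : Set (X × X)} (hD : TieOK c h r D V₁ D₁)
    (hV₁ : IsEnt V₁) (hD₁ : IsEnt D₁) (z : {z : Yb W × ℝ // 0 ≤ z.2 ∧ z.2 ≤ 4}) (τ : ℝ) :
    Inv c i h r D V₁ D₁ z (st1 c h (blk z.1.1) z.1 τ) := by
  obtain ⟨⟨y, a⟩, ha0, ha4⟩ := z
  simp only at ha0 ha4
  refine ⟨swa_nonneg c h (blk y) y τ ha0, fun hy => ?_⟩
  simp only at hy ⊢
  obtain ⟨b1, b2⟩ := swa_blk y
  -- the block is unchanged
  have hblk : blk (st1 c h (blk y) (y, a) τ).1 = blk y := rfl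
  generalize hn : blk y = n at *
  have hmem : 3 * (n:ℝ) + 2 ≤ y.1 → (h (y.2.1 n) (kap y n), y.2.1 (n + 1)) ∈ D := by
    intro hs2
    have hpos : 0 ≤ y.1 := by
      have : (0:ℝ) ≤ n := Nat.cast_nonneg n
      linarith
    rw [max_eq_left hpos] at b2
    exact hy n hs2 b2.le
  refine ⟨swa_YY hc h n y τ hD.star ha0 hn.symm hy, ?_, fun ha2 => ?_⟩
  · -- R
    unfold RR
    rw [hblk, hn]
    unfold Rn
    rw [swa_aOne c h n y τ ha0]
    rcases swa_vOne hc h n y τ ha0 with ⟨_, h2⟩ | ⟨_, h2, h3, s', h4⟩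
    · rw [h2]
      exact hV₁.refl _
    · rw [h3, h4]
      exact hD.smallV _ _ (hmem h2) _ _ _
  · -- `2 ≤ a`
    have hE : kapS y n a = kapE y n := by
      apply min_eq_right
      have e1 := swa_kapE_le y n
      have e2 : a ≤ ccc y n a := by
        have := mul_nonneg (swa_kap_nonneg y n) (swa_rho_nonneg y.1 n)
        unfold ccc
        linarith
      linarith
    -- the new `κ^E`
    have hE' : kapE (st1 c h n (y, a) τ).1 n = kapE y n := by
      have h7 := swa_f7 c h n y τ ha0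
      rw [hE] at h7
      have h1 : (st1 c h n (y, a) τ).1.1 = y.1 := rfl
      unfold kapE at h7 ⊢
      rw [h1]
      rcases h7 with ⟨u1, u2⟩ | ⟨u1, u2⟩
      · exact le_antisymm (max_le u2 (le_max_right _ _)) (max_le_max_right _ u1)
      · exact le_antisymm (max_le_max_right _ u2)
          (max_le ((le_max_left _ _).trans (u1.trans (le_max_left _ _))) (le_max_right _ _))
    have hcc : 2 ≤ ccc (st1 c h n (y, a) τ).1 n (st1 c h n (y, a) τ).2 := by
      rw [swa_ccc]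
      have := mul_nonneg (swa_kap_nonneg y n) (swa_rho_nonneg y.1 n)
      unfold ccc
      linarith
    have hS' := swa_kapS c h n y τ ha0
    constructor
    · -- u
      unfold uu
      rw [hblk, hn]
      unfold un
      rcases swa_vOne hc h n y τ ha0 with ⟨_, h2⟩ | ⟨_, h2, h3, s', h4⟩
      · unfold vOne at h2
        rw [hS', hE, hE'.symm] at h2
        rw [h2]
        rw [hE']
        exact hD₁.refl _
      · unfold vOne at h3 h4
        rw [hE] at h3
        rw [hS', hE, hE'.symm] at h4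
        rw [h3, h4]
        exact hD.smallD _ _ (hmem h2) _ _
    · intro a' ha'
      have h8 : ccc (st1 c h n (y, a) τ).1 n (st1 c h n (y, a) τ).2 ≤
          ccc (st1 c h n (y, a) τ).1 n a' := by
        unfold ccc
        linarith
      have h9 := swa_kapE_le (st1 c h n (y, a) τ).1 n
      have h10 : kapS (st1 c h n (y, a) τ).1 n a' = kapE (st1 c h n (y, a) τ).1 n :=
        min_eq_right (by linarith)
      unfold RR uu
      rw [hblk]
      unfold Rn un
      rw [hs.of_one_le]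
      · unfold vOne
        rw [h10]
      · unfold aOne
        rw [h10]
        linarith

/-! ### continuity -/

omit hc hs [TopologicalSpace X] in
theorem swa_cont_w (m : ℕ) : Continuous fun p : Yb W × ℝ => p.1.2.1 m :=
  (continuous_apply m).comp (continuous_fst.comp (continuous_snd.comp continuous_fst))

omit hc hs [TopologicalSpace X] in
theorem swa_cont_k (m : ℕ) : Continuous fun p : Yb W × ℝ => p.1.2.2 m :=
  (continuous_apply m).comp (continuous_snd.comp (continuous_snd.comp continuous_fst))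

omit hc hs [TopologicalSpace X] in
theorem swa_cont_kap (n : ℕ) : Continuous fun p : Yb W × ℝ => kap p.1 n :=
  swa_cl_cont.comp (swa_cont_k n)

omit hc hs [TopologicalSpace X] in
theorem swa_cont_rho (n : ℕ) : Continuous fun p : Yb W × ℝ => rho p.1.1 n :=
  swa_cl_cont.comp (((continuous_fst.comp continuous_fst).sub continuous_const).sub
    continuous_const)

omit hc hs [TopologicalSpace X] in
theorem swa_cont_theta (n : ℕ) : Continuous fun p : Yb W × ℝ => theta p.1.1 n :=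
  swa_cl_cont.comp (((continuous_fst.comp continuous_fst).sub continuous_const).sub
    continuous_const)

omit hc hs [TopologicalSpace X] in
theorem swa_cont_kapE (n : ℕ) : Continuous fun p : Yb W × ℝ => kapE p.1 n :=
  (swa_cont_kap n).max (continuous_const.sub (swa_cont_rho n))

omit hc hs [TopologicalSpace X] in
theorem swa_cont_ccc (n : ℕ) : Continuous fun p : Yb W × ℝ => ccc p.1 n p.2 :=
  ((swa_cont_kap n).mul (swa_cont_rho n)).add continuous_snd

omit hc hs [TopologicalSpace X] in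
theorem swa_cont_kapS (n : ℕ) : Continuous fun p : Yb W × ℝ => kapS p.1 n p.2 :=
  (swa_cont_ccc n).min (swa_cont_kapE n)

omit hc hs [TopologicalSpace X] in
theorem swa_cont_aOne (n : ℕ) : Continuous fun p : Yb W × ℝ => aOne p.1 n p.2 :=
  (swa_cont_ccc n).sub (swa_cont_kapS n)

theorem swa_cont_vOne (n : ℕ) : Continuous fun p : Yb W × ℝ => vOne c h p.1 n p.2 :=
  hc.cont.comp ((hs.cont_h.comp ((swa_cont_w n).prodMk (swa_cont_kapS n))).prodMk
    ((swa_cont_w (n + 1)).prodMk (swa_cont_theta n)))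

theorem swa_cont_Rn (n : ℕ) : Continuous fun p : Yb W × ℝ => Rn c h n p.1 p.2 :=
  hs.cont_h.comp ((swa_cont_vOne hc hs n).prodMk (swa_cont_aOne n))

theorem swa_cont_st1w (n m : ℕ) :
    Continuous fun p : (Yb W × ℝ) × ℝ => st1w c h n p.1.1 p.1.2 p.2 m := by
  unfold st1w
  by_cases h1 : m ≤ n
  · simp only [if_pos h1]
    exact (swa_cont_w m).comp continuous_fst
  · simp only [if_neg h1]
    by_cases h2 : m = n + 1
    · simp only [if_pos h2]
      exact hc.cont.comp (((swa_cont_w m).comp continuous_fst).prodMk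
        (((swa_cont_vOne hc hs n).comp continuous_fst).prodMk continuous_snd))
    · simp only [if_neg h2]
      exact hc.cont.comp (((swa_cont_w m).comp continuous_fst).prodMk
        (((swa_cont_Rn hc hs n).comp continuous_fst).prodMk continuous_snd))

omit hc hs [TopologicalSpace X] in
theorem swa_cont_st1k (n m : ℕ) :
    Continuous fun p : (Yb W × ℝ) × ℝ => st1k n p.1.1 p.1.2 p.2 m := by
  have hcl : Continuous fun p : (Yb W × ℝ) × ℝ => cl p.2 := swa_cl_cont.comp continuous_snd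
  have hk : Continuous fun p : (Yb W × ℝ) × ℝ => p.1.1.2.2 m :=
    (swa_cont_k m).comp continuous_fst
  have hS : Continuous fun p : (Yb W × ℝ) × ℝ => kapS p.1.1 n p.1.2 :=
    (swa_cont_kapS n).comp continuous_fst
  have hA : Continuous fun p : (Yb W × ℝ) × ℝ => aOne p.1.1 n p.1.2 :=
    (swa_cont_aOne n).comp continuous_fst
  unfold st1k
  by_cases h1 : m < n
  · simp only [if_pos h1]
    exact ((continuous_const.sub hcl).mul hk).add (hcl.mul (swa_cl_cont.comp hk))
  · simp only [if_neg h1]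
    by_cases h2 : m = n
    · simp only [if_pos h2]
      exact ((continuous_const.sub hcl).mul hk).add (hcl.mul hS)
    · simp only [if_neg h2]
      exact ((continuous_const.sub hcl).mul hk).add (hcl.mul (swa_cl_cont.comp
        ((hA.sub continuous_const).add continuous_const)))

theorem swa_cont_st1 (n : ℕ) :
    Continuous fun p : (Yb W × ℝ) × ℝ => st1 c h n p.1 p.2 := by
  have h1 : Continuous fun p : (Yb W × ℝ) × ℝ => p.1.1.1 :=
    continuous_fst.comp (continuous_fst.comp continuous_fst)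
  have h2 : Continuous fun p : (Yb W × ℝ) × ℝ => p.1.2 := continuous_snd.comp continuous_fst
  exact (h1.prodMk ((continuous_pi fun m => swa_cont_st1w hc hs n m).prodMk
    (continuous_pi fun m => swa_cont_st1k n m))).prodMk
    (h2.add ((((swa_cont_kap n).comp continuous_fst).sub
      (swa_cl_cont.comp (swa_cont_st1k n n))).mul ((swa_cont_rho n).comp continuous_fst)))

/-! ### the matching of the blocks -/

omit hc hs [TopologicalSpace X] [TopologicalSpace W] in
/-- block `n` at its right end -/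
theorem swa_m1 {n : ℕ} {y : Yb W} (hy : y.1 = 3 * (n:ℝ) + 3) {a : ℝ} (ha : 0 ≤ a) :
    kapS y n a = kap y n ∧ aOne y n a = a ∧ theta y.1 n = 1 ∧ rho y.1 n = 1 := by
  have hr : rho y.1 n = 1 := swa_rho_one (by linarith)
  have hk : kapS y n a = kap y n := swa_kapS_eq hr ha
  refine ⟨hk, ?_, swa_cl_one (by linarith), hr⟩
  unfold aOne
  rw [hk]
  unfold ccc
  rw [hr]
  ring

omit hc hs [TopologicalSpace X] [TopologicalSpace W] in
/-- block `n + 1` at its left end -/
theorem swa_m2 {n : ℕ} {y : Yb W} (hy : y.1 = 3 * (n:ℝ) + 3) (a : ℝ) :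
    kapS y (n + 1) a = min a 1 ∧ aOne y (n + 1) a = a - min a 1 ∧ theta y.1 (n + 1) = 0 ∧
      rho y.1 (n + 1) = 0 := by
  have hr : rho y.1 (n + 1) = 0 := swa_cl_zero (by push_cast; linarith)
  have hcc : ccc y (n + 1) a = a := by
    unfold ccc
    rw [hr]
    ring
  have hE : kapE y (n + 1) = 1 := by
    unfold kapE
    rw [hr, sub_zero]
    exact max_eq_right (swa_kap_le y _)
  have hk : kapS y (n + 1) a = min a 1 := by
    unfold kapS
    rw [hcc, hE]
  refine ⟨hk, ?_, swa_cl_zero (by push_cast; linarith), hr⟩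
  unfold aOne
  rw [hk, hcc]

omit hc hs [TopologicalSpace X] [TopologicalSpace W] in
theorem swa_st1k_succ {n : ℕ} {y : Yb W} (hy : y.1 = 3 * (n:ℝ) + 3) {a : ℝ} (ha : 0 ≤ a)
    (τ : ℝ) (m : ℕ) : st1k n y a τ m = st1k (n + 1) y a τ m := by
  obtain ⟨e1, e2, _, _⟩ := swa_m1 hy ha
  obtain ⟨f1, f2, _, _⟩ := swa_m2 hy a
  unfold st1k
  rw [e1, e2, f1, f2]
  rcases lt_trichotomy m n with h1 | h1 | h1
  · rw [if_pos h1, if_pos (by omega)]
  · subst h1
    rw [if_neg (lt_irrefl m), if_pos rfl, if_pos (by omega)]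
    rfl
  · rw [if_neg (by omega), if_neg (by omega), if_neg (by omega)]
    by_cases h2 : m = n + 1
    · rw [if_pos h2, h2]
      have : cl (a - (((n + 1 : ℕ) : ℝ) - n) + 1) = min a 1 := by
        push_cast
        have : a - ((n:ℝ) + 1 - n) + 1 = a := by ring
        rw [this]
        unfold cl
        rw [max_eq_right ha, min_comm]
      rw [this]
    · rw [if_neg h2]
      have h3 : n + 2 ≤ m := by omega
      have h4 : (n:ℝ) + 2 ≤ m := by exact_mod_cast h3
      have : cl (a - ((m : ℝ) - n) + 1) = cl (a - min a 1 - ((m : ℝ) - ((n + 1 : ℕ) : ℝ)) + 1) := by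
        push_cast
        rcases le_total a 1 with h5 | h5
        · rw [min_eq_left h5, swa_cl_zero (by linarith), swa_cl_zero (by linarith)]
        · rw [min_eq_right h5]
          congr 1
          ring
      rw [this]

theorem swa_st1w_succ {n : ℕ} {y : Yb W} (hy : y.1 = 3 * (n:ℝ) + 3) {a : ℝ} (ha : 0 ≤ a)
    (τ : ℝ) (m : ℕ) : st1w c h n y a τ m = st1w c h (n + 1) y a τ m := by
  obtain ⟨e1, e2, e3, _⟩ := swa_m1 hy ha
  obtain ⟨f1, f2, f3, _⟩ := swa_m2 hy a
  have hv : vOne c h y n a = y.2.1 (n + 1) := by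
    unfold vOne
    rw [e3, hc.of_one_le _ _ 1 le_rfl]
  have hv' : vOne c h y (n + 1) a = h (y.2.1 (n + 1)) (min a 1) := by
    unfold vOne
    rw [f3, hc.of_nonpos _ _ 0 le_rfl, f1]
  have hR : Rn c h n y a = h (y.2.1 (n + 1)) a := by
    unfold Rn
    rw [hv, e2]
  have hh : h (y.2.1 (n + 1)) (min a 1) = h (y.2.1 (n + 1)) a := by
    rcases le_total a 1 with h5 | h5
    · rw [min_eq_left h5]
    · rw [min_eq_right h5, hs.of_one_le _ 1 le_rfl, hs.of_one_le _ a h5]
  have hR' := Rn_succ hc hs n y a hy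
  unfold st1w
  by_cases h1 : m ≤ n
  · rw [if_pos h1, if_pos (by omega)]
  · rw [if_neg h1]
    by_cases h2 : m = n + 1
    · rw [if_pos h2, if_pos (by omega), hv, h2, hc.diag]
    · rw [if_neg h2, if_neg (by omega)]
      by_cases h3 : m = n + 1 + 1
      · rw [if_pos h3, hv', hh, hR]
      · rw [if_neg h3, hR']

theorem swa_st1_succ {n : ℕ} {z : Yb W × ℝ} (hy : z.1.1 = 3 * (n:ℝ) + 3) (ha : 0 ≤ z.2)
    (τ : ℝ) : st1 c h n z τ = st1 c h (n + 1) z τ := by
  obtain ⟨e1, _, _, e4⟩ := swa_m1 hy ha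
  obtain ⟨_, _, _, f4⟩ := swa_m2 hy z.2
  have h1 : st1w c h n z.1 z.2 τ = st1w c h (n + 1) z.1 z.2 τ :=
    funext fun m => swa_st1w_succ hc hs hy ha τ m
  have h2 : st1k n z.1 z.2 τ = st1k (n + 1) z.1 z.2 τ :=
    funext fun m => swa_st1k_succ hy ha τ m
  have h3 : cl (st1k n z.1 z.2 τ n) = kap z.1 n := by
    unfold st1k
    rw [if_neg (lt_irrefl n), if_pos rfl, e1]
    exact swa_cl_conv _ (swa_cl_le τ)
  unfold st1
  rw [h3, h1, h2, e4, f4]
  simp

end

section Sw
variable {X W : Type}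

variable [TopologicalSpace X] [TopologicalSpace W] {c : W → W → ℝ → W} (hc : IsComb c)
  {i : X → W} {r : W → X} {h : W → ℝ → W} (hs : IsStrong i r h)
include hc hs

theorem step1 {D V₁ : Set (W × W)} {D₁ : Set (X × X)} (hD : TieOK c h r D V₁ D₁)
    (hV₁ : IsEnt V₁) (hD₁ : IsEnt D₁) :
    HT (Inv c i h r D V₁ D₁) (fun z => z.1) (fun z => st1 c h (blk z.1.1) z.1 1) := by
  refine ⟨fun z τ => st1 c h (blk z.1.1) z.1 τ, ?_, ?_, ?_, fun z τ => swa_inv hc hs hD hV₁ hD₁ z τ⟩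
  · -- continuity
    have hσ : Continuous fun p : {z : Yb W × ℝ // 0 ≤ z.2 ∧ z.2 ≤ 4} × ℝ => p.1.1.1.1 :=
      continuous_fst.comp (continuous_fst.comp (continuous_subtype_val.comp continuous_fst))
    have hF : ∀ n : ℕ, Continuous fun p : {z : Yb W × ℝ // 0 ≤ z.2 ∧ z.2 ≤ 4} × ℝ =>
        st1 c h n p.1.1 p.2 := fun n =>
      (swa_cont_st1 hc hs n).comp ((continuous_subtype_val.comp continuous_fst).prodMk
        continuous_snd)
    exact continuous_blocks (A := {z : Yb W × ℝ // 0 ≤ z.2 ∧ z.2 ≤ 4} × ℝ) (T := Yb W × ℝ)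
      (σ := fun p => p.1.1.1.1) hσ (F := fun n p => st1 c h n p.1.1 p.2)
      (fun n => (hF n).continuousOn) (fun n p hp => swa_st1_succ hc hs hp p.1.2.1 p.2)
  · -- `τ ≤ 0`
    intro z τ hτ
    change st1 c h (blk z.1.1) z.1 τ = z.1
    generalize blk z.1.1 = n
    have hcl : cl τ = 0 := swa_cl_zero hτ
    have h1 : st1w c h n z.1.1 z.1.2 τ = z.1.1.2.1 := by
      funext m
      unfold st1w
      split_ifs
      · rfl
      · exact hc.of_nonpos _ _ _ hτ
      · exact hc.of_nonpos _ _ _ hτ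
    have h2 : st1k n z.1.1 z.1.2 τ = z.1.1.2.2 := by
      funext m
      unfold st1k
      rw [hcl]
      split_ifs <;> ring
    unfold st1
    rw [h1, h2]
    have h3 : z.1.2 + (kap z.1.1 n - cl (z.1.1.2.2 n)) * rho z.1.1.1 n = z.1.2 := by
      unfold kap
      ring
    rw [h3]
  · -- `1 ≤ τ`
    intro z τ hτ
    change st1 c h (blk z.1.1) z.1 τ = st1 c h (blk z.1.1) z.1 1
    generalize blk z.1.1 = n
    have hcl : cl τ = cl 1 := by rw [swa_cl_one hτ, swa_cl_one le_rfl]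
    have h1 : st1w c h n z.1.1 z.1.2 τ = st1w c h n z.1.1 z.1.2 1 := by
      funext m
      unfold st1w
      split_ifs
      · rfl
      · rw [hc.of_one_le _ _ _ hτ, hc.of_one_le _ _ _ le_rfl]
      · rw [hc.of_one_le _ _ _ hτ, hc.of_one_le _ _ _ le_rfl]
    have h2 : st1k n z.1.1 z.1.2 τ = st1k n z.1.1 z.1.2 1 := by
      funext m
      unfold st1k
      rw [hcl]
    unfold st1
    rw [h1, h2]

end Sw

end Pool.Agent.TOR
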