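import Pool.Agent.Lib.MP_5a68e6_TOR.Defs2
import Pool.Agent.Lib.MP_5a68e6_TOR.Ent

/-! Project TOR: swindle space, block gluing, continuity of `R` and `u`, values -/

set_option autoImplicit false

namespace Pool.Agent.TOR

open Set Filter Topology TopologicalSpace Cardinal

/-! ### the clamp -/

theorem swg_continuous_cl : Continuous cl := by
  unfold cl
  exact continuous_const.min (continuous_const.max continuous_id)

theorem swg_cl_nonneg (t : ℝ) : 0 ≤ cl t := le_min zero_le_one (le_max_left _ _)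

theorem swg_cl_le_one (t : ℝ) : cl t ≤ 1 := min_le_left _ _

theorem swg_cl_of_nonpos {t : ℝ} (ht : t ≤ 0) : cl t = 0 := by
  unfold cl
  rw [max_eq_left ht]
  exact min_eq_right zero_le_one

theorem swg_cl_of_one_le {t : ℝ} (ht : 1 ≤ t) : cl t = 1 := by
  unfold cl
  exact min_eq_left (le_max_of_le_right ht)

theorem swg_locallyFinite (a b : ℝ) :
    LocallyFinite fun n : ℕ => Icc (3 * (n : ℝ) + a) (3 * (n : ℝ) + b) := by
  intro x
  refine ⟨Iio (x + 1), Iio_mem_nhds (by linarith), ?_⟩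
  refine (finite_Iic ⌈|x + 1 - a|⌉₊).subset ?_
  rintro n ⟨z, ⟨hz1, _⟩, hz2⟩
  have h1 : 3 * (n : ℝ) + a < x + 1 := lt_of_le_of_lt hz1 hz2
  have h2 : (n : ℝ) ≤ |x + 1 - a| := by
    have h3 := le_abs_self (x + 1 - a)
    have h4 : (0 : ℝ) ≤ n := Nat.cast_nonneg n
    linarith
  have h3 : (n : ℝ) ≤ (⌈|x + 1 - a|⌉₊ : ℝ) := h2.trans (Nat.le_ceil _)
  exact mem_Iic.2 (by exact_mod_cast h3)

section Sw
variable {X W : Type}

/-- block gluing -/
theorem continuous_blocks {A T : Type*} [TopologicalSpace A] [TopologicalSpace T] {σ : A → ℝ}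
    (hσ : Continuous σ) {F : ℕ → A → T} (hF : ∀ n, ContinuousOn (F n) {a | 3 * (n:ℝ) ≤ max (σ a) 0 ∧ max (σ a) 0 ≤ 3 * (n:ℝ) + 3})
    (hm : ∀ (n : ℕ) (a : A), σ a = 3 * (n:ℝ) + 3 → F n a = F (n + 1) a) :
    Continuous fun a => F ⌊max (σ a) 0 / 3⌋₊ a := by
  have hm0 : Continuous fun a => max (σ a) 0 := hσ.max continuous_const
  have hlf : LocallyFinite fun n : ℕ =>
      {a | 3 * (n:ℝ) ≤ max (σ a) 0 ∧ max (σ a) 0 ≤ 3 * (n:ℝ) + 3} := by
    have h1 := (swg_locallyFinite 0 3).preimage_continuous hm0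
    refine h1.subset fun n a ha => ?_
    exact ⟨by simpa using ha.1, ha.2⟩
  refine hlf.continuous ?_ ?_ ?_
  · refine eq_univ_of_forall fun a => mem_iUnion.2 ⟨⌊max (σ a) 0 / 3⌋₊, ?_⟩
    have h0 : 0 ≤ max (σ a) 0 / 3 := div_nonneg (le_max_right _ _) (by norm_num)
    have h1 := Nat.floor_le h0
    have h2 := (Nat.lt_floor_add_one (max (σ a) 0 / 3)).le
    constructor
    · linarith
    · linarith
  · intro n
    exact (isClosed_le continuous_const hm0).inter (isClosed_le hm0 continuous_const)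
  · intro n
    refine (hF n).congr fun a ha => ?_
    obtain ⟨h1, h2⟩ := ha
    rcases h2.lt_or_eq with h3 | h3
    · have h4 : ⌊max (σ a) 0 / 3⌋₊ = n := by
        rw [Nat.floor_eq_iff (div_nonneg (le_max_right _ _) (by norm_num))]
        constructor
        · linarith
        · linarith
      show F ⌊max (σ a) 0 / 3⌋₊ a = F n a
      rw [h4]
    · have h4 : ⌊max (σ a) 0 / 3⌋₊ = n + 1 := by
        rw [Nat.floor_eq_iff (div_nonneg (le_max_right _ _) (by norm_num))]
        push_cast
        constructor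
        · linarith
        · linarith
      have h5 : σ a = 3 * (n:ℝ) + 3 := by
        rcases max_choice (σ a) 0 with h6 | h6
        · rw [← h6]; exact h3
        · rw [h6] at h3
          have h7 : (0 : ℝ) ≤ n := Nat.cast_nonneg n
          linarith
      show F ⌊max (σ a) 0 / 3⌋₊ a = F n a
      rw [h4]
      exact (hm n a h5).symm

/-! ### values of the auxiliary functions -/

theorem swg_kap_nonneg (y : Yb W) (n : ℕ) : 0 ≤ kap y n := swg_cl_nonneg _

theorem swg_kap_le_one (y : Yb W) (n : ℕ) : kap y n ≤ 1 := swg_cl_le_one _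

theorem swg_rho_nonneg (s : ℝ) (n : ℕ) : 0 ≤ rho s n := swg_cl_nonneg _

theorem swg_kapE_le_one (y : Yb W) (n : ℕ) : kapE y n ≤ 1 :=
  max_le (swg_kap_le_one y n) (by linarith [swg_rho_nonneg y.1 n])

theorem swg_le_ccc (y : Yb W) (n : ℕ) (a : ℝ) : a ≤ ccc y n a := by
  unfold ccc
  have := mul_nonneg (swg_kap_nonneg y n) (swg_rho_nonneg y.1 n)
  linarith

variable [TopologicalSpace X] [TopologicalSpace W]

theorem swg_cont_kap (n : ℕ) : Continuous fun y : Yb W => kap y n :=
  swg_continuous_cl.comp ((continuous_apply n).comp (continuous_snd.comp continuous_snd))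

theorem swg_cont_rho (n : ℕ) : Continuous fun y : Yb W => rho y.1 n :=
  swg_continuous_cl.comp ((continuous_fst.sub continuous_const).sub continuous_const)

theorem swg_cont_theta (n : ℕ) : Continuous fun y : Yb W => theta y.1 n :=
  swg_continuous_cl.comp ((continuous_fst.sub continuous_const).sub continuous_const)

theorem swg_cont_kapE (n : ℕ) : Continuous fun y : Yb W => kapE y n :=
  (swg_cont_kap n).max (continuous_const.sub (swg_cont_rho n))

theorem swg_cont_w (n : ℕ) : Continuous fun y : Yb W => y.2.1 n :=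
  (continuous_apply n).comp (continuous_fst.comp continuous_snd)

theorem swg_cont_ccc (n : ℕ) : Continuous fun p : Yb W × ℝ => ccc p.1 n p.2 :=
  (((swg_cont_kap n).comp continuous_fst).mul ((swg_cont_rho n).comp continuous_fst)).add
    continuous_snd

theorem swg_cont_kapS (n : ℕ) : Continuous fun p : Yb W × ℝ => kapS p.1 n p.2 :=
  (swg_cont_ccc n).min ((swg_cont_kapE n).comp continuous_fst)

theorem swg_cont_aOne (n : ℕ) : Continuous fun p : Yb W × ℝ => aOne p.1 n p.2 :=
  (swg_cont_ccc n).sub (swg_cont_kapS n)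

variable {c : W → W → ℝ → W} (hc : IsComb c)
  {i : X → W} {r : W → X} {h : W → ℝ → W} (hs : IsStrong i r h)
include hc hs

theorem swg_cont_vOne (n : ℕ) : Continuous fun p : Yb W × ℝ => vOne c h p.1 n p.2 := by
  have h1 : Continuous fun p : Yb W × ℝ => h (p.1.2.1 n) (kapS p.1 n p.2) :=
    hs.cont_h.comp (((swg_cont_w n).comp continuous_fst).prodMk (swg_cont_kapS n))
  exact hc.cont.comp (h1.prodMk (((swg_cont_w (n + 1)).comp continuous_fst).prodMk
    ((swg_cont_theta n).comp continuous_fst)))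

theorem swg_cont_Rn (n : ℕ) : Continuous fun p : Yb W × ℝ => Rn c h n p.1 p.2 :=
  hs.cont_h.comp ((swg_cont_vOne hc hs n).prodMk (swg_cont_aOne n))

theorem swg_cont_un (n : ℕ) : Continuous fun y : Yb W => un c h r n y := by
  have h1 : Continuous fun y : Yb W => h (y.2.1 n) (kapE y n) :=
    hs.cont_h.comp ((swg_cont_w n).prodMk (swg_cont_kapE n))
  exact hs.cont_r.comp (hc.cont.comp (h1.prodMk ((swg_cont_w (n + 1)).prodMk (swg_cont_theta n))))

theorem swg_h_h (w : W) (a : ℝ) : h (h w (min a 1)) (a - min a 1) = h w a := by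
  rcases le_total a 1 with h1 | h1
  · rw [min_eq_left h1, sub_self, hs.of_nonpos _ _ le_rfl]
  · rw [min_eq_right h1, hs.of_one_le w 1 le_rfl, hs.fix, hs.of_one_le w a h1]

theorem Rn_succ (n : ℕ) (y : Yb W) (a : ℝ) (hy : y.1 = 3 * (n:ℝ) + 3) :
    Rn c h n y a = Rn c h (n + 1) y a := by
  have e1 : rho y.1 n = 1 := swg_cl_of_one_le (by rw [hy]; linarith)
  have e2 : theta y.1 n = 1 := swg_cl_of_one_le (by rw [hy]; linarith)
  have e3 : rho y.1 (n + 1) = 0 := swg_cl_of_nonpos (by rw [hy]; push_cast; linarith)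
  have e4 : theta y.1 (n + 1) = 0 := swg_cl_of_nonpos (by rw [hy]; push_cast; linarith)
  have e5 : kapE y n = kap y n := by
    unfold kapE
    rw [e1, sub_self]
    exact max_eq_left (swg_kap_nonneg y n)
  have e6 : kapE y (n + 1) = 1 := by
    unfold kapE
    rw [e3, sub_zero]
    exact max_eq_right (swg_kap_le_one y _)
  have e7 : aOne y n a = max a 0 := by
    unfold aOne kapS ccc
    rw [e5, e1, mul_one]
    rcases le_total a 0 with h1 | h1
    · rw [max_eq_right h1, min_eq_left (by linarith), sub_self]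
    · rw [max_eq_left h1, min_eq_right (by linarith)]
      ring
  have e8 : kapS y (n + 1) a = min a 1 := by
    unfold kapS ccc
    rw [e6, e3, mul_zero, zero_add]
  have e9 : aOne y (n + 1) a = a - min a 1 := by
    unfold aOne
    rw [e8]
    unfold ccc
    rw [e3, mul_zero, zero_add]
  unfold Rn
  rw [e7, e9]
  unfold vOne
  rw [e2, e4, e8, hc.of_one_le _ _ _ le_rfl, hc.of_nonpos _ _ _ le_rfl, swg_h_h hc hs]
  rcases le_total a 0 with h1 | h1
  · rw [max_eq_right h1, hs.of_nonpos _ _ le_rfl, hs.of_nonpos _ _ h1]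
  · rw [max_eq_left h1]

theorem un_succ (n : ℕ) (y : Yb W) (hy : y.1 = 3 * (n:ℝ) + 3) :
    un c h r n y = un c h r (n + 1) y := by
  have e2 : theta y.1 n = 1 := swg_cl_of_one_le (by rw [hy]; linarith)
  have e3 : rho y.1 (n + 1) = 0 := swg_cl_of_nonpos (by rw [hy]; push_cast; linarith)
  have e4 : theta y.1 (n + 1) = 0 := swg_cl_of_nonpos (by rw [hy]; push_cast; linarith)
  have e6 : kapE y (n + 1) = 1 := by
    unfold kapE
    rw [e3, sub_zero]
    exact max_eq_right (swg_kap_le_one y _)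
  unfold un
  rw [e2, e4, e6, hc.of_one_le _ _ _ le_rfl, hc.of_nonpos _ _ _ le_rfl,
    hs.of_one_le _ _ le_rfl, hs.ri]

theorem continuous_RR : Continuous fun p : Yb W × ℝ => RR c h p.1 p.2 := by
  have h1 := continuous_blocks (A := Yb W × ℝ) (T := W) (σ := fun p => p.1.1)
    (F := fun n p => Rn c h n p.1 p.2) (continuous_fst.comp continuous_fst)
    (fun n => (swg_cont_Rn hc hs n).continuousOn) (fun n p hp => Rn_succ hc hs n p.1 p.2 hp)
  exact h1

theorem continuous_uu : Continuous (uu c h r) := by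
  have h1 := continuous_blocks (A := Yb W) (T := X) (σ := fun y => y.1)
    (F := fun n y => un c h r n y) continuous_fst
    (fun n => (swg_cont_un hc hs n).continuousOn) (fun n y hy => un_succ hc hs n y hy)
  exact h1

theorem isOpen_YY {D : Set (W × W)} (hD : IsOpen D) : IsOpen (YY h D) := by
  have h1 : (YY h D)ᶜ = ⋃ n : ℕ, {y : Yb W | (3 * (n : ℝ) + 2 ≤ y.1 ∧ y.1 ≤ 3 * (n : ℝ) + 3) ∧
      (h (y.2.1 n) (kap y n), y.2.1 (n + 1)) ∉ D} := by
    ext y
    simp only [YY, mem_compl_iff, mem_setOf_eq, mem_iUnion, not_forall]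
    constructor
    · rintro ⟨n, h2, h3, h4⟩
      exact ⟨n, ⟨h2, h3⟩, h4⟩
    · rintro ⟨n, ⟨h2, h3⟩, h4⟩
      exact ⟨n, h2, h3, h4⟩
  rw [← isClosed_compl_iff, h1]
  refine LocallyFinite.isClosed_iUnion ?_ ?_
  · have h2 := (swg_locallyFinite 2 3).preimage_continuous
      (continuous_fst : Continuous fun y : Yb W => y.1)
    exact h2.subset fun n y hy => hy.1
  · intro n
    have h2 : Continuous fun y : Yb W => (h (y.2.1 n) (kap y n), y.2.1 (n + 1)) :=
      (hs.cont_h.comp ((swg_cont_w n).prodMk (swg_cont_kap n))).prodMk (swg_cont_w (n + 1))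
    exact ((isClosed_le continuous_const continuous_fst).inter
      (isClosed_le continuous_fst continuous_const)).inter (hD.isClosed_compl.preimage h2)

theorem RR_eq_i (y : Yb W) (a : ℝ) (ha : 2 ≤ a) : RR c h y a = i (uu c h r y) := by
  unfold RR uu Rn un
  have h1 := swg_le_ccc y (blk y) a
  have h2 := swg_kapE_le_one y (blk y)
  have e1 : kapS y (blk y) a = kapE y (blk y) := min_eq_right (by linarith)
  have e2 : 1 ≤ aOne y (blk y) a := by
    unfold aOne
    rw [e1]
    linarith
  rw [hs.of_one_le _ _ e2]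
  unfold vOne
  rw [e1]

theorem RR_ycan (w : W) (a : ℝ) (ha : 0 ≤ a) : RR c h (ycan w) a = h w a := by
  have e0 : blk (ycan w) = 0 := by
    unfold blk ycan
    simp
  have e1 : rho (ycan w).1 0 = 0 := swg_cl_of_nonpos (by unfold ycan; norm_num)
  have e2 : theta (ycan w).1 0 = 0 := swg_cl_of_nonpos (by unfold ycan; norm_num)
  have e4 : kapE (ycan w) 0 = 1 := by
    unfold kapE
    rw [e1, sub_zero]
    exact max_eq_right (swg_kap_le_one _ _)
  have e5 : ccc (ycan w) 0 a = a := by
    unfold ccc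
    rw [e1, mul_zero, zero_add]
  have e6 : kapS (ycan w) 0 a = min a 1 := by
    unfold kapS
    rw [e4, e5]
  unfold RR
  rw [e0]
  unfold Rn vOne aOne
  rw [e2, e6, e5, hc.of_nonpos _ _ _ le_rfl]
  exact swg_h_h hc hs w a

theorem uu_ycan (w : W) : uu c h r (ycan w) = r w := by
  have e0 : blk (ycan w) = 0 := by
    unfold blk ycan
    simp
  have e1 : rho (ycan w).1 0 = 0 := swg_cl_of_nonpos (by unfold ycan; norm_num)
  have e2 : theta (ycan w).1 0 = 0 := swg_cl_of_nonpos (by unfold ycan; norm_num)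
  have e4 : kapE (ycan w) 0 = 1 := by
    unfold kapE
    rw [e1, sub_zero]
    exact max_eq_right (swg_kap_le_one _ _)
  unfold uu
  rw [e0]
  unfold un
  rw [e2, e4, hc.of_nonpos _ _ _ le_rfl, hs.of_one_le _ _ le_rfl, hs.ri]
  rfl

theorem ycan_mem_YY {D : Set (W × W)} (hD : ∀ w, (w, w) ∈ D) (w : W) : ycan w ∈ YY h D := by
  intro n h1 _
  exfalso
  have h2 : (ycan w : Yb W).1 = 0 := rfl
  rw [h2] at h1
  have h3 : (0 : ℝ) ≤ n := Nat.cast_nonneg n
  linarith

theorem r_RR {U : Set (X × X)} (hU : IsEnt U) (hrU : ∀ w t, (r w, r (h w t)) ∈ U) (y : Yb W)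
    (a : ℝ) (ha : 0 ≤ a) : ∃ x, (uu c h r y, x) ∈ U ∧ (x, r (RR c h y a)) ∈ U := by
  unfold uu RR
  generalize blk y = n
  have key : kapS y n a = kapE y n →
      ∃ x, (un c h r n y, x) ∈ U ∧ (x, r (Rn c h n y a)) ∈ U := by
    intro e1
    refine ⟨un c h r n y, hU.refl _, ?_⟩
    have h1 : un c h r n y = r (vOne c h y n a) := by
      unfold un vOne
      rw [e1]
    rw [h1]
    exact hrU _ _
  rcases le_or_gt (y.1 - 3 * n - 2) 0 with h1 | h1
  · rcases le_total (kapE y n) (ccc y n a) with h2 | h2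
    · exact key (min_eq_right h2)
    · have e1 : kapS y n a = ccc y n a := min_eq_left h2
      have e2 : theta y.1 n = 0 := swg_cl_of_nonpos h1
      refine ⟨r (y.2.1 n), ?_, ?_⟩
      · unfold un
        rw [e2, hc.of_nonpos _ _ _ le_rfl]
        exact hU.symm _ _ (hrU _ _)
      · unfold Rn vOne aOne
        rw [e2, e1, hc.of_nonpos _ _ _ le_rfl, sub_self, hs.of_nonpos _ _ le_rfl]
        exact hrU _ _
  · have e1 : rho y.1 n = 1 := swg_cl_of_one_le (by linarith)
    have e2 : kapE y n = kap y n := by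
      unfold kapE
      rw [e1, sub_self]
      exact max_eq_left (swg_kap_nonneg y n)
    refine key (min_eq_right ?_)
    rw [e2]
    unfold ccc
    rw [e1, mul_one]
    linarith

end Sw

end Pool.Agent.TOR
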