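import Pool.Agent.Lib.MP_5a68e6_TOR.Defs

set_option autoImplicit false

namespace Pool.Agent.TOR

open Set Filter Topology TopologicalSpace Cardinal

theorem wo_mk_finset {κ : Cardinal.{0}} (hκ : ℵ₀ < κ) {B : Type} (hB : #B ≤ κ) :
    #(Finset B) ≤ κ := by
  classical
  cases finite_or_infinite B with
  | inl h =>
    have : Countable (Finset B) := inferInstance
    exact (Cardinal.mk_le_aleph0_iff.2 this).trans hκ.le
  | inr h => rw [Cardinal.mk_finset_of_infinite]; exact hB

theorem wo_Iic {κ : Cardinal.{0}} (hκ : ℵ₀ < κ) (x : κ.ord.ToType) : #(Iic x) < κ := by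
  classical
  have h1 : Iic x = insert x (Iio x) := by
    ext y; simp [le_iff_eq_or_lt]
  rw [h1]
  refine (Cardinal.mk_insert_le).trans_lt ?_
  exact Cardinal.add_lt_of_lt hκ.le (by simpa using Cardinal.mk_Iio_lt x)
    (Cardinal.one_lt_aleph0.trans hκ)

theorem exists_wo {κ : Cardinal.{0}} (hκ : ℵ₀ < κ) {B : Type} (hB : #B ≤ κ) :
    ∃ r : Finset B → Finset B → Prop, IsWellOrder (Finset B) r ∧ (∀ F G, F ⊂ G → r F G) ∧
      ∀ F, #{G // r G F} < κ := by
  classical
  have h0 : #(Finset B) ≤ #(κ.ord.ToType) := by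
    rw [Cardinal.mk_ord_toType]; exact wo_mk_finset hκ hB
  obtain ⟨p⟩ := Cardinal.le_def _ _ |>.1 h0
  set P : Finset B → κ.ord.ToType := fun F => F.powerset.sup' ⟨∅, Finset.empty_mem_powerset F⟩ p
    with hP
  have hPmono : ∀ F G : Finset B, F ⊆ G → P F ≤ P G := by
    intro F G h
    exact Finset.sup'_mono p (Finset.powerset_mono.2 h) _
  have hpP : ∀ F, p F ≤ P F := fun F =>
    Finset.le_sup' p (Finset.mem_powerset_self F)
  set key : Finset B → κ.ord.ToType × (ℕ × κ.ord.ToType) := fun F => (P F, F.card, p F) with hkey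
  have hkinj : Function.Injective key := by
    intro F G h
    have : p F = p G := congrArg (fun z => z.2.2) h
    exact p.injective this
  set s : κ.ord.ToType × (ℕ × κ.ord.ToType) → κ.ord.ToType × (ℕ × κ.ord.ToType) → Prop :=
    Prod.Lex (· < ·) (Prod.Lex (· < ·) (· < ·)) with hs
  refine ⟨fun F G => s (key F) (key G), ?_, ?_, ?_⟩
  · exact Function.Injective.isWellOrder s hkinj
  · intro F G h
    have h1 := hPmono F G h.1
    rcases h1.lt_or_eq with h2 | h2
    · exact Prod.Lex.left _ _ h2
    · simp only [hkey, hs]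
      rw [h2]
      exact Prod.Lex.right _ (Prod.Lex.left _ _ (Finset.card_lt_card h))
  · intro F
    have h1 : ∀ G, s (key G) (key F) → P G ≤ P F := by
      intro G h
      rcases (Prod.lex_def).1 h with h2 | h2
      · exact h2.le
      · exact h2.1.le
    refine lt_of_le_of_lt ?_ (wo_Iic hκ (P F))
    refine Cardinal.mk_le_of_injective (f := fun G : {G // s (key G) (key F)} =>
      (⟨p G.1, (hpP _).trans (h1 _ G.2)⟩ : Iic (P F))) ?_
    intro G G' h
    have : p G.1 = p G'.1 := congrArg Subtype.val h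
    exact Subtype.ext (p.injective this)

end Pool.Agent.TOR
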