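import Pool.Agent.Lib.MP_5a68e6_TOR.FN

set_option autoImplicit false

namespace Pool.Agent.TOR

open Set Filter Topology TopologicalSpace Cardinal Pool.Agent.HLF

section Z2
variable {E : Type*} [AddCommGroup E] [Module ℝ E] [TopologicalSpace E]
  [IsTopologicalAddGroup E] [ContinuousSMul ℝ E]

theorem continuous_Z2 (e : ℕ → E) : Continuous fun p : ℝ × ℝ => Z2 e p.1 p.2 := by
  show Continuous fun p : ℝ × ℝ =>
    ∑ᶠ m : ℕ, hat m (max p.1 0) • pathZ (fun k => e (Nat.pair m k)) (max p.2 0)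
  apply continuous_finsum
  · intro m
    have h1 : Continuous (hat m) := by
      unfold hat
      fun_prop
    have h2 : Continuous fun p : ℝ × ℝ => hat m (max p.1 0) := h1.comp (by fun_prop)
    have h3 : Continuous fun p : ℝ × ℝ => pathZ (fun k => e (Nat.pair m k)) (max p.2 0) :=
      (continuous_pathZ _).comp (by fun_prop)
    exact h2.smul h3
  · intro p
    refine ⟨(fun q : ℝ × ℝ => max q.1 0) ⁻¹' Ioo (max p.1 0 - 1) (max p.1 0 + 1), ?_, ?_⟩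
    · have hc : Continuous fun q : ℝ × ℝ => max q.1 0 := by fun_prop
      exact hc.continuousAt.preimage_mem_nhds (Ioo_mem_nhds (by linarith) (by linarith))
    · apply (Set.finite_Iic ⌈|max p.1 0| + 2⌉₊).subset
      rintro n ⟨q, hq1, hq2⟩
      rw [Function.mem_support] at hq1
      have h1 : ¬ 1 ≤ |max q.1 0 - n| := fun h => hq1 (by rw [hat_of_far h, zero_smul])
      push Not at h1
      rw [abs_lt] at h1
      rw [mem_preimage] at hq2
      rw [mem_Iic]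
      have h2 : (n : ℝ) ≤ |max p.1 0| + 2 := by
        have := le_abs_self (max p.1 0)
        linarith [h1.1, hq2.2]
      exact_mod_cast h2.trans (Nat.le_ceil _)

theorem Z2_mem_convex {C : Set E} (hC : Convex ℝ C) {e : ℕ → E} (he : ∀ n, e n ∈ C) (μ τ : ℝ) :
    Z2 e μ τ ∈ C := by
  unfold Z2
  exact pathZ_mem_convex hC
    (fun m => pathZ_mem_convex hC (fun k => he _) (le_max_right _ _)) (le_max_right _ _)

theorem Z2_mem_span (e : ℕ → E) (μ τ : ℝ) : Z2 e μ τ ∈ Submodule.span ℝ (range e) := by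
  have h1 : ∀ m : ℕ, pathZ (fun k => e (Nat.pair m k)) (max τ 0) ∈
      Submodule.span ℝ (range e) := by
    intro m
    refine Submodule.span_mono ?_ (pathZ_mem_span (le_max_right _ _))
    rintro _ ⟨k, rfl⟩
    exact ⟨Nat.pair m k, rfl⟩
  unfold Z2
  refine Submodule.span_le.2 ?_ (pathZ_mem_span (le_max_right _ _))
  rintro _ ⟨m, rfl⟩
  exact h1 m

/-- small multiples of the two parameter path are uniformly small -/
theorem z2_exists_delta {e : ℕ → E} (hb : Bornology.IsVonNBounded ℝ (range e))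
    {W : Set E} (hW : W ∈ 𝓝 (0 : E)) :
    ∃ δ > 0, ∀ s : ℝ, |s| ≤ δ → ∀ μ τ : ℝ, s • Z2 e μ τ ∈ W := by
  obtain ⟨V, hV, hVW⟩ := exists_add_mem hW
  obtain ⟨V', hV', hVV⟩ := exists_add_mem hV
  obtain ⟨δ, hδ, h⟩ := exists_delta_of_bounded hb hV'
  have key : ∀ (s c : ℝ), |s| ≤ δ → 0 ≤ c → c ≤ 1 → |s * c| ≤ δ := by
    intro s c hs hc0 hc1
    rw [abs_mul, abs_of_nonneg hc0]
    calc |s| * c ≤ |s| * 1 := mul_le_mul_of_nonneg_left hc1 (abs_nonneg s)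
      _ ≤ δ := by linarith
  have hin : ∀ (s τ : ℝ) (m : ℕ), |s| ≤ δ →
      s • pathZ (fun k => e (Nat.pair m k)) (max τ 0) ∈ V := by
    intro s τ m hs
    obtain ⟨k, b, hb0, hb1, hτ, _, _⟩ := exists_param (max τ 0) (le_max_right _ _)
    rw [hτ, pathZ_eq _ k hb0 hb1.le, smul_add, smul_smul, smul_smul]
    apply hVV
    · exact h _ (key _ _ hs (by linarith) (by linarith)) _
    · exact h _ (key _ _ hs hb0 hb1.le) _
  refine ⟨δ, hδ, fun s hs μ τ => ?_⟩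
  unfold Z2
  obtain ⟨k, b, hb0, hb1, hμ, _, _⟩ := exists_param (max μ 0) (le_max_right _ _)
  rw [hμ, pathZ_eq _ k hb0 hb1.le, smul_add, smul_smul, smul_smul]
  apply hVW
  · exact hin _ _ _ (key _ _ hs (by linarith) (by linarith))
  · exact hin _ _ _ (key _ _ hs hb0 hb1.le)

/-- a modulus of smallness of the multiples of `Z2` -/
theorem exists_modulus {e : ℕ → E} (hb : Bornology.IsVonNBounded ℝ (range e)) {N : E → ℝ}
    (hN : IsFNorm N) : ∃ b : ℝ → ℝ, (∀ s, 0 ≤ b s) ∧ Monotone b ∧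
      (∀ ε > 0, ∃ s > 0, b s < ε) ∧ ∀ s μ τ, 0 ≤ s → s ≤ 1 → N (s • Z2 e μ τ) ≤ b s := by
  have hsmall : ∀ ε : ℝ, 0 < ε → ∃ δ : ℝ, 0 < δ ∧ ∀ s : ℝ, |s| ≤ δ → ∀ μ τ : ℝ,
      N (s • Z2 e μ τ) < ε := by
    intro ε hε
    obtain ⟨δ, hδ, h⟩ := z2_exists_delta hb (hN.nhds.mem_of_mem hε)
    exact ⟨δ, hδ, fun s hs μ τ => h s hs μ τ⟩
  obtain ⟨d, hd, hd1⟩ := hsmall 1 one_pos
  obtain ⟨n, hn⟩ := exists_nat_one_div_lt hd
  have hbound : ∀ t μ τ : ℝ, 0 ≤ t → t ≤ 1 → N (t • Z2 e μ τ) ≤ ((n + 1 : ℕ) : ℝ) := by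
    intro t μ τ ht0 ht1
    have h1 : N (t • Z2 e μ τ) ≤ N (Z2 e μ τ) := hN.smul_le t _ (by rw [abs_of_nonneg ht0]; exact ht1)
    have hn0 : ((n + 1 : ℕ) : ℝ) ≠ 0 := by positivity
    have h2 : Z2 e μ τ = ((n + 1 : ℕ) : ℝ) • ((1 / ((n + 1 : ℕ) : ℝ)) • Z2 e μ τ) := by
      rw [smul_smul, mul_one_div_cancel hn0, one_smul]
    have h3 := hN.nat_smul_le (n + 1) ((1 / ((n + 1 : ℕ) : ℝ)) • Z2 e μ τ)
    rw [← h2] at h3
    have h4 : N ((1 / ((n + 1 : ℕ) : ℝ)) • Z2 e μ τ) < 1 := by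
      apply hd1
      rw [abs_of_nonneg (by positivity)]
      push_cast
      exact hn.le
    have h5 : ((n + 1 : ℕ) : ℝ) * N ((1 / ((n + 1 : ℕ) : ℝ)) • Z2 e μ τ) ≤
        ((n + 1 : ℕ) : ℝ) * 1 := mul_le_mul_of_nonneg_left h4.le (by positivity)
    linarith
  set S : ℝ → Set ℝ := fun s => {r | ∃ t μ τ : ℝ, 0 ≤ t ∧ t ≤ 1 ∧ t ≤ max s 0 ∧
    r = N (t • Z2 e μ τ)} with hS
  have hSb : ∀ s, BddAbove (S s) := by
    intro s
    refine ⟨((n + 1 : ℕ) : ℝ), ?_⟩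
    rintro _ ⟨t, μ, τ, h0, h1, -, rfl⟩
    exact hbound t μ τ h0 h1
  have hS0 : ∀ s, (0 : ℝ) ∈ S s := by
    intro s
    exact ⟨0, 0, 0, le_rfl, zero_le_one, le_max_right _ _, by rw [zero_smul, hN.zero]⟩
  refine ⟨fun s => sSup (S s), fun s => le_csSup (hSb s) (hS0 s), ?_, ?_, ?_⟩
  · intro s s' hss
    apply csSup_le_csSup (hSb s') ⟨0, hS0 s⟩
    rintro _ ⟨t, μ, τ, h0, h1, h2, rfl⟩
    exact ⟨t, μ, τ, h0, h1, h2.trans (max_le_max hss le_rfl), rfl⟩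
  · intro ε hε
    obtain ⟨δ, hδ, h⟩ := hsmall (ε / 2) (by linarith)
    refine ⟨δ, hδ, ?_⟩
    have h6 : sSup (S δ) ≤ ε / 2 := by
      apply csSup_le ⟨0, hS0 δ⟩
      rintro _ ⟨t, μ, τ, h0, h1, h2, rfl⟩
      refine (h t ?_ μ τ).le
      rw [abs_of_nonneg h0]
      rwa [max_eq_left hδ.le] at h2
    show sSup (S δ) < ε
    linarith
  · intro s μ τ h0 h1
    apply le_csSup (hSb s)
    exact ⟨s, μ, τ, h0, h1, le_max_left _ _, rfl⟩

end Z2

end Pool.Agent.TOR
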